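import Pool.Agent.Lib.H64T.Defs
import Pool.Agent.Lib.H15P.BH4
import Pool.Agent.Lib.H15P.TR3

/-!
# Chunk B1: moments of the Brun-Hooley factor of one block on the event that given primes hit
-/

open Finset

namespace Pool.Agent.Lib.H64T

open Pool.Agent.Lib.H15P

variable {ι : Type} [Fintype ι] [DecidableEq ι]

/-- Mean value of a product over the primes (`bw` is a product; `Finset.prod_add` or
`Finset.prod_ite`, `Finset.sum_powerset`; see `H15P.sum_bw`). -/
theorem b1_ex_prod (q f g : ι → ℝ) :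
    ex q (fun A => ∏ i, if i ∈ A then f i else g i) = ∏ i, (q i * f i + (1 - q i) * g i) := by
  unfold ex bw
  have h1 : ∀ A : Finset ι, (∏ i, if i ∈ A then f i else g i) * ∏ i, (if i ∈ A then q i else 1 - q i)
      = (∏ i ∈ A, q i * f i) * ∏ i ∈ univ \ A, (1 - q i) * g i := by
    intro A
    rw [← Finset.prod_mul_distrib, ← Finset.prod_sdiff (Finset.subset_univ A), mul_comm]
    congr 1
    · exact Finset.prod_congr rfl fun i hi => by rw [if_pos hi, if_pos hi, mul_comm]
    · exact Finset.prod_congr rfl fun i hi => by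
        rw [if_neg (Finset.mem_sdiff.mp hi).2, if_neg (Finset.mem_sdiff.mp hi).2, mul_comm]
  simp_rw [h1]
  have h2 := Finset.prod_add (fun i => q i * f i) (fun i => (1 - q i) * g i) (univ : Finset ι)
  rw [Finset.powerset_univ] at h2
  exact h2.symm

/-- `ex q (1[T ⊆ A]) = ∏_{T} q` (`H15P.tr3_ex_subset`, up to the form of the indicator). -/
theorem b1_ex_subset (q : ι → ℝ) (T : Finset ι) :
    ex q (fun A => if T ⊆ A then (1 : ℝ) else 0) = ∏ i ∈ T, q i := by
  exact tr3_ex_subset q T

/-- If all primes of the nonempty set `T` are in the block `b`: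
`TT r s ^ 2 ≤ 4^s` (`TT_le`, `TT_nonneg`), and with `s = #(A ∩ block b)`
`4^s 1[T ⊆ A] = ∏_i (if i ∈ A then (if blk i = b then 4 else 1) else (if i ∈ T then 0 else 1))`,
so by `b1_ex_prod` the mean value is
`∏_{i ∈ T} 4 q i ∏_{i ∉ T, blk i = b} (1 + 3 q i) ≤ 4^|T| ∏_T q * exp (3 Σ_{blk i = b} q i)`
`≤ 4^|T| ∏_T q exp (3 σ)` (`q ≤ q/(1-q)`), and `exp (3σ) ≤ exp (3σ)^|T|` since `σ ≥ 0`, `|T| ≥ 1`. -/
theorem ex_TT_hit (q : ι → ℝ) (blk : ι → ℕ) (b r : ℕ) (σ : ℝ) (h0 : ∀ i, 0 ≤ q i)
    (h1 : ∀ i, q i ≤ 1 / 2)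
    (hσ : ∑ i ∈ univ.filter (fun i => blk i = b), q i / (1 - q i) ≤ σ)
    (T : Finset ι) (hT : T.Nonempty) (hTb : ∀ i ∈ T, blk i = b) :
    ex q (fun A => if T ⊆ A then TT r (AB blk b A).card ^ 2 else 0)
      ≤ (4 * Real.exp (3 * σ)) ^ T.card * ∏ i ∈ T, q i := by
  have hbw : ∀ A : Finset ι, 0 ≤ bw q A := by
    intro A
    unfold bw
    refine Finset.prod_nonneg fun i _ => ?_
    split_ifs
    · exact h0 i
    · linarith [h1 i]
  have hs1 : ∀ A : Finset ι, (if T ⊆ A then TT r (AB blk b A).card ^ 2 else 0)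
      ≤ ∏ i, (if i ∈ A then (if blk i = b then (4:ℝ) else 1) else (if i ∈ T then 0 else 1)) := by
    intro A
    split_ifs with hTA
    · have e1 : ∀ i : ι, (if i ∈ A then (if blk i = b then (4:ℝ) else 1) else (if i ∈ T then 0 else 1))
          = if i ∈ AB blk b A then 4 else 1 := by
        intro i
        unfold AB
        by_cases hi : i ∈ A
        · simp [hi]
        · have hi2 : i ∉ T := fun h => hi (hTA h)
          simp [hi, hi2]
      simp_rw [e1]
      rw [Finset.prod_ite_mem, Finset.univ_inter, Finset.prod_const]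
      have e2 := TT_le r (AB blk b A).card
      have e3 := TT_nonneg r (AB blk b A).card
      calc TT r (AB blk b A).card ^ 2 ≤ (2 ^ (AB blk b A).card) ^ 2 := pow_le_pow_left₀ e3 e2 2
        _ = 4 ^ (AB blk b A).card := by
            rw [← pow_mul, mul_comm, pow_mul]
            norm_num
    · refine Finset.prod_nonneg fun i _ => ?_
      split_ifs <;> norm_num
  have hs2 : ex q (fun A => if T ⊆ A then TT r (AB blk b A).card ^ 2 else 0)
      ≤ ∏ i, (q i * (if blk i = b then (4:ℝ) else 1) + (1 - q i) * (if i ∈ T then 0 else 1)) := by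
    rw [← b1_ex_prod]
    unfold ex
    exact Finset.sum_le_sum fun A _ => mul_le_mul_of_nonneg_right (hs1 A) (hbw A)
  have hy : ∀ i, 0 ≤ q i / (1 - q i) := fun i => div_nonneg (h0 i) (by linarith [h1 i])
  have hqy : ∀ i, q i ≤ q i / (1 - q i) := by
    intro i
    rw [le_div_iff₀ (by linarith [h1 i])]
    nlinarith [h0 i, h1 i]
  have hs3 : ∀ i, q i * (if blk i = b then (4:ℝ) else 1) + (1 - q i) * (if i ∈ T then 0 else 1)
      ≤ (if i ∈ T then 4 * q i else 1) * Real.exp (if blk i = b then 3 * (q i / (1 - q i)) else 0) := by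
    intro i
    by_cases hiT : i ∈ T
    · rw [if_pos hiT, if_pos hiT, if_pos (hTb i hiT), if_pos (hTb i hiT), mul_zero, add_zero, mul_comm (q i)]
      have e1 : 1 ≤ Real.exp (3 * (q i / (1 - q i))) := Real.one_le_exp (by linarith [hy i])
      exact le_mul_of_one_le_right (by linarith [h0 i]) e1
    · rw [if_neg hiT, if_neg hiT]
      by_cases hib : blk i = b
      · rw [if_pos hib, if_pos hib]
        have e1 := Real.add_one_le_exp (3 * (q i / (1 - q i)))
        have e2 := hqy i
        linarith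
      · rw [if_neg hib, if_neg hib, Real.exp_zero]
        linarith
  have hσ0 : 0 ≤ σ := (Finset.sum_nonneg fun i _ => hy i).trans hσ
  have hs4 : ∏ i, ((if i ∈ T then 4 * q i else 1) * Real.exp (if blk i = b then 3 * (q i / (1 - q i)) else 0))
      = (4 ^ T.card * ∏ i ∈ T, q i) * Real.exp (3 * ∑ i ∈ univ.filter (fun i => blk i = b), q i / (1 - q i)) := by
    rw [Finset.prod_mul_distrib, Finset.prod_ite_mem, Finset.univ_inter, Finset.prod_mul_distrib, Finset.prod_const,
      ← Real.exp_sum, Finset.mul_sum, Finset.sum_filter]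
  have hTq : 0 ≤ ∏ i ∈ T, q i := Finset.prod_nonneg fun i _ => h0 i
  have hs5 : Real.exp (3 * σ) ≤ Real.exp (3 * σ) ^ T.card :=
    le_self_pow₀ (Real.one_le_exp (by linarith)) (Finset.card_pos.2 hT).ne'
  calc ex q (fun A => if T ⊆ A then TT r (AB blk b A).card ^ 2 else 0)
      ≤ ∏ i, (q i * (if blk i = b then (4:ℝ) else 1) + (1 - q i) * (if i ∈ T then 0 else 1)) := hs2
    _ ≤ ∏ i, ((if i ∈ T then 4 * q i else 1) * Real.exp (if blk i = b then 3 * (q i / (1 - q i)) else 0)) := by
        refine Finset.prod_le_prod (fun i _ => ?_) fun i _ => hs3 i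
        have e1 := h0 i
        have e2 := h1 i
        refine add_nonneg (mul_nonneg e1 ?_) (mul_nonneg (by linarith) ?_)
        · split_ifs <;> norm_num
        · split_ifs <;> norm_num
    _ = (4 ^ T.card * ∏ i ∈ T, q i) * Real.exp (3 * ∑ i ∈ univ.filter (fun i => blk i = b), q i / (1 - q i)) := hs4
    _ ≤ (4 ^ T.card * ∏ i ∈ T, q i) * Real.exp (3 * σ) ^ T.card := by
        refine mul_le_mul_of_nonneg_left ((Real.exp_le_exp.2 ?_).trans hs5) (by positivity)
        linarith
    _ = (4 * Real.exp (3 * σ)) ^ T.card * ∏ i ∈ T, q i := by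
        rw [mul_pow]
        ring

end Pool.Agent.Lib.H64T
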