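import Pool.Agent.Lib.H64T.B1

/-!
# Chunk B2: second moment of the one form functions on the event that given primes hit
-/

open Finset

namespace Pool.Agent.Lib.H64T

open Pool.Agent.Lib.H15P

variable {ι : Type} [Fintype ι] [DecidableEq ι]

theorem b2_prod_ind (blk : ι → ℕ) (T A : Finset ι) (S : Finset ℕ) (hS : ∀ p ∈ T, blk p ∈ S) :
    ∏ b ∈ S, (if T.filter (fun p => blk p = b) ⊆ AB blk b A then (1 : ℝ) else 0) =
      if T ⊆ A then 1 else 0 := by
  by_cases h : T ⊆ A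
  · rw [if_pos h]
    refine Finset.prod_eq_one fun b _ => ?_
    rw [if_pos]
    intro p hp
    rw [mem_filter] at hp
    exact mem_filter.2 ⟨h hp.1, hp.2⟩
  · rw [if_neg h]
    obtain ⟨p, hp, hpA⟩ := Finset.not_subset.1 h
    refine Finset.prod_eq_zero (hS p hp) ?_
    rw [if_neg]
    intro h1
    exact hpA (mem_filter.1 (h1 (mem_filter.2 ⟨hp, rfl⟩))).1

theorem b2_sub_iff (blk : ι → ℕ) (b : ℕ) (T A : Finset ι) (hT : ∀ p ∈ T, blk p = b) :
    T ⊆ AB blk b A ↔ T ⊆ A :=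
  ⟨fun h p hp => (mem_filter.1 (h hp)).1, fun h p hp => mem_filter.2 ⟨h hp, hT p hp⟩⟩

theorem b2_key (q : ι → ℝ) (blk : ι → ℕ) (σ : ℝ) (r0 n N : ℕ) (h : Blocks q blk σ r0 n N) (i : ℕ) (hi : i < n) :
    ex q (fun A => ((TT r0 (AB blk i A).card - tau q blk r0 i) / (1 - tau q blk r0 i)) ^ 2) ≤ 2 := by
  obtain ⟨ht0, ht1⟩ := tau_le q blk σ r0 n N h i hi
  set τ := tau q blk r0 i with hτ
  have e1 : (fun A => ((TT r0 (AB blk i A).card - τ) / (1 - τ)) ^ 2)
      = fun A => (1 / (1 - τ) ^ 2) * (TT r0 (AB blk i A).card ^ 2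
        + ((-2 * τ) * TT r0 (AB blk i A).card + τ ^ 2 * 1)) := by
    funext A
    have : (1 - τ) ≠ 0 := by intro h0; linarith
    field_simp
    ring
  rw [e1, ex_const_mul, ex_add, ex_add, ex_const_mul, ex_const_mul, ex_one]
  have e2 : ex q (fun A => TT r0 (AB blk i A).card) = τ := rfl
  rw [e2]
  have h2 := bh4_pow_le q blk σ r0 n N h i 0 2 (by norm_num) (by norm_num)
  simp only [add_zero, zero_add, pow_one] at h2
  have h3 := h.small i hi
  have h4 := bh4_p0_nonneg h i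
  have h5 : ex q (fun A => TT r0 (AB blk i A).card ^ 2) ≤ 5 / 16 := by linarith
  have h6 : ex q (fun A => TT r0 (AB blk i A).card ^ 2) + (-2 * τ * τ + τ ^ 2 * 1) ≤ 5 / 16 := by
    nlinarith
  have h7 : 1 / (1 - τ) ^ 2 ≤ 4 := by
    rw [div_le_iff₀ (by nlinarith)]
    nlinarith
  have h8 : 0 ≤ 1 / (1 - τ) ^ 2 := by positivity
  nlinarith

theorem b2_mono (q : ι → ℝ) (hq : ∀ i, 0 ≤ q i) (T : Finset ι) {a b : ℝ} (ha : 0 ≤ a) (hab : a ≤ b) :
    a ^ T.card * ∏ p ∈ T, q p ≤ b ^ T.card * ∏ p ∈ T, q p :=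
  mul_le_mul_of_nonneg_right (pow_le_pow_left₀ ha hab _) (Finset.prod_nonneg fun p _ => hq p)

theorem b2_last (q : ι → ℝ) (blk : ι → ℕ) (σ : ℝ) (r0 n N : ℕ) (h : Blocks q blk σ r0 n N)
    (hσ : 0 ≤ σ) (i : ℕ) (hi : i < n) (T : Finset ι) (hT : ∀ p ∈ T, blk p = i) :
    ex q (fun A => (if T ⊆ A then (1 : ℝ) else 0) *
      ((TT r0 (AB blk i A).card - tau q blk r0 i) / (1 - tau q blk r0 i)) ^ 2)
      ≤ 2 * ((20 * Real.exp (3 * σ)) ^ T.card * ∏ p ∈ T, q p) := by
  obtain ⟨ht0, ht1⟩ := tau_le q blk σ r0 n N h i hi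
  have he : 1 ≤ Real.exp (3 * σ) := Real.one_le_exp (by positivity)
  rcases T.eq_empty_or_nonempty with rfl | hne
  · simp only [Finset.empty_subset, if_true, one_mul, Finset.card_empty, pow_zero, Finset.prod_empty, mul_one]
    exact b2_key q blk σ r0 n N h i hi
  · set τ := tau q blk r0 i with hτ
    have hpt : ∀ A, (if T ⊆ A then (1 : ℝ) else 0) * ((TT r0 (AB blk i A).card - τ) / (1 - τ)) ^ 2 ≤
        4 * (if T ⊆ A then TT r0 (AB blk i A).card ^ 2 else 0) + (if T ⊆ A then (1 : ℝ) else 0) := by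
      intro A
      by_cases hA : T ⊆ A
      · simp only [if_pos hA, one_mul]
        have hx := TT_nonneg r0 (AB blk i A).card
        have h1 : (TT r0 (AB blk i A).card - τ) ^ 2 ≤ TT r0 (AB blk i A).card ^ 2 + 1 / 4 := by
          nlinarith [mul_nonneg hx ht0]
        have h2 : 1 / 4 ≤ (1 - τ) ^ 2 := by nlinarith
        rw [div_pow, div_le_iff₀ (by linarith)]
        have h3 : 0 ≤ TT r0 (AB blk i A).card ^ 2 := sq_nonneg _
        nlinarith
      · simp only [if_neg hA, zero_mul, mul_zero, add_zero, le_refl]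
    refine (ex_mono q h.q0 (bh4_q1 h) _ _ hpt).trans ?_
    rw [ex_add, ex_const_mul, b1_ex_subset]
    have h1 := ex_TT_hit q blk i r0 σ h.q0 h.q1 (h.sum i) T hne hT
    have hP : 0 ≤ ∏ p ∈ T, q p := Finset.prod_nonneg fun p _ => h.q0 p
    have hc : 1 ≤ T.card := Finset.card_pos.2 hne
    have h2 : 1 ≤ (4 * Real.exp (3 * σ)) ^ T.card := one_le_pow₀ (by linarith)
    have h3 : (∏ p ∈ T, q p) ≤ (4 * Real.exp (3 * σ)) ^ T.card * ∏ p ∈ T, q p := le_mul_of_one_le_left hP h2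
    have h4 : (5 : ℝ) * ((4 * Real.exp (3 * σ)) ^ T.card * ∏ p ∈ T, q p) ≤
        (20 * Real.exp (3 * σ)) ^ T.card * ∏ p ∈ T, q p := by
      have e : (20 * Real.exp (3 * σ)) ^ T.card = 5 ^ T.card * (4 * Real.exp (3 * σ)) ^ T.card := by
        rw [← mul_pow]
        congr 1
        ring
      rw [e, mul_assoc]
      apply mul_le_mul_of_nonneg_right _ (mul_nonneg (by linarith) hP)
      calc (5 : ℝ) = 5 ^ 1 := (pow_one _).symm
        _ ≤ 5 ^ T.card := pow_le_pow_right₀ (by norm_num) hc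
    have h5 : 0 ≤ (20 * Real.exp (3 * σ)) ^ T.card * ∏ p ∈ T, q p := by positivity
    linarith

theorem b2_mid (q : ι → ℝ) (blk : ι → ℕ) (σ : ℝ) (r0 n N : ℕ) (h : Blocks q blk σ r0 n N)
    (hσ : 0 ≤ σ) (b c : ℕ) (T : Finset ι) (hT : ∀ p ∈ T, blk p = b) :
    ex q (fun A => (if T ⊆ A then (1 : ℝ) else 0) * TT (r0 + c) (AB blk b A).card ^ 2)
      ≤ (1 + (1 / 4) ^ (c + 1)) * ((20 * Real.exp (3 * σ)) ^ T.card * ∏ p ∈ T, q p) := by
  have he : 1 ≤ Real.exp (3 * σ) := Real.one_le_exp (by positivity)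
  have hP : 0 ≤ ∏ p ∈ T, q p := Finset.prod_nonneg fun p _ => h.q0 p
  have h4 : (0 : ℝ) < (1 / 4) ^ (c + 1) := by positivity
  rcases T.eq_empty_or_nonempty with rfl | hne
  · simp only [Finset.empty_subset, if_true, one_mul, Finset.card_empty, pow_zero, Finset.prod_empty, mul_one]
    refine (bh4_pow_le q blk σ r0 n N h b c 2 (by norm_num) (by norm_num)).trans ?_
    have h1 := bh4_p0_le_one h b
    calc p0 q blk b * (1 + (1 / 4) ^ (c + 1)) ≤ 1 * (1 + (1 / 4) ^ (c + 1)) :=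
          mul_le_mul_of_nonneg_right h1 (by linarith)
      _ = _ := one_mul _
  · have e1 : (fun A => (if T ⊆ A then (1 : ℝ) else 0) * TT (r0 + c) (AB blk b A).card ^ 2) =
        fun A => if T ⊆ A then TT (r0 + c) (AB blk b A).card ^ 2 else 0 := by
      funext A
      by_cases hA : T ⊆ A
      · simp only [if_pos hA, one_mul]
      · simp only [if_neg hA, zero_mul]
    rw [e1]
    have h1 := ex_TT_hit q blk b (r0 + c) σ h.q0 h.q1 (h.sum b) T hne hT
    have h2 := b2_mono q h.q0 T (a := 4 * Real.exp (3 * σ)) (b := 20 * Real.exp (3 * σ)) (by positivity) (by linarith)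
    have h5 : 0 ≤ (20 * Real.exp (3 * σ)) ^ T.card * ∏ p ∈ T, q p := by positivity
    have h6 := mul_nonneg h4.le h5
    linarith

theorem b2_out (q : ι → ℝ) (σ : ℝ) (hq : ∀ i, 0 ≤ q i) (hσ : 0 ≤ σ) (T : Finset ι) :
    ex q (fun A => (if T ⊆ A then (1 : ℝ) else 0) * 1)
      ≤ 1 * ((20 * Real.exp (3 * σ)) ^ T.card * ∏ p ∈ T, q p) := by
  have he : 1 ≤ Real.exp (3 * σ) := Real.one_le_exp (by positivity)
  simp only [mul_one]
  rw [b1_ex_subset, one_mul]
  have h2 := b2_mono q hq T (a := 1) (b := 20 * Real.exp (3 * σ)) (by norm_num) (by linarith)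
  rwa [one_pow, one_mul] at h2

/-- Let `T_b` be the part of `T` in the block `b`. The function `1[T ⊆ A] DB(A)^2` is the product
over all blocks `b` (a finite set of blocks containing `Ico i N` and all `blk j`) of functions of
`AB blk b A`: for `b ∈ Ico (i+1) N`: `1[T_b ⊆ A] TT_{r0+b-i}(|A_b|)^2`; for `b = i`:
`1[T_i ⊆ A] ((TT_{r0}(|A_i|) - tau)/(1 - tau))^2`; for the others `1[T_b ⊆ A]`. By `ex_prod_blocks`
the mean value is the product of the mean values. Let `E = 20 exp (3 σ)`.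
* other blocks: `∏_{T_b} q ≤ E^|T_b| ∏_{T_b} q` (`b1_ex_subset`, `E ≥ 1`);
* `b ∈ Ico (i+1) N`, `T_b` nonempty: `≤ E^|T_b| ∏_{T_b} q` (`ex_TT_hit`);
* `b ∈ Ico (i+1) N`, `T_b` empty: `≤ p0 (1 + 4^-(b-i+1)) ≤ 1 + 4^-(b-i+1)` (`bh4_pow_le`, `a = 2`,
  `bh4_p0_le_one`), the product of all these is `≤ 2` (`bh4_prod_le'`, factors `≥ 1`);
* `b = i`, `0 ≤ tau ≤ 1/2` (`tau_le`): `((TT - tau)/(1 - tau))^2 ≤ 4 TT^2 + 1`; `T_i` nonempty:
  `4 (4 exp (3σ))^|T_i| ∏ q + ∏ q ≤ 5 (4 exp (3σ))^|T_i| ∏ q ≤ E^|T_i| ∏ q`; `T_i` empty: mean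
  value `≤ 2`: `(TT - tau)^2` has mean value `≤ ex TT^2 ≤ p0 (1 + 1/4) ≤ 1/2` (as `tau` is the mean
  of `TT`, or simply `≤ 4 · (1/4)(5/4) + 1 ≤ 9/4`; the total `2 · 9/4` would exceed `4`, so use the
  centered form, see `ex_DB_sq_le`).
Total `≤ 2 · 2 · E^|T| ∏_T q`. -/
theorem DB_hit (q : ι → ℝ) (blk : ι → ℕ) (σ : ℝ) (r0 n N : ℕ) (h : Blocks q blk σ r0 n N)
    (hσ : 0 ≤ σ) (i : ℕ) (hi : i < n) (T : Finset ι) :
    ex q (fun A => if T ⊆ A then DB q blk r0 N i A ^ 2 else 0)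
      ≤ 4 * ((20 * Real.exp (3 * σ)) ^ T.card * ∏ p ∈ T, q p) := by
  classical
  set E : ℝ := 20 * Real.exp (3 * σ) with hE
  have hE0 : 0 ≤ E := by positivity
  set Tb : ℕ → Finset ι := fun b => T.filter (fun p => blk p = b) with hTb
  have hTbb : ∀ b, ∀ p ∈ Tb b, blk p = b := fun b p hp => (mem_filter.1 hp).2
  set S : Finset ℕ := univ.image blk ∪ Ico i N with hS
  have hIS : Ico i N ⊆ S := Finset.subset_union_right
  have hTS : ∀ p ∈ T, blk p ∈ S := fun p _ =>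
    Finset.subset_union_left (Finset.mem_image_of_mem _ (Finset.mem_univ p))
  have hiN : i < N := lt_of_lt_of_le hi h.nN
  set G : ℕ → Finset ι → ℝ := fun b C =>
    if b = i then ((TT r0 C.card - tau q blk r0 i) / (1 - tau q blk r0 i)) ^ 2
    else if b ∈ Ico (i + 1) N then TT (r0 + (b - i)) C.card ^ 2 else 1 with hG
  set Fb : ℕ → Finset ι → ℝ := fun b C => (if Tb b ⊆ C then (1 : ℝ) else 0) * G b C with hFb
  have hfac : (fun A => if T ⊆ A then DB q blk r0 N i A ^ 2 else 0) = fun A => ∏ b ∈ S, Fb b (AB blk b A) := by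
    funext A
    simp only [hFb]
    rw [Finset.prod_mul_distrib]
    have h1 : ∏ b ∈ S, (if Tb b ⊆ AB blk b A then (1 : ℝ) else 0) = if T ⊆ A then 1 else 0 :=
      b2_prod_ind blk T A S hTS
    rw [h1]
    have h2 : ∏ b ∈ S, G b (AB blk b A) = DB q blk r0 N i A ^ 2 := by
      rw [← Finset.prod_subset hIS, Finset.prod_eq_prod_Ico_succ_bot hiN]
      · have h3 : ∏ b ∈ Ico (i + 1) N, G b (AB blk b A) =
            ∏ b ∈ Ico (i + 1) N, TT (r0 + (b - i)) (AB blk b A).card ^ 2 := by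
          refine Finset.prod_congr rfl fun b hb => ?_
          have hbi : b ≠ i := by
            rw [Finset.mem_Ico] at hb
            omega
          simp only [hG]
          rw [if_neg hbi, if_pos hb]
        rw [h3]
        simp only [hG, if_true]
        unfold DB
        rw [mul_pow, ← Finset.prod_pow, mul_comm]
      · intro b _ hb
        have hbi : b ≠ i := by
          rintro rfl
          exact hb (Finset.mem_Ico.2 ⟨le_rfl, hiN⟩)
        have hb' : b ∉ Ico (i + 1) N := by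
          intro h3
          rw [Finset.mem_Ico] at h3 hb
          omega
        simp only [hG]
        rw [if_neg hbi, if_neg hb']
    rw [h2]
    by_cases hA : T ⊆ A
    · simp only [if_pos hA, one_mul]
    · simp only [if_neg hA, zero_mul]
  rw [hfac, ex_prod_blocks]
  set m : ℕ → ℝ := fun b => if b = i then 2 else if b ∈ Ico (i + 1) N then 1 + (1 / 4) ^ (b - i + 1) else 1 with hm
  have hbound : ∀ b ∈ S, ex q (fun A => Fb b (AB blk b A)) ≤ m b * (E ^ (Tb b).card * ∏ p ∈ Tb b, q p) := by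
    intro b _
    have hsub : ∀ A, (Tb b ⊆ AB blk b A) = (Tb b ⊆ A) := fun A =>
      propext (b2_sub_iff blk b (Tb b) A (hTbb b))
    by_cases hbi : b = i
    · subst hbi
      simp only [hFb, hG, hm, if_true, hsub]
      exact b2_last q blk σ r0 n N h hσ b hi (Tb b) (hTbb b)
    · by_cases hb : b ∈ Ico (i + 1) N
      · simp only [hFb, hG, hm, if_neg hbi, if_pos hb, hsub]
        exact b2_mid q blk σ r0 n N h hσ b (b - i) (Tb b) (hTbb b)
      · simp only [hFb, hG, hm, if_neg hbi, if_neg hb, hsub]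
        exact b2_out q σ h.q0 hσ (Tb b)
  have hGnn : ∀ b C, 0 ≤ G b C := by
    intro b C
    simp only [hG]
    split_ifs
    · exact sq_nonneg _
    · exact sq_nonneg _
    · exact zero_le_one
  have hFnn : ∀ b C, 0 ≤ Fb b C := by
    intro b C
    refine mul_nonneg ?_ (hGnn b C)
    split_ifs
    · exact zero_le_one
    · exact le_rfl
  refine (Finset.prod_le_prod (fun b _ => ex_nonneg q h.q0 (bh4_q1 h) _ fun A => hFnn b _) hbound).trans ?_
  rw [Finset.prod_mul_distrib]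
  have hlast : ∏ b ∈ S, (E ^ (Tb b).card * ∏ p ∈ Tb b, q p) = E ^ T.card * ∏ p ∈ T, q p := by
    have h1 : ∀ U : Finset ι, E ^ U.card * ∏ p ∈ U, q p = ∏ p ∈ U, E * q p := by
      intro U
      rw [Finset.prod_mul_distrib, Finset.prod_const]
    simp only [h1]
    exact Finset.prod_fiberwise_of_maps_to (fun p hp => hTS p hp) (fun p => E * q p)
  rw [hlast]
  have hP : 0 ≤ E ^ T.card * ∏ p ∈ T, q p :=
    mul_nonneg (pow_nonneg hE0 _) (Finset.prod_nonneg fun p _ => h.q0 p)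
  refine mul_le_mul_of_nonneg_right ?_ hP
  have hprod : ∏ b ∈ S, m b = 2 * ∏ b ∈ Ico (i + 1) N, (1 + (1 / 4 : ℝ) ^ (b - i + 1)) := by
    rw [← Finset.prod_subset hIS, Finset.prod_eq_prod_Ico_succ_bot hiN]
    · have h3 : ∏ b ∈ Ico (i + 1) N, m b = ∏ b ∈ Ico (i + 1) N, (1 + (1 / 4 : ℝ) ^ (b - i + 1)) := by
        refine Finset.prod_congr rfl fun b hb => ?_
        have hbi : b ≠ i := by
          rw [Finset.mem_Ico] at hb
          omega
        simp only [hm]
        rw [if_neg hbi, if_pos hb]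
      rw [h3]
      simp only [hm, if_true]
    · intro b _ hb
      have hbi : b ≠ i := by
        rintro rfl
        exact hb (Finset.mem_Ico.2 ⟨le_rfl, hiN⟩)
      have hb' : b ∉ Ico (i + 1) N := by
        intro h3
        rw [Finset.mem_Ico] at h3 hb
        omega
      simp only [hm]
      rw [if_neg hbi, if_neg hb']
  rw [hprod]
  have h1 := bh4_prod_le' i N
  rw [Finset.prod_eq_prod_Ico_succ_bot hiN] at h1
  have h2 : 0 ≤ ∏ b ∈ Ico (i + 1) N, (1 + (1 / 4 : ℝ) ^ (b - i + 1)) :=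
    Finset.prod_nonneg fun b _ => by positivity
  have h3 : (0 : ℝ) < (1 / 4) ^ (i - i + 1) := by positivity
  nlinarith [mul_nonneg h3.le h2]

end Pool.Agent.Lib.H64T
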