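import Pool.Agent.Lib.H64T.W2

/-!
# Chunk C1: sums over an interval of integers, class by class; total weight
-/

open Finset

namespace Pool.Agent.Lib.H64T

open Pool.Agent.Lib.H15P

/-- Sum over an interval which starts anywhere, class by class: `n = N0 + a + M t`. -/
theorem c1_classes (M N0 Y : ℕ) (hM : 0 < M) (F : ℕ → ℝ) :
    ∑ n ∈ Ico N0 (N0 + M * Y), F n =
      ∑ a ∈ range M, ∑ t ∈ Ico 0 (0 + Y), F (N0 + a + M * t) := by
  have h1 := sum_classes M 0 Y hM (fun n => F (N0 + n))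
  have h2 : ∑ n ∈ Ico N0 (N0 + M * Y), F n = ∑ n ∈ Ico (M * 0) (M * (0 + Y)), F (N0 + n) := by
    rw [mul_zero, zero_add, Finset.sum_Ico_add F 0 (M * Y) N0, zero_add, add_comm (M * Y) N0]
  rw [h2, h1]
  refine sum_congr rfl fun a _ => sum_congr rfl fun t _ => ?_
  rw [add_assoc]

/-- The number of the `a < M` with `(a + s) % M ∈ A` is `#A` if `A ⊆ range M` (see
`H15P.cl_good_card`: the map `a ↦ (a + s) % M` is a bijection of `range M`). -/
theorem c1_card (M : ℕ) (hM : 0 < M) (A : Finset ℕ) (hA : ∀ a ∈ A, a < M) (s : ℕ) :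
    ((range M).filter (fun a => (a + s) % M ∈ A)).card = A.card := by
  have hinv : ∀ b, b < M → ((b + (M * s - s)) % M + s) % M = b := by
    intro b hb
    have hle : s ≤ M * s := Nat.le_mul_of_pos_left s hM
    have h2 : (b + (M * s - s)) % M + s ≡ b [MOD M] := by
      have h3 : (b + (M * s - s)) % M + s ≡ b + (M * s - s) + s [MOD M] :=
        (Nat.mod_modEq _ _).add_right s
      have h4 : b + (M * s - s) + s = b + M * s := by omega
      rw [h4] at h3
      exact h3.trans (by simp [Nat.ModEq])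
    rw [h2, Nat.mod_eq_of_lt hb]
  apply card_bij (fun a _ => (a + s) % M)
  · intro a ha
    exact (mem_filter.mp ha).2
  · intro a ha b hb hab
    rw [mem_filter, mem_range] at ha hb
    have h2 : a + s ≡ b + s [MOD M] := hab
    have h3 : a ≡ b [MOD M] := Nat.ModEq.add_right_cancel' s h2
    exact Nat.ModEq.eq_of_lt_of_lt h3 ha.1 hb.1
  · intro b hb
    refine ⟨(b + (M * s - s)) % M, ?_, hinv b (hA b hb)⟩
    rw [mem_filter, mem_range]
    refine ⟨Nat.mod_lt _ hM, ?_⟩
    rw [hinv b (hA b hb)]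
    exact hb

/-- The values `c + h`, `h ∈ CC H M c` (as `H15P.cl_B`). -/
def cB (H M c : ℕ) : Finset ℕ := (CC H M c).image (fun h => c + h)

theorem cB_card (H M c : ℕ) : (cB H M c).card = (CC H M c).card :=
  card_image_of_injective _ fun _ _ h => Nat.add_left_cancel h

theorem cB_mem {H M c b : ℕ} (hb : b ∈ cB H M c) : c + 1 ≤ b ∧ b ≤ c + H := by
  rw [cB, mem_image] at hb
  obtain ⟨h, hh, rfl⟩ := hb
  rw [CC, mem_filter, mem_Icc] at hh
  omega

theorem c1_mod (H M n : ℕ) : CC H M (n % M) = CC H M n := by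
  conv_rhs => rw [← Nat.mod_add_div n M]
  rw [CC_add]

/-- If the class of `c` is in `A` then `#cB = #CC(c) = #CC(c % M) ≤ K` (`CC_add`). -/
theorem SetA.cB_le {w : WT} {H M : ℕ} {A : Finset ℕ} {Y : ℕ} (h : SetA w H M A Y) (c : ℕ)
    (hc : c % M ∈ A) : (cB H M c).card ≤ w.K := by
  rw [cB_card, ← c1_mod]
  exact h.card _ hc

theorem c1_image (H M c t : ℕ) :
    (CC H M (c + M * t)).image (fun h => c + M * t + h) =
      (cB H M c).image (fun b => b + M * t) := by
  rw [CC_add, cB, image_image]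
  apply image_congr
  intro h _
  simp only [Function.comp]
  ring

/-- As `H15P.cl_wt`: `(c + M t) % M = c % M` and `CC_add`. -/
theorem wa_eq (w : WT) (H M : ℕ) (A : Finset ℕ) (c t : ℕ) :
    w.wa H M A (c + M * t) = if c % M ∈ A then
      ((M : ℝ) / (A.card : ℝ)) * w.om ((cB H M c).image (fun b => b + M * t)) else 0 := by
  rw [WT.wa, c1_image, Nat.add_mul_mod_self_left]

/-- As `H15P.cl_rg`. -/
theorem rg_eq (w : WT) (H M c t : ℕ) :
    w.rg H M (c + M * t) = w.rough ((cB H M c).image (fun b => b + M * t)) := by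
  rw [WT.rg, c1_image]

theorem wa_nonneg (w : WT) (H M : ℕ) (A : Finset ℕ) (n : ℕ) : 0 ≤ w.wa H M A n := by
  unfold WT.wa
  split_ifs
  · exact mul_nonneg (by positivity) (w.om_nonneg _)
  · exact le_rfl

/-- `c1_classes`; for each of the `#A` classes `a` with `(N0 + a + s) % M ∈ A` (`c1_card`) the sum
over `t` is `≥ (M/#A)(1 - 4e) Y` (`win_mean` for `cB H M (N0 + a + s)`, `N0 + a + M t + s =
(N0 + a + s) + M t`). -/
theorem WT.wa_ge (w : WT) (H M : ℕ) (A : Finset ℕ) (Y : ℕ) (h : SetA w H M A Y) (N0 s : ℕ) :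
    (1 - 4 * w.e) * ((M : ℝ) * Y) ≤ ∑ n ∈ Ico N0 (N0 + M * Y), w.wa H M A (n + s) := by
  have he0 := w.e0
  have he1 := w.e1
  have hA0 : (0 : ℝ) < A.card := by exact_mod_cast h.ne.card_pos
  rw [c1_classes M N0 Y h.Mpos]
  have hclass : ∀ a ∈ range M, (if (a + (N0 + s)) % M ∈ A then
      ((M : ℝ) / A.card) * ((1 - 4 * w.e) * (Y : ℝ)) else 0) ≤
      ∑ t ∈ Ico 0 (0 + Y), w.wa H M A (N0 + a + M * t + s) := by
    intro a _
    have h1 : ∀ t, w.wa H M A (N0 + a + M * t + s) = if (a + (N0 + s)) % M ∈ A then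
        ((M : ℝ) / (A.card : ℝ)) * w.om ((cB H M (a + (N0 + s))).image (fun b => b + M * t)) else 0 := by
      intro t
      rw [← wa_eq]
      congr 1
      ring
    simp only [h1]
    by_cases hc : (a + (N0 + s)) % M ∈ A
    · simp only [hc, if_true]
      rw [← mul_sum]
      refine mul_le_mul_of_nonneg_left ?_ (by positivity)
      exact w.win_mean M h.cop (cB H M (a + (N0 + s))) (h.cB_le _ hc) (by
        intro b hb b' hb'
        have h3 := cB_mem hb
        have h4 := cB_mem hb'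
        have h5 := h.HW
        omega) 0 Y h.hY
    · simp only [hc, if_false, sum_const_zero]
      exact le_rfl
  refine le_trans ?_ (sum_le_sum hclass)
  rw [← sum_filter, sum_const, nsmul_eq_mul, c1_card M h.Mpos A h.sub (N0 + s)]
  refine le_of_eq ?_
  field_simp

end Pool.Agent.Lib.H64T
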