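import Pool.Agent.Lib.H64T.W1
import Pool.Agent.Lib.H15P.PB5
import Pool.Agent.Lib.H15P.PB6

/-!
# Chunk W3: mean square of the weight, and rough values
-/

open Finset

namespace Pool.Agent.Lib.H64T

open Pool.Agent.Lib.H15P

/-- incomplete sums of a function of the configuration -/
theorem WT.w3_avg (w : WT) (M : ℕ) {J : Type} [Fintype J] [DecidableEq J] (b : J → ℕ)
    (hF : Forms w.P w.W (2 * w.K) M b)
    (F : (J → Finset {p // p ∈ w.P}) → ℝ) (h0 : ∀ S, 0 ≤ F S) (L : ℝ)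
    (hL : Lev (∏ p ∈ w.P, p) (fun t => F (fun j => hit w.P (b j + M * t))) L) (Y0 Y : ℕ) :
    ∑ t ∈ Ico Y0 (Y0 + Y), F (fun j => hit w.P (b j + M * t)) ≤
      Y * ((1 + w.e) * EX (qq w.P (2 * w.K)) F) + 2 * L := by
  have h1 : |∑ t ∈ Ico Y0 (Y0 + Y), F (fun j => hit w.P (b j + M * t)) -
      Y * EP w.P M b F| ≤ 2 * L := Lev.avg (w.w1_Qpos) hL Y0 Y
  have h2 : EP w.P M b F ≤ (1 + w.e) * EX (qq w.P (2 * w.K)) F :=
    (EP_le w.P w.W (2 * w.K) M b hF F h0).trans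
      (mul_le_mul_of_nonneg_right w.hKW (EX_nonneg _ w.good.q0 w.good.q1 F h0))
  have h3 := mul_le_mul_of_nonneg_left h2 (Nat.cast_nonneg Y : (0 : ℝ) ≤ Y)
  rw [abs_le] at h1
  linarith [h1.2]

/-- the number of rough elements -/
theorem WT.w3_rough (w : WT) (M : ℕ) (B : Finset ℕ) (t : ℕ) :
    (w.rough (B.image (fun b => b + M * t)) : ℝ) =
      ∑ j : {b // b ∈ B}, if hit w.P (j.1 + M * t) = ∅ then (1 : ℝ) else 0 := by
  have h1 : w.rough (B.image (fun b => b + M * t)) =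
      ((univ : Finset {b // b ∈ B}).filter (fun j => hit w.P (j.1 + M * t) = ∅)).card := by
    unfold WT.rough
    rw [← Finset.card_image_of_injective
      ((univ : Finset {b // b ∈ B}).filter (fun j => hit w.P (j.1 + M * t) = ∅))
      (f := fun j : {b // b ∈ B} => j.1 + M * t)
      (fun a b hab => Subtype.ext (Nat.add_right_cancel hab))]
    congr 1
    ext x
    simp only [Finset.mem_image, Finset.mem_filter, Finset.mem_univ, true_and]
    have hh : ∀ e : ℕ, hit w.P e = ∅ ↔ ∀ p ∈ w.P, ¬ p ∣ e := by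
      intro e
      unfold hit
      rw [Finset.filter_eq_empty_iff]
      constructor
      · intro h p hp
        exact h (Finset.mem_univ (⟨p, hp⟩ : {p // p ∈ w.P}))
      · intro h p _
        exact h p.1 p.2
    constructor
    · rintro ⟨⟨a, haB, rfl⟩, hx⟩
      exact ⟨⟨a, haB⟩, (hh _).2 hx, rfl⟩
    · rintro ⟨a, ha, rfl⟩
      exact ⟨⟨a.1, a.2, rfl⟩, (hh _).1 ha⟩
  rw [h1, Finset.card_filter]
  push_cast
  rfl

/-- Copy of the proof of `H15P.WD.win_sq` (with `w1_..` in place of `win2_..`). -/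
theorem WT.win_sq (w : WT) (M : ℕ) (hM : ∀ p ∈ w.P, ¬ p ∣ M) (B : Finset ℕ)
    (hB : B.card ≤ w.K) (hd : ∀ b ∈ B, ∀ b' ∈ B, b ≤ b' + w.W) (Y0 Y : ℕ)
    (hY : 4 * w.K * w.lv ^ 4 ≤ w.e * Y) :
    ∑ t ∈ Ico Y0 (Y0 + Y), w.om (B.image (fun b => b + M * t)) ^ 2 ≤ 2 * w.C * Y := by
  have hF := w.forms M hM B (by omega) hd
  have hcard : (univ : Finset {b // b ∈ B}).card = B.card := by
    rw [Finset.card_univ, Fintype.card_coe]
  set Z := ZZ (qq w.P (2 * w.K)) w.D B.card with hZ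
  have hZ1 : 1 ≤ Z := w.w1_ZZ _
  set F : ({b // b ∈ B} → Finset {p // p ∈ w.P}) → ℝ := fun S => LL w.D w.m univ S ^ 4 with hFdef
  have hF0 : ∀ S, 0 ≤ F S := fun S => by
    rw [hFdef]
    positivity
  have hsum : ∑ t ∈ Ico Y0 (Y0 + Y), w.om (B.image (fun b => b + M * t)) ^ 2 ≤
      ∑ t ∈ Ico Y0 (Y0 + Y), F (fun j => hit w.P (j.1 + M * t)) := by
    refine Finset.sum_le_sum fun t _ => ?_
    rw [w.w1_om' M B t, div_pow, ← hZ]
    have h1 : ((LL w.D w.m (univ : Finset {b // b ∈ B}) (fun j => hit w.P (j.1 + M * t))) ^ 2) ^ 2 =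
        F (fun j => hit w.P (j.1 + M * t)) := by
      rw [hFdef]
      ring
    rw [h1]
    exact div_le_self (hF0 _) (one_le_pow₀ hZ1)
  have hlev : Lev (∏ p ∈ w.P, p) (fun t => F (fun j => hit w.P (j.1 + M * t))) (w.lv ^ 4) :=
    Lev.pow (w.w1_Qpos) (w.levL {b // b ∈ B} univ M (fun j => j.1)
      (by rw [Fintype.card_coe]; omega)) 4
  have havg := w.w1_avg M (fun j : {b // b ∈ B} => j.1) F (w.lv ^ 4) hlev Y0 Y
  have herr := (w.w1_err Y hY 4 le_rfl).2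
  have hup := w.w1_EP_le M (fun j : {b // b ∈ B} => j.1) hF F hF0
  have hEX : EX (qq w.P (2 * w.K)) F ≤ w.C :=
    w.w1_four (univ : Finset {b // b ∈ B}) (by rw [hcard]; exact hB)
  have he0 := w.e0
  have he1 := w.e1
  have hC := w.w1_C
  have hYr : (0 : ℝ) ≤ Y := Nat.cast_nonneg Y
  rw [abs_le] at havg
  obtain ⟨ha1, ha2⟩ := havg
  have h1 : EP w.P M (fun j : {b // b ∈ B} => j.1) F ≤ (1 + w.e) * w.C :=
    hup.trans (mul_le_mul_of_nonneg_left hEX (by linarith))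
  have h2 := mul_le_mul_of_nonneg_left h1 hYr
  have h3 : w.e * Y * 1 ≤ w.e * Y * w.C := mul_le_mul_of_nonneg_left hC (by positivity)
  have h4 : (w.e * Y) * w.C ≤ (1 / 10 * Y) * w.C := by
    apply mul_le_mul_of_nonneg_right _ (by linarith)
    exact mul_le_mul_of_nonneg_right he1 hYr
  have h5 : 0 ≤ Y * w.C := by positivity
  refine hsum.trans ?_
  nlinarith

/-- Copy of the proof of `H15P.WD.win_rough`. -/
theorem WT.win_rough (w : WT) (M : ℕ) (hM : ∀ p ∈ w.P, ¬ p ∣ M) (B : Finset ℕ)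
    (hB : B.card ≤ w.K) (hd : ∀ b ∈ B, ∀ b' ∈ B, b ≤ b' + w.W) (Y0 Y : ℕ)
    (hY : 4 * w.K * w.lv ^ 4 ≤ w.e * Y) :
    ∑ t ∈ Ico Y0 (Y0 + Y), w.om (B.image (fun b => b + M * t)) *
        w.rough (B.image (fun b => b + M * t)) ≤ 3 * w.e * Y := by
  have hF := w.forms M hM B (by omega) hd
  have hcard : (univ : Finset {b // b ∈ B}).card = B.card := by
    rw [Finset.card_univ, Fintype.card_coe]
  set Z := ZZ (qq w.P (2 * w.K)) w.D B.card with hZ
  have hZ1 : 1 ≤ Z := w.w1_ZZ _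
  have hZpos : 0 < Z := by linarith
  have hBK : (B.card : ℝ) ≤ w.K := by exact_mod_cast hB
  set X := ex (qq w.P (2 * w.K)) w.lm with hX
  have hX0 : 0 ≤ X := ex_nonneg _ w.good.q0 w.good.q1 _ w.lm0
  -- the function of `j0`
  set G : {b // b ∈ B} → ({b // b ∈ B} → Finset {p // p ∈ w.P}) → ℝ := fun j0 S =>
    LP w.D w.m (univ.erase j0) S ^ 2 * w.lm (S j0) with hG
  have hG0 : ∀ j0 S, 0 ≤ G j0 S := fun j0 S => mul_nonneg (sq_nonneg _) (w.lm0 _)
  have hterm : ∀ t, w.om (B.image (fun b => b + M * t)) *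
      w.rough (B.image (fun b => b + M * t)) ≤
        ∑ j0 : {b // b ∈ B}, G j0 (fun j => hit w.P (j.1 + M * t)) / Z := by
    intro t
    rw [w.w1_om' M B t, w.w3_rough M B t, Finset.mul_sum]
    refine Finset.sum_le_sum fun j0 _ => ?_
    rw [div_mul_eq_mul_div]
    apply div_le_div_of_nonneg_right _ hZpos.le
    split_ifs with hh
    · rw [mul_one, LL_eq_LP w.D w.good.empty (by rw [Fintype.card_fin]; exact w.npos) w.m univ j0
        (Finset.mem_univ _) (fun j => hit w.P (j.1 + M * t)) hh]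
      show _ ≤ LP w.D w.m (univ.erase j0) _ ^ 2 * w.lm (hit w.P (j0.1 + M * t))
      rw [hh, w.lm1, mul_one]
    · rw [mul_zero]
      exact hG0 _ _
  have hlev : ∀ j0 : {b // b ∈ B}, Lev (∏ p ∈ w.P, p)
      (fun t => G j0 (fun j => hit w.P (j.1 + M * t))) (w.lv ^ 3) := by
    intro j0
    have h1 := Lev.pow (w.w1_Qpos) (w.levP {b // b ∈ B} (univ.erase j0) M (fun j => j.1)
      (by rw [Fintype.card_coe]; omega)) 2
    have h2 := w.levlm M j0.1
    have h3 := Lev.mul (w.w1_Qpos) h1 h2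
    have h4 : w.lv ^ 2 * w.lv = w.lv ^ 3 := by ring
    rw [h4] at h3
    exact h3
  have hEX : ∀ j0 : {b // b ∈ B}, EX (qq w.P (2 * w.K)) (G j0) ≤ Real.exp (-w.R) * Z * X := by
    intro j0
    have h1 := EX_LP_sq_mul_le (qq w.P (2 * w.K)) w.D w.h w.good
      (by rw [Fintype.card_fin]; exact w.npos) w.m (univ : Finset {b // b ∈ B}) w.R
      (by
        intro i
        refine le_trans ?_ (w.hm i)
        rw [hcard]
        have h3 : 0 ≤ GG (qq w.P (2 * w.K)) w.D (some i) := GG_nonneg _ _ _ w.good _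
        have h4 := mul_le_mul_of_nonneg_right hBK h3
        linarith) j0 (Finset.mem_univ _) w.lm w.lm0
    rw [hcard] at h1
    exact h1
  have hone : ∀ j0 : {b // b ∈ B}, ∑ t ∈ Ico Y0 (Y0 + Y), G j0 (fun j => hit w.P (j.1 + M * t)) ≤
      Y * ((1 + w.e) * (Real.exp (-w.R) * Z * X)) + 2 * w.lv ^ 3 := by
    intro j0
    have h1 := w.w3_avg M (fun j : {b // b ∈ B} => j.1) hF (G j0) (hG0 j0) _ (hlev j0) Y0 Y
    refine h1.trans ?_
    have he0 := w.e0
    have h2 := mul_le_mul_of_nonneg_left (hEX j0) (by linarith : 0 ≤ 1 + w.e)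
    have h3 := mul_le_mul_of_nonneg_left h2 (Nat.cast_nonneg Y : (0 : ℝ) ≤ Y)
    linarith
  have htot : ∑ t ∈ Ico Y0 (Y0 + Y), w.om (B.image (fun b => b + M * t)) *
      w.rough (B.image (fun b => b + M * t)) ≤
        ∑ j0 : {b // b ∈ B}, (Y * ((1 + w.e) * (Real.exp (-w.R) * Z * X)) + 2 * w.lv ^ 3) / Z := by
    refine (Finset.sum_le_sum fun t _ => hterm t).trans ?_
    rw [Finset.sum_comm]
    refine Finset.sum_le_sum fun j0 _ => ?_
    rw [← Finset.sum_div]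
    exact div_le_div_of_nonneg_right (hone j0) hZpos.le
  refine htot.trans ?_
  rw [Finset.sum_const, hcard, nsmul_eq_mul]
  have he0 := w.e0
  have he1 := w.e1
  have hR0 := Real.exp_pos (-w.R)
  have hlv0 : 0 ≤ w.lv ^ 3 := pow_nonneg (zero_le_one.trans w.lv1) 3
  have herr := (w.w1_err Y hY 3 (by norm_num)).1
  have hYr : (0 : ℝ) ≤ Y := Nat.cast_nonneg Y
  have h1 : (Y * ((1 + w.e) * (Real.exp (-w.R) * Z * X)) + 2 * w.lv ^ 3) / Z ≤
      Y * ((1 + w.e) * (Real.exp (-w.R) * X)) + 2 * w.lv ^ 3 := by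
    rw [div_le_iff₀ hZpos]
    have h2 : 2 * w.lv ^ 3 * 1 ≤ 2 * w.lv ^ 3 * Z := mul_le_mul_of_nonneg_left hZ1 (by positivity)
    nlinarith
  have h3 : (B.card : ℝ) * ((Y * ((1 + w.e) * (Real.exp (-w.R) * Z * X)) + 2 * w.lv ^ 3) / Z) ≤
      w.K * (Y * ((1 + w.e) * (Real.exp (-w.R) * X)) + 2 * w.lv ^ 3) := by
    apply mul_le_mul hBK h1
    · positivity
    · exact Nat.cast_nonneg _
  refine h3.trans ?_
  have h4 : w.K * Real.exp (-w.R) * X ≤ w.e := w.hlm
  have h5 : (Y * (1 + w.e)) * (w.K * Real.exp (-w.R) * X) ≤ (Y * (1 + w.e)) * w.e :=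
    mul_le_mul_of_nonneg_left h4 (by positivity)
  have h6 : Y * w.e * w.e ≤ Y * w.e * (1 / 10) := mul_le_mul_of_nonneg_left he1 (by positivity)
  have h7 : 0 ≤ Y * w.e := by positivity
  nlinarith

end Pool.Agent.Lib.H64T
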