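import Pool.Agent.Lib.H64T.C1
import Pool.Agent.Lib.H64T.W3

/-!
# Chunk C2: mean square of the weight, and rough values, over an interval
-/

open Finset

namespace Pool.Agent.Lib.H64T

open Pool.Agent.Lib.H15P

/-- Class by class, as `H15P.WD.sum_wt_sq_le`: `#A` classes, each `≤ (M/#A)^2 2 C Y` (`win_sq`);
total `#A (M/#A)^2 2 C Y = 2 C (M/#A)(M Y)`. -/
theorem WT.wa_sq_le (w : WT) (H M : ℕ) (A : Finset ℕ) (Y : ℕ) (h : SetA w H M A Y) (N0 s : ℕ) :
    ∑ n ∈ Ico N0 (N0 + M * Y), w.wa H M A (n + s) ^ 2 ≤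
      2 * w.C * ((M : ℝ) / A.card) * ((M : ℝ) * Y) := by
  have hA0 : (0 : ℝ) < A.card := by exact_mod_cast h.ne.card_pos
  rw [c1_classes M N0 Y h.Mpos]
  have hclass : ∀ a ∈ range M,
      ∑ t ∈ Ico 0 (0 + Y), w.wa H M A (N0 + a + M * t + s) ^ 2 ≤
        (if (a + (N0 + s)) % M ∈ A then ((M : ℝ) / A.card) ^ 2 * (2 * w.C * Y) else 0) := by
    intro a _
    have h1 : ∀ t, w.wa H M A (N0 + a + M * t + s) = if (a + (N0 + s)) % M ∈ A then
        ((M : ℝ) / (A.card : ℝ)) * w.om ((cB H M (a + (N0 + s))).image (fun b => b + M * t)) else 0 := by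
      intro t
      rw [← wa_eq]
      congr 1
      ring
    simp only [h1]
    by_cases hc : (a + (N0 + s)) % M ∈ A
    · simp only [hc, if_true, mul_pow]
      rw [← mul_sum]
      refine mul_le_mul_of_nonneg_left ?_ (by positivity)
      exact w.win_sq M h.cop (cB H M (a + (N0 + s))) (h.cB_le _ hc) (by
        intro b hb b' hb'
        have h3 := cB_mem hb
        have h4 := cB_mem hb'
        have h5 := h.HW
        omega) 0 Y h.hY
    · simp only [hc, if_false]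
      rw [sum_eq_zero (fun _ _ => by norm_num)]
  refine (sum_le_sum hclass).trans ?_
  rw [← sum_filter, sum_const, nsmul_eq_mul, c1_card M h.Mpos A h.sub (N0 + s)]
  refine le_of_eq ?_
  field_simp

/-- Class by class, as `H15P.WD.sum_wt_rg_le`: `#A` classes, each `≤ (M/#A) 3 e Y` (`win_rough`). -/
theorem WT.wa_rg_le (w : WT) (H M : ℕ) (A : Finset ℕ) (Y : ℕ) (h : SetA w H M A Y) (N0 : ℕ) :
    ∑ n ∈ Ico N0 (N0 + M * Y), w.wa H M A n * w.rg H M n ≤ 3 * w.e * ((M : ℝ) * Y) := by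
  have hA0 : (0 : ℝ) < A.card := by exact_mod_cast h.ne.card_pos
  rw [c1_classes M N0 Y h.Mpos]
  have hclass : ∀ a ∈ range M,
      ∑ t ∈ Ico 0 (0 + Y), w.wa H M A (N0 + a + M * t) * w.rg H M (N0 + a + M * t) ≤
        (if (a + N0) % M ∈ A then ((M : ℝ) / A.card) * (3 * w.e * Y) else 0) := by
    intro a _
    have h1 : ∀ t, w.wa H M A (N0 + a + M * t) = if (a + N0) % M ∈ A then
        ((M : ℝ) / (A.card : ℝ)) * w.om ((cB H M (a + N0)).image (fun b => b + M * t)) else 0 := by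
      intro t
      rw [← wa_eq]
      congr 1
      ring
    have h2 : ∀ t, w.rg H M (N0 + a + M * t) = w.rough ((cB H M (a + N0)).image (fun b => b + M * t)) := by
      intro t
      rw [← rg_eq]
      congr 1
      ring
    simp only [h1, h2]
    by_cases hc : (a + N0) % M ∈ A
    · simp only [hc, if_true]
      rw [sum_congr rfl fun t _ => mul_assoc _ _ _, ← mul_sum]
      refine mul_le_mul_of_nonneg_left ?_ (by positivity)
      exact w.win_rough M h.cop (cB H M (a + N0)) (h.cB_le _ hc) (by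
        intro b hb b' hb'
        have h3 := cB_mem hb
        have h4 := cB_mem hb'
        have h5 := h.HW
        omega) 0 Y h.hY
    · simp only [hc, if_false, zero_mul, sum_const_zero]
      exact le_rfl
  refine (sum_le_sum hclass).trans ?_
  rw [← sum_filter, sum_const, nsmul_eq_mul, c1_card M h.Mpos A h.sub N0]
  refine le_of_eq ?_
  field_simp

/-- VOID COUNT. `G` = the `n` with `rg n = 0`. `Σ_G wa ≥ Σ wa - Σ wa rg ≥ (1 - 7e) M Y ≥ M Y/2`
(`wa ≤ wa rg` off `G`), and by Cauchy-Schwarz `(M Y/2)^2 ≤ #G Σ wa^2 ≤ #G 2 C (M/#A)(M Y)`. -/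
theorem WT.void_count (w : WT) (H M : ℕ) (A : Finset ℕ) (Y : ℕ) (h : SetA w H M A Y) (N0 : ℕ)
    (he : w.e ≤ 1 / 20) :
    (M : ℝ) * Y ≤ 8 * (w.C * ((M : ℝ) / A.card)) *
      (((Ico N0 (N0 + M * Y)).filter (fun n => w.rg H M n = 0)).card : ℝ) := by
  have he0 := w.e0
  have hA0 : (0 : ℝ) < A.card := by exact_mod_cast h.ne.card_pos
  have hC : 0 ≤ w.C := (Real.exp_pos _).le.trans w.hC
  set I := Ico N0 (N0 + M * Y) with hI
  set G := I.filter (fun n => w.rg H M n = 0) with hG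
  have hMY : (0 : ℝ) ≤ (M : ℝ) * Y := by positivity
  have e1 := w.wa_ge H M A Y h N0 0
  have e2 := w.wa_sq_le H M A Y h N0 0
  have e3 := w.wa_rg_le H M A Y h N0
  simp only [add_zero] at e1 e2
  rw [← hI] at e1 e2 e3
  have hsplit : ∑ n ∈ I, w.wa H M A n ≤ ∑ n ∈ G, w.wa H M A n + ∑ n ∈ I, w.wa H M A n * w.rg H M n := by
    rw [hG, sum_filter, ← sum_add_distrib]
    refine sum_le_sum fun n _ => ?_
    have h0 := wa_nonneg w H M A n
    by_cases hr : w.rg H M n = 0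
    · rw [if_pos hr, hr, Nat.cast_zero, mul_zero, add_zero]
    · rw [if_neg hr, zero_add]
      have h1 : (1 : ℝ) ≤ w.rg H M n := by exact_mod_cast Nat.one_le_iff_ne_zero.mpr hr
      exact le_mul_of_one_le_right h0 h1
  have hlow : (M : ℝ) * Y / 2 ≤ ∑ n ∈ G, w.wa H M A n := by nlinarith
  have hcs : (∑ n ∈ G, w.wa H M A n) ^ 2 ≤ (G.card : ℝ) * ∑ n ∈ G, w.wa H M A n ^ 2 :=
    sq_sum_le_card_mul_sum_sq
  have hsub : ∑ n ∈ G, w.wa H M A n ^ 2 ≤ ∑ n ∈ I, w.wa H M A n ^ 2 :=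
    sum_le_sum_of_subset_of_nonneg (filter_subset _ _) fun n _ _ => sq_nonneg _
  have h5 : ((M : ℝ) * Y / 2) ^ 2 ≤ (G.card : ℝ) * (2 * w.C * ((M : ℝ) / A.card) * ((M : ℝ) * Y)) := by
    calc ((M : ℝ) * Y / 2) ^ 2 ≤ (∑ n ∈ G, w.wa H M A n) ^ 2 := pow_le_pow_left₀ (by positivity) hlow 2
      _ ≤ (G.card : ℝ) * ∑ n ∈ G, w.wa H M A n ^ 2 := hcs
      _ ≤ _ := mul_le_mul_of_nonneg_left (hsub.trans e2) (by positivity)
  rcases hMY.eq_or_lt with h0 | h0
  · rw [← h0]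
    positivity
  · have h6 : ((M : ℝ) * Y) * ((M : ℝ) * Y) ≤
        (8 * (w.C * ((M : ℝ) / A.card)) * (G.card : ℝ)) * ((M : ℝ) * Y) := by
      have h7 : ((M : ℝ) * Y / 2) ^ 2 = ((M : ℝ) * Y) * ((M : ℝ) * Y) / 4 := by ring
      rw [h7] at h5
      have h8 : (G.card : ℝ) * (2 * w.C * ((M : ℝ) / A.card) * ((M : ℝ) * Y)) =
        (8 * (w.C * ((M : ℝ) / A.card)) * (G.card : ℝ)) * ((M : ℝ) * Y) / 4 := by ring
      rw [h8] at h5
      linarith
    exact le_of_mul_le_mul_right h6 h0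

end Pool.Agent.Lib.H64T
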