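import Pool.Agent.Lib.H64T.Defs
import Pool.Agent.Lib.H15P.TR2

/-!
# Chunk G3: one prime and two windows
-/

open Finset

namespace Pool.Agent.Lib.H64T

open Pool.Agent.Lib.H15P

variable {J : Type} [Fintype J] [DecidableEq J]

/-- The factor of the prime `p` (`N = #co`): `(1 + 2K/p^2)^|J| exp (2 N/p)`. -/
noncomputable def af (K : ℕ) (B1 : Finset J) (b : J → ℕ) (p : ℕ) : ℝ :=
  (1 + 2 * K / (p : ℝ) ^ 2) ^ Fintype.card J * Real.exp (2 * ((co B1 b p).card / (p : ℝ)))

/-- The density `ψ = 1 + Σ_{(j, j') ∈ co} (4/(p q^2)) 1[j, j' ∈ s]`. -/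
noncomputable def pf (u : ℝ) (B1 : Finset J) (b : J → ℕ) (p : ℕ) (s : Finset J) : ℝ :=
  1 + ∑ c ∈ co B1 b p, 4 / (p * u ^ 2) * (if c.1 ∈ s ∧ c.2 ∈ s then 1 else 0)

/-- Every form is in at most one pair of `co` (two forms of the same window are not congruent). -/
theorem g3_co {P : Finset ℕ} {W K M : ℕ} {b : J → ℕ} {B1 : Finset J} (hF : Forms2 P W K M b B1)
    {p : ℕ} (hp : p ∈ P) :
    (∀ c ∈ co B1 b p, ∀ c' ∈ co B1 b p, c.1 = c'.1 → c = c') ∧
    (∀ c ∈ co B1 b p, ∀ c' ∈ co B1 b p, c.2 = c'.2 → c = c') := by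
  constructor
  · intro c hc c' hc' h
    simp only [co, mem_filter, mem_univ, true_and] at hc hc'
    have h2 : c.2 = c'.2 := by
      by_contra hne
      refine hF.dist p hp c.2 c'.2 hne ⟨fun h3 => absurd h3 hc.2.1, fun h3 => absurd h3 hc'.2.1⟩ ?_
      have h4 := hc'.2.2
      rw [← h] at h4
      exact hc.2.2.symm.trans h4
    exact Prod.ext h h2
  · intro c hc c' hc' h
    simp only [co, mem_filter, mem_univ, true_and] at hc hc'
    have h2 : c.1 = c'.1 := by
      by_contra hne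
      refine hF.dist p hp c.1 c'.1 hne ⟨fun _ => hc'.1, fun _ => hc.1⟩ ?_
      have h4 := hc'.2.2
      rw [← h] at h4
      exact hc.2.2.trans h4.symm
    exact Prod.ext h2 h

theorem g3_T {P : Finset ℕ} {W K M : ℕ} {b : J → ℕ} {B1 : Finset J} (hF : Forms2 P W K M b B1)
    {p : ℕ} (hp : p ∈ P) :
    ∃ T : J → ℕ, (∀ j, T j < p) ∧ ∀ j, ∀ t < p, (p ∣ b j + M * t ↔ t = T j) := by
  choose T hT using fun j => tr1_T M (b j) p (hF.prime p hp) (hF.cop p hp)
  exact ⟨T, fun j => (hT j).1, fun j => (hT j).2⟩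

theorem g3_mod {M p t x y : ℕ} (h1 : p ∣ x + M * t) (h2 : p ∣ y + M * t) : x ≡ y [MOD p] := by
  have h3 : x + M * t ≡ y + M * t [MOD p] :=
    ((Nat.modEq_zero_iff_dvd).2 h1).trans ((Nat.modEq_zero_iff_dvd).2 h2).symm
  exact Nat.ModEq.add_right_cancel' _ h3

theorem g3_T_eq {P : Finset ℕ} {W K M : ℕ} {b : J → ℕ} {B1 : Finset J} {_hF : Forms2 P W K M b B1}
    {p : ℕ} (_hp : p ∈ P) {T : J → ℕ} (hT1 : ∀ j, T j < p)
    (hT2 : ∀ j, ∀ t < p, (p ∣ b j + M * t ↔ t = T j)) {j j' : J} (h : T j = T j') :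
    b j ≡ b j' [MOD p] := by
  have h1 := (hT2 j (T j) (hT1 j)).2 rfl
  have h2 := (hT2 j' (T j) (hT1 j)).2 h
  exact g3_mod h1 h2

/-- The number of the residue classes `t mod p` with `p ∣ b j + M t` for some `j` is at least
`|J| - #co` (each form has exactly one class `T j` mod `p` since `p ∤ M`, `H15P.tr1_T`; `T j = T j'`
iff `b j ≡ b j' mod p`; the map `T` is injective on the forms which are not second components of a
pair of `co`). So `w2 ∅ ≤ 1 - (|J| - N)/p`. -/
theorem g3_empty {P : Finset ℕ} {W K M : ℕ} {b : J → ℕ} {B1 : Finset J} (hF : Forms2 P W K M b B1)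
    {p : ℕ} (hp : p ∈ P) :
    w2 M b p (∅ : Finset J) ≤ 1 - ((Fintype.card J : ℝ) - (co B1 b p).card) / p := by
  obtain ⟨T, hT1, hT2⟩ := g3_T hF hp
  have hpp : 0 < p := (hF.prime p hp).pos
  have hpr : (0 : ℝ) < p := by exact_mod_cast hpp
  set A : Finset J := univ \ (co B1 b p).image Prod.snd with hA
  have hAcard : Fintype.card J ≤ A.card + (co B1 b p).card := by
    have h1 : (univ : Finset J).card ≤ ((co B1 b p).image Prod.snd).card + A.card := by
      have := Finset.card_le_card_sdiff_add_card (s := (univ : Finset J)) (t := (co B1 b p).image Prod.snd)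
      rw [← hA] at this
      omega
    have h2 := Finset.card_image_le (s := co B1 b p) (f := Prod.snd)
    rw [Finset.card_univ] at h1
    omega
  have hinj : Set.InjOn T (A : Set J) := by
    intro j hj j' hj' h
    by_contra hne
    have hb := g3_T_eq (_hF := hF) hp hT1 hT2 h
    by_cases hjB : j ∈ B1
    · by_cases hjB' : j' ∈ B1
      · exact hF.dist p hp j j' hne ⟨fun _ => hjB', fun _ => hjB⟩ hb
      · rw [hA] at hj'
        refine (Finset.mem_sdiff.1 (Finset.mem_coe.1 hj')).2 (Finset.mem_image.2 ⟨(j, j'), ?_, rfl⟩)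
        simp only [co, mem_filter, mem_univ, true_and]
        exact ⟨hjB, hjB', hb⟩
    · by_cases hjB' : j' ∈ B1
      · rw [hA] at hj
        refine (Finset.mem_sdiff.1 (Finset.mem_coe.1 hj)).2 (Finset.mem_image.2 ⟨(j', j), ?_, rfl⟩)
        simp only [co, mem_filter, mem_univ, true_and]
        exact ⟨hjB', hjB, hb.symm⟩
      · exact hF.dist p hp j j' hne ⟨fun h3 => absurd h3 hjB, fun h3 => absurd h3 hjB'⟩ hb
  have hdis : Disjoint ((range p).filter (fun t => univ.filter (fun j => p ∣ b j + M * t) = (∅ : Finset J)))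
      (A.image T) := by
    rw [Finset.disjoint_left]
    intro t ht ht'
    rw [Finset.mem_filter] at ht
    obtain ⟨j, _, rfl⟩ := Finset.mem_image.1 ht'
    have : j ∈ univ.filter (fun j' => p ∣ b j' + M * T j) := by
      rw [Finset.mem_filter]
      exact ⟨mem_univ _, (hT2 j (T j) (hT1 j)).2 rfl⟩
    rw [ht.2] at this
    exact absurd this (Finset.notMem_empty _)
  have hsub : ((range p).filter (fun t => univ.filter (fun j => p ∣ b j + M * t) = (∅ : Finset J))) ∪
      (A.image T) ⊆ range p := by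
    apply Finset.union_subset (Finset.filter_subset _ _)
    intro t ht
    obtain ⟨j, _, rfl⟩ := Finset.mem_image.1 ht
    exact Finset.mem_range.2 (hT1 j)
  have hcard := Finset.card_le_card hsub
  rw [Finset.card_union_of_disjoint hdis, Finset.card_image_of_injOn hinj, Finset.card_range] at hcard
  unfold w2
  rw [div_le_iff₀ hpr, sub_mul, one_mul, div_mul_cancel₀ _ hpr.ne']
  have h3 : ((((range p).filter (fun t => univ.filter (fun j => p ∣ b j + M * t) = (∅ : Finset J))).card : ℝ)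
      + A.card) ≤ p := by exact_mod_cast hcard
  have h4 : (Fintype.card J : ℝ) ≤ A.card + (co B1 b p).card := by exact_mod_cast hAcard
  linarith

/-- If `s` is nonempty and `w2 s ≠ 0` then `s = {j}` or `s = {c.1, c.2}` with `c ∈ co`, and
`w2 s ≤ 1/p` (the `t` of the class of `j`). -/
theorem g3_nonempty {P : Finset ℕ} {W K M : ℕ} {b : J → ℕ} {B1 : Finset J}
    (hF : Forms2 P W K M b B1) {p : ℕ} (hp : p ∈ P) (s : Finset J) (hs : s.Nonempty)
    (h0 : w2 M b p s ≠ 0) :
    w2 M b p s ≤ 1 / p ∧ ((∃ j, s = {j}) ∨ ∃ c ∈ co B1 b p, s = {c.1, c.2}) := by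
  obtain ⟨T, hT1, hT2⟩ := g3_T hF hp
  have hpp : 0 < p := (hF.prime p hp).pos
  have hpr : (0 : ℝ) < p := by exact_mod_cast hpp
  obtain ⟨j, hj⟩ := hs
  constructor
  · unfold w2
    apply div_le_div_of_nonneg_right _ hpr.le
    have : (range p).filter (fun t => univ.filter (fun j => p ∣ b j + M * t) = s) ⊆ {T j} := by
      intro t ht
      rw [Finset.mem_filter, Finset.mem_range] at ht
      rw [← ht.2, Finset.mem_filter] at hj
      exact Finset.mem_singleton.2 ((hT2 j t ht.1).1 hj.2)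
    have h1 := Finset.card_le_card this
    rw [Finset.card_singleton] at h1
    exact_mod_cast h1
  · have hex : ∃ t ∈ range p, univ.filter (fun j => p ∣ b j + M * t) = s := by
      by_contra hcon
      push Not at hcon
      apply h0
      unfold w2
      rw [Finset.filter_false_of_mem hcon]
      simp
    obtain ⟨t, ht, hts⟩ := hex
    have hmem : ∀ i, i ∈ s ↔ p ∣ b i + M * t := by
      intro i
      rw [← hts, Finset.mem_filter]
      simp
    have hmod : ∀ i ∈ s, ∀ i' ∈ s, b i ≡ b i' [MOD p] := fun i hi i' hi' =>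
      g3_mod ((hmem i).1 hi) ((hmem i').1 hi')
    have hone : ∀ i ∈ s, ∀ i' ∈ s, (i ∈ B1 ↔ i' ∈ B1) → i = i' := by
      intro i hi i' hi' h
      by_contra hne
      exact hF.dist p hp i i' hne h (hmod i hi i' hi')
    by_cases hsing : ∀ i ∈ s, i = j
    · left
      exact ⟨j, Finset.eq_singleton_iff_unique_mem.2 ⟨hj, hsing⟩⟩
    · right
      push Not at hsing
      obtain ⟨i, hi, hij⟩ := hsing
      by_cases hjB : j ∈ B1
      · have hiB : i ∉ B1 := fun h => hij (hone i hi j hj ⟨fun _ => hjB, fun _ => h⟩)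
        refine ⟨(j, i), ?_, ?_⟩
        · simp only [co, mem_filter, mem_univ, true_and]
          exact ⟨hjB, hiB, hmod j hj i hi⟩
        · ext k
          simp only [Finset.mem_insert, Finset.mem_singleton]
          constructor
          · intro hk
            by_cases hkB : k ∈ B1
            · left; exact hone k hk j hj ⟨fun _ => hjB, fun _ => hkB⟩
            · right; exact hone k hk i hi ⟨fun h => absurd h hkB, fun h => absurd h hiB⟩
          · rintro (rfl | rfl)
            · exact hj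
            · exact hi
      · have hiB : i ∈ B1 := by
          by_contra h
          exact hij (hone i hi j hj ⟨fun h' => absurd h' h, fun h' => absurd h' hjB⟩)
        refine ⟨(i, j), ?_, ?_⟩
        · simp only [co, mem_filter, mem_univ, true_and]
          exact ⟨hiB, hjB, hmod i hi j hj⟩
        · ext k
          simp only [Finset.mem_insert, Finset.mem_singleton]
          constructor
          · intro hk
            by_cases hkB : k ∈ B1
            · left; exact hone k hk i hi ⟨fun _ => hiB, fun _ => hkB⟩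
            · right; exact hone k hk j hj ⟨fun h => absurd h hkB, fun h => absurd h hjB⟩
          · rintro (rfl | rfl)
            · exact hi
            · exact hj

/-- Pure inequalities for one prime `p ≥ 4 K^2 + 1 ≥ 5`, `k = |J| ≤ K`, `N ≤ k`,
`u = qq = (1/p + 2K/p^2)/(1 + 2K/p^2)`, `A = (1 + 2K/p^2)^k exp (2 N/p)`:
`1 - u = (1 - 1/p)/(1 + 2K/p^2)`.
(1) `1 - (k - N)/p ≤ (1 - 1/p)^(k-N) ≤ (1 - 1/p)^k exp (2N/p) = A (1 - u)^k` (Bernoulli,
  `(1 - 1/p)^(-1) ≤ exp (2/p)`);
(2) `1/p ≤ A u (1-u)^(k-1)` for `k ≥ 1` (as in `H15P.ww_le`);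
(3) `1/p ≤ A (1 + 4/(p u^2)) u^2 (1-u)^(k-2)` for `k ≥ 2`: `A ≥ 1`, `(1-u)^(k-2) ≥ 1 - k u ≥ 1/2`
  (`u ≤ 2/p`, `H15P.qq_le`), so the right side is `≥ (4/p)(1/2)`. -/
theorem g3_num (P : Finset ℕ) (W K k N : ℕ) (hK : 1 ≤ K) (hKW : 4 * K ^ 2 ≤ W)
    (hb : ∀ p ∈ P, W < p) (hk : k ≤ K) (hN : N ≤ k) (p : {p // p ∈ P}) (A : ℝ)
    (hA : A = (1 + 2 * K / (p.1 : ℝ) ^ 2) ^ k * Real.exp (2 * (N / (p.1 : ℝ)))) :
    1 - ((k : ℝ) - N) / p.1 ≤ A * (1 - qq P K p) ^ k ∧
    (1 ≤ k → 1 / (p.1 : ℝ) ≤ A * (qq P K p * (1 - qq P K p) ^ (k - 1))) ∧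
    (2 ≤ k → 1 / (p.1 : ℝ) ≤
      A * ((1 + 4 / (p.1 * qq P K p ^ 2)) * (qq P K p ^ 2 * (1 - qq P K p) ^ (k - 2)))) := by
  obtain ⟨h1, h2⟩ := tr2_big P W K hK hKW hb p
  have hp : (0 : ℝ) < (p.1 : ℝ) := by linarith
  have hK1 : (1 : ℝ) ≤ K := by exact_mod_cast hK
  have hkK : (k : ℝ) ≤ K := by exact_mod_cast hk
  have hpK : 4 * (K : ℝ) ^ 2 ≤ p.1 := by
    have h3 : 4 * K ^ 2 ≤ p.1 := hKW.trans (hb p.1 p.2).le
    exact_mod_cast h3
  have hp4 : (4 : ℝ) ≤ p.1 := by nlinarith
  set x : ℝ := 1 / (p.1 : ℝ) with hx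
  have hx0 : 0 < x := by rw [hx]; positivity
  have hx4 : x ≤ 1 / 4 := by
    rw [hx]; exact one_div_le_one_div_of_le (by norm_num) hp4
  set c : ℝ := 1 + 2 * K / (p.1 : ℝ) ^ 2 with hc
  have hc1 : 1 ≤ c := by
    have : (0 : ℝ) ≤ 2 * K / (p.1 : ℝ) ^ 2 := by positivity
    rw [hc]; linarith
  have hc0 : c ≠ 0 := by positivity
  set α : ℝ := 1 / (p.1 : ℝ) + 2 * K / (p.1 : ℝ) ^ 2 with hα
  have hα0 : 0 < α := by rw [hα]; positivity
  have hu : qq P K p = α / c := rfl
  have h1u : 1 - qq P K p = (1 - x) / c := by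
    rw [hu, eq_div_iff hc0, sub_mul, div_mul_cancel₀ _ hc0, hα, hc, hx]
    ring
  set E : ℝ := Real.exp (2 * (N / (p.1 : ℝ))) with hE
  have hE1 : 1 ≤ E := by
    rw [hE]; apply Real.one_le_exp; positivity
  have hA1 : 1 ≤ A := by
    rw [hA]
    exact one_le_mul_of_one_le_of_one_le (one_le_pow₀ hc1) hE1
  refine ⟨?_, ?_, ?_⟩
  · have e1 : A * (1 - qq P K p) ^ k = E * (1 - x) ^ k := by
      rw [hA, h1u, div_pow]
      field_simp
    rw [e1]
    have hB := one_add_mul_le_pow (a := -x) (by linarith) (k - N)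
    have hcast : ((k - N : ℕ) : ℝ) = (k : ℝ) - N := by
      push_cast [hN]; ring
    have e2 : 1 - ((k : ℝ) - N) / p.1 = 1 + ((k - N : ℕ) : ℝ) * -x := by
      rw [hcast, hx]; ring
    rw [e2]
    refine hB.trans ?_
    have e3 : (1 - x) ^ k = (1 - x) ^ (k - N) * (1 - x) ^ N := by
      rw [← pow_add, Nat.sub_add_cancel hN]
    have e4 : E = Real.exp (2 * x) ^ N := by
      rw [hE, ← Real.exp_nat_mul, hx]
      congr 1
      ring
    have h5 : 1 ≤ (1 - x) * Real.exp (2 * x) := by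
      have h6 : 2 * x + 1 ≤ Real.exp (2 * x) := Real.add_one_le_exp _
      have h7 : (1 - x) * (2 * x + 1) ≤ (1 - x) * Real.exp (2 * x) :=
        mul_le_mul_of_nonneg_left h6 (by linarith)
      nlinarith
    have h8 : 1 ≤ ((1 - x) * Real.exp (2 * x)) ^ N := one_le_pow₀ h5
    have h9 : (1 + -x) = 1 - x := by ring
    rw [h9, e3, e4]
    have h10 : 0 ≤ (1 - x) ^ (k - N) := pow_nonneg (by linarith) _
    calc (1 - x) ^ (k - N) = (1 - x) ^ (k - N) * 1 := by ring
      _ ≤ (1 - x) ^ (k - N) * ((1 - x) * Real.exp (2 * x)) ^ N := mul_le_mul_of_nonneg_left h8 h10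
      _ = _ := by rw [mul_pow]; ring
  · intro hk1
    have e1 : A * (qq P K p * (1 - qq P K p) ^ (k - 1)) = E * (α * (1 - x) ^ (k - 1)) := by
      have : c ^ k = c ^ (k - 1) * c := by rw [← pow_succ, Nat.sub_add_cancel hk1]
      rw [hA, h1u, hu, div_pow, this]
      field_simp
    rw [e1]
    have hB := one_add_mul_le_pow (a := -x) (by linarith) (k - 1)
    have hck : ((k - 1 : ℕ) : ℝ) ≤ K := by
      have : k - 1 ≤ K := by omega
      exact_mod_cast this
    have h9 : (1 + -x) = 1 - x := by ring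
    rw [h9] at hB
    have hlow : 1 - K * x ≤ (1 - x) ^ (k - 1) := by nlinarith
    have h10 : α * (1 - K * x) ≤ α * (1 - x) ^ (k - 1) := mul_le_mul_of_nonneg_left hlow hα0.le
    have h11 : 1 / (p.1 : ℝ) ≤ α * (1 - K * x) := by
      have e3 : α * (1 - K * x) - 1 / (p.1 : ℝ) = K * ((p.1 : ℝ) - 2 * K) / (p.1 : ℝ) ^ 3 := by
        rw [hα, hx]
        field_simp
        ring
      have : 0 ≤ K * ((p.1 : ℝ) - 2 * K) / (p.1 : ℝ) ^ 3 :=
        div_nonneg (mul_nonneg (by linarith) (by linarith)) (by positivity)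
      linarith
    have h12 : 0 ≤ α * (1 - x) ^ (k - 1) := mul_nonneg hα0.le (pow_nonneg (by linarith) _)
    calc x ≤ α * (1 - K * x) := h11
      _ ≤ α * (1 - x) ^ (k - 1) := h10
      _ = 1 * (α * (1 - x) ^ (k - 1)) := (one_mul _).symm
      _ ≤ E * (α * (1 - x) ^ (k - 1)) := mul_le_mul_of_nonneg_right hE1 h12
  · intro hk2
    have hu0 : 0 < qq P K p := by rw [hu]; positivity
    have hu2 := qq_le P W K hK hKW hb p
    have hu1 : qq P K p ≤ 1 := tr2_qq_le_one P W K hK hKW hb p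
    have e1 : (1 + 4 / (p.1 * qq P K p ^ 2)) * (qq P K p ^ 2 * (1 - qq P K p) ^ (k - 2))
        = (qq P K p ^ 2 + 4 / p.1) * (1 - qq P K p) ^ (k - 2) := by
      field_simp
    rw [e1]
    have hB := one_add_mul_le_pow (a := -qq P K p) (by linarith) (k - 2)
    have h9 : (1 + -qq P K p) = 1 - qq P K p := by ring
    rw [h9] at hB
    have hck : ((k - 2 : ℕ) : ℝ) ≤ K := by
      have : k - 2 ≤ K := by omega
      exact_mod_cast this
    have h13 : (K : ℝ) * qq P K p ≤ 1 / 2 := by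
      have h14 : (K : ℝ) * qq P K p ≤ K * (2 / p.1) := mul_le_mul_of_nonneg_left hu2 (by linarith)
      have h15 : (K : ℝ) * (2 / p.1) ≤ 1 / 2 := by
        rw [← mul_div_assoc, div_le_iff₀ hp]
        linarith
      linarith
    have h16 : 1 / 2 ≤ (1 - qq P K p) ^ (k - 2) := by
      have : ((k - 2 : ℕ) : ℝ) * qq P K p ≤ K * qq P K p := mul_le_mul_of_nonneg_right hck hu0.le
      linarith
    have h17 : 2 * x ≤ (qq P K p ^ 2 + 4 / p.1) * (1 - qq P K p) ^ (k - 2) := by
      have h18 : 4 * x ≤ qq P K p ^ 2 + 4 / p.1 := by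
        have : 4 * x = 4 / p.1 := by rw [hx]; ring
        rw [this]
        have : 0 ≤ qq P K p ^ 2 := by positivity
        linarith
      calc 2 * x = (4 * x) * (1 / 2) := by ring
        _ ≤ (qq P K p ^ 2 + 4 / p.1) * (1 - qq P K p) ^ (k - 2) :=
          mul_le_mul h18 h16 (by norm_num) (by positivity)
    calc x ≤ 2 * x := by linarith
      _ ≤ (qq P K p ^ 2 + 4 / p.1) * (1 - qq P K p) ^ (k - 2) := h17
      _ = 1 * ((qq P K p ^ 2 + 4 / p.1) * (1 - qq P K p) ^ (k - 2)) := (one_mul _).symm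
      _ ≤ A * ((qq P K p ^ 2 + 4 / p.1) * (1 - qq P K p) ^ (k - 2)) :=
        mul_le_mul_of_nonneg_right hA1 (by linarith)

theorem g3_bs (u : ℝ) (s : Finset J) :
    bs u s = u ^ s.card * (1 - u) ^ (Fintype.card J - s.card) := by
  unfold bs
  rw [Finset.prod_ite, Finset.prod_const, Finset.prod_const]
  have h1 : (univ.filter (fun j => j ∈ s)).card = s.card := by
    rw [Finset.filter_mem_eq_inter, Finset.univ_inter]
  have h2 : (univ.filter (fun j => j ∉ s)).card = Fintype.card J - s.card := by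
    rw [Finset.filter_notMem_eq_sdiff, Finset.card_sdiff_of_subset (Finset.subset_univ _), Finset.card_univ]
  rw [h1, h2]

/-- Assembly: `g3_empty`, `g3_nonempty`, `g3_num` (`N = #co ≤ |J|` by `g3_co`);
`bs u ∅ = (1-u)^k`, `bs u {j} = u (1-u)^(k-1)`, `bs u {c.1, c.2} = u^2 (1-u)^(k-2)`
(`c.1 ∈ B1`, `c.2 ∉ B1` are distinct), `pf ≥ 1`, and `pf ≥ 1 + 4/(p u^2)` at `s = {c.1, c.2}`. -/
theorem w2_le {P : Finset ℕ} {W K M : ℕ} {b : J → ℕ} {B1 : Finset J} (hF : Forms2 P W K M b B1)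
    (p : {p // p ∈ P}) (s : Finset J) :
    w2 M b p.1 s ≤ af K B1 b p.1 * (pf (qq P K p) B1 b p.1 s * bs (qq P K p) s) := by
  have hpr : (0 : ℝ) < p.1 := by exact_mod_cast (hF.prime p.1 p.2).pos
  have hu0 : 0 ≤ qq P K p := qq_nonneg P K p
  have hu1 : qq P K p ≤ 1 := tr2_qq_le_one P W K hF.one_le hF.KW hF.big p
  have hN : (co B1 b p.1).card ≤ Fintype.card J := by
    rw [← Finset.card_univ]
    exact Finset.card_le_card_of_injOn Prod.fst (fun _ _ => mem_univ _)
      (fun c hc c' hc' h => (g3_co hF p.2).1 c hc c' hc' h)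
  obtain ⟨n1, n2, n3⟩ := g3_num P W K (Fintype.card J) (co B1 b p.1).card hF.one_le hF.KW hF.big
    hF.card hN p (af K B1 b p.1) rfl
  have haf : 0 ≤ af K B1 b p.1 := by unfold af; positivity
  have hbs0 : 0 ≤ bs (qq P K p) s := by
    unfold bs
    apply Finset.prod_nonneg
    intro j _
    split_ifs
    · exact hu0
    · linarith
  have hpf0 : ∀ c ∈ co B1 b p.1, 0 ≤ 4 / (p.1 * qq P K p ^ 2) * (if c.1 ∈ s ∧ c.2 ∈ s then (1 : ℝ) else 0) := by
    intro c _
    apply mul_nonneg (by positivity)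
    split_ifs
    · exact zero_le_one
    · exact le_rfl
  have hpf : 1 ≤ pf (qq P K p) B1 b p.1 s := by
    unfold pf
    have := Finset.sum_nonneg hpf0
    linarith
  have hmain : ∀ y, y ≤ af K B1 b p.1 * bs (qq P K p) s →
      y ≤ af K B1 b p.1 * (pf (qq P K p) B1 b p.1 s * bs (qq P K p) s) := by
    intro y hy
    refine hy.trans (mul_le_mul_of_nonneg_left ?_ haf)
    calc bs (qq P K p) s = 1 * bs (qq P K p) s := (one_mul _).symm
      _ ≤ _ := mul_le_mul_of_nonneg_right hpf hbs0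
  rcases s.eq_empty_or_nonempty with rfl | hs
  · apply hmain
    refine (g3_empty hF p.2).trans (n1.trans (le_of_eq ?_))
    rw [g3_bs, Finset.card_empty, pow_zero, one_mul, Nat.sub_zero]
  · by_cases h0 : w2 M b p.1 s = 0
    · rw [h0]
      exact mul_nonneg haf (mul_nonneg (by linarith) hbs0)
    · obtain ⟨hw, hcase⟩ := g3_nonempty hF p.2 s hs h0
      rcases hcase with ⟨j, rfl⟩ | ⟨c, hc, hsc⟩
      · apply hmain
        refine hw.trans ((n2 ?_).trans (le_of_eq ?_))
        · exact Fintype.card_pos_iff.2 ⟨j⟩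
        · rw [g3_bs, Finset.card_singleton, pow_one]
      · have hcne : c.1 ≠ c.2 := by
          simp only [co, mem_filter, mem_univ, true_and] at hc
          intro h
          exact hc.2.1 (h ▸ hc.1)
        have hcard : s.card = 2 := by rw [hsc, Finset.card_pair hcne]
        have hJ2 : 2 ≤ Fintype.card J := by
          rw [← hcard]; exact Finset.card_le_univ _
        refine hw.trans ((n3 hJ2).trans (mul_le_mul_of_nonneg_left ?_ haf))
        rw [g3_bs, hcard]
        apply mul_le_mul_of_nonneg_right _ (mul_nonneg (by positivity) (pow_nonneg (by linarith) _))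
        unfold pf
        have h1 := Finset.single_le_sum hpf0 hc
        have h2 : (if c.1 ∈ s ∧ c.2 ∈ s then (1 : ℝ) else 0) = 1 := by
          rw [if_pos]
          rw [hsc]
          simp
        rw [h2, mul_one] at h1
        linarith

end Pool.Agent.Lib.H64T
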