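import Pool.Agent.Lib.H64T.H3

/-!
# Chunk G4: the product of two windows with the densities of the congruent pairs
-/

open Finset

namespace Pool.Agent.Lib.H64T

open Pool.Agent.Lib.H15P

variable {ι J I : Type} [Fintype ι] [DecidableEq ι] [Fintype J] [DecidableEq J]
  [Fintype I] [DecidableEq I]

/-- The set of the primes of the pairs of `σ` which contain the form `j`. -/
def g4_T (σ : ι → Option (J × J)) (j : J) : Finset ι :=
  univ.filter (fun i => ∃ c, σ i = some c ∧ (c.1 = j ∨ c.2 = j))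

/-- The factor of the prime `i`. -/
noncomputable def g4_w (β : ι → ℝ) (i : ι) : Option (J × J) → ℝ
  | none => 1
  | some _ => β i

/-- The indicator. -/
noncomputable def g4_ind (S : J → Finset ι) (i : ι) : Option (J × J) → ℝ
  | none => 1
  | some c => if i ∈ S c.1 ∧ i ∈ S c.2 then 1 else 0

theorem g4_prod_ind (σ : ι → Option (J × J)) (S : J → Finset ι) :
    ∏ i, g4_ind S i (σ i) = if ∀ j, g4_T σ j ⊆ S j then 1 else 0 := by
  split_ifs with h
  · apply Finset.prod_eq_one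
    intro i _
    cases hσ : σ i with
    | none => rfl
    | some c =>
      have h1 : i ∈ S c.1 := h c.1 (by
        rw [g4_T, Finset.mem_filter]; exact ⟨mem_univ _, c, hσ, Or.inl rfl⟩)
      have h2 : i ∈ S c.2 := h c.2 (by
        rw [g4_T, Finset.mem_filter]; exact ⟨mem_univ _, c, hσ, Or.inr rfl⟩)
      change (if i ∈ S c.1 ∧ i ∈ S c.2 then (1 : ℝ) else 0) = 1
      rw [if_pos ⟨h1, h2⟩]
  · push Not at h
    obtain ⟨j, hj⟩ := h
    obtain ⟨i, hi, hiS⟩ := Finset.not_subset.1 hj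
    rw [g4_T, Finset.mem_filter] at hi
    obtain ⟨_, c, hc, hcj⟩ := hi
    apply Finset.prod_eq_zero (mem_univ i)
    rw [hc]
    change (if i ∈ S c.1 ∧ i ∈ S c.2 then (1 : ℝ) else 0) = 0
    rw [if_neg]
    rintro ⟨h1, h2⟩
    rcases hcj with rfl | rfl
    · exact hiS h1
    · exact hiS h2

omit [DecidableEq ι] in
theorem g4_prod_T (σ : ι → Option (J × J)) (hσ : ∀ i c, σ i = some c → c.1 ≠ c.2) (q : ι → ℝ)
    (A : ℝ) :
    ∏ j, (A ^ (g4_T σ j).card * ∏ p ∈ g4_T σ j, q p) =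
      ∏ i, (g4_w (fun i => A ^ 2 * q i ^ 2) i (σ i) : ℝ) := by
  have h1 : ∀ j, A ^ (g4_T σ j).card * ∏ p ∈ g4_T σ j, q p =
      ∏ i, if (∃ c, σ i = some c ∧ (c.1 = j ∨ c.2 = j)) then A * q i else 1 := by
    intro j
    rw [← Finset.prod_const, ← Finset.prod_mul_distrib, g4_T, Finset.prod_filter]
  rw [Finset.prod_congr rfl (fun j _ => h1 j), Finset.prod_comm]
  refine Finset.prod_congr rfl (fun i _ => ?_)
  cases h : σ i with
  | none =>
    change _ = (1 : ℝ)
    apply Finset.prod_eq_one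
    intro j _
    rw [if_neg]
    rintro ⟨c, hc, _⟩
    exact absurd hc (by simp)
  | some c =>
    change _ = A ^ 2 * q i ^ 2
    have hne := hσ i c h
    have h2 : ∀ j, (if (∃ c', some c = some c' ∧ (c'.1 = j ∨ c'.2 = j)) then A * q i else 1) =
        if j ∈ ({c.1, c.2} : Finset J) then A * q i else 1 := by
      intro j
      have : (∃ c', some c = some c' ∧ (c'.1 = j ∨ c'.2 = j)) ↔ j ∈ ({c.1, c.2} : Finset J) := by
        simp only [Option.some.injEq, Finset.mem_insert, Finset.mem_singleton]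
        constructor
        · rintro ⟨c', rfl, h | h⟩
          · exact Or.inl h.symm
          · exact Or.inr h.symm
        · rintro (h | h)
          · exact ⟨c, rfl, Or.inl h.symm⟩
          · exact ⟨c, rfl, Or.inr h.symm⟩
      by_cases hj : j ∈ ({c.1, c.2} : Finset J)
      · rw [if_pos hj, if_pos (this.2 hj)]
      · rw [if_neg hj, if_neg (fun h => hj (this.1 h))]
    rw [Finset.prod_congr rfl (fun j _ => h2 j), Finset.prod_ite_mem, Finset.univ_inter,
      Finset.prod_pair hne]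
    ring

/-- `cs i` = finite set of pairs of forms `c = (c.1, c.2)` with `c.1 ≠ c.2`, `β i ≥ 0`. Then
`EX (LL B1 ^2 LL B2 ^2 ∏_i (1 + Σ_{c ∈ cs i} β i 1[i ∈ S c.1, i ∈ S c.2]))
  ≤ Z1 Z2 ∏_i (1 + #(cs i) β i (10 E)^2 (q i)^2)`.
Expand the product over `i` (`Finset.prod_univ_sum` for the sets
`insertNone (cs i) : Finset (Option (J × J))`): sum over the choices `σ i ∈ insertNone (cs i)` of
`∏_{i, σ i ≠ none} β i · 1[T j ⊆ S j for all j]`, `T j = {i : σ i = some c, c.1 = j or c.2 = j}`.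
By `EX_LL_sq_mul_hit` the mean value is at most
`Z1 Z2 ∏_{σ i ≠ none} β i · ∏_j ((10E)^|T j| ∏_{i ∈ T j} q i) = Z1 Z2 ∏_{i : σ i ≠ none} β i (10E)^2 (q i)^2`
(every `i` with `σ i = some c` is in exactly two of the sets, `T c.1` and `T c.2`, `c.1 ≠ c.2`;
`Finset.prod_comm'` / `prod_sigma`). Sum over the choices (`prod_univ_sum` backwards). -/
theorem EX_pair_le (q : ι → ℝ) (D : I → Finset ι → ℝ) (h : ℝ) (hg : Good q D h) (E : ℝ)
    (hE : 1 ≤ E) (hI : 0 < Fintype.card I)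
    (hit : ∀ i (T : Finset ι), ex q (fun A => if T ⊆ A then D i A ^ 2 else 0) ≤
      4 * (E ^ T.card * ∏ p ∈ T, q p)) (m : I → ℕ) (B1 B2 : Finset J) (hB : Disjoint B1 B2)
    (cs : ι → Finset (J × J)) (hcs : ∀ i, ∀ c ∈ cs i, c.1 ≠ c.2) (β : ι → ℝ)
    (hβ : ∀ i, 0 ≤ β i) :
    EX q (fun S : J → Finset ι => LL D m B1 S ^ 2 * LL D m B2 S ^ 2 *
        ∏ i, (1 + ∑ c ∈ cs i, β i * (if i ∈ S c.1 ∧ i ∈ S c.2 then 1 else 0))) ≤
      (∏ i, (1 + (cs i).card * (β i * ((10 * E) ^ 2 * q i ^ 2)))) *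
        (ZZ q D B1.card * ZZ q D B2.card) := by
  have hexp : ∀ S : J → Finset ι, LL D m B1 S ^ 2 * LL D m B2 S ^ 2 *
        ∏ i, (1 + ∑ c ∈ cs i, β i * (if i ∈ S c.1 ∧ i ∈ S c.2 then 1 else 0)) =
      ∑ σ ∈ Fintype.piFinset (fun i => Finset.insertNone (cs i)), (∏ i, g4_w β i (σ i)) *
        (if ∀ j, g4_T σ j ⊆ S j then LL D m B1 S ^ 2 * LL D m B2 S ^ 2 else 0) := by
    intro S
    have h1 : ∀ i, (1 + ∑ c ∈ cs i, β i * (if i ∈ S c.1 ∧ i ∈ S c.2 then (1 : ℝ) else 0)) =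
        ∑ o ∈ Finset.insertNone (cs i), g4_w β i o * g4_ind S i o := by
      intro i
      rw [Finset.sum_insertNone]
      change _ = 1 * 1 + ∑ c ∈ cs i, β i * (if i ∈ S c.1 ∧ i ∈ S c.2 then (1 : ℝ) else 0)
      rw [one_mul]
    rw [Finset.prod_congr rfl (fun i _ => h1 i), Finset.prod_univ_sum, Finset.mul_sum]
    refine Finset.sum_congr rfl (fun σ _ => ?_)
    rw [Finset.prod_mul_distrib, g4_prod_ind]
    split_ifs <;> ring
  have e1 : (fun S : J → Finset ι => LL D m B1 S ^ 2 * LL D m B2 S ^ 2 *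
        ∏ i, (1 + ∑ c ∈ cs i, β i * (if i ∈ S c.1 ∧ i ∈ S c.2 then 1 else 0))) =
      fun S => ∑ σ ∈ Fintype.piFinset (fun i => Finset.insertNone (cs i)), (∏ i, g4_w β i (σ i)) *
        (if ∀ j, g4_T σ j ⊆ S j then LL D m B1 S ^ 2 * LL D m B2 S ^ 2 else 0) := funext hexp
  rw [e1, EX_sum]
  have hw0 : ∀ σ : ι → Option (J × J), 0 ≤ ∏ i, g4_w β i (σ i) := by
    intro σ
    apply Finset.prod_nonneg
    intro i _
    cases σ i with
    | none => exact zero_le_one
    | some c => exact hβ i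
  have h2 : ∀ σ ∈ Fintype.piFinset (fun i => Finset.insertNone (cs i)),
      EX q (fun S => (∏ i, g4_w β i (σ i)) *
        (if ∀ j, g4_T σ j ⊆ S j then LL D m B1 S ^ 2 * LL D m B2 S ^ 2 else 0)) ≤
      (∏ i, (g4_w β i (σ i) * g4_w (fun i => (10 * E) ^ 2 * q i ^ 2) i (σ i))) *
        (ZZ q D B1.card * ZZ q D B2.card) := by
    intro σ hσ
    have hσ' : ∀ i c, σ i = some c → c.1 ≠ c.2 := by
      intro i c hc
      have h3 := Fintype.mem_piFinset.1 hσ i
      rw [hc, Finset.some_mem_insertNone] at h3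
      exact hcs i c h3
    rw [EX_const_mul, Finset.prod_mul_distrib, mul_assoc]
    apply mul_le_mul_of_nonneg_left _ (hw0 σ)
    rw [← g4_prod_T σ hσ' q (10 * E)]
    exact EX_LL_sq_mul_hit q D h hg E hE hI hit m B1 B2 hB (g4_T σ)
  refine (Finset.sum_le_sum h2).trans (le_of_eq ?_)
  have e2 := (Finset.prod_univ_sum (fun i => Finset.insertNone (cs i))
    (fun i o => g4_w β i o * g4_w (fun i => (10 * E) ^ 2 * q i ^ 2) i o)).symm
  rw [← Finset.sum_mul, e2]
  congr 1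
  refine Finset.prod_congr rfl (fun i _ => ?_)
  rw [Finset.sum_insertNone]
  change 1 * 1 + ∑ c ∈ cs i, β i * ((10 * E) ^ 2 * q i ^ 2) = _
  rw [Finset.sum_const, nsmul_eq_mul, one_mul]

end Pool.Agent.Lib.H64T
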