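import Pool.Agent.Lib.H64T.Defs

/-!
# Chunk G5: few congruent pairs
-/

open Finset

namespace Pool.Agent.Lib.H64T

open Pool.Agent.Lib.H15P

variable {J : Type} [Fintype J] [DecidableEq J]

/-- A positive integer `d ≤ exp X` has at most `log d ≤ X` prime factors `> W ≥ 3`
(their product divides `d`, each is `≥ e`), so `Σ_{p ∈ P, p ∣ d} 1/p ≤ X/W`. -/
theorem g5_one (P : Finset ℕ) (W : ℕ) (hP : ∀ p ∈ P, p.Prime) (hb : ∀ p ∈ P, W < p) (hW : 3 ≤ W)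
    (X : ℝ) (hX : 1 ≤ X) (d : ℕ) (hd : 0 < d) (hdX : (d : ℝ) ≤ Real.exp X) :
    ∑ p ∈ P, (if p ∣ d then 1 / (p : ℝ) else 0) ≤ X / W := by
  rw [← sum_filter]
  set Q := P.filter (fun p => p ∣ d) with hQd
  have hsub : ∀ p ∈ Q, p ∈ P := fun p hp => (mem_filter.mp hp).1
  have hQ : ∏ p ∈ Q, p ∣ d :=
    Finset.prod_primes_dvd d (fun p hp => (hP p (hsub p hp)).prime) (fun p hp => (mem_filter.mp hp).2)
  have h1 : ((∏ p ∈ Q, p : ℕ) : ℝ) ≤ d := by exact_mod_cast Nat.le_of_dvd hd hQ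
  have h2 : Real.exp (Q.card : ℝ) ≤ ((∏ p ∈ Q, p : ℕ) : ℝ) := by
    push_cast
    have e1 : Real.exp (Q.card : ℝ) = ∏ _p ∈ Q, Real.exp 1 := by
      rw [prod_const, ← Real.exp_nat_mul]; simp
    rw [e1]
    refine prod_le_prod (fun _ _ => (Real.exp_pos _).le) (fun p hp => ?_)
    have h3 : Real.exp 1 < 2.7182818286 := Real.exp_one_lt_d9
    have h4 : (W : ℝ) < p := by exact_mod_cast hb p (hsub p hp)
    have h5 : (3 : ℝ) ≤ W := by exact_mod_cast hW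
    linarith
  have h3 : (Q.card : ℝ) ≤ X := Real.exp_le_exp.mp (h2.trans (h1.trans hdX))
  have hW0 : (0 : ℝ) < W := by
    have h5 : (3 : ℝ) ≤ W := by exact_mod_cast hW
    linarith
  calc ∑ p ∈ Q, 1 / (p : ℝ) ≤ ∑ _p ∈ Q, 1 / (W : ℝ) := by
        refine sum_le_sum fun p hp => ?_
        have h4 : (W : ℝ) < p := by exact_mod_cast hb p (hsub p hp)
        exact one_div_le_one_div_of_le hW0 h4.le
    _ = Q.card / W := by rw [sum_const, nsmul_eq_mul]; ring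
    _ ≤ X / W := by gcongr

theorem g5_pair (P : Finset ℕ) (W : ℕ) (hP : ∀ p ∈ P, p.Prime) (hb : ∀ p ∈ P, W < p) (hW : 3 ≤ W)
    (X : ℝ) (hX : 1 ≤ X) (x y : ℕ) (hxy : x ≠ y) (h1 : (x : ℝ) ≤ y + Real.exp X)
    (h2 : (y : ℝ) ≤ x + Real.exp X) :
    ∑ p ∈ P, (if x ≡ y [MOD p] then 1 / (p : ℝ) else 0) ≤ X / W := by
  rcases lt_or_gt_of_ne hxy with h | h
  · have h3 := g5_one P W hP hb hW X hX (y - x) (by omega) (by
      rw [Nat.cast_sub h.le]; linarith)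
    refine le_trans (le_of_eq (sum_congr rfl fun p hp => ?_)) h3
    have e1 : x ≡ y [MOD p] ↔ p ∣ y - x := Nat.modEq_iff_dvd' h.le
    simp only [e1]
  · have h3 := g5_one P W hP hb hW X hX (x - y) (by omega) (by
      rw [Nat.cast_sub (le_of_lt h)]; linarith)
    refine le_trans (le_of_eq (sum_congr rfl fun p hp => ?_)) h3
    have e1 : x ≡ y [MOD p] ↔ p ∣ x - y := by
      rw [Nat.ModEq.comm]
      exact Nat.modEq_iff_dvd' (le_of_lt h)
    simp only [e1]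

/-- `Σ_p #co(p)/p = Σ_{(j, j')} Σ_{p : p ∣ b j - b j'} 1/p`, `j ∈ B1`, `j' ∉ B1`, at most
`|J|^2 ≤ K^2` pairs; `b j ≠ b j'`, the difference is `≤ exp X` (`Nat.modEq_iff_dvd'`, one of the two
orders). `W ≥ 4 K^2 ≥ 4`. -/
theorem co_sum_le {P : Finset ℕ} {W K M : ℕ} {b : J → ℕ} {B1 : Finset J}
    (hF : Forms2 P W K M b B1) (X : ℝ) (hX : 1 ≤ X)
    (hd : ∀ j j', (b j : ℝ) ≤ b j' + Real.exp X) :
    ∑ p ∈ P, ((co B1 b p).card : ℝ) / p ≤ (K : ℝ) ^ 2 * X / W := by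
  classical
  have hW : 3 ≤ W := by
    have h1 := hF.KW
    have h2 := hF.one_le
    have h3 : 1 ≤ K ^ 2 := Nat.one_le_pow _ _ h2
    omega
  have hW0 : (0 : ℝ) < W := by
    have h5 : (3 : ℝ) ≤ W := by exact_mod_cast hW
    linarith
  have e1 : ∀ p ∈ P, ((co B1 b p).card : ℝ) / p ≤
      ∑ c ∈ (univ : Finset (J × J)).filter (fun c => c.1 ∈ B1 ∧ c.2 ∉ B1),
        (if b c.1 ≡ b c.2 [MOD p] then 1 / (p : ℝ) else 0) := by
    intro p hp
    rw [← sum_filter, sum_const, nsmul_eq_mul, filter_filter]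
    have e2 : co B1 b p = (univ : Finset (J × J)).filter
        (fun c => (c.1 ∈ B1 ∧ c.2 ∉ B1) ∧ b c.1 ≡ b c.2 [MOD p]) := by
      unfold co
      ext c
      simp only [mem_filter, mem_univ, true_and, and_assoc]
    rw [e2]
    apply le_of_eq
    rw [mul_one_div]
  refine (sum_le_sum e1).trans ?_
  rw [sum_comm]
  have e3 : ∀ c ∈ (univ : Finset (J × J)).filter (fun c => c.1 ∈ B1 ∧ c.2 ∉ B1),
      ∑ p ∈ P, (if b c.1 ≡ b c.2 [MOD p] then 1 / (p : ℝ) else 0) ≤ X / W := by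
    intro c hc
    have hc' := (mem_filter.mp hc).2
    refine g5_pair P W hF.prime hF.big hW X hX _ _ ?_ (hd _ _) (hd _ _)
    intro h
    have h1 := hF.inj h
    rw [h1] at hc'
    exact hc'.2 hc'.1
  refine (sum_le_sum e3).trans ?_
  rw [sum_const, nsmul_eq_mul]
  have h6 : (((univ : Finset (J × J)).filter (fun c => c.1 ∈ B1 ∧ c.2 ∉ B1)).card : ℝ) ≤ (K : ℝ) ^ 2 := by
    have h7 : ((univ : Finset (J × J)).filter (fun c => c.1 ∈ B1 ∧ c.2 ∉ B1)).card ≤ K ^ 2 := by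
      refine (card_filter_le _ _).trans ?_
      rw [card_univ, Fintype.card_prod, pow_two]
      exact Nat.mul_le_mul hF.card hF.card
    exact_mod_cast h7
  have h8 : 0 ≤ X / W := div_nonneg (by linarith) hW0.le
  calc _ ≤ (K : ℝ) ^ 2 * (X / W) := mul_le_mul_of_nonneg_right h6 h8
    _ = (K : ℝ) ^ 2 * X / W := by ring

end Pool.Agent.Lib.H64T
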