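import Pool.Agent.Lib.H64T.G2
import Pool.Agent.Lib.H64T.G3
import Pool.Agent.Lib.H64T.G4
import Pool.Agent.Lib.H64T.G5

/-!
# Chunk G6: the product of the weights of two windows, true mean value over a period
-/

open Finset

namespace Pool.Agent.Lib.H64T

open Pool.Agent.Lib.H15P

variable {J I : Type} [Fintype J] [DecidableEq J] [Fintype I] [DecidableEq I]

theorem g6_sum (P : Finset ℕ) (f : ℕ → ℝ) : ∑ i : {p // p ∈ P}, f i.1 = ∑ p ∈ P, f p :=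
  Finset.sum_coe_sort P f

theorem g6_beta (p u E : ℝ) (hp : 0 < p) : 4 / (p * u ^ 2) * ((10 * E) ^ 2 * u ^ 2) ≤ 400 * E ^ 2 / p := by
  by_cases hu : u = 0
  · rw [hu]
    have : 0 ≤ 400 * E ^ 2 / p := by positivity
    simpa using this
  · apply le_of_eq
    field_simp
    ring

/-- `EP_le_of` with `q = qq P K`, `a i = af K B1 b i`, `ψ i = pf (q i) B1 b i` (`w2_le`) and
`F S = LL B1 ^2 LL (univ \ B1) ^2`; the product over `i` of the densities is that of `EX_pair_le`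
with `cs i = co B1 b i`, `β i = 4/(p (q i)^2)`, and `β (10E)^2 q^2 = 400 E^2/p` (`q i > 0`). So
`EP F ≤ ∏ (1 + 2K/p^2)^|J| · exp (2 S) · exp (400 E^2 S) Z1 Z2`, `S = Σ_p #co/p ≤ K^2 X/W`
(`co_sum_le`), `∏ (1 + 2K/p^2)^|J| ≤ exp (2 K^2 Σ 1/p^2) ≤ exp (2 K^2/W)` (`H15P.sum_inv_sq_le`);
`1 + y ≤ exp y`. Total exponent `≤ 2K^2/W + 402 E^2 K^2 X/W ≤ 404 E^2 K^2 X/W`. -/
theorem EP_pair_le {P : Finset ℕ} {W K M : ℕ} {b : J → ℕ} {B1 : Finset J}
    (hF : Forms2 P W K M b B1) (D : I → Finset {p // p ∈ P} → ℝ) (h : ℝ)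
    (hg : Good (qq P K) D h) (E : ℝ) (hE : 1 ≤ E) (hI : 0 < Fintype.card I)
    (hit : ∀ i (T : Finset {p // p ∈ P}),
      ex (qq P K) (fun A => if T ⊆ A then D i A ^ 2 else 0) ≤
        4 * (E ^ T.card * ∏ p ∈ T, qq P K p)) (m : I → ℕ) (X : ℝ) (hX : 1 ≤ X)
    (hd : ∀ j j', (b j : ℝ) ≤ b j' + Real.exp X) :
    EP P M b (fun S => LL D m B1 S ^ 2 * LL D m (univ \ B1) S ^ 2) ≤
      Real.exp (404 * E ^ 2 * (K : ℝ) ^ 2 * X / W) *
        (ZZ (qq P K) D B1.card * ZZ (qq P K) D (univ \ B1).card) := by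
  set q : {p // p ∈ P} → ℝ := qq P K with hq
  have hW1 : 1 ≤ W := by
    have h1 := hF.KW
    have h2 := hF.one_le
    nlinarith
  have hW0 : (0:ℝ) < W := by exact_mod_cast hW1
  have hp0 : ∀ i : {p // p ∈ P}, (0:ℝ) < (i.1 : ℝ) := fun i => by
    exact_mod_cast (hF.prime i.1 i.2).pos
  have hE0 : 0 ≤ E := by linarith
  set S0 : ℝ := ∑ p ∈ P, ((co B1 b p).card : ℝ) / p with hS0
  have hS : S0 ≤ (K : ℝ) ^ 2 * X / W := co_sum_le hF X hX hd
  have hS00 : 0 ≤ S0 := Finset.sum_nonneg fun p _ => by positivity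
  have hinv : ∑ p ∈ P, 1 / (p : ℝ) ^ 2 ≤ 1 / (W : ℝ) := sum_inv_sq_le P W hW1 hF.big
  have haf0 : ∀ i : {p // p ∈ P}, 0 ≤ af K B1 b i.1 := by
    intro i
    unfold af
    positivity
  have h1 := EP_le_of P hF.prime M b q (fun i => af K B1 b i.1) (fun i => pf (q i) B1 b i.1) haf0
    (fun i s => w2_le hF i s) (fun S => LL D m B1 S ^ 2 * LL D m (univ \ B1) S ^ 2)
    (fun S => mul_nonneg (sq_nonneg _) (sq_nonneg _))
  have hβ0 : ∀ i : {p // p ∈ P}, 0 ≤ 4 / ((i.1 : ℝ) * q i ^ 2) := by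
    intro i
    have := hp0 i
    positivity
  have h2 := EX_pair_le q D h hg E hE hI hit m B1 (univ \ B1) Finset.disjoint_sdiff
    (fun i => co B1 b i.1) (fun i c hc => by
      have h3 := (Finset.mem_filter.1 hc).2
      intro h4
      exact h3.2.1 (h4 ▸ h3.1)) (fun i => 4 / ((i.1 : ℝ) * q i ^ 2)) hβ0
  have e1 : (fun S : J → Finset {p // p ∈ P} => LL D m B1 S ^ 2 * LL D m (univ \ B1) S ^ 2 *
        ∏ i, pf (q i) B1 b i.1 (univ.filter (fun j => i ∈ S j)))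
      = fun S : J → Finset {p // p ∈ P} => LL D m B1 S ^ 2 * LL D m (univ \ B1) S ^ 2 *
        ∏ i, (1 + ∑ c ∈ co B1 b i.1, 4 / ((i.1 : ℝ) * q i ^ 2) * (if i ∈ S c.1 ∧ i ∈ S c.2 then 1 else 0)) := by
    funext S
    congr 1
    refine Finset.prod_congr rfl fun i _ => ?_
    unfold pf
    simp only [Finset.mem_filter, Finset.mem_univ, true_and]
  rw [e1] at h1
  have hZ0 : 0 ≤ ZZ q D B1.card * ZZ q D (univ \ B1).card := by
    have h3 : 0 ≤ 1 + ∑ i, GG q D (some i) := by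
      have : 0 ≤ ∑ i, GG q D (some i) := by
        refine Finset.sum_nonneg fun i _ => ?_
        unfold GG ex
        refine div_nonneg (Finset.sum_nonneg fun A _ => mul_nonneg (sq_nonneg _) ?_) (sq_nonneg _)
        unfold bw
        refine Finset.prod_nonneg fun x _ => ?_
        split_ifs
        · exact hg.q0 x
        · linarith [hg.q1 x]
      linarith
    unfold ZZ
    positivity
  have hA : ∏ i : {p // p ∈ P}, af K B1 b i.1 ≤ Real.exp (2 * (K : ℝ) ^ 2 / W + 2 * S0) := by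
    have h3 : ∀ i : {p // p ∈ P}, af K B1 b i.1
        ≤ Real.exp (2 * (K : ℝ) ^ 2 * (1 / (i.1 : ℝ) ^ 2) + 2 * (((co B1 b i.1).card : ℝ) / (i.1 : ℝ))) := by
      intro i
      unfold af
      rw [Real.exp_add]
      refine mul_le_mul_of_nonneg_right ?_ (Real.exp_pos _).le
      have h4 : 1 + 2 * (K:ℝ) / (i.1 : ℝ) ^ 2 ≤ Real.exp (2 * (K:ℝ) / (i.1 : ℝ) ^ 2) := by
        have := Real.add_one_le_exp (2 * (K:ℝ) / (i.1 : ℝ) ^ 2)
        linarith
      refine (pow_le_pow_left₀ (by positivity) h4 _).trans ?_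
      rw [← Real.exp_nat_mul]
      refine Real.exp_le_exp.2 ?_
      have h5 : (Fintype.card J : ℝ) ≤ K := by exact_mod_cast hF.card
      have h6 : 0 ≤ 2 * (K:ℝ) / (i.1 : ℝ) ^ 2 := by positivity
      calc (Fintype.card J : ℝ) * (2 * (K:ℝ) / (i.1 : ℝ) ^ 2) ≤ K * (2 * (K:ℝ) / (i.1 : ℝ) ^ 2) :=
            mul_le_mul_of_nonneg_right h5 h6
        _ = 2 * (K : ℝ) ^ 2 * (1 / (i.1 : ℝ) ^ 2) := by ring
    refine (Finset.prod_le_prod (fun i _ => haf0 i) fun i _ => h3 i).trans ?_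
    rw [← Real.exp_sum]
    refine Real.exp_le_exp.2 ?_
    rw [g6_sum P (fun p => 2 * (K : ℝ) ^ 2 * (1 / (p : ℝ) ^ 2) + 2 * (((co B1 b p).card : ℝ) / (p : ℝ))),
      Finset.sum_add_distrib, ← Finset.mul_sum, ← Finset.mul_sum]
    have h4 : 2 * (K : ℝ) ^ 2 * ∑ p ∈ P, 1 / (p : ℝ) ^ 2 ≤ 2 * (K : ℝ) ^ 2 * (1 / W) :=
      mul_le_mul_of_nonneg_left hinv (by positivity)
    have h5 : 2 * (K : ℝ) ^ 2 * (1 / W) = 2 * (K : ℝ) ^ 2 / W := by ring
    linarith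
  have hB : ∏ i : {p // p ∈ P}, (1 + ((co B1 b i.1).card : ℝ) * (4 / ((i.1 : ℝ) * q i ^ 2) * ((10 * E) ^ 2 * q i ^ 2)))
      ≤ Real.exp (400 * E ^ 2 * S0) := by
    have h3 : ∀ i : {p // p ∈ P}, 1 + ((co B1 b i.1).card : ℝ) * (4 / ((i.1 : ℝ) * q i ^ 2) * ((10 * E) ^ 2 * q i ^ 2))
        ≤ Real.exp (400 * E ^ 2 * (((co B1 b i.1).card : ℝ) / (i.1 : ℝ))) := by
      intro i
      have h4 := Real.add_one_le_exp (400 * E ^ 2 * (((co B1 b i.1).card : ℝ) / (i.1 : ℝ)))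
      have h5 := g6_beta (i.1 : ℝ) (q i) E (hp0 i)
      have h6 : ((co B1 b i.1).card : ℝ) * (4 / ((i.1 : ℝ) * q i ^ 2) * ((10 * E) ^ 2 * q i ^ 2))
          ≤ ((co B1 b i.1).card : ℝ) * (400 * E ^ 2 / (i.1 : ℝ)) :=
        mul_le_mul_of_nonneg_left h5 (Nat.cast_nonneg _)
      have h7 : ((co B1 b i.1).card : ℝ) * (400 * E ^ 2 / (i.1 : ℝ))
          = 400 * E ^ 2 * (((co B1 b i.1).card : ℝ) / (i.1 : ℝ)) := by ring
      linarith
    refine (Finset.prod_le_prod (fun i _ => ?_) fun i _ => h3 i).trans ?_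
    · have := hβ0 i
      positivity
    rw [← Real.exp_sum]
    refine Real.exp_le_exp.2 ?_
    rw [g6_sum P (fun p => 400 * E ^ 2 * (((co B1 b p).card : ℝ) / (p : ℝ))), ← Finset.mul_sum]
  have hA0 : 0 ≤ ∏ i : {p // p ∈ P}, af K B1 b i.1 := Finset.prod_nonneg fun i _ => haf0 i
  calc EP P M b (fun S => LL D m B1 S ^ 2 * LL D m (univ \ B1) S ^ 2)
      ≤ (∏ i : {p // p ∈ P}, af K B1 b i.1) * ((∏ i : {p // p ∈ P}, (1 + ((co B1 b i.1).card : ℝ) *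
          (4 / ((i.1 : ℝ) * q i ^ 2) * ((10 * E) ^ 2 * q i ^ 2)))) *
          (ZZ q D B1.card * ZZ q D (univ \ B1).card)) := h1.trans (mul_le_mul_of_nonneg_left h2 hA0)
    _ ≤ Real.exp (2 * (K : ℝ) ^ 2 / W + 2 * S0) * (Real.exp (400 * E ^ 2 * S0) *
          (ZZ q D B1.card * ZZ q D (univ \ B1).card)) := by
        refine mul_le_mul hA (mul_le_mul_of_nonneg_right hB hZ0) (mul_nonneg (Finset.prod_nonneg fun i _ => ?_) hZ0)
          (Real.exp_pos _).le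
        have := hβ0 i
        positivity
    _ = Real.exp (2 * (K : ℝ) ^ 2 / W + 2 * S0 + 400 * E ^ 2 * S0) * (ZZ q D B1.card * ZZ q D (univ \ B1).card) := by
        rw [Real.exp_add (2 * (K : ℝ) ^ 2 / W + 2 * S0)]
        ring
    _ ≤ Real.exp (404 * E ^ 2 * (K : ℝ) ^ 2 * X / W) * (ZZ q D B1.card * ZZ q D (univ \ B1).card) := by
        refine mul_le_mul_of_nonneg_right (Real.exp_le_exp.2 ?_) hZ0
        have hE2 : 1 ≤ E ^ 2 := one_le_pow₀ hE
        have hKW0 : 0 ≤ (K : ℝ) ^ 2 / W := by positivity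
        have h3 : (K : ℝ) ^ 2 / W ≤ (K : ℝ) ^ 2 * X / W := by
          rw [mul_div_right_comm]
          exact le_mul_of_one_le_right hKW0 hX
        set T := (K : ℝ) ^ 2 * X / W with hT
        have h4 : 404 * E ^ 2 * (K : ℝ) ^ 2 * X / W = 404 * E ^ 2 * T := by
          rw [hT]
          ring
        have h5 : 2 * (K : ℝ) ^ 2 / W = 2 * ((K : ℝ) ^ 2 / W) := by ring
        rw [h4, h5]
        have h6 : E ^ 2 * S0 ≤ E ^ 2 * T := mul_le_mul_of_nonneg_left hS (by positivity)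
        have hT0 : 0 ≤ T := hKW0.trans h3
        have h7 : T ≤ E ^ 2 * T := le_mul_of_one_le_left hT0 hE2
        linarith

end Pool.Agent.Lib.H64T
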