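import Pool.Agent.Lib.H64T.W1
import Pool.Agent.Lib.H64T.G6

/-!
# Chunk W4: two windows at any distance
-/

open Finset

namespace Pool.Agent.Lib.H64T

open Pool.Agent.Lib.H15P

/-- As `H15P.WD.win_pair`, for two windows whose distance may be larger than the primes of `P`. `J` =
`{b // b ∈ B1 ∪ B2}`, `B1' = {j | j.1 ∈ B1}`, its complement is `{j | j.1 ∈ B2}`; `Forms2` holds
with `2K` in place of `K` (two elements of the same window differ by at most `W < p`). `w1_om` for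
both windows; the function `t ↦ LL B1'^2 LL B2'^2` has level `lv^4` (`Lev.mul`, `Lev.pow`, `levL`);
its mean over a period is at most `exp (1616 E^2 K^2 X/W) Z1 Z2 ≤ (1 + e)^2.. Z1 Z2` by `EP_pair_le` with
`hco` (`exp y ≤ 1 + 2 y` for `0 ≤ y ≤ 1`, so `exp (e/6) ≤ 1 + e/2`); the incomplete sum costs
`2 lv^4 ≤ e Y/2`. -/
theorem WT.win_pair (w : WT) (M : ℕ) (hM : ∀ p ∈ w.P, ¬ p ∣ M) (B1 B2 : Finset ℕ)
    (hB1 : B1.card ≤ w.K) (hB2 : B2.card ≤ w.K) (hdisj : Disjoint B1 B2)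
    (hd1 : ∀ b ∈ B1, ∀ b' ∈ B1, b ≤ b' + w.W) (hd2 : ∀ b ∈ B2, ∀ b' ∈ B2, b ≤ b' + w.W)
    (hX : ∀ b ∈ B1 ∪ B2, ∀ b' ∈ B1 ∪ B2, (b : ℝ) ≤ b' + Real.exp w.X) (Y0 Y : ℕ)
    (hY : 4 * w.K * w.lv ^ 4 ≤ w.e * Y) :
    ∑ t ∈ Ico Y0 (Y0 + Y), w.om (B1.image (fun b => b + M * t)) *
        w.om (B2.image (fun b => b + M * t)) ≤ (1 + 3 * w.e) * Y := by
  have hcardU : (B1 ∪ B2).card ≤ 2 * w.K := by
    have := Finset.card_union_le B1 B2
    omega
  set C1 := (univ : Finset {b // b ∈ B1 ∪ B2}).filter (fun j => j.1 ∈ B1) with hC1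
  set C2 := (univ : Finset {b // b ∈ B1 ∪ B2}).filter (fun j => j.1 ∈ B2) with hC2
  have hcd : ∀ B' : Finset ℕ, B' ⊆ B1 ∪ B2 →
      ((univ : Finset {b // b ∈ B1 ∪ B2}).filter (fun j => j.1 ∈ B')).card = B'.card := by
    intro B' hB'
    rw [← Finset.card_map (Function.Embedding.subtype (fun b => b ∈ B1 ∪ B2))]
    congr 1
    ext x
    simp only [Finset.mem_map, Finset.mem_filter, Finset.mem_univ, true_and,
      Function.Embedding.coe_subtype]
    constructor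
    · rintro ⟨a, ha, rfl⟩
      exact ha
    · intro hx
      exact ⟨⟨x, hB' hx⟩, hx, rfl⟩
  have hc1 : C1.card = B1.card := hcd B1 Finset.subset_union_left
  have hc2 : C2.card = B2.card := hcd B2 Finset.subset_union_right
  have hmem1 : ∀ j, j ∈ C1 ↔ j.1 ∈ B1 := fun j => by
    rw [hC1, Finset.mem_filter]
    exact ⟨fun h => h.2, fun h => ⟨Finset.mem_univ _, h⟩⟩
  have hmem2 : ∀ j, j ∉ C1 → j.1 ∈ B2 := fun j hj => by
    rcases Finset.mem_union.1 j.2 with h | h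
    · exact absurd ((hmem1 j).2 h) hj
    · exact h
  have hcompl : univ \ C1 = C2 := by
    ext j
    rw [Finset.mem_sdiff]
    constructor
    · rintro ⟨_, h⟩
      exact Finset.mem_filter.2 ⟨Finset.mem_univ _, hmem2 j h⟩
    · intro h
      refine ⟨Finset.mem_univ _, fun h1 => ?_⟩
      exact (Finset.disjoint_left.1 hdisj) ((hmem1 j).1 h1) (Finset.mem_filter.1 h).2
  have hF : Forms2 w.P w.W (2 * w.K) M (fun j : {b // b ∈ B1 ∪ B2} => j.1) C1 := by
    have hK := w.Kpos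
    refine ⟨w.prime, w.big, hM, ?_, fun a b h => Subtype.ext h, by omega, ?_, w.KW⟩
    · intro p hp j j' hjj hiff hcon
      have hne : j.1 ≠ j'.1 := fun h => hjj (Subtype.ext h)
      have hpW := w.big p hp
      have hle : j.1 ≤ j'.1 + w.W ∧ j'.1 ≤ j.1 + w.W := by
        by_cases hj : j ∈ C1
        · have h1 := (hmem1 j).1 hj
          have h2 := (hmem1 j').1 (hiff.1 hj)
          exact ⟨hd1 _ h1 _ h2, hd1 _ h2 _ h1⟩
        · have h1 := hmem2 j hj
          have h2 := hmem2 j' (fun h => hj (hiff.2 h))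
          exact ⟨hd2 _ h1 _ h2, hd2 _ h2 _ h1⟩
      rcases lt_or_gt_of_ne hne with h | h
      · have h1 := (Nat.modEq_iff_dvd' h.le).1 hcon
        have h2 := Nat.le_of_dvd (by omega) h1
        omega
      · have h1 := (Nat.modEq_iff_dvd' (le_of_lt h)).1 hcon.symm
        have h2 := Nat.le_of_dvd (by omega) h1
        omega
    · rw [Fintype.card_coe]
      exact hcardU
  set Z1 := ZZ (qq w.P (2 * w.K)) w.D B1.card with hZ1d
  set Z2 := ZZ (qq w.P (2 * w.K)) w.D B2.card with hZ2d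
  have hZ1 : 1 ≤ Z1 := w.w1_ZZ _
  have hZ2 : 1 ≤ Z2 := w.w1_ZZ _
  set F : ({b // b ∈ B1 ∪ B2} → Finset {p // p ∈ w.P}) → ℝ := fun S =>
    LL w.D w.m C1 S ^ 2 * LL w.D w.m C2 S ^ 2 with hFdef
  have hlev : Lev (∏ p ∈ w.P, p) (fun t => F (fun j => hit w.P (j.1 + M * t))) (w.lv ^ 4) := by
    have h1 := Lev.pow w.w1_Qpos (w.levL {b // b ∈ B1 ∪ B2} C1 M (fun j => j.1)
      (by rw [Fintype.card_coe]; exact hcardU)) 2
    have h2 := Lev.pow w.w1_Qpos (w.levL {b // b ∈ B1 ∪ B2} C2 M (fun j => j.1)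
      (by rw [Fintype.card_coe]; exact hcardU)) 2
    have h3 := Lev.mul w.w1_Qpos h1 h2
    have h4 : w.lv ^ 2 * w.lv ^ 2 = w.lv ^ 4 := by ring
    rw [h4] at h3
    exact h3
  have havg := w.w1_avg M (fun j : {b // b ∈ B1 ∪ B2} => j.1) F _ hlev Y0 Y
  have hEP : EP w.P M (fun j : {b // b ∈ B1 ∪ B2} => j.1) F ≤ (1 + w.e / 2) * (Z1 * Z2) := by
    have h0 := EP_pair_le hF w.D w.h w.good w.E w.hE (by rw [Fintype.card_fin]; exact w.npos)
      w.hit1 w.m w.X w.hX (fun j j' => hX j.1 j.2 j'.1 j'.2)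
    rw [hcompl, hc1, hc2] at h0
    refine h0.trans (mul_le_mul_of_nonneg_right ?_ (by positivity))
    have h1 : 404 * w.E ^ 2 * ((2 * w.K : ℕ) : ℝ) ^ 2 * w.X / w.W ≤ w.e / 6 := by
      have h2 : 404 * w.E ^ 2 * ((2 * w.K : ℕ) : ℝ) ^ 2 * w.X / w.W =
          (1616 / 10000) * (10000 * (w.K : ℝ) ^ 2 * w.E ^ 2 * w.X / w.W) := by
        push_cast
        ring
      rw [h2]
      have h3 := mul_le_mul_of_nonneg_left w.hco (by norm_num : (0 : ℝ) ≤ 1616 / 10000)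
      have h4 := w.e0
      linarith
    refine (Real.exp_le_exp.2 h1).trans ?_
    have h4 := w.e0
    have h5 := w.e1
    have h6 : 1 - w.e / 6 ≤ Real.exp (-(w.e / 6)) := Real.one_sub_le_exp_neg _
    rw [Real.exp_neg] at h6
    have h7 : 0 < Real.exp (w.e / 6) := Real.exp_pos _
    have h8 : (1 - w.e / 6) * Real.exp (w.e / 6) ≤ 1 := by
      have h9 := mul_le_mul_of_nonneg_right h6 h7.le
      rwa [inv_mul_cancel₀ h7.ne'] at h9
    have h9 : 1 ≤ (1 - w.e / 6) * (1 + w.e / 2) := by nlinarith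
    exact le_of_mul_le_mul_left (h8.trans h9) (by linarith)
  have hsum : ∑ t ∈ Ico Y0 (Y0 + Y), w.om (B1.image (fun b => b + M * t)) *
        w.om (B2.image (fun b => b + M * t)) =
      (∑ t ∈ Ico Y0 (Y0 + Y), F (fun j => hit w.P (j.1 + M * t))) / (Z1 * Z2) := by
    rw [Finset.sum_div]
    refine Finset.sum_congr rfl fun t _ => ?_
    rw [w.w1_om M (B1 ∪ B2) B1 Finset.subset_union_left t,
      w.w1_om M (B1 ∪ B2) B2 Finset.subset_union_right t, div_mul_div_comm]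
  have hZZ : 1 ≤ Z1 * Z2 := one_le_mul_of_one_le_of_one_le hZ1 hZ2
  have hZpos : 0 < Z1 * Z2 := by linarith
  rw [hsum, div_le_iff₀ hZpos]
  have he0 := w.e0
  have he1 := w.e1
  have hYr : (0 : ℝ) ≤ Y := Nat.cast_nonneg Y
  have herr := (w.w1_err Y hY 4 le_rfl).2
  have h2 := mul_le_mul_of_nonneg_left hEP hYr
  have h3 : w.e * Y * 1 ≤ w.e * Y * (Z1 * Z2) := mul_le_mul_of_nonneg_left hZZ (by positivity)
  rw [abs_le] at havg
  nlinarith [havg.2]

end Pool.Agent.Lib.H64T
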