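import Pool.Agent.Lib.H64T.C1
import Pool.Agent.Lib.H64T.W4

/-!
# Chunk C3: correlation of two windows, over an interval
-/

open Finset

namespace Pool.Agent.Lib.H64T

open Pool.Agent.Lib.H15P

/-- Class by class, as `H15P.WD.sum_wt_wt_le`: only the classes `a` with both `(N0 + a + s) % M`,
`(N0 + a + s') % M ∈ A` contribute, each at most `(M/#A)^2 (1 + 3e) Y` (`win_pair` for
`B1 = cB H M (N0 + a + s)`, `B2 = cB H M (N0 + a + s')`, which are disjoint as `s + H ≤ s'`; all
differences are at most `s' + H`). -/
theorem WT.wa_pair_le (w : WT) (H M : ℕ) (A : Finset ℕ) (Y : ℕ) (h : SetA w H M A Y) (N0 s s' : ℕ)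
    (hss : s + H ≤ s') (hX : ((s' + H : ℕ) : ℝ) ≤ Real.exp w.X) :
    ∑ n ∈ Ico N0 (N0 + M * Y), w.wa H M A (n + s) * w.wa H M A (n + s') ≤
      ((M : ℝ) / A.card) ^ 2 * ((1 + 3 * w.e) * Y) *
        (((range M).filter (fun a => (N0 + a + s) % M ∈ A ∧ (N0 + a + s') % M ∈ A)).card : ℝ) := by
  have hM0 := h.Mpos
  have he0 := w.e0
  rw [c1_classes M N0 Y hM0]
  have hclass : ∀ a ∈ range M,
      ∑ t ∈ Ico 0 (0 + Y), w.wa H M A (N0 + a + M * t + s) * w.wa H M A (N0 + a + M * t + s') ≤
        if ((N0 + a + s) % M ∈ A ∧ (N0 + a + s') % M ∈ A) then
          ((M : ℝ) / A.card) ^ 2 * ((1 + 3 * w.e) * Y) else 0 := by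
    intro a _
    have h1 : ∀ r t, w.wa H M A (N0 + a + M * t + r) = if (N0 + a + r) % M ∈ A then
      ((M : ℝ) / (A.card : ℝ)) * w.om ((cB H M (N0 + a + r)).image (fun b => b + M * t))
        else 0 := by
      intro r t
      rw [← wa_eq]
      congr 1
      ring
    simp only [h1]
    by_cases hc : (N0 + a + s) % M ∈ A
    · by_cases hc' : (N0 + a + s') % M ∈ A
      · simp only [hc, hc', if_true, and_self]
        have h2 := w.win_pair M h.cop (cB H M (N0 + a + s)) (cB H M (N0 + a + s'))
          (h.cB_le _ hc) (h.cB_le _ hc') (by
            rw [Finset.disjoint_left]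
            intro b hb hb'
            have h3 := cB_mem hb
            have h4 := cB_mem hb'
            omega) (by
            intro b hb b' hb'
            have h3 := cB_mem hb
            have h4 := cB_mem hb'
            have := h.HW
            omega) (by
            intro b hb b' hb'
            have h3 := cB_mem hb
            have h4 := cB_mem hb'
            have := h.HW
            omega) (by
            intro b hb b' hb'
            rw [mem_union] at hb hb'
            have h3 : b ≤ N0 + a + s' + H := by
              rcases hb with hb | hb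
              · have := cB_mem hb
                omega
              · have := cB_mem hb
                omega
            have h4 : N0 + a + s + 1 ≤ b' := by
              rcases hb' with hb' | hb'
              · have := cB_mem hb'
                omega
              · have := cB_mem hb'
                omega
            have h5 : b ≤ b' + (s' + H) := by omega
            have h6 : (b : ℝ) ≤ b' + ((s' + H : ℕ) : ℝ) := by exact_mod_cast h5
            linarith) 0 Y h.hY
        calc ∑ t ∈ Ico 0 (0 + Y), (M : ℝ) / (A.card : ℝ) *
              w.om ((cB H M (N0 + a + s)).image (fun b => b + M * t)) *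
              ((M : ℝ) / (A.card : ℝ) *
                w.om ((cB H M (N0 + a + s')).image (fun b => b + M * t)))
            = ((M : ℝ) / A.card) ^ 2 * ∑ t ∈ Ico 0 (0 + Y),
                w.om ((cB H M (N0 + a + s)).image (fun b => b + M * t)) *
                w.om ((cB H M (N0 + a + s')).image (fun b => b + M * t)) := by
              rw [mul_sum]
              refine sum_congr rfl fun t _ => ?_
              ring
          _ ≤ _ := mul_le_mul_of_nonneg_left h2 (sq_nonneg _)
      · simp only [hc', if_false, mul_zero, sum_const_zero, and_false]
        exact le_rfl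
    · simp only [hc, if_false, zero_mul, sum_const_zero, false_and]
      exact le_rfl
  refine (sum_le_sum hclass).trans (le_of_eq ?_)
  rw [← sum_filter, sum_const, nsmul_eq_mul]
  ring

end Pool.Agent.Lib.H64T
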