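import Pool.Agent.Lib.H64T.C2
import Pool.Agent.Lib.H64T.C3

/-!
# Chunk C4: second moment of the average of the weight over the shifts
-/

open Finset

namespace Pool.Agent.Lib.H64T

open Pool.Agent.Lib.H15P

/-- Double counting: `Σ_{s, s' ∈ (H, H+U]} #{a < M : (c + a + s) % M, (c + a + s') % M ∈ A} =`
`Σ_{a < M} (#{s ∈ (H, H+U] : (c + a + s) % M ∈ A})^2`. Trivially `≤ M U^2`; and an interval of `U`
integers has at most `U/M + 1` elements in each residue class, so it is also
`≤ M ((U/M + 1) #A)^2 = (U + M)^2 (#A)^2/M`. -/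
theorem c4_count (M H U c : ℕ) (hM : 0 < M) (A : Finset ℕ) (hA : ∀ a ∈ A, a < M) :
    ∑ s ∈ Ioc H (H + U), ∑ s' ∈ Ioc H (H + U),
        (((range M).filter (fun a => (c + a + s) % M ∈ A ∧ (c + a + s') % M ∈ A)).card : ℝ) ≤
      min ((M : ℝ) * (U : ℝ) ^ 2) (((U : ℝ) + M) ^ 2 * (A.card : ℝ) ^ 2 / M) := by
  have hM' : (0 : ℝ) < M := by exact_mod_cast hM
  refine le_min ?_ ?_
  · calc ∑ s ∈ Ioc H (H + U), ∑ s' ∈ Ioc H (H + U),
        (((range M).filter (fun a => (c + a + s) % M ∈ A ∧ (c + a + s') % M ∈ A)).card : ℝ)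
        ≤ ∑ s ∈ Ioc H (H + U), ∑ s' ∈ Ioc H (H + U), (M : ℝ) := by
          refine sum_le_sum fun s _ => sum_le_sum fun s' _ => ?_
          have h1 := card_filter_le (range M)
            (fun a => (c + a + s) % M ∈ A ∧ (c + a + s') % M ∈ A)
          rw [card_range] at h1
          exact_mod_cast h1
      _ = (M : ℝ) * (U : ℝ) ^ 2 := by
          rw [sum_const, sum_const, Nat.card_Ioc, nsmul_eq_mul, nsmul_eq_mul]
          have h2 : H + U - H = U := by omega
          rw [h2]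
          ring
  · have hswap : ∑ s ∈ Ioc H (H + U), ∑ s' ∈ Ioc H (H + U),
        (((range M).filter (fun a => (c + a + s) % M ∈ A ∧ (c + a + s') % M ∈ A)).card : ℝ) =
        ∑ a ∈ range M, (((Ioc H (H + U)).filter (fun s => (c + a + s) % M ∈ A)).card : ℝ) ^ 2 := by
      have h1 : ∀ s s', (((range M).filter
          (fun a => (c + a + s) % M ∈ A ∧ (c + a + s') % M ∈ A)).card : ℝ) =
          ∑ a ∈ range M, (if (c + a + s) % M ∈ A then (1 : ℝ) else 0) *
            (if (c + a + s') % M ∈ A then (1 : ℝ) else 0) := by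
        intro s s'
        rw [card_filter]
        push_cast
        refine sum_congr rfl fun a _ => ?_
        by_cases h2 : (c + a + s) % M ∈ A <;> by_cases h3 : (c + a + s') % M ∈ A <;>
          simp [h2, h3]
      simp only [h1]
      have h2 : ∀ a, (((Ioc H (H + U)).filter (fun s => (c + a + s) % M ∈ A)).card : ℝ) =
          ∑ s ∈ Ioc H (H + U), (if (c + a + s) % M ∈ A then (1 : ℝ) else 0) := by
        intro a
        rw [card_filter]
        push_cast
        rfl
      simp only [h2]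
      calc ∑ s ∈ Ioc H (H + U), ∑ s' ∈ Ioc H (H + U), ∑ a ∈ range M,
            (if (c + a + s) % M ∈ A then (1 : ℝ) else 0) *
              (if (c + a + s') % M ∈ A then (1 : ℝ) else 0)
          = ∑ s ∈ Ioc H (H + U), ∑ a ∈ range M, ∑ s' ∈ Ioc H (H + U),
            (if (c + a + s) % M ∈ A then (1 : ℝ) else 0) *
              (if (c + a + s') % M ∈ A then (1 : ℝ) else 0) :=
            sum_congr rfl fun s _ => sum_comm
        _ = ∑ a ∈ range M, ∑ s ∈ Ioc H (H + U), ∑ s' ∈ Ioc H (H + U),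
            (if (c + a + s) % M ∈ A then (1 : ℝ) else 0) *
              (if (c + a + s') % M ∈ A then (1 : ℝ) else 0) := sum_comm
        _ = _ := by
            refine sum_congr rfl fun a _ => ?_
            rw [sq, sum_mul_sum]
    rw [hswap]
    have hone : ∀ k r, r < M → (((Ioc H (H + U)).filter (fun s => (k + s) % M = r)).card : ℝ) ≤
        (U : ℝ) / M + 1 := by
      intro k r hr
      have h1 : (Ioc H (H + U)).filter (fun s => (k + s) % M = r) =
          (Ioc H (H + U)).filter (fun s => s ≡ r + (M * k - k) [MOD M]) := by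
        refine filter_congr fun s _ => ?_
        have hk : k ≤ M * k := Nat.le_mul_of_pos_left k hM
        have h2 : k + (r + (M * k - k)) ≡ r [MOD M] := by
          have h3 : k + (r + (M * k - k)) = r + M * k := by omega
          rw [h3]
          simp [Nat.ModEq]
        have h4 : r % M = r := Nat.mod_eq_of_lt hr
        constructor
        · intro h5
          have h6 : k + s ≡ r [MOD M] := by
            unfold Nat.ModEq
            rw [h5, h4]
          exact Nat.ModEq.add_left_cancel' k (h6.trans h2.symm)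
        · intro h5
          have h6 : k + s ≡ r [MOD M] := (h5.add_left k).trans h2
          unfold Nat.ModEq at h6
          rw [h6, h4]
      rw [h1]
      have h2 := Nat.Ioc_filter_modEq_card H (H + U) hM (r + (M * k - k))
      set v := r + (M * k - k) with hv
      have hMq : (0 : ℚ) < M := by exact_mod_cast hM
      have h3 : ((((Ioc H (H + U)).filter (fun s => s ≡ v [MOD M])).card : ℤ) : ℚ) ≤
          (U : ℚ) / M + 1 := by
        rw [h2]
        have h4 : ((⌊(((H + U : ℕ) : ℚ) - v) / M⌋ : ℤ) : ℚ) ≤ (((H + U : ℕ) : ℚ) - v) / M :=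
          Int.floor_le _
        have h5 : ((H : ℚ) - v) / M - 1 < ((⌊((H : ℚ) - v) / M⌋ : ℤ) : ℚ) :=
          Int.sub_one_lt_floor _
        have h6 : (((H + U : ℕ) : ℚ) - v) / M = ((H : ℚ) - v) / M + (U : ℚ) / M := by
          push_cast
          ring
        have h7 : (0 : ℚ) ≤ (U : ℚ) / M := by positivity
        push_cast at h4 h6 ⊢
        rw [max_le_iff]
        constructor
        · linarith
        · linarith
      have h8 : ((((Ioc H (H + U)).filter (fun s => s ≡ v [MOD M])).card : ℚ) : ℝ) ≤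
          (((U : ℚ) / M + 1 : ℚ) : ℝ) := by
        exact_mod_cast h3
      push_cast at h8
      exact h8
    have hcnt : ∀ a, (((Ioc H (H + U)).filter (fun s => (c + a + s) % M ∈ A)).card : ℝ) ≤
        A.card * ((U : ℝ) / M + 1) := by
      intro a
      have h1 : ((Ioc H (H + U)).filter (fun s => (c + a + s) % M ∈ A)).card =
          ∑ r ∈ A, ((Ioc H (H + U)).filter (fun s => (c + a + s) % M = r)).card := by
        rw [card_eq_sum_card_fiberwise (f := fun s => (c + a + s) % M) (t := A)]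
        · refine sum_congr rfl fun r hr => ?_
          congr 1
          ext s
          simp only [mem_filter]
          constructor
          · rintro ⟨⟨h1, _⟩, h3⟩
            exact ⟨h1, h3⟩
          · rintro ⟨h1, h3⟩
            exact ⟨⟨h1, h3 ▸ hr⟩, h3⟩
        · intro s hs
          have := (mem_filter.mp (mem_coe.mp hs)).2
          exact mem_coe.mpr this
      rw [h1]
      push_cast
      calc ∑ r ∈ A, (((Ioc H (H + U)).filter (fun s => (c + a + s) % M = r)).card : ℝ)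
          ≤ ∑ r ∈ A, ((U : ℝ) / M + 1) := sum_le_sum fun r hr => hone (c + a) r (hA r hr)
        _ = A.card * ((U : ℝ) / M + 1) := by rw [sum_const, nsmul_eq_mul]
    calc ∑ a ∈ range M, (((Ioc H (H + U)).filter (fun s => (c + a + s) % M ∈ A)).card : ℝ) ^ 2
        ≤ ∑ a ∈ range M, (A.card * ((U : ℝ) / M + 1)) ^ 2 :=
          sum_le_sum fun a _ => pow_le_pow_left₀ (Nat.cast_nonneg _) (hcnt a) 2
      _ = ((U : ℝ) + M) ^ 2 * (A.card : ℝ) ^ 2 / M := by
          rw [sum_const, card_range, nsmul_eq_mul]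
          field_simp

/-- `Σ_n (Σ_s wa(n+s))^2 = Σ_{s,s'} Σ_n wa(n+s) wa(n+s')`. The pairs with `|s - s'| < H` (for each
`s` at most `2H + 1` values `s'`) contribute at most `2 C (M/#A)(M Y)` each (`ab ≤ (a^2 + b^2)/2`,
`wa_sq_le`); the pairs with `|s - s'| ≥ H` are bounded by `wa_pair_le` (symmetric in `s, s'`), in total
`≤ (M/#A)^2 (1 + 3e) Y · c4_count`. If `M ≤ κ #A`: `(M/#A)^2 Y M U^2 ≤ κ^2 U^2 M Y`; if
`U + M ≤ κ U`: `(M/#A)^2 Y (U+M)^2 (#A)^2/M = (U+M)^2 M Y ≤ κ^2 U^2 M Y`. -/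
theorem WT.wa_avg (w : WT) (H M : ℕ) (A : Finset ℕ) (Y : ℕ) (h : SetA w H M A Y) (N0 U : ℕ)
    (hX : ((2 * H + U : ℕ) : ℝ) ≤ Real.exp w.X) (κ : ℝ) (hκ1 : 1 ≤ κ)
    (hκ : (M : ℝ) ≤ κ * A.card ∨ (U : ℝ) + M ≤ κ * U) :
    ∑ n ∈ Ico N0 (N0 + M * Y), (∑ s ∈ Ioc H (H + U), w.wa H M A (n + s)) ^ 2 ≤
      ((1 + 3 * w.e) * κ ^ 2 * (U : ℝ) ^ 2 +
        U * (2 * H + 1) * (2 * w.C * ((M : ℝ) / A.card))) * ((M : ℝ) * Y) := by
  have hM' : (0 : ℝ) < M := by exact_mod_cast h.Mpos
  have hA' : (0 : ℝ) < A.card := by exact_mod_cast h.ne.card_pos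
  have hC : 0 ≤ w.C := (Real.exp_pos _).le.trans w.hC
  have he0 := w.e0
  set S := Ioc H (H + U) with hS
  set D : ℝ := 2 * w.C * ((M : ℝ) / A.card) * ((M : ℝ) * Y) with hD
  have hD0 : 0 ≤ D := by positivity
  set B : ℝ := ((M : ℝ) / A.card) ^ 2 * ((1 + 3 * w.e) * Y) with hB
  have hB0 : 0 ≤ B := by positivity
  set cc : ℕ → ℕ → ℝ := fun s s' =>
    (((range M).filter (fun a => (N0 + a + s) % M ∈ A ∧ (N0 + a + s') % M ∈ A)).card : ℝ) with hcc
  have hcc0 : ∀ s s', 0 ≤ cc s s' := fun s s' => Nat.cast_nonneg _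
  have hccs : ∀ s s', cc s s' = cc s' s := by
    intro s s'
    simp only [hcc]
    congr 2
    ext a
    simp only [mem_filter, and_comm]
  have hexp : ∑ n ∈ Ico N0 (N0 + M * Y), (∑ s ∈ S, w.wa H M A (n + s)) ^ 2 =
      ∑ s ∈ S, ∑ s' ∈ S, ∑ n ∈ Ico N0 (N0 + M * Y), w.wa H M A (n + s) * w.wa H M A (n + s') := by
    calc ∑ n ∈ Ico N0 (N0 + M * Y), (∑ s ∈ S, w.wa H M A (n + s)) ^ 2
        = ∑ n ∈ Ico N0 (N0 + M * Y), ∑ s ∈ S, ∑ s' ∈ S,
            w.wa H M A (n + s) * w.wa H M A (n + s') := by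
          refine sum_congr rfl fun n _ => ?_
          rw [sq, sum_mul_sum]
      _ = ∑ s ∈ S, ∑ n ∈ Ico N0 (N0 + M * Y), ∑ s' ∈ S,
            w.wa H M A (n + s) * w.wa H M A (n + s') := sum_comm
      _ = _ := sum_congr rfl fun s _ => sum_comm
  rw [hexp]
  have hpair : ∀ s ∈ S, ∀ s' ∈ S,
      ∑ n ∈ Ico N0 (N0 + M * Y), w.wa H M A (n + s) * w.wa H M A (n + s') ≤
        B * cc s s' + (if s' ∈ Icc (s - H) (s + H) then D else 0) := by
    intro s hs s' hs'
    rw [hS, mem_Ioc] at hs hs'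
    by_cases h1 : s + H ≤ s'
    · have h2 := w.wa_pair_le H M A Y h N0 s s' h1 (by
        refine le_trans ?_ hX
        exact_mod_cast (by omega : s' + H ≤ 2 * H + U))
      have h3 : (0 : ℝ) ≤ (if s' ∈ Icc (s - H) (s + H) then D else 0) := by
        split_ifs
        · exact hD0
        · exact le_rfl
      linarith
    · by_cases h1' : s' + H ≤ s
      · have h2 := w.wa_pair_le H M A Y h N0 s' s h1' (by
          refine le_trans ?_ hX
          exact_mod_cast (by omega : s + H ≤ 2 * H + U))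
        have h3 : (0 : ℝ) ≤ (if s' ∈ Icc (s - H) (s + H) then D else 0) := by
          split_ifs
          · exact hD0
          · exact le_rfl
        have h4 : ∑ n ∈ Ico N0 (N0 + M * Y), w.wa H M A (n + s) * w.wa H M A (n + s') =
            ∑ n ∈ Ico N0 (N0 + M * Y), w.wa H M A (n + s') * w.wa H M A (n + s) :=
          sum_congr rfl fun n _ => mul_comm _ _
        have h5 : ∑ n ∈ Ico N0 (N0 + M * Y), w.wa H M A (n + s') * w.wa H M A (n + s) ≤
            B * cc s' s := h2
        rw [h4, hccs s s']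
        linarith
      · have h2 := w.wa_sq_le H M A Y h N0 s
        have h3 := w.wa_sq_le H M A Y h N0 s'
        have h4 : s' ∈ Icc (s - H) (s + H) := by
          rw [mem_Icc]
          omega
        rw [if_pos h4]
        have h5 : ∑ n ∈ Ico N0 (N0 + M * Y), w.wa H M A (n + s) * w.wa H M A (n + s') ≤
            ∑ n ∈ Ico N0 (N0 + M * Y), (w.wa H M A (n + s) ^ 2 + w.wa H M A (n + s') ^ 2) / 2 := by
          refine sum_le_sum fun n _ => ?_
          nlinarith [sq_nonneg (w.wa H M A (n + s) - w.wa H M A (n + s'))]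
        rw [← sum_div, sum_add_distrib] at h5
        have h6 : 0 ≤ B * cc s s' := mul_nonneg hB0 (hcc0 s s')
        have h7 : ∑ n ∈ Ico N0 (N0 + M * Y), w.wa H M A (n + s) ^ 2 ≤ D := h2
        have h8 : ∑ n ∈ Ico N0 (N0 + M * Y), w.wa H M A (n + s') ^ 2 ≤ D := h3
        linarith
  have hstep : ∑ s ∈ S, ∑ s' ∈ S,
      ∑ n ∈ Ico N0 (N0 + M * Y), w.wa H M A (n + s) * w.wa H M A (n + s') ≤
      B * (∑ s ∈ S, ∑ s' ∈ S, cc s s') + U * ((2 * H + 1) * D) := by
    calc ∑ s ∈ S, ∑ s' ∈ S,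
        ∑ n ∈ Ico N0 (N0 + M * Y), w.wa H M A (n + s) * w.wa H M A (n + s')
        ≤ ∑ s ∈ S, (B * (∑ s' ∈ S, cc s s') + (2 * H + 1) * D) := by
          refine sum_le_sum fun s hs => ?_
          refine (sum_le_sum (hpair s hs)).trans ?_
          rw [sum_add_distrib, ← mul_sum]
          have h1 : ∑ s' ∈ S, (if s' ∈ Icc (s - H) (s + H) then D else 0) ≤
              (2 * H + 1) * D := by
            rw [← sum_filter, sum_const, nsmul_eq_mul]
            refine mul_le_mul_of_nonneg_right ?_ hD0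
            have h2 : (S.filter (fun s' => s' ∈ Icc (s - H) (s + H))).card ≤
                (Icc (s - H) (s + H)).card :=
              card_le_card fun x hx => (mem_filter.mp hx).2
            rw [Nat.card_Icc] at h2
            have h3 : (S.filter (fun s' => s' ∈ Icc (s - H) (s + H))).card ≤ 2 * H + 1 := by
              omega
            exact_mod_cast h3
          linarith
      _ = B * (∑ s ∈ S, ∑ s' ∈ S, cc s s') + U * ((2 * H + 1) * D) := by
          rw [sum_add_distrib, ← mul_sum, sum_const, hS, Nat.card_Ioc, nsmul_eq_mul]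
          have h2 : H + U - H = U := by omega
          rw [h2]
  refine hstep.trans ?_
  have hmin := c4_count M H U N0 h.Mpos A h.sub
  have hBc : B * (∑ s ∈ S, ∑ s' ∈ S, cc s s') ≤
      (1 + 3 * w.e) * κ ^ 2 * (U : ℝ) ^ 2 * ((M : ℝ) * Y) := by
    have hY0 : (0 : ℝ) ≤ Y := Nat.cast_nonneg _
    have hU0 : (0 : ℝ) ≤ U := Nat.cast_nonneg _
    rcases hκ with hκ | hκ
    · have h1 : (∑ s ∈ S, ∑ s' ∈ S, cc s s') ≤ (M : ℝ) * (U : ℝ) ^ 2 :=
        hmin.trans (min_le_left _ _)
      have h2 : (M : ℝ) / A.card ≤ κ := by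
        rw [div_le_iff₀ hA']
        exact hκ
      have h3 : ((M : ℝ) / A.card) ^ 2 ≤ κ ^ 2 := pow_le_pow_left₀ (by positivity) h2 2
      calc B * (∑ s ∈ S, ∑ s' ∈ S, cc s s') ≤ B * ((M : ℝ) * (U : ℝ) ^ 2) :=
            mul_le_mul_of_nonneg_left h1 hB0
        _ = ((M : ℝ) / A.card) ^ 2 * ((1 + 3 * w.e) * Y * ((M : ℝ) * (U : ℝ) ^ 2)) := by
            rw [hB]
            ring
        _ ≤ κ ^ 2 * ((1 + 3 * w.e) * Y * ((M : ℝ) * (U : ℝ) ^ 2)) :=
            mul_le_mul_of_nonneg_right h3 (by positivity)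
        _ = _ := by ring
    · have h1 : (∑ s ∈ S, ∑ s' ∈ S, cc s s') ≤ ((U : ℝ) + M) ^ 2 * (A.card : ℝ) ^ 2 / M :=
        hmin.trans (min_le_right _ _)
      have h3 : ((U : ℝ) + M) ^ 2 ≤ (κ * U) ^ 2 := pow_le_pow_left₀ (by positivity) hκ 2
      calc B * (∑ s ∈ S, ∑ s' ∈ S, cc s s') ≤
            B * (((U : ℝ) + M) ^ 2 * (A.card : ℝ) ^ 2 / M) :=
            mul_le_mul_of_nonneg_left h1 hB0
        _ = ((1 + 3 * w.e) * Y * M) * ((U : ℝ) + M) ^ 2 := by
            rw [hB]
            field_simp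
        _ ≤ ((1 + 3 * w.e) * Y * M) * (κ * U) ^ 2 :=
            mul_le_mul_of_nonneg_left h3 (by positivity)
        _ = _ := by ring
  have hfin : ((1 + 3 * w.e) * κ ^ 2 * (U : ℝ) ^ 2 +
        U * (2 * H + 1) * (2 * w.C * ((M : ℝ) / A.card))) * ((M : ℝ) * Y) =
      (1 + 3 * w.e) * κ ^ 2 * (U : ℝ) ^ 2 * ((M : ℝ) * Y) + U * ((2 * H + 1) * D) := by
    rw [hD]
    ring
  rw [hfin]
  linarith

end Pool.Agent.Lib.H64T
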