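import Pool.Agent.Lib.H15P.WIN1
import Pool.Agent.Lib.H15P.AV
import Pool.Agent.Lib.H15P.TR3
import Pool.Agent.Lib.H15P.LV1

/-!
# H64T: definitions

Uniform lower bound for the tail of the distribution of prime gaps. The basic objects (`ex`, `EX`,
`EP`, `Forms`, `hit`, `qq`, `adm`, `dd`, `LL`, `LP`, `GG`, `ZZ`, `Good`, `Lev`, `LevS`, `DB`, `lam`,
`PP`, `bk`, `CC`) are those of `Lib/H15P`.
-/

open Finset

namespace Pool.Agent.Lib.H64T

open Pool.Agent.Lib.H15P

/-- All data of the weight function for one value of `x`, as `WD` of `Lib/H15P`, but with a bound for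
the second moments of the one form functions on the event that given primes divide the form
(constant `E`), and without the condition that the fourth moment is small compared with `W`.
`X` = bound for the logarithms of the differences of two windows. -/
structure WT where
  P : Finset ℕ
  W : ℕ
  K : ℕ
  n : ℕ
  D : Fin n → Finset {p // p ∈ P} → ℝ
  m : Fin n → ℕ
  lm : Finset {p // p ∈ P} → ℝ
  h : ℝ
  R : ℝ
  C : ℝ
  lv : ℝ
  e : ℝ
  E : ℝ
  X : ℝ
  prime : ∀ p ∈ P, p.Prime
  big : ∀ p ∈ P, W < p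
  npos : 0 < n
  Kpos : 1 ≤ K
  KW : 4 * (2 * K) ^ 2 ≤ W
  good : Good (qq P (2 * K)) D h
  h0 : 0 ≤ h
  hm : ∀ i, 2 * K * GG (qq P (2 * K)) D (some i) + R ≤ m i
  lm0 : ∀ A, 0 ≤ lm A
  lm1 : lm ∅ = 1
  e0 : 0 < e
  e1 : e ≤ 1 / 10
  hR : n * Real.exp (-R) ≤ e
  hC : Real.exp (((n : ℝ) + 1) ^ 4 * h * K) ≤ C
  hlm : K * Real.exp (-R) * ex (qq P (2 * K)) lm ≤ e
  hKW : Real.exp (2 * ((2 * K : ℕ) : ℝ) ^ 2 / W) ≤ 1 + e
  hE : 1 ≤ E
  hX : 1 ≤ X
  hit1 : ∀ (i : Fin n) (T : Finset {p // p ∈ P}),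
    ex (qq P (2 * K)) (fun A => if T ⊆ A then D i A ^ 2 else 0) ≤
      4 * (E ^ T.card * ∏ p ∈ T, qq P (2 * K) p)
  hco : 10000 * (K : ℝ) ^ 2 * E ^ 2 * X / W ≤ e
  lv1 : 1 ≤ lv
  levL : ∀ (J : Type) [Fintype J] [DecidableEq J] (B : Finset J) (M : ℕ) (b : J → ℕ),
    Fintype.card J ≤ 2 * K →
      Lev (∏ p ∈ P, p) (fun t => LL D m B (fun j => hit P (b j + M * t))) lv
  levP : ∀ (J : Type) [Fintype J] [DecidableEq J] (B : Finset J) (M : ℕ) (b : J → ℕ),
    Fintype.card J ≤ 2 * K →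
      Lev (∏ p ∈ P, p) (fun t => LP D m B (fun j => hit P (b j + M * t))) lv
  levlm : LevS P lm lv

/-- The weight of a finite set of integers. -/
noncomputable def WT.om (w : WT) (E : Finset ℕ) : ℝ :=
  (LL w.D w.m (univ : Finset {e // e ∈ E}) (fun e => hit w.P e.1)) ^ 2 /
    ZZ (qq w.P (2 * w.K)) w.D E.card

/-- Number of the elements of `E` without prime factor in `P`. -/
def WT.rough (w : WT) (E : Finset ℕ) : ℕ := (E.filter (fun e => ∀ p ∈ w.P, ¬ p ∣ e)).card

/-! ## Two windows: states of a prime -/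

/-- Proportion of the `t` modulo `p` such that `p` divides exactly the forms of `s`. -/
noncomputable def w2 {J : Type} [Fintype J] [DecidableEq J] (M : ℕ) (b : J → ℕ) (p : ℕ)
    (s : Finset J) : ℝ :=
  (((range p).filter (fun t => univ.filter (fun j => p ∣ b j + M * t) = s)).card : ℝ) / p

/-- The weight of the set `s` in the independent model at a prime of probability `u`. -/
noncomputable def bs {J : Type} [Fintype J] [DecidableEq J] (u : ℝ) (s : Finset J) : ℝ :=
  ∏ j : J, if j ∈ s then u else 1 - u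

/-- The pairs of congruent forms, one in `B1`, the other not in `B1`. -/
def co {J : Type} [Fintype J] [DecidableEq J] (B1 : Finset J) (b : J → ℕ) (p : ℕ) :
    Finset (J × J) :=
  univ.filter (fun c => c.1 ∈ B1 ∧ c.2 ∉ B1 ∧ b c.1 ≡ b c.2 [MOD p])

/-- Hypotheses on the primes `P` and the forms `b j + M t` of two windows `B1`, `univ \ B1`. -/
structure Forms2 {J : Type} [Fintype J] [DecidableEq J] (P : Finset ℕ) (W K M : ℕ) (b : J → ℕ)
    (B1 : Finset J) : Prop where
  prime : ∀ p ∈ P, p.Prime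
  big : ∀ p ∈ P, W < p
  cop : ∀ p ∈ P, ¬ p ∣ M
  dist : ∀ p ∈ P, ∀ j j', j ≠ j' → (j ∈ B1 ↔ j' ∈ B1) → ¬ (b j ≡ b j' [MOD p])
  inj : Function.Injective b
  one_le : 1 ≤ K
  card : Fintype.card J ≤ K
  KW : 4 * K ^ 2 ≤ W

/-! ## Classes -/

/-- The weight of `n`: that of `{n + h : h ∈ CC H M n}`, times the inverse of the density of the
set `A` of the allowed classes modulo `M`; `0` if the class of `n` is not in `A`. -/
noncomputable def WT.wa (w : WT) (H M : ℕ) (A : Finset ℕ) (n : ℕ) : ℝ :=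
  if n % M ∈ A then
    ((M : ℝ) / (A.card : ℝ)) * w.om ((CC H M n).image (fun h => n + h)) else 0

/-- Number of the shifts `h ∈ CC H M n` with `n + h` free of primes of `P`. -/
def WT.rg (w : WT) (H M n : ℕ) : ℕ := w.rough ((CC H M n).image (fun h => n + h))

/-- The common hypotheses on the length `H` of the window, the modulus `M`, the set `A` of the
allowed classes and the number `Y` of periods. -/
structure SetA (w : WT) (H M : ℕ) (A : Finset ℕ) (Y : ℕ) : Prop where
  Mpos : 0 < M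
  sub : ∀ a ∈ A, a < M
  ne : A.Nonempty
  cop : ∀ p ∈ w.P, ¬ p ∣ M
  card : ∀ a ∈ A, (CC H M a).card ≤ w.K
  HW : H ≤ w.W
  hY : 4 * w.K * w.lv ^ 4 ≤ w.e * Y

/-! ## The law -/

/-- `m = u log (16 + u)/loglog (16 + u)`. -/
noncomputable def mm (u : ℝ) : ℝ := u * Real.log (16 + u) / Real.log (Real.log (16 + u))

/-- `log x (log log x)^2 (log log log log x) / (log log log x)^2`. -/
noncomputable def F (x : ℝ) : ℝ :=
  Real.log x * (Real.log (Real.log x)) ^ 2 *
    Real.log (Real.log (Real.log (Real.log x))) / (Real.log (Real.log (Real.log x))) ^ 2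

/-- The exponent `θ = C m/(1 + C m)`, `m = mm (lam/loglog x)`. -/
noncomputable def th (C lam x : ℝ) : ℝ :=
  C * mm (lam / Real.log (Real.log x)) / (1 + C * mm (lam / Real.log (Real.log x)))

end Pool.Agent.Lib.H64T
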