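import Mathlib

/-!
# Smooth numbers: definition
-/

open Finset

namespace Pool.Agent.Lib.H64T

/-- The `z`-smooth numbers `1 ≤ n ≤ H`. -/
def smo (z H : ℕ) : Finset ℕ := (Icc 1 H).filter (fun n => ∀ p ∈ n.primeFactors, p ≤ z)

end Pool.Agent.Lib.H64T
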