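import Pool.Agent.Lib.H56G.ErLarge

/-!
# Chunk E1B: a sum over prime powers
-/

open Finset Real

namespace Pool.Agent.Lib.H64T

/-- For `1 ≤ t`: `Σ_{p ≤ min (z, t)} log t ≤ C t^(1-η) z^η`. With `π(n) ≤ C0 n/log n` (`n ≥ 2`,
`H56G.exists_pi_le`): if `t < 2` the left side is `0`; if `2 ≤ t ≤ z` it is
`≤ 2 C0 t ≤ 2 C0 t^(1-η) z^η`; if `t > z`, `t = z s`, it is `≤ C0 (z/log z)(log z + log s)`
`= C0 z (1 + log s/log z)` and `t^(1-η) z^η = z s^(1-η)`, `1 + log s/log z ≤ 1 + 2 log s ≤ 4 s^(1/2)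
≤ 4 s^(1-η)`. -/
theorem e1_inner : ∃ C : ℝ, 0 < C ∧ ∀ (z : ℕ) (t η : ℝ), 2 ≤ z → 1 ≤ t → 0 < η → η ≤ 1 / 10 →
    ((Nat.primeCounting (min z ⌊t⌋₊) : ℕ) : ℝ) * log t ≤ C * (t ^ (1 - η) * (z : ℝ) ^ η) := by
  obtain ⟨C0, hC0, hpi⟩ := H56G.exists_pi_le
  refine ⟨4 * C0, by positivity, ?_⟩
  intro z t η hz ht hη hη1
  have hz' : (2 : ℝ) ≤ z := by exact_mod_cast hz
  have ht0 : 0 < t := by linarith
  have hz0 : (0 : ℝ) < z := by linarith
  have hlt : 0 ≤ log t := log_nonneg ht
  have hR : 0 < t ^ (1 - η) * (z : ℝ) ^ η := by positivity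
  rcases lt_or_ge t 2 with h2 | h2
  · have h3 : ⌊t⌋₊ < 2 := by
      rw [Nat.floor_lt ht0.le]
      exact_mod_cast h2
    have h4 : Nat.primeCounting (min z ⌊t⌋₊) = 0 := by
      rw [Nat.primeCounting_eq_zero_iff]
      omega
    rw [h4, Nat.cast_zero, zero_mul]
    positivity
  · rcases le_or_gt t z with h3 | h3
    · have h4 : 2 ≤ ⌊t⌋₊ := Nat.le_floor (by exact_mod_cast h2)
      have h5 : ⌊t⌋₊ ≤ z := by
        have h6 : ((⌊t⌋₊ : ℕ) : ℝ) ≤ z := (Nat.floor_le ht0.le).trans h3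
        exact_mod_cast h6
      rw [min_eq_right h5]
      obtain ⟨n, hn⟩ : ∃ n : ℕ, n = ⌊t⌋₊ := ⟨_, rfl⟩
      rw [← hn] at h4 ⊢
      have hn2 : (2 : ℝ) ≤ n := by exact_mod_cast h4
      have hnt : (n : ℝ) ≤ t := by
        rw [hn]
        exact Nat.floor_le ht0.le
      have htn : t < n + 1 := by
        rw [hn]
        exact Nat.lt_floor_add_one t
      have hlogn : 0 < log n := log_pos (by linarith)
      have hlog : log t ≤ 2 * log n := by
        have h7 : t ≤ (n : ℝ) ^ 2 := by nlinarith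
        have h8 := log_le_log ht0 h7
        rw [log_pow] at h8
        exact_mod_cast h8
      have h9 := hpi n h4
      have h10 : t = t ^ (1 - η) * t ^ η := by
        rw [← rpow_add ht0]
        have e1 : 1 - η + η = 1 := by ring
        rw [e1, rpow_one]
      have h11 : t ^ η ≤ (z : ℝ) ^ η := rpow_le_rpow ht0.le h3 hη.le
      have h12 : t ≤ t ^ (1 - η) * (z : ℝ) ^ η := by
        have h13 := mul_le_mul_of_nonneg_left h11 (rpow_nonneg ht0.le (1 - η))
        linarith
      calc ((Nat.primeCounting n : ℕ) : ℝ) * log t ≤ (C0 * (n / log n)) * (2 * log n) :=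
            mul_le_mul h9 hlog hlt (by positivity)
        _ = 2 * C0 * n := by
            field_simp
        _ ≤ 2 * C0 * t := by gcongr
        _ ≤ 4 * C0 * t := by
            have : 0 ≤ C0 * t := by positivity
            linarith
        _ ≤ 4 * C0 * (t ^ (1 - η) * (z : ℝ) ^ η) := by gcongr
    · have h4 : z ≤ ⌊t⌋₊ := Nat.le_floor h3.le
      rw [min_eq_left h4]
      obtain ⟨s, hs⟩ : ∃ s : ℝ, s = t / z := ⟨_, rfl⟩
      have hts : t = z * s := by
        rw [hs]
        field_simp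
      have hs1 : 1 ≤ s := by
        rw [hs, le_div_iff₀ hz0]
        linarith
      have hs0 : 0 < s := by linarith
      have hlogz : 1 / 2 ≤ log z := by
        have h5 := log_le_log (by norm_num) hz'
        have h6 := Real.log_two_gt_d9
        linarith
      have hlogz0 : 0 < log z := by linarith
      have hlogs : log s ≤ 2 * (s ^ (1 / 2 : ℝ) - 1) := by
        have h5 : log s = 2 * log (s ^ (1 / 2 : ℝ)) := by
          rw [log_rpow hs0]
          ring
        have h6 := log_le_sub_one_of_pos (rpow_pos_of_pos hs0 (1 / 2 : ℝ))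
        rw [h5]
        linarith
      have hlogs0 : 0 ≤ log s := log_nonneg hs1
      have h7 : log t = log z + log s := by
        rw [hts, log_mul hz0.ne' hs0.ne']
      have h8 : s ^ (1 / 2 : ℝ) ≤ s ^ (1 - η) := rpow_le_rpow_of_exponent_le hs1 (by linarith)
      have h9 : t ^ (1 - η) * (z : ℝ) ^ η = z * s ^ (1 - η) := by
        rw [hts, mul_rpow hz0.le hs0.le]
        have e1 : (z : ℝ) ^ (1 - η) * s ^ (1 - η) * (z : ℝ) ^ η = (z : ℝ) ^ (1 - η) * (z : ℝ) ^ η * s ^ (1 - η) := by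
          ring
        rw [e1, ← rpow_add hz0]
        have e2 : 1 - η + η = 1 := by ring
        rw [e2, rpow_one]
      have h10 := hpi z hz
      have h11 : log t ≤ log z * (4 * s ^ (1 - η)) := by
        have h12 : log s ≤ log z * (2 * log s) := by nlinarith
        have h13 : log z * (2 * log s) ≤ log z * (2 * (2 * (s ^ (1 / 2 : ℝ) - 1))) := by gcongr
        have h14 : log z * (4 * s ^ (1 / 2 : ℝ)) ≤ log z * (4 * s ^ (1 - η)) := by gcongr
        rw [h7]
        nlinarith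
      calc ((Nat.primeCounting z : ℕ) : ℝ) * log t ≤ (C0 * (z / log z)) * (log z * (4 * s ^ (1 - η))) :=
            mul_le_mul h10 h11 hlt (by positivity)
        _ = 4 * C0 * (z * s ^ (1 - η)) := by
            field_simp
        _ = 4 * C0 * (t ^ (1 - η) * (z : ℝ) ^ η) := by rw [h9]

end Pool.Agent.Lib.H64T
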