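import Pool.Agent.Lib.H64T.E0

/-!
# Chunk E1C: the sum of the logarithms of the smooth numbers
-/

open Finset Real

namespace Pool.Agent.Lib.H64T

/-- The logarithm of a smooth number as a sum over prime powers. -/
theorem e1c_log (z H n : ℕ) (hn : n ∈ smo z H) :
    log n = ∑ p ∈ (Icc 1 z).filter Nat.Prime, ∑ k ∈ Icc 1 H, if p ^ k ∣ n then log (p : ℝ) else 0 := by
  unfold smo at hn
  rw [mem_filter, mem_Icc] at hn
  obtain ⟨⟨hn1, hnH⟩, hz⟩ := hn
  have hn0 : n ≠ 0 := by omega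
  rw [Real.log_nat_eq_sum_factorization, Finsupp.sum]
  have hsup : n.factorization.support = n.primeFactors := Nat.support_factorization n
  rw [hsup]
  have hsub : n.primeFactors ⊆ (Icc 1 z).filter Nat.Prime := by
    intro p hp
    rw [mem_filter, mem_Icc]
    have hpp := Nat.prime_of_mem_primeFactors hp
    exact ⟨⟨hpp.one_lt.le, hz p hp⟩, hpp⟩
  refine (Finset.sum_subset_zero_on_sdiff hsub ?_ ?_)
  · intro p hp
    rw [mem_sdiff, mem_filter] at hp
    refine Finset.sum_eq_zero fun k hk => ?_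
    rw [mem_Icc] at hk
    rw [if_neg]
    intro hd
    apply hp.2
    rw [Nat.mem_primeFactors]
    exact ⟨hp.1.2, (dvd_pow_self p (by omega)).trans hd, hn0⟩
  · intro p hp
    have hpp := Nat.prime_of_mem_primeFactors hp
    rw [← Finset.sum_filter, Finset.sum_const, nsmul_eq_mul]
    congr 1
    have hset : (Icc 1 H).filter (fun k => p ^ k ∣ n) = Icc 1 (n.factorization p) := by
      ext k
      rw [mem_filter, mem_Icc, mem_Icc, hpp.pow_dvd_iff_le_factorization hn0]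
      have h1 := Nat.factorization_lt p hn0
      omega
    rw [hset, Nat.card_Icc, Nat.add_sub_cancel]

theorem e1c_card (z H p k : ℕ) (hp : p.Prime) :
    ((smo z H).filter (fun n => p ^ k ∣ n)).card ≤ ((smo z H).filter (fun m => p ^ k * m ≤ H)).card := by
  have hpk : 0 < p ^ k := pow_pos hp.pos k
  refine Finset.card_le_card_of_injOn (fun n => n / p ^ k) ?_ ?_
  · intro n hn
    rw [Finset.mem_coe, mem_filter] at hn
    obtain ⟨hn1, hd⟩ := hn
    unfold smo at hn1 ⊢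
    rw [mem_filter, mem_Icc] at hn1
    obtain ⟨⟨h1, h2⟩, h3⟩ := hn1
    rw [Finset.mem_coe, mem_filter, mem_filter, mem_Icc]
    obtain ⟨m, rfl⟩ := hd
    have hm : (fun n => n / p ^ k) (p ^ k * m) = m := Nat.mul_div_cancel_left m hpk
    rw [hm]
    have hm0 : m ≠ 0 := by
      rintro rfl
      rw [mul_zero] at h1
      omega
    have hm1 : m ≤ p ^ k * m := Nat.le_mul_of_pos_left m hpk
    refine ⟨⟨⟨by omega, by omega⟩, fun q hq => h3 q ?_⟩, h2⟩
    rw [Nat.mem_primeFactors] at hq ⊢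
    exact ⟨hq.1, hq.2.1.mul_left _, by omega⟩
  · intro n hn n' hn' h
    rw [Finset.mem_coe, mem_filter] at hn hn'
    obtain ⟨m, rfl⟩ := hn.2
    obtain ⟨m', rfl⟩ := hn'.2
    have h1 : p ^ k * m / p ^ k = p ^ k * m' / p ^ k := h
    rw [Nat.mul_div_cancel_left m hpk, Nat.mul_div_cancel_left m' hpk] at h1
    rw [h1]

/-- The sum over the prime powers for one m. -/
theorem e1c_one (z H m : ℕ) (hm1 : 1 ≤ m) (hmH : m ≤ H) :
    ∑ p ∈ (Icc 1 z).filter Nat.Prime, ∑ k ∈ Icc 1 H, (if p ^ k * m ≤ H then log (p : ℝ) else 0) ≤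
      ((Nat.primeCounting (min z ⌊(H : ℝ) / m⌋₊) : ℕ) : ℝ) * log ((H : ℝ) / m) := by
  have hm0 : (0 : ℝ) < m := by exact_mod_cast hm1
  have hH1 : (1 : ℝ) ≤ (H : ℝ) / m := by
    rw [le_div_iff₀ hm0, one_mul]
    exact_mod_cast hmH
  have hl0 : 0 ≤ log ((H : ℝ) / m) := log_nonneg hH1
  have hfl : ⌊(H : ℝ) / m⌋₊ = H / m := Nat.floor_div_eq_div H m
  have hinner : ∀ p ∈ (Icc 1 z).filter Nat.Prime, ∑ k ∈ Icc 1 H, (if p ^ k * m ≤ H then log (p : ℝ) else 0) ≤
      if p ≤ ⌊(H : ℝ) / m⌋₊ then log ((H : ℝ) / m) else 0 := by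
    intro p hp
    rw [mem_filter, mem_Icc] at hp
    have hpp := hp.2
    have hp0 : (0 : ℝ) < p := by exact_mod_cast hpp.pos
    have hp1 : (1 : ℝ) ≤ p := by exact_mod_cast hpp.one_lt.le
    have hlp : 0 ≤ log (p : ℝ) := log_nonneg hp1
    rw [← Finset.sum_filter, Finset.sum_const, nsmul_eq_mul]
    rcases Finset.eq_empty_or_nonempty ((Icc 1 H).filter (fun k => p ^ k * m ≤ H)) with he | he
    · rw [he, Finset.card_empty, Nat.cast_zero, zero_mul]
      split_ifs
      · exact hl0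
      · exact le_rfl
    · obtain ⟨K0, hK0, hmax⟩ := Finset.exists_max_image _ (fun k => k) he
      have hcard : ((Icc 1 H).filter (fun k => p ^ k * m ≤ H)).card ≤ K0 := by
        have h1 : (Icc 1 H).filter (fun k => p ^ k * m ≤ H) ⊆ Icc 1 K0 := by
          intro k hk
          have h2 := hmax k hk
          rw [mem_filter, mem_Icc] at hk
          rw [mem_Icc]
          exact ⟨hk.1.1, h2⟩
        have h3 := Finset.card_le_card h1
        rwa [Nat.card_Icc, Nat.add_sub_cancel] at h3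
      rw [mem_filter, mem_Icc] at hK0
      have hpH : p ≤ ⌊(H : ℝ) / m⌋₊ := by
        rw [hfl, Nat.le_div_iff_mul_le hm1]
        refine le_trans ?_ hK0.2
        exact Nat.mul_le_mul_right m (Nat.le_self_pow (by omega) p)
      rw [if_pos hpH]
      have h4 : (((Icc 1 H).filter (fun k => p ^ k * m ≤ H)).card : ℝ) ≤ K0 := by exact_mod_cast hcard
      have h5 : (K0 : ℝ) * log p ≤ log ((H : ℝ) / m) := by
        rw [← log_pow]
        apply log_le_log (by positivity)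
        rw [le_div_iff₀ hm0]
        exact_mod_cast hK0.2
      exact (mul_le_mul_of_nonneg_right h4 hlp).trans h5
  refine (Finset.sum_le_sum hinner).trans (le_of_eq ?_)
  rw [← Finset.sum_filter, Finset.sum_const, nsmul_eq_mul, Finset.filter_filter]
  congr 2
  rw [← Nat.primesLE_card_eq_primeCounting]
  congr 1
  ext p
  rw [mem_filter, mem_Icc, Nat.mem_primesLE]
  constructor
  · rintro ⟨⟨h1, h2⟩, h3, h4⟩
    exact ⟨le_min h2 h4, h3⟩
  · rintro ⟨h1, h2⟩
    exact ⟨⟨h2.one_lt.le, h1.trans (min_le_left _ _)⟩, h2, h1.trans (min_le_right _ _)⟩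

/-- `Σ_{n ∈ smo} log n ≤ Σ_{m ∈ smo} π(min (z, H/m)) log (H/m)`: `log n = Σ_{d ∣ n} Λ(d)`
(`ArithmeticFunction.vonMangoldt_sum`), `n = d m` with `m` smooth, `m ≤ H/d`, and `d = p^k` a prime power
with `p ≤ z`; for given `m` and `p` the sum of `Λ(p^k) = log p` over the `k ≥ 1` with `p^k ≤ H/m` is
`≤ log (H/m)` (and there is one only if `p ≤ H/m`). -/
theorem e1_log (z H : ℕ) : ∑ n ∈ smo z H, log n ≤
    ∑ m ∈ smo z H, ((Nat.primeCounting (min z ⌊(H : ℝ) / m⌋₊) : ℕ) : ℝ) * log ((H : ℝ) / m) := by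
  have h1 : ∑ n ∈ smo z H, log (n : ℝ) =
      ∑ p ∈ (Icc 1 z).filter Nat.Prime, ∑ k ∈ Icc 1 H, ∑ n ∈ smo z H, if p ^ k ∣ n then log (p : ℝ) else 0 := by
    rw [Finset.sum_congr rfl (fun n hn => e1c_log z H n hn), Finset.sum_comm]
    exact Finset.sum_congr rfl fun p _ => Finset.sum_comm
  have h2 : ∀ p ∈ (Icc 1 z).filter Nat.Prime, ∀ k ∈ Icc 1 H, (∑ n ∈ smo z H, if p ^ k ∣ n then log (p : ℝ) else 0) ≤
      ∑ m ∈ smo z H, if p ^ k * m ≤ H then log (p : ℝ) else 0 := by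
    intro p hp k _
    rw [mem_filter] at hp
    have hlp : 0 ≤ log (p : ℝ) := log_nonneg (by exact_mod_cast hp.2.one_lt.le)
    rw [← Finset.sum_filter, ← Finset.sum_filter, Finset.sum_const, Finset.sum_const, nsmul_eq_mul, nsmul_eq_mul]
    have h3 : (((smo z H).filter (fun n => p ^ k ∣ n)).card : ℝ) ≤ ((smo z H).filter (fun m => p ^ k * m ≤ H)).card := by
      exact_mod_cast e1c_card z H p k hp.2
    exact mul_le_mul_of_nonneg_right h3 hlp
  rw [h1]
  refine (Finset.sum_le_sum fun p hp => Finset.sum_le_sum fun k hk => h2 p hp k hk).trans ?_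
  have h3 : ∑ p ∈ (Icc 1 z).filter Nat.Prime, ∑ k ∈ Icc 1 H, ∑ m ∈ smo z H, (if p ^ k * m ≤ H then log (p : ℝ) else 0) =
      ∑ m ∈ smo z H, ∑ p ∈ (Icc 1 z).filter Nat.Prime, ∑ k ∈ Icc 1 H, (if p ^ k * m ≤ H then log (p : ℝ) else 0) :=
    (Finset.sum_congr rfl fun p _ => Finset.sum_comm).trans Finset.sum_comm
  rw [h3]
  refine Finset.sum_le_sum fun m hm => ?_
  unfold smo at hm
  rw [mem_filter, mem_Icc] at hm
  exact e1c_one z H m hm.1.1 hm.1.2

end Pool.Agent.Lib.H64T
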