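import Pool.Agent.Lib.H64T.E1A
import Pool.Agent.Lib.H64T.E1B
import Pool.Agent.Lib.H64T.E1C

/-!
# Chunk E1: smooth numbers, Rankin bound without the loss of a logarithm
-/

open Finset Real

namespace Pool.Agent.Lib.H64T

/-- `log H #smo = Σ log n + Σ log (H/n)`; first sum: `e1_log`, `e1_inner` with `t = H/m`, `e1_sum`:
`≤ C H^(1-η) z^η Σ m^(-(1-η))`; second sum: `log t ≤ 2 t^(1/2) ≤ 2 t^(1-η)`:
`≤ 2 H^(1-η) Σ n^(-(1-η))`, `z^η ≥ 1`. -/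
theorem smooth_card_le : ∃ C : ℝ, 0 < C ∧ ∀ (z H : ℕ) (η : ℝ), 2 ≤ z → 2 ≤ H → 0 < η →
    η ≤ 1 / 10 →
    ((smo z H).card : ℝ) ≤ C * (log z / log H) * ((H : ℝ) ^ (1 - η) * (z : ℝ) ^ η) *
      exp (3 * exp (η * log z)) := by
  obtain ⟨C1, hC1, hin⟩ := e1_inner
  refine ⟨(C1 + 2) * exp (4 + 3 * H20R.K0), by positivity, ?_⟩
  intro z H η hz hH h0 h1
  have hlogH : 0 < log (H : ℝ) := Real.log_pos (by exact_mod_cast hH)
  have hlogz : 0 < log (z : ℝ) := Real.log_pos (by exact_mod_cast hz)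
  have hS := e1_sum z H hz η h0 h1
  have hmem : ∀ m ∈ smo z H, 1 ≤ m ∧ m ≤ H := by
    intro m hm
    have := (Finset.mem_filter.1 hm).1
    exact Finset.mem_Icc.1 this
  have hpow : ∀ m ∈ smo z H, ((H : ℝ) / m) ^ (1 - η) = (H : ℝ) ^ (1 - η) * (m : ℝ) ^ (-(1 - η)) := by
    intro m _
    rw [Real.div_rpow (by positivity) (by positivity), Real.rpow_neg (by positivity), div_eq_mul_inv]
  have ht1 : ∀ m ∈ smo z H, (1 : ℝ) ≤ (H : ℝ) / m := by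
    intro m hm
    obtain ⟨a, b⟩ := hmem m hm
    have a' : (0 : ℝ) < m := by exact_mod_cast a
    rw [le_div_iff₀ a', one_mul]
    exact_mod_cast b
  have hz1 : 1 ≤ (z : ℝ) ^ η := Real.one_le_rpow (by exact_mod_cast (le_trans (by norm_num) hz)) h0.le
  have hHp : 0 < (H : ℝ) ^ (1 - η) := Real.rpow_pos_of_pos (by exact_mod_cast (lt_of_lt_of_le (by norm_num) hH)) _
  have hSg0 : 0 ≤ ∑ m ∈ smo z H, (m : ℝ) ^ (-(1 - η)) := Finset.sum_nonneg fun m _ => by positivity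
  have A1 : ∑ n ∈ smo z H, log (n : ℝ) ≤
      C1 * ((H : ℝ) ^ (1 - η) * (z : ℝ) ^ η) * ∑ m ∈ smo z H, (m : ℝ) ^ (-(1 - η)) := by
    refine le_trans (e1_log z H) ?_
    rw [Finset.mul_sum]
    apply Finset.sum_le_sum
    intro m hm
    refine le_trans (hin z ((H : ℝ) / m) η hz (ht1 m hm) h0 h1) (le_of_eq ?_)
    rw [hpow m hm]
    ring
  have A2 : ∑ n ∈ smo z H, log ((H : ℝ) / n) ≤
      2 * ((H : ℝ) ^ (1 - η) * (z : ℝ) ^ η) * ∑ m ∈ smo z H, (m : ℝ) ^ (-(1 - η)) := by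
    rw [Finset.mul_sum]
    apply Finset.sum_le_sum
    intro m hm
    have h3 := ht1 m hm
    have h4 : log ((H : ℝ) / m) ≤ 2 * ((H : ℝ) / m) ^ ((1 : ℝ) / 2) := by
      have := Real.log_le_rpow_div (x := (H : ℝ) / m) (by positivity) (show (0 : ℝ) < 1 / 2 by norm_num)
      linarith
    have h5 : ((H : ℝ) / m) ^ ((1 : ℝ) / 2) ≤ ((H : ℝ) / m) ^ (1 - η) :=
      Real.rpow_le_rpow_of_exponent_le h3 (by linarith)
    have h6 : ((H : ℝ) / m) ^ (1 - η) ≤ ((H : ℝ) / m) ^ (1 - η) * (z : ℝ) ^ η :=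
      le_mul_of_one_le_right (by positivity) hz1
    rw [hpow m hm] at h5 h6
    calc log ((H : ℝ) / m) ≤ 2 * ((H : ℝ) ^ (1 - η) * (m : ℝ) ^ (-(1 - η)) * (z : ℝ) ^ η) := by linarith
      _ = 2 * ((H : ℝ) ^ (1 - η) * (z : ℝ) ^ η) * (m : ℝ) ^ (-(1 - η)) := by ring
  have A3 : ((smo z H).card : ℝ) * log H = ∑ n ∈ smo z H, log (n : ℝ) + ∑ n ∈ smo z H, log ((H : ℝ) / n) := by
    rw [← Finset.sum_add_distrib, ← nsmul_eq_mul, ← Finset.sum_const]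
    apply Finset.sum_congr rfl
    intro m hm
    have a' : (0 : ℝ) < m := by exact_mod_cast (hmem m hm).1
    have b' : (0 : ℝ) < H := by exact_mod_cast (lt_of_lt_of_le (by norm_num) hH)
    rw [Real.log_div b'.ne' a'.ne']
    ring
  have A4 : ((smo z H).card : ℝ) * log H ≤
      (C1 + 2) * ((H : ℝ) ^ (1 - η) * (z : ℝ) ^ η) * (exp (4 + 3 * H20R.K0 + 3 * exp (η * log z)) * log z) := by
    rw [A3]
    calc _ ≤ (C1 + 2) * ((H : ℝ) ^ (1 - η) * (z : ℝ) ^ η) * ∑ m ∈ smo z H, (m : ℝ) ^ (-(1 - η)) := by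
          linarith
      _ ≤ _ := mul_le_mul_of_nonneg_left hS (by positivity)
  have A5 : ((smo z H).card : ℝ) ≤
      ((C1 + 2) * ((H : ℝ) ^ (1 - η) * (z : ℝ) ^ η) * (exp (4 + 3 * H20R.K0 + 3 * exp (η * log z)) * log z)) / log H := by
    rw [le_div_iff₀ hlogH]; exact A4
  refine le_trans A5 (le_of_eq ?_)
  rw [Real.exp_add]
  ring

end Pool.Agent.Lib.H64T
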