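import Pool.Agent.Lib.H64T.E0
import Pool.Agent.Lib.H20R.Euler

/-!
# Chunk E1A: sum over the smooth numbers
-/

open Finset Real

namespace Pool.Agent.Lib.H64T

open Pool.Agent.Lib.Sieve Pool.Agent.Lib.Helper57 Pool.Agent.Lib.H10.LPF in
/-- The Euler product for the smooth numbers. -/
theorem e1a_euler (s : ℝ) (hs : 0 < s) (z U : ℕ) :
    ∑ m ∈ smo z U, ((m : ℝ) ^ (-s)) ≤ ∏ p ∈ primesUpTo z, (1 - (p : ℝ) ^ (-s))⁻¹ := by
  classical
  have hnorm : ∀ {p : ℕ}, p.Prime → ‖powHom s p‖ < 1 := by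
    intro p hp
    have hp1 : (1 : ℝ) < p := by exact_mod_cast hp.one_lt
    rw [powHom_apply, Real.norm_eq_abs, abs_of_nonneg (Real.rpow_nonneg (by linarith) _)]
    exact Real.rpow_lt_one_of_one_lt_of_neg hp1 (by linarith)
  have h1 := EulerProduct.summable_and_hasSum_smoothNumbers_prod_primesBelow_geometric
    (f := powHom s) hnorm (z + 1)
  obtain ⟨hsum, hhas⟩ := h1
  have h2 : ∏ p ∈ (z + 1).primesBelow, (1 - powHom s p)⁻¹
      = ∏ p ∈ primesUpTo z, (1 - (p : ℝ) ^ (-s))⁻¹ := rfl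
  rw [h2] at hhas
  let t : Finset (Nat.smoothNumbers (z + 1)) :=
    (smo z U).attach.map ⟨fun m => ⟨m.1, by
      have hm := Finset.mem_filter.mp m.2
      have hm1 := Finset.mem_Icc.mp hm.1
      rw [Nat.mem_smoothNumbers]
      refine ⟨by omega, fun p hp => ?_⟩
      have hp' := Nat.prime_of_mem_primeFactorsList hp
      have := hm.2 p (Nat.mem_primeFactors.mpr
        ⟨hp', Nat.dvd_of_mem_primeFactorsList hp, by omega⟩)
      omega⟩, fun a b hab => by
      apply Subtype.ext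
      exact congrArg (fun x => x.1) hab⟩
  have h4 := sum_le_hasSum t (fun i _ => by
    rw [powHom_apply]
    positivity) hhas
  refine le_trans (le_of_eq ?_) h4
  rw [Finset.sum_map]
  simp only [Function.Embedding.coeFn_mk, powHom_apply]
  exact (Finset.sum_attach (smo z U) fun m => ((m : ℝ) ^ (-s))).symm

/-- `Σ_{n smooth} n^(-(1-η)) ≤ ∏ (1 - p^-(1-η))^-1` (proof of `H10.LPF.rankin`, there `h3`) and
`H20R.euler_le`. -/
theorem e1_sum (z H : ℕ) (hz : 2 ≤ z) (η : ℝ) (h0 : 0 < η) (h1 : η ≤ 1 / 10) :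
    ∑ m ∈ smo z H, (m : ℝ) ^ (-(1 - η)) ≤
      exp (4 + 3 * H20R.K0 + 3 * exp (η * log z)) * log z :=
  (e1a_euler (1 - η) (by linarith) z H).trans (H20R.euler_le z hz η h0 h1)

end Pool.Agent.Lib.H64T
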