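import Pool.Agent.Lib.H64T.E1
import Pool.Agent.Lib.H56G.ErMain

/-!
# Chunk E2: Erdős-Rankin with the primes up to `(log x)^(1 - 1/a)`
-/

open Finset Real

namespace Pool.Agent.Lib.H64T

/-- the numerical part: `X, X2, X3` are the iterated logarithms of `x`. -/
theorem e2_core (C C' c0 c3 X X2 X3 a LA LLA : ℝ) (hC : 0 < C) (hC' : 0 < C')
    (hc3 : 0 < c3) (hc31 : c3 ≤ 1) (hcc : 18 * (10 * C + 3 * C') * c3 ≤ c0)
    (hlarge : ∀ H y : ℕ, 2 ≤ y → y ≤ H →
      (((Icc 1 H).filter (fun h => ∃ q ∈ h.primeFactors, y < q)).card : ℝ)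
        ≤ C * (H / log y) * (1 + log ((H : ℝ) / y)))
    (hsmooth : ∀ (z H : ℕ) (η : ℝ), 2 ≤ z → 2 ≤ H → 0 < η → η ≤ 1 / 10 →
      ((smo z H).card : ℝ) ≤ C' * (log z / log H) * ((H : ℝ) ^ (1 - η) * (z : ℝ) ^ η) *
        exp (3 * exp (η * log z)))
    (hX : 0 < X) (hX2 : log X = X2) (hX3 : log X2 = X3) (hX3p : 1 ≤ X3) (h23 : 90 * X3 ≤ X2)
    (ha : 16 ≤ a) (haX : a ≤ X2 / X3) (hLA : log a = LA) (hLLA : log LA = LLA)
    (H : ℕ) (hH1 : X / 2 ≤ H) (hH2 : (H : ℝ) ≤ c3 * X * X2 * (a * LLA / LA)) :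
    ∃ r < primorial ⌊X ^ (1 - 1 / a)⌋₊,
      (((Icc 1 H).filter
        (fun h => Nat.Coprime (r + h) (primorial ⌊X ^ (1 - 1 / a)⌋₊))).card : ℝ) ≤
        c0 * X := by
  have ha0 : 0 < a := by linarith
  have hX30 : 0 < X3 := by linarith
  have hX20 : 0 < X2 := by linarith
  have hX290 : 90 ≤ X2 := by linarith
  have hX' : X = exp X2 := by rw [← hX2, Real.exp_log hX]
  have hX2' : X2 = exp X3 := by rw [← hX3, Real.exp_log hX20]
  have hl2 := Real.log_two_lt_d9
  have hl2' := Real.log_two_gt_d9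
  have hLAe : exp 1 ≤ LA := by
    have h16 : log 16 = 4 * log 2 := by
      rw [show (16 : ℝ) = 2 ^ 4 by norm_num, Real.log_pow]
      norm_num
    have h1 := Real.log_le_log (by norm_num) ha
    rw [h16, hLA] at h1
    have := Real.exp_one_lt_d9
    linarith
  have hLA1 : 1 ≤ LA := by
    have := Real.add_one_le_exp (1 : ℝ)
    linarith
  have hLA0 : 0 < LA := by linarith
  have hLLA1 : 1 ≤ LLA := by
    have := Real.log_le_log (Real.exp_pos 1) hLAe
    rwa [Real.log_exp, hLLA] at this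
  have hLLA0 : 0 < LLA := by linarith
  have haE : a = exp LA := by rw [← hLA, Real.exp_log ha0]
  have hLAE : LA = exp LLA := by rw [← hLLA, Real.exp_log hLA0]
  have hLLA_le : LLA ≤ LA := by
    have := Real.add_one_le_exp LLA
    rw [← hLAE] at this
    linarith
  have hLA_a : LA ≤ a := by
    have := Real.add_one_le_exp LA
    rw [← haE] at this
    linarith
  have haX3 : X3 ≤ X2 / a := by
    rw [le_div_iff₀ ha0]
    rw [le_div_iff₀ hX30] at haX
    linarith
  have haX2 : a ≤ X2 := by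
    refine haX.trans (div_le_self hX20.le hX3p)
  have hLAX3 : LA ≤ X3 := by
    rw [← hLA, ← hX3]
    exact Real.log_le_log ha0 haX2
  have ha16 : 1 / a ≤ 1 / 16 := one_div_le_one_div_of_le (by norm_num) ha
  have ha1 : 0 < 1 / a := by positivity
  -- `y`
  set Y : ℝ := X ^ (1 - 1 / a) with hY
  have hYe : Y = exp (X2 * (1 - 1 / a)) := by
    rw [hY, Real.rpow_def_of_pos hX, hX2]
  have hY0 : 0 < Y := by rw [hYe]; exact Real.exp_pos _
  have hY4 : 4 ≤ Y := by
    have h1 := Real.add_one_le_exp (X2 * (1 - 1 / a))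
    rw [← hYe] at h1
    nlinarith
  have hYX : Y * exp (X2 / a) = X := by
    rw [hYe, ← Real.exp_add, hX']
    congr 1
    field_simp
    ring
  set y : ℕ := ⌊Y⌋₊ with hy
  have hy1 : Y / 2 ≤ y := by
    have := Nat.lt_floor_add_one Y
    rw [← hy] at this
    linarith
  have hy2 : (y : ℝ) ≤ Y := Nat.floor_le hY0.le
  have hy3' : (2 : ℝ) ≤ y := by linarith
  have hy3 : 2 ≤ y := by exact_mod_cast hy3'
  have hy0 : (0 : ℝ) < y := by linarith
  have hlogy : X2 / 2 ≤ log y := by
    have h1 := Real.log_le_log (by positivity) hy1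
    rw [Real.log_div hY0.ne' (by norm_num), hYe, Real.log_exp] at h1
    nlinarith
  have hlogy0 : 0 < log y := by linarith
  have hH0 : (0 : ℝ) < H := by
    have : 0 < X / 2 := by positivity
    linarith
  have hX4 : 4 ≤ X := by
    have := Real.add_one_le_exp X2
    rw [← hX'] at this
    linarith
  have hH2' : 2 ≤ H := by
    have : (2 : ℝ) ≤ H := by linarith
    exact_mod_cast this
  have hexpa : 2 ≤ exp (X2 / a) := by
    have := Real.add_one_le_exp (X2 / a)
    linarith
  have hyH' : (y : ℝ) ≤ H := by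
    have : Y * 2 ≤ Y * exp (X2 / a) := mul_le_mul_of_nonneg_left hexpa hY0.le
    linarith
  have hyH : y ≤ H := by exact_mod_cast hyH'
  have hlogH : X2 - log 2 ≤ log H := by
    have h1 := Real.log_le_log (by positivity) hH1
    rwa [Real.log_div hX.ne' (by norm_num), hX2] at h1
  have hlogH0 : 0 < log H := by linarith
  -- `g`
  have hg : a * LLA / LA ≤ a := by
    rw [div_le_iff₀ hLA0]
    exact mul_le_mul_of_nonneg_left hLLA_le ha0.le
  have hg0 : 0 < a * LLA / LA := by positivity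
  -- `z`
  set Q := X2 * LLA / (9 * LA) with hQdef
  have hQ4 : 4 ≤ Q := by
    rw [hQdef, le_div_iff₀ (by positivity)]
    have h1 : X2 * 1 ≤ X2 * LLA := mul_le_mul_of_nonneg_left hLLA1 hX20.le
    linarith
  have hQ0 : 0 < Q := by linarith
  set z : ℕ := ⌊exp Q⌋₊ with hz
  have hzle : (z : ℝ) ≤ exp Q := Nat.floor_le (Real.exp_pos _).le
  have hexpQ : 5 ≤ exp Q := by
    have := Real.add_one_le_exp Q
    linarith
  have hzge : exp Q / 2 ≤ z := by
    have := Nat.lt_floor_add_one (exp Q)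
    rw [← hz] at this
    linarith
  have hz2' : (2 : ℝ) ≤ z := by linarith
  have hz2 : 2 ≤ z := by exact_mod_cast hz2'
  have hz0 : (0 : ℝ) < z := by linarith
  have hlogz_le : log z ≤ Q := by
    have := Real.log_le_log hz0 hzle
    rwa [Real.log_exp] at this
  have hlogz_ge : Q / 2 ≤ log z := by
    have h2 := Real.log_le_log (by positivity) hzge
    rw [Real.log_div (Real.exp_pos _).ne' (by norm_num), Real.log_exp] at h2
    linarith
  have hlogz0 : 0 < log z := by linarith
  have hQX2 : Q ≤ X2 / 9 := by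
    rw [hQdef, div_le_div_iff₀ (by positivity) (by norm_num)]
    have h1 : X2 * LLA ≤ X2 * LA := mul_le_mul_of_nonneg_left hLLA_le hX20.le
    linarith
  have hzy : z ≤ y := by
    have h1 : log z ≤ log y := by linarith
    have := (Real.log_le_log_iff hz0 hy0).mp h1
    exact_mod_cast this
  obtain ⟨r, hr, hcard⟩ := H56G.er_combine z y H hz2 hzy
  refine ⟨r, hr, hcard.trans ?_⟩
  -- large prime factors
  have hL := hlarge H y hy3 hyH
  have hL2 : C * (H / log y) * (1 + log ((H : ℝ) / y)) ≤ 10 * C * (H / a) := by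
    have h1 : log ((H : ℝ) / y) ≤ log 2 + X3 + LA + X2 / a := by
      have h2 : (H : ℝ) / y ≤ 2 * X2 * a * exp (X2 / a) := by
        rw [div_le_iff₀ hy0]
        calc (H : ℝ) ≤ c3 * X * X2 * (a * LLA / LA) := hH2
          _ ≤ 1 * X * X2 * a := by
              apply mul_le_mul _ hg hg0.le (by positivity)
              apply mul_le_mul_of_nonneg_right _ hX20.le
              exact mul_le_mul_of_nonneg_right hc31 hX.le
          _ = 2 * X2 * a * exp (X2 / a) * (Y / 2) := by rw [← hYX]; ring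
          _ ≤ 2 * X2 * a * exp (X2 / a) * y := mul_le_mul_of_nonneg_left hy1 (by positivity)
      have h3 := Real.log_le_log (by positivity) h2
      rw [Real.log_mul (by positivity) (by positivity), Real.log_exp,
        Real.log_mul (by positivity) (by positivity), Real.log_mul (by norm_num) (by positivity),
        hX3, hLA] at h3
      exact h3
    have h2 : 1 + log ((H : ℝ) / y) ≤ 5 * (X2 / a) := by linarith
    have h3 : (H : ℝ) / log y ≤ H / (X2 / 2) :=
      div_le_div_of_nonneg_left hH0.le (by positivity) hlogy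
    calc C * (H / log y) * (1 + log ((H : ℝ) / y))
        ≤ C * (H / log y) * (5 * (X2 / a)) := mul_le_mul_of_nonneg_left h2 (by positivity)
      _ ≤ C * (H / (X2 / 2)) * (5 * (X2 / a)) := by
          apply mul_le_mul_of_nonneg_right _ (by positivity)
          exact mul_le_mul_of_nonneg_left h3 hC.le
      _ = 10 * C * (H / a) := by
          field_simp
          ring
  -- smooth numbers
  have hη1 : 9 * LA / X2 ≤ 1 / 10 := by
    rw [div_le_div_iff₀ hX20 (by norm_num)]
    linarith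
  have hη0 : 0 < 9 * LA / X2 := by positivity
  have hS := hsmooth z H (9 * LA / X2) hz2 hH2' hη0 hη1
  have hS2 : C' * (log z / log H) * ((H : ℝ) ^ (1 - 9 * LA / X2) * (z : ℝ) ^ (9 * LA / X2)) *
        exp (3 * exp (9 * LA / X2 * log z)) ≤ 3 * C' * (H / a) := by
    have h1 : 9 * LA / X2 * log z ≤ LLA := by
      calc 9 * LA / X2 * log z ≤ 9 * LA / X2 * Q :=
            mul_le_mul_of_nonneg_left hlogz_le (by positivity)
        _ = LLA := by
            rw [hQdef]
            field_simp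
    have h2 : exp (9 * LA / X2 * log z) ≤ LA := by
      rw [hLAE]
      have := Real.exp_le_exp.mpr h1
      rw [hLAE] at this
      exact this
    have h2' : (z : ℝ) ^ (9 * LA / X2) ≤ LA := by
      rw [Real.rpow_def_of_pos hz0, mul_comm]
      exact h2
    have h3 : exp (3 * exp (9 * LA / X2 * log z)) ≤ a ^ 3 := by
      calc exp (3 * exp (9 * LA / X2 * log z)) ≤ exp (3 * LA) :=
            Real.exp_le_exp.mpr (by linarith)
        _ = a ^ 3 := by
            rw [haE, ← Real.exp_nat_mul]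
            norm_num
    have h5 : (H : ℝ) ^ (1 - 9 * LA / X2) ≤ 3 * H * (1 / a ^ 9) := by
      rw [Real.rpow_sub hH0, Real.rpow_one]
      have h6 : a ^ 9 / 3 ≤ (H : ℝ) ^ (9 * LA / X2) := by
        rw [Real.rpow_def_of_pos hH0]
        have h7 : 9 * LA - 1 ≤ log H * (9 * LA / X2) := by
          calc 9 * LA - 1 ≤ 9 * LA - log 2 * (9 * LA / X2) := by
                have : log 2 * (9 * LA / X2) ≤ 1 * (1 / 10) := by
                  apply mul_le_mul (by linarith) hη1 hη0.le (by norm_num)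
                linarith
            _ = (X2 - log 2) * (9 * LA / X2) := by
                field_simp
            _ ≤ log H * (9 * LA / X2) := mul_le_mul_of_nonneg_right hlogH hη0.le
        refine le_trans ?_ (Real.exp_le_exp.mpr h7)
        rw [Real.exp_sub]
        have h8 : a ^ 9 = exp (9 * LA) := by
          rw [haE, ← Real.exp_nat_mul]
          norm_num
        rw [h8]
        apply div_le_div_of_nonneg_left (Real.exp_pos _).le (Real.exp_pos _)
        have := Real.exp_one_lt_d9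
        linarith
      calc (H : ℝ) / (H : ℝ) ^ (9 * LA / X2) ≤ H / (a ^ 9 / 3) :=
            div_le_div_of_nonneg_left hH0.le (by positivity) h6
        _ = 3 * H * (1 / a ^ 9) := by
            field_simp
    have h7 : log z / log H ≤ 1 := by
      rw [div_le_one hlogH0]
      linarith
    have hLAa5 : LA ≤ a ^ 5 := by
      have h8 : a ^ 1 ≤ a ^ 5 := pow_le_pow_right₀ (by linarith) (by norm_num)
      linarith
    calc C' * (log z / log H) * ((H : ℝ) ^ (1 - 9 * LA / X2) * (z : ℝ) ^ (9 * LA / X2)) *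
        exp (3 * exp (9 * LA / X2 * log z))
        ≤ (C' * 1) * ((3 * H * (1 / a ^ 9)) * LA) * a ^ 3 := by
          apply mul_le_mul _ h3 (Real.exp_pos _).le (by positivity)
          apply mul_le_mul _ _ (by positivity) (by positivity)
          · exact mul_le_mul_of_nonneg_left h7 hC'.le
          · exact mul_le_mul h5 h2' (by positivity) (by positivity)
      _ ≤ (C' * 1) * ((3 * H * (1 / a ^ 9)) * a ^ 5) * a ^ 3 := by
          apply mul_le_mul_of_nonneg_right _ (by positivity)
          apply mul_le_mul_of_nonneg_left _ (by positivity)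
          exact mul_le_mul_of_nonneg_left hLAa5 (by positivity)
      _ = 3 * C' * (H / a) := by
          field_simp
  have hsmo : (((Icc 1 H).filter (fun h => ∀ p ∈ h.primeFactors, p ≤ z)).card : ℝ)
      ≤ 3 * C' * (H / a) := hS.trans hS2
  have hlarge' : (((Icc 1 H).filter (fun h => ∃ q ∈ h.primeFactors, y < q)).card : ℝ)
      ≤ 10 * C * (H / a) := hL.trans hL2
  calc ((((Icc 1 H).filter (fun h => ∀ p ∈ h.primeFactors, p ≤ z)).card : ℝ)
        + (((Icc 1 H).filter (fun h => ∃ q ∈ h.primeFactors, y < q)).card : ℝ)) / log z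
      ≤ (3 * C' * (H / a) + 10 * C * (H / a)) / log z :=
        div_le_div_of_nonneg_right (add_le_add hsmo hlarge') hlogz0.le
    _ ≤ (3 * C' * (H / a) + 10 * C * (H / a)) / (Q / 2) :=
        div_le_div_of_nonneg_left (by positivity) (by positivity) hlogz_ge
    _ = 18 * (10 * C + 3 * C') * H * (LA / (a * X2 * LLA)) := by
        rw [hQdef]
        field_simp
        ring
    _ ≤ 18 * (10 * C + 3 * C') * (c3 * X * X2 * (a * LLA / LA)) * (LA / (a * X2 * LLA)) := by
        apply mul_le_mul_of_nonneg_right _ (by positivity)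
        exact mul_le_mul_of_nonneg_left hH2 (by positivity)
    _ = 18 * (10 * C + 3 * C') * c3 * X := by
        field_simp
    _ ≤ c0 * X := mul_le_mul_of_nonneg_right hcc hX.le

/-- `L = log x`, `L2 = log L`, `L3 = log L2`, `y = ⌊L^(1 - 1/a)⌋`, `16 ≤ a ≤ L2/L3`, so `L^(1/a) ≥ L2`,
`log a ≤ L3`, `log y ≥ L2/2`. `H56G.er_combine z y H`: survivors `≤ (smooth + large)/log z`.
* large prime factor (`H56G.er_large`): `H/y ≤ 2 c3 L2 g L^(1/a)` with `g = a loglog a/log a ≤ a`, so
  `1 + log (H/y) ≤ 1 + log 2 + L3 + log a + L2/a ≤ 5 L2/a` (`L3 ≤ L2/a`); number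
  `≤ C (H/log y)(1 + log (H/y)) ≤ 10 C H/a`.
* `Q = L2 loglog a/(9 log a)`, `z = ⌊exp Q⌋`, `Q/2 ≤ log z ≤ Q`, `η = 9 log a/L2 ≤ 1/10`
  (`log a ≤ L3 ≤ L2/90`), `η log z ≤ loglog a`, so `z^η ≤ log a`, `exp (3 exp (η log z)) ≤ a^3`,
  `H^(1-η) ≤ H exp (-η log H) ≤ 3 H a^-9` (`log H ≥ L2 - log 2`), and by `smooth_card_le` (chunk E1;
  `log z ≤ log H`) the number of smooth `h` is `≤ 3 C' H a^-9 (log a) a^3 ≤ 3 C' H/a`.
* Total: `(10 C + 3 C') (H/a)/(Q/2) = 18 (10 C + 3 C') H log a/(a L2 loglog a) ≤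
  18 (10 C + 3 C') c3 L ≤ c0 L` for `c3` small. `z ≤ y` as `Q ≤ L2/9`, `z ≥ 2` as
  `Q ≥ L2/(9 L3)` (`loglog a ≥ 1`). See `H56G.erm_core` and `H56G.er_main` (the case `a = L2/L3`, with
  a weaker bound for the smooth numbers) for a model. -/
theorem er_general (c0 : ℝ) (hc0 : 0 < c0) : ∃ c3 x0 : ℝ, 0 < c3 ∧ ∀ x : ℝ, x0 ≤ x → ∀ a : ℝ,
    16 ≤ a → a ≤ log (log x) / log (log (log x)) → ∀ H : ℕ, log x / 2 ≤ H →
    (H : ℝ) ≤ c3 * log x * log (log x) * (a * log (log a) / log a) →
    ∃ r < primorial ⌊log x ^ (1 - 1 / a)⌋₊,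
      (((Icc 1 H).filter
        (fun h => Nat.Coprime (r + h) (primorial ⌊log x ^ (1 - 1 / a)⌋₊))).card : ℝ) ≤
        c0 * log x := by
  obtain ⟨C, hC, hlarge⟩ := H56G.er_large
  obtain ⟨C', hC', hsmooth⟩ := smooth_card_le
  set c3 := min 1 (c0 / (18 * (10 * C + 3 * C'))) with hc3
  have hc3pos : 0 < c3 := lt_min one_pos (by positivity)
  have hc3le : c3 ≤ 1 := min_le_left _ _
  have hcc : 18 * (10 * C + 3 * C') * c3 ≤ c0 := by
    have h1 : c3 ≤ c0 / (18 * (10 * C + 3 * C')) := min_le_right _ _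
    rw [le_div_iff₀ (by positivity)] at h1
    linarith
  have t1 : Filter.Tendsto (fun x : ℝ => log x) Filter.atTop Filter.atTop :=
    Real.tendsto_log_atTop
  have t2 := Real.tendsto_log_atTop.comp t1
  have t3 := Real.tendsto_log_atTop.comp t2
  have e1 : ∀ᶠ v : ℝ in Filter.atTop, 90 * log v ≤ v := by
    have h3 := Real.isLittleO_log_id_atTop.def (show (0 : ℝ) < 1 / 90 by norm_num)
    filter_upwards [h3, Filter.eventually_ge_atTop 1] with v hv hv1
    have hlog : 0 ≤ log v := Real.log_nonneg hv1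
    rw [Real.norm_of_nonneg hlog, id, Real.norm_of_nonneg (by linarith)] at hv
    linarith
  have main : ∀ᶠ x : ℝ in Filter.atTop,
      1 ≤ log x ∧ 90 * log (log (log x)) ≤ log (log x) ∧ 1 ≤ log (log (log x)) := by
    filter_upwards [t1.eventually_ge_atTop 1, t2.eventually e1, t3.eventually_ge_atTop 1]
      with x a1 a2 a3
    exact ⟨a1, a2, a3⟩
  obtain ⟨x0, hx0⟩ := Filter.eventually_atTop.mp main
  refine ⟨c3, x0, hc3pos, fun x hx a ha haX H hH1 hH2 => ?_⟩
  obtain ⟨a1, a2, a3⟩ := hx0 x hx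
  exact e2_core C C' c0 c3 (log x) (log (log x)) (log (log (log x))) a (log a) (log (log a))
    hC hC' hc3pos hc3le hcc hlarge hsmooth (by linarith) rfl rfl a3 a2 ha haX rfl rfl H hH1 hH2

end Pool.Agent.Lib.H64T
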