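import Pool.Agent.Lib.H64T.Defs

/-!
# All data for one `x` and one `lam`
-/

open Finset

namespace Pool.Agent.Lib.H64T

/-- Everything that is needed for one `x` and one `lam`; `T = L^th`. -/
structure QD (e x lam T : ℝ) (w : WT) (M : ℕ) (A : Finset ℕ) : Prop where
  we : w.e = e
  wX : w.X = Real.log x
  set : ∀ Y : ℕ, x ^ (1 / 4 : ℝ) ≤ Y → SetA w ⌊lam * Real.log x⌋₊ M A Y
  M4 : 2 * (M : ℝ) ≤ x ^ (1 / 4 : ℝ)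
  P4 : ∀ p ∈ w.P, (p : ℝ) ≤ x ^ (1 / 4 : ℝ)
  q4 : ∀ q, q.Prime → q ∣ M → (q : ℝ) ≤ x ^ (1 / 4 : ℝ)
  C8 : w.C * ((M : ℝ) / A.card) ≤ Real.exp (T / 8)
  alt : (M : ℝ) ≤ (1 + e) * A.card ∨ (M : ℝ) ≤ Real.exp (T / 8)
  lam8 : lam ≤ Real.exp (T / 8)

/-- The conclusion of `exists_WT` for the constants `c1, C1` and this `x`. -/
def EW (e c1 C1 x : ℝ) : Prop :=
  ∀ ℓ : ℕ, 1 ≤ ℓ → (ℓ : ℝ) ≤ c1 * Real.log (Real.log x) → ∃ w : WT, w.e = e ∧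
    w.W = ⌈Real.log x ^ 4⌉₊ ∧ w.K = ⌊ℓ * Real.log x / Real.log (Real.log x)⌋₊ ∧
    w.X = Real.log x ∧ w.C ≤ Real.exp (Real.exp (C1 * ℓ)) ∧
    (∀ p ∈ w.P, (p : ℝ) ≤ x ^ (1 / 4 : ℝ)) ∧
    4 * w.K * w.lv ^ 4 ≤ e * x ^ (1 / 4 : ℝ)

end Pool.Agent.Lib.H64T
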