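import Pool.Agent.Lib.H64T.V1
import Pool.Agent.Lib.H15P.FIN3

/-!
# V1Z: the number of large gaps containing a long interval of integers with small prime factors
-/

open Finset

namespace Pool.Agent.Lib.H64T

open Pool.Agent.Lib.H15P

/-- If `rg n = 0` then every `n + h`, `1 ≤ h ≤ H`, has a prime factor `≤ z0`. -/
theorem v1z_factor (w : WT) (H M n : ℕ) (z0 : ℝ)
    (hM : ∀ q, q.Prime → q ∣ M → (q : ℝ) ≤ z0) (hP : ∀ p ∈ w.P, (p : ℝ) ≤ z0)
    (h0 : w.rg H M n = 0) (h : ℕ) (hh : h ∈ Icc 1 H) : ((n + h).minFac : ℝ) ≤ z0 := by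
  by_cases hc : Nat.Coprime (n + h) M
  · have hmem : h ∈ CC H M n := by
      unfold CC
      exact mem_filter.mpr ⟨hh, hc⟩
    unfold WT.rg WT.rough at h0
    rw [Finset.card_eq_zero] at h0
    by_contra hcon
    push Not at hcon
    have hmem2 : n + h ∈ ((CC H M n).image (fun h => n + h)).filter
        (fun e => ∀ p ∈ w.P, ¬ p ∣ e) := by
      rw [mem_filter]
      refine ⟨mem_image.mpr ⟨h, hmem, rfl⟩, fun p hp hdvd => ?_⟩
      have h1 := hP p hp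
      have h2 := Nat.minFac_le_of_dvd (w.prime p hp).two_le hdvd
      have h3 : ((n + h).minFac : ℝ) ≤ p := by exact_mod_cast h2
      linarith
    rw [h0] at hmem2
    simp at hmem2
  · obtain ⟨q, hq, hq1, hq2⟩ := Nat.Prime.not_coprime_iff_dvd.mp hc
    have h2 := Nat.minFac_le_of_dvd hq.two_le hq1
    have h3 : ((n + h).minFac : ℝ) ≤ q := by exact_mod_cast h2
    exact h3.trans (hM q hq hq2)

/-- If `rg n = 0` then `(n, n + H]` lies in the gap after a good prime. -/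
theorem v1z_vz (w : WT) (H M n : ℕ) (z0 : ℝ) (hn : 2 ≤ n) (hzn : z0 < n)
    (hM : ∀ q, q.Prime → q ∣ M → (q : ℝ) ≤ z0) (hP : ∀ p ∈ w.P, (p : ℝ) ≤ z0)
    (h0 : w.rg H M n = 0) : vz H z0 n = 1 := by
  have hmf : ∀ h ∈ Icc 1 H, ((n + h).minFac : ℝ) ≤ z0 :=
    fun h hh => v1z_factor w H M n z0 hM hP h0 h hh
  have hnp : ∀ h ∈ Icc 1 H, ¬ (n + h).Prime := by
    intro h hh hpr
    have h1 := hmf h hh
    rw [hpr.minFac_eq] at h1
    push_cast at h1
    have : (0 : ℝ) ≤ h := Nat.cast_nonneg h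
    linarith
  unfold vz
  rw [if_pos]
  refine ⟨hnp, Nat.findGreatest_spec (P := Nat.Prime) hn Nat.prime_two, n,
    Nat.findGreatest_le n, ?_, hmf⟩
  intro q hq1 hq2 hqp
  rcases le_or_gt q n with h3 | h3
  · exact Nat.findGreatest_is_greatest (P := Nat.Prime) hq1 h3 hqp
  · have h4 := hnp (q - n) (mem_Icc.mpr ⟨by omega, by omega⟩)
    rw [Nat.add_sub_of_le h3.le] at h4
    exact h4 hqp

/-- GAP COUNT. `decorrelate2` for `w = wa`, `g = vd H`, `N1 = N0 + M Y`, `C = Cr`, `e1 = 7e`,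
`c0`, `κ = 1 + e`, `Tr = 2 #lg H (N1 + H + U)` (`sum_abs_vd_le`).
(a): `vd H n = 0` implies `rg n ≥ 1` (`v1_rg`): `Σ wa g ≥ Σ wa - Σ wa rg ≥ (1 - 7e) M Y`.
(b): `hwin`. (c): `wa_sq_le`. (d): `wa_avg`: `e3 = (1+3e)(1+e)^2 - 1 + (2H+1) Cr/U ≤ 6e + c0^2/1000`
(`hU2`; `e ≤ c0^2/1000`, `c0 ≤ 1`): `e3 + 2 e1 ≤ 20 e + c0^2/1000 ≤ 21 c0^2/1000 ≤ (c0/6)^2`,
`c0 - e1 - c0/6 ≥ (4/5) c0`. (e): `wa_ge`. Conclusion by `H15P.fin2_final`-type algebra:
`(4/5) c0 M Y ≤ √(Cr M Y) (√((H+U) Tr) + √(H+U))`, the second term is `≤ c0 M Y/10` by `hsm`, so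
`(7/10)^2 c0^2 M Y ≤ Cr (H+U) Tr`. -/
theorem WT.gap_count_z (w : WT) (H M : ℕ) (A : Finset ℕ) (Y : ℕ) (h : SetA w H M A Y) (N0 U : ℕ)
    (c0 Cr : ℝ) (hc0 : 0 < c0) (hc1 : c0 ≤ 1) (he : w.e ≤ c0 ^ 2 / 1000) (hN0 : 2 ≤ N0)
    (z0 : ℝ) (hz0 : z0 < N0)
    (hM : ∀ q, q.Prime → q ∣ M → (q : ℝ) ≤ z0) (hP : ∀ p ∈ w.P, (p : ℝ) ≤ z0) (hH : 1 ≤ H) (hU : 1 ≤ U)
    (hCr : 2 * w.C * ((M : ℝ) / A.card) ≤ Cr) (hU2 : 1000 * ((2 * H + 1) * Cr) ≤ c0 ^ 2 * U)
    (hκ : (M : ℝ) ≤ (1 + w.e) * A.card ∨ (M : ℝ) ≤ w.e * U)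
    (hX : ((2 * H + U : ℕ) : ℝ) ≤ Real.exp w.X) (hHU : H + U ≤ M * Y)
    (hsm : 100 * Cr * (H + U) ≤ c0 ^ 2 * ((M : ℝ) * Y))
    (hwin : c0 * ((M : ℝ) * Y) ≤ (((Ico N0 (N0 + M * Y)).filter
      (fun n => ∃ h ∈ Icc 1 H, (n + h).Prime)).card : ℝ)) :
    c0 ^ 2 * ((M : ℝ) * Y) ≤ 6 * Cr * (H + U) * ((lgz H z0 (N0 + M * Y + H + U)).card : ℝ) := by
  obtain ⟨MY, hMY⟩ : ∃ MY : ℝ, MY = (M : ℝ) * Y := ⟨_, rfl⟩
  obtain ⟨K, hK⟩ : ∃ K : ℝ, K = ((lgz H z0 (N0 + M * Y + H + U)).card : ℝ) := ⟨_, rfl⟩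
  have hKnn : 0 ≤ K := by
    rw [hK]
    exact Nat.cast_nonneg _
  have he0 := w.e0
  have he1 := w.e1
  have hN1N0 : ((N0 + M * Y : ℕ) : ℝ) - N0 = MY := by
    rw [hMY]
    push_cast
    ring
  have hMY1 : 0 < MY := by
    rw [hMY]
    have h1 : 0 < M * Y := by omega
    exact_mod_cast h1
  have hA : (0 : ℝ) < A.card := by
    exact_mod_cast Finset.card_pos.2 h.ne
  have hM0 : (0 : ℝ) < M := by exact_mod_cast h.Mpos
  have hC1 := w.w1_C
  have hCrpos : 0 < Cr := by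
    refine lt_of_lt_of_le ?_ hCr
    have : 0 < (M : ℝ) / A.card := div_pos hM0 hA
    positivity
  have hUpos : (0 : ℝ) < U := by exact_mod_cast hU
  have hc0sq : 0 < c0 ^ 2 := by positivity
  have hc0c : c0 ^ 2 ≤ c0 := by nlinarith
  rw [← hMY] at hsm hwin ⊢
  rw [← hK]
  have hdec := decorrelate2 N0 (N0 + M * Y) H U hU (by omega) (w.wa H M A) (vz H z0) Cr c0 (7 * w.e)
    (6 * w.e + c0 ^ 2 / 1000) (2 * K) (wa_nonneg w H M A) (fin3_vz_nonneg H z0) (fin3_vz_le_one H z0) hCrpos.le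
    (by positivity) (by positivity) (by positivity)
    (by
      rw [hN1N0]
      have e1 := w.wa_ge H M A Y h N0 0
      have e2 := w.wa_rg_le H M A Y h N0
      simp only [add_zero] at e1
      rw [← hMY] at e1 e2
      have e3 : ∑ n ∈ Ico N0 (N0 + M * Y), w.wa H M A n ≤
          ∑ n ∈ Ico N0 (N0 + M * Y), w.wa H M A n * vz H z0 n +
          ∑ n ∈ Ico N0 (N0 + M * Y), w.wa H M A n * w.rg H M n := by
        rw [← Finset.sum_add_distrib]
        apply Finset.sum_le_sum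
        intro n hn
        rw [mem_Ico] at hn
        have f1 := wa_nonneg w H M A n
        by_cases hv : w.rg H M n = 0
        · have f2 : vz H z0 n = 1 := by
            have hn2 : (N0 : ℝ) ≤ n := by exact_mod_cast hn.1
            exact v1z_vz w H M n z0 (by omega) (hz0.trans_le hn2) hM hP hv
          rw [f2, mul_one]
          have f3 : (0 : ℝ) ≤ w.rg H M n := Nat.cast_nonneg _
          exact le_add_of_nonneg_right (mul_nonneg f1 f3)
        · have f4 : 1 ≤ w.rg H M n := Nat.one_le_iff_ne_zero.mpr hv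
          have f5 : (1 : ℝ) ≤ w.rg H M n := by exact_mod_cast f4
          have f6 : 0 ≤ w.wa H M A n * vz H z0 n := mul_nonneg f1 (fin3_vz_nonneg H z0 n)
          exact le_add_of_nonneg_of_le f6 (le_mul_of_one_le_right f1 f5)
      linarith only [e1, e2, e3])
    (by
      have hle : ∑ n ∈ Ico N0 (N0 + M * Y), vz H z0 n ≤ ∑ n ∈ Ico N0 (N0 + M * Y), vd H n :=
        Finset.sum_le_sum fun n _ => fin3_vz_le_vd H z0 n
      refine hle.trans ?_
      rw [v1_sum_vd H N0 (N0 + M * Y) (by omega), hN1N0]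
      linarith only [hwin])
    (fun s _ => by
      rw [hN1N0]
      have e1 := w.wa_sq_le H M A Y h N0 s
      rw [← hMY] at e1
      exact e1.trans (mul_le_mul_of_nonneg_right hCr hMY1.le))
    (by
      rw [hN1N0]
      have e1 := w.wa_avg H M A Y h N0 U hX (1 + w.e) (by linarith) (by
        rcases hκ with h1 | h1
        · exact Or.inl h1
        · right
          linarith)
      rw [← hMY] at e1
      refine e1.trans (mul_le_mul_of_nonneg_right ?_ hMY1.le)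
      have e2 : (1 + 3 * w.e) * (1 + w.e) ^ 2 ≤ 1 + 6 * w.e := by
        have g1 : w.e ^ 2 ≤ w.e * (1 / 10) := by
          rw [sq]
          exact mul_le_mul_of_nonneg_left he1 he0.le
        have g2 : w.e ^ 3 ≤ w.e * (1 / 100) := by
          have : w.e ^ 3 = w.e ^ 2 * w.e := by ring
          rw [this]
          have g3 := mul_le_mul g1 he1 he0.le (by positivity : (0:ℝ) ≤ w.e * (1 / 10))
          linarith
        have g3 : (1 + 3 * w.e) * (1 + w.e) ^ 2 = 1 + 5 * w.e + 7 * w.e ^ 2 + 3 * w.e ^ 3 := by ring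
        rw [g3]
        linarith
      have e3 := mul_le_mul_of_nonneg_right e2 (sq_nonneg (U : ℝ))
      have e4 : (U : ℝ) * (2 * H + 1) * (2 * w.C * ((M : ℝ) / A.card)) ≤ U * (2 * H + 1) * Cr :=
        mul_le_mul_of_nonneg_left hCr (by positivity)
      have e5 : (U : ℝ) * (2 * H + 1) * Cr ≤ c0 ^ 2 / 1000 * (U : ℝ) ^ 2 := by
        have g1 := mul_le_mul_of_nonneg_left hU2 hUpos.le
        have g2 : c0 ^ 2 / 1000 * (U : ℝ) ^ 2 = (U : ℝ) * (c0 ^ 2 * U) / 1000 := by ring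
        rw [g2]
        linarith
      linarith)
    (fun s _ => by
      rw [hN1N0]
      have e1 := w.wa_ge H M A Y h N0 s
      rw [← hMY] at e1
      refine le_trans ?_ e1
      have e2 := mul_nonneg he0.le hMY1.le
      linarith only [e2])
    (by
      have e1 := fin3_sum_abs_vz_le H z0 N0 (N0 + M * Y + H + U) hH hN0
      rw [hK]
      exact e1)
  rw [hN1N0] at hdec
  have hsqrt : Real.sqrt (6 * w.e + c0 ^ 2 / 1000 + 2 * (7 * w.e)) ≤ c0 / 6 := by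
    rw [Real.sqrt_le_left (by positivity)]
    have e3 : (c0 / 6) ^ 2 = c0 ^ 2 / 36 := by ring
    rw [e3]
    linarith only [he, hc0sq]
  have hHUpos : (0 : ℝ) < (H : ℝ) + U := by positivity
  have hfin := v1_final c0 Cr MY ((H : ℝ) + U) (2 * K) hc0 hCrpos hMY1 hHUpos
    (by positivity) hsm
    (by
      refine le_trans ?_ hdec
      have e2 : 4 / 5 * c0 ≤ c0 - 7 * w.e - Real.sqrt (6 * w.e + c0 ^ 2 / 1000 + 2 * (7 * w.e)) := by
        linarith
      exact mul_le_mul_of_nonneg_right e2 hMY1.le)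
  have e3 : 0 ≤ Cr * ((H : ℝ) + U) * K := by positivity
  linarith only [hfin, e3]

end Pool.Agent.Lib.H64T
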