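import Pool.Agent.Lib.H64T.C2
import Pool.Agent.Lib.H64T.Q0
import Pool.Agent.Lib.H64T.V1Z

/-!
# Chunk V2: prime-free windows in every interval of length `x`
-/

open Finset

namespace Pool.Agent.Lib.H64T

open Pool.Agent.Lib.H15P

theorem v2_rg (w : WT) (H M n : ℕ) (hM : ∀ q, q.Prime → q ∣ M → q < n) (hP : ∀ p ∈ w.P, p < n)
    (hv : ∃ h ∈ Icc 1 H, (n + h).Prime) : 1 ≤ w.rg H M n := by
  obtain ⟨h, hh, hpr⟩ := hv
  unfold WT.rg WT.rough
  rw [Nat.one_le_iff_ne_zero, Finset.card_ne_zero]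
  refine ⟨n + h, ?_⟩
  rw [mem_filter]
  constructor
  · rw [mem_image]
    refine ⟨h, ?_, rfl⟩
    unfold CC
    rw [mem_filter]
    refine ⟨hh, ?_⟩
    rw [Nat.Prime.coprime_iff_not_dvd hpr]
    intro hdvd
    have := hM _ hpr hdvd
    omega
  · intro p hp hdvd
    have h1 := (Nat.prime_dvd_prime_iff_eq (w.prime p hp) hpr).mp hdvd
    have h2 := hP p hp
    omega

/-- Fourth root of `x`. -/
theorem v2_root (x : ℝ) (hx : 10000 ≤ x) : ∃ s : ℝ, 10 ≤ s ∧ x ^ (1 / 4 : ℝ) = s ∧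
    x ^ (1 / 2 : ℝ) = s ^ 2 ∧ x = s ^ 4 := by
  have hx0 : (0 : ℝ) ≤ x := by linarith
  refine ⟨x ^ (1 / 4 : ℝ), ?_, rfl, ?_, ?_⟩
  · have h1 : (10000 : ℝ) ^ (1 / 4 : ℝ) ≤ x ^ (1 / 4 : ℝ) :=
      Real.rpow_le_rpow (by norm_num) hx (by norm_num)
    have h2 : (10000 : ℝ) ^ (1 / 4 : ℝ) = 10 := by
      have h3 : (10000 : ℝ) = 10 ^ (4 : ℝ) := by norm_num
      rw [h3, ← Real.rpow_mul (by norm_num)]
      norm_num
    rw [h2] at h1
    exact h1
  · rw [← Real.rpow_natCast, ← Real.rpow_mul hx0]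
    norm_num
  · rw [← Real.rpow_natCast, ← Real.rpow_mul hx0]
    norm_num

/-- `H = ⌊lam L⌋`, `N0 = z + ⌈x^(1/2)⌉`, `Y = ⌊(x - 2 x^(1/2))/M⌋`, so `M Y ≥ x/2`, `Y ≥ x^(1/4)` and
`[N0, N0 + M Y) ⊆ [z, z + x]`. `void_count`: the number of `n` in it with `rg n = 0` is at least
`M Y/(8 exp (T/8)) ≥ x exp (-T/8)/16 ≥ x exp (-T/2)`, as `T ≥ 10`. If `rg n = 0` then every
`k = n + h`, `1 ≤ h ≤ H`, has a prime factor in `P` (if `h ∈ CC`) or a common prime factor with `M`, so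
`minFac k ≤ x^(1/4) < n < k` and `k` is not prime. -/
theorem void_of_Q (e : ℝ) (he : 0 < e) (he1 : e ≤ 1 / 20) : ∃ x0 : ℝ, ∀ x : ℝ, x0 ≤ x →
    ∀ lam T : ℝ, 1 ≤ lam → lam ≤ Real.log x → 10 ≤ T → T ≤ Real.log x / 100 →
    ∀ (w : WT) (M : ℕ) (A : Finset ℕ), QD e x lam T w M A → ∀ z : ℕ,
      ∃ S : Finset ℕ, x * Real.exp (-T / 2) ≤ (S.card : ℝ) ∧ ∀ n ∈ S, z ≤ n ∧
        (n : ℝ) + lam * Real.log x ≤ z + x ∧ ∀ k : ℕ, n < k → (k : ℝ) ≤ n + lam * Real.log x →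
          ¬ k.Prime ∧ (k.minFac : ℝ) ≤ x ^ (1 / 4 : ℝ) := by
  have E2 : ∀ᶠ x : ℝ in Filter.atTop, Real.log x ^ 2 ≤ x ^ (1 / 4 : ℝ) := by
    have := (isLittleO_log_rpow_atTop (r := 1 / 8) (by norm_num)).bound (c := 1) one_pos
    filter_upwards [this, Filter.eventually_ge_atTop 1] with x hx hx1
    rw [Real.norm_of_nonneg (Real.log_nonneg hx1),
      Real.norm_of_nonneg (by positivity), one_mul] at hx
    have h1 : Real.log x ^ 2 ≤ (x ^ (1 / 8 : ℝ)) ^ 2 :=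
      pow_le_pow_left₀ (Real.log_nonneg hx1) hx 2
    have h2 : (x ^ (1 / 8 : ℝ)) ^ 2 = x ^ (1 / 4 : ℝ) := by
      rw [← Real.rpow_natCast, ← Real.rpow_mul (by linarith)]
      norm_num
    rwa [h2] at h1
  obtain ⟨x2, hx2⟩ := Filter.eventually_atTop.mp E2
  refine ⟨max 10000 x2, ?_⟩
  intro x hx' lam T hlam hlam2 hT hT2 w M A Q z
  have hx : (10000 : ℝ) ≤ x := (le_max_left _ _).trans hx'
  have hlog2 := hx2 x ((le_max_right _ _).trans hx')
  obtain ⟨s, hs10, hs1, hs2, hs4⟩ := v2_root x hx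
  have hx0 : (0 : ℝ) < x := by linarith
  have hL0 : 0 ≤ Real.log x := Real.log_nonneg (by linarith)
  have hs0 : (0 : ℝ) < s := by linarith
  have hsq : 10 * s ≤ s ^ 2 := by nlinarith
  have hs3 : 10 * s ^ 2 ≤ s ^ 3 := by nlinarith [sq_nonneg s]
  have hs44 : 10 * s ^ 3 ≤ s ^ 4 := by
    have h1 : s ^ 4 = s * s ^ 3 := by ring
    rw [h1]
    exact mul_le_mul_of_nonneg_right hs10 (by positivity)
  have hM4 := Q.M4
  rw [hs1] at hM4
  have hset := Q.set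
  set H := ⌊lam * Real.log x⌋₊ with hH
  have hMpos : 0 < M := by
    refine (hset ⌈x ^ (1 / 4 : ℝ)⌉₊ (Nat.le_ceil _)).Mpos
  have hMR : (0 : ℝ) < M := by exact_mod_cast hMpos
  set R : ℝ := (x - 2 * s ^ 2) / M with hR
  have hnum : 0 ≤ x - 2 * s ^ 2 := by
    rw [hs4]
    linarith
  have hR0 : 0 ≤ R := div_nonneg hnum hMR.le
  set Y := ⌊R⌋₊ with hY
  have hYle : (Y : ℝ) ≤ R := Nat.floor_le hR0
  have hYge : R - 1 ≤ Y := by
    have := Nat.lt_floor_add_one R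
    linarith
  have hMR2 : (M : ℝ) * R = x - 2 * s ^ 2 := by
    rw [hR]
    field_simp
  have hMYle : (M : ℝ) * Y ≤ x - 2 * s ^ 2 := by
    rw [← hMR2]
    exact mul_le_mul_of_nonneg_left hYle hMR.le
  have hMYge : x / 2 ≤ (M : ℝ) * Y := by
    have h1 : (M : ℝ) * (R - 1) ≤ M * Y := mul_le_mul_of_nonneg_left hYge hMR.le
    have h2 : (M : ℝ) * (R - 1) = x - 2 * s ^ 2 - M := by
      rw [mul_sub, hMR2]
      ring
    rw [h2] at h1
    rw [hs4] at h1 ⊢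
    linarith
  have hY4 : x ^ (1 / 4 : ℝ) ≤ Y := by
    rw [hs1]
    have h1 : s + 1 ≤ R := by
      rw [hR, le_div_iff₀ hMR]
      have h2 : (s + 1) * M ≤ (s + 1) * (s / 2) :=
        mul_le_mul_of_nonneg_left (by linarith) (by linarith)
      have h3 : (s + 1) * (s / 2) = s ^ 2 / 2 + s / 2 := by ring
      rw [h3] at h2
      rw [hs4]
      linarith
    linarith
  have hS := hset Y hY4
  have hwe : w.e ≤ 1 / 20 := by
    rw [Q.we]
    exact he1
  set N0 := z + ⌈s ^ 2⌉₊ with hN0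
  have hvoid := w.void_count H M A Y hS N0 hwe
  have hceil : s ^ 2 ≤ (⌈s ^ 2⌉₊ : ℝ) := Nat.le_ceil _
  have hceil2 : (⌈s ^ 2⌉₊ : ℝ) < s ^ 2 + 1 := Nat.ceil_lt_add_one (by positivity)
  refine ⟨(Ico N0 (N0 + M * Y)).filter (fun n => w.rg H M n = 0), ?_, ?_⟩
  · set c : ℝ := (((Ico N0 (N0 + M * Y)).filter (fun n => w.rg H M n = 0)).card : ℝ) with hc
    have hc0 : 0 ≤ c := Nat.cast_nonneg _
    have h1 : x / 2 ≤ 8 * Real.exp (T / 8) * c := by
      refine hMYge.trans (hvoid.trans ?_)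
      exact mul_le_mul_of_nonneg_right (mul_le_mul_of_nonneg_left Q.C8 (by norm_num)) hc0
    have h2 : Real.exp (-T / 2) = Real.exp (-(3 * T / 8)) * Real.exp (-(T / 8)) := by
      rw [← Real.exp_add]
      congr 1
      ring
    have h3 : Real.exp (-(T / 8)) * Real.exp (T / 8) = 1 := by
      rw [← Real.exp_add]
      simp
    have h4 : Real.exp (-(3 * T / 8)) ≤ 1 / 16 := by
      have h5 : Real.exp (-(3 * T / 8)) ≤ Real.exp (-(3 : ℝ)) :=
        Real.exp_le_exp.mpr (by linarith)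
      have h6 : Real.exp (-(3 : ℝ)) * Real.exp 3 = 1 := by
        rw [← Real.exp_add]
        simp
      have h7 : (16 : ℝ) ≤ Real.exp 3 := by
        have h8 : Real.exp 3 = Real.exp 1 ^ 3 := by
          rw [← Real.exp_nat_mul]
          norm_num
        have h9 := Real.exp_one_gt_d9
        rw [h8]
        have h10 : (2.7 : ℝ) ^ 3 ≤ Real.exp 1 ^ 3 :=
          pow_le_pow_left₀ (by norm_num) (by linarith) 3
        have h11 : (16 : ℝ) ≤ 2.7 ^ 3 := by norm_num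
        linarith
      have h8 : 0 < Real.exp (-(3 : ℝ)) := Real.exp_pos _
      nlinarith
    rw [h2]
    have h5 : 0 ≤ x * Real.exp (-(T / 8)) := by positivity
    have h6 : x * Real.exp (-(T / 8)) ≤ 16 * c := by
      have h7 := mul_le_mul_of_nonneg_right h1 (Real.exp_pos (-(T / 8))).le
      have h8 : 8 * Real.exp (T / 8) * c * Real.exp (-(T / 8)) =
          8 * c * (Real.exp (-(T / 8)) * Real.exp (T / 8)) := by ring
      rw [h8, h3] at h7
      linarith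
    calc x * (Real.exp (-(3 * T / 8)) * Real.exp (-(T / 8)))
        = Real.exp (-(3 * T / 8)) * (x * Real.exp (-(T / 8))) := by ring
      _ ≤ 1 / 16 * (x * Real.exp (-(T / 8))) := mul_le_mul_of_nonneg_right h4 h5
      _ ≤ c := by linarith
  · intro n hn
    rw [mem_filter, mem_Ico] at hn
    obtain ⟨⟨hn1, hn2⟩, hn3⟩ := hn
    have hnR : s ^ 2 ≤ (n : ℝ) := by
      have h1 : (⌈s ^ 2⌉₊ : ℕ) ≤ n := by omega
      have h2 : ((⌈s ^ 2⌉₊ : ℕ) : ℝ) ≤ n := by exact_mod_cast h1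
      linarith
    refine ⟨by omega, ?_, ?_⟩
    · have h1 : (n : ℝ) ≤ ((N0 + M * Y : ℕ) : ℝ) := by exact_mod_cast hn2.le
      rw [hN0] at h1
      push_cast at h1
      have h2 : lam * Real.log x ≤ s := by
        rw [hs1] at hlog2
        calc lam * Real.log x ≤ Real.log x * Real.log x :=
              mul_le_mul_of_nonneg_right hlam2 hL0
          _ = Real.log x ^ 2 := by ring
          _ ≤ s := hlog2
      linarith
    · intro k hnk hk
      have h1 : k - n ≤ H := by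
        rw [hH]
        apply Nat.le_floor
        rw [Nat.cast_sub hnk.le]
        linarith
      have h2 : (k.minFac : ℝ) ≤ x ^ (1 / 4 : ℝ) := by
        have h3 := v1z_factor w H M n (x ^ (1 / 4 : ℝ)) (fun q hq hqM => Q.q4 q hq hqM)
          (fun p hp => Q.P4 p hp) hn3 (k - n) (mem_Icc.mpr ⟨by omega, h1⟩)
        rwa [Nat.add_sub_of_le hnk.le] at h3
      refine ⟨fun hpr => ?_, h2⟩
      rw [hpr.minFac_eq, hs1] at h2
      have h3 : (n : ℝ) < k := by exact_mod_cast hnk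
      linarith

end Pool.Agent.Lib.H64T
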