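import Pool.Agent.Lib.H64T.V1
import Pool.Agent.Lib.H64T.Q0
import Pool.Agent.Lib.H15P.PV

/-!
# Chunk V3: the number of large gaps
-/

open Finset

namespace Pool.Agent.Lib.H64T

open Pool.Agent.Lib.H15P

/-- Fourth root of `x`. -/
theorem v3_root (x : ℝ) (hx : 10000 ≤ x) : ∃ s : ℝ, 10 ≤ s ∧ x ^ (1 / 4 : ℝ) = s ∧
    x ^ (1 / 2 : ℝ) = s ^ 2 ∧ x = s ^ 4 := by
  have hx0 : (0 : ℝ) ≤ x := by linarith
  refine ⟨x ^ (1 / 4 : ℝ), ?_, rfl, ?_, ?_⟩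
  · have h1 : (10000 : ℝ) ^ (1 / 4 : ℝ) ≤ x ^ (1 / 4 : ℝ) :=
      Real.rpow_le_rpow (by norm_num) hx (by norm_num)
    have h2 : (10000 : ℝ) ^ (1 / 4 : ℝ) = 10 := by
      have h3 : (10000 : ℝ) = 10 ^ (4 : ℝ) := by norm_num
      rw [h3, ← Real.rpow_mul (by norm_num)]
      norm_num
    rw [h2] at h1
    exact h1
  · rw [← Real.rpow_natCast, ← Real.rpow_mul hx0]
    norm_num
  · rw [← Real.rpow_natCast, ← Real.rpow_mul hx0]
    norm_num

/-- The length of the average. -/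
theorem v3_U (e c0 L E8 lam : ℝ) (he : 0 < e) (hc0 : 0 < c0) (hL : 1 ≤ L) (hE : 1 ≤ E8)
    (hlam : lam ≤ E8) (H M : ℕ) (hH : (H : ℝ) ≤ lam * L) (a : ℝ)
    (halt : (M : ℝ) ≤ (1 + e) * a ∨ (M : ℝ) ≤ E8) :
    ∃ U : ℕ, 1 ≤ U ∧ 1000 * ((2 * H + 1) * (2 * E8)) ≤ c0 ^ 2 * U ∧
      ((M : ℝ) ≤ (1 + e) * a ∨ (M : ℝ) ≤ e * U) ∧
      (H : ℝ) + U ≤ (2 + 6000 / c0 ^ 2 + 1 / e) * L * E8 ^ 2 := by
  obtain ⟨B, hB0, hB1, hB2⟩ : ∃ B : ℝ, 0 ≤ B ∧ B ≤ E8 / e ∧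
      ((M : ℝ) ≤ (1 + e) * a ∨ (M : ℝ) ≤ e * B) := by
    rcases halt with h | h
    · exact ⟨0, le_rfl, by positivity, Or.inl h⟩
    · refine ⟨M / e, by positivity, ?_, Or.inr ?_⟩
      · exact div_le_div_of_nonneg_right h he.le
      · exact le_of_eq (by field_simp)
  have hc2 : 0 < c0 ^ 2 := by positivity
  set R : ℝ := 1000 * ((2 * H + 1) * (2 * E8)) / c0 ^ 2 with hR
  have hR0 : 0 < R := by positivity
  have hU : R + B ≤ ((⌈R + B⌉₊ : ℕ) : ℝ) := Nat.le_ceil _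
  have hU2 : ((⌈R + B⌉₊ : ℕ) : ℝ) < R + B + 1 := Nat.ceil_lt_add_one (by linarith)
  refine ⟨⌈R + B⌉₊, ?_, ?_, ?_, ?_⟩
  · exact Nat.ceil_pos.mpr (by linarith)
  · have h1 : 1000 * ((2 * H + 1) * (2 * E8)) = c0 ^ 2 * R := by
      rw [hR]
      field_simp
    rw [h1]
    exact mul_le_mul_of_nonneg_left (by linarith) hc2.le
  · rcases hB2 with h | h
    · exact Or.inl h
    · right
      refine h.trans (mul_le_mul_of_nonneg_left ?_ he.le)
      linarith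
  · have hE2 : E8 ≤ E8 ^ 2 := by nlinarith
    have hHE : (H : ℝ) ≤ E8 * L := hH.trans (mul_le_mul_of_nonneg_right hlam (by linarith))
    have hEL : 1 ≤ E8 * L := by nlinarith
    have h2 : R ≤ 6000 / c0 ^ 2 * (L * E8 ^ 2) := by
      rw [hR, div_mul_eq_mul_div]
      refine div_le_div_of_nonneg_right ?_ hc2.le
      have h3 : (2 * (H : ℝ) + 1) ≤ 3 * (E8 * L) := by linarith
      have h4 : (2 * (H : ℝ) + 1) * (2 * E8) ≤ 3 * (E8 * L) * (2 * E8) :=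
        mul_le_mul_of_nonneg_right h3 (by linarith)
      have h5 : 3 * (E8 * L) * (2 * E8) = 6 * (L * E8 ^ 2) := by ring
      rw [h5] at h4
      linarith
    have h6 : B ≤ 1 / e * (L * E8 ^ 2) := by
      refine hB1.trans ?_
      have h7 : E8 / e = 1 / e * E8 := by ring
      rw [h7]
      refine mul_le_mul_of_nonneg_left ?_ (by positivity)
      calc E8 ≤ E8 ^ 2 := hE2
        _ = 1 * E8 ^ 2 := (one_mul _).symm
        _ ≤ L * E8 ^ 2 := mul_le_mul_of_nonneg_right hL (by positivity)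
    have h8 : E8 * L ≤ L * E8 ^ 2 := by
      have := mul_le_mul_of_nonneg_right hE2 (by linarith : (0 : ℝ) ≤ L)
      linarith
    have h9 : (1 : ℝ) ≤ L * E8 ^ 2 := hEL.trans h8
    have h10 : (2 + 6000 / c0 ^ 2 + 1 / e) * L * E8 ^ 2 = L * E8 ^ 2 + L * E8 ^ 2 +
        6000 / c0 ^ 2 * (L * E8 ^ 2) + 1 / e * (L * E8 ^ 2) := by ring
    rw [h10]
    linarith

/-- `H = ⌊lam L⌋ ≥ 1`, `N0 = ⌈x^(1/2)⌉`, `Y = ⌊(x - x^(1/2)/2 - N0)/M⌋`, `Cr = 2 exp (T/8)`,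
`U = ⌈1000 (2H+1) Cr/c0^2⌉` if `M ≤ (1+e) #A`, else `⌈1000 (2H+1) Cr/c0^2 + M/e⌉`. In both cases
`H + U ≤ K0 L exp (T/4)` with `K0` depending only on `c0, e` (`H ≤ lam L ≤ L exp (T/8)`), and this is
`≤ x^(1/2)/4`. `gap_count`: `hwin` is `hwin` for the window of length `⌊L⌋ ≤ H` (a prime in the
shorter window is in the longer one), `M Y ≤ x`, `N0 ≤ 2 x^(1/2)`, `N0 + M Y ≥ x - x^(1/2)`,
`N0 + M Y + H + U ≤ x`. So `#lg ≥ c0^2 (x/2)/(12 exp (T/8) K0 L exp (T/4)) ≥ (x/L) exp (-T)` if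
`exp (T/2) ≥ 24 K0/c0^2`, i.e. `T ≥ G`. `card_lg_le` (`lam L ≤ H + 1`). -/
theorem gaps_of_Q (e c0 : ℝ) (he : 0 < e) (hc0 : 0 < c0) (hc1 : c0 ≤ 1) (hec : e ≤ c0 ^ 2 / 1000)
    (x1 : ℝ) (hwin : ∀ x : ℝ, x1 ≤ x → ∀ N0 N1 : ℕ, (N0 : ℝ) ≤ 2 * x ^ (1 / 2 : ℝ) →
      x - x ^ (1 / 2 : ℝ) ≤ N1 → (N1 : ℝ) ≤ x →
      c0 * x ≤ (((Ico N0 N1).filter
        (fun n => ∃ h ∈ Icc 1 ⌊1 * Real.log x⌋₊, (n + h).Prime)).card : ℝ)) :
    ∃ G x0 : ℝ, ∀ x : ℝ, x0 ≤ x →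
    ∀ lam T : ℝ, 1 ≤ lam → lam ≤ Real.log x → G ≤ T → T ≤ Real.log x / 100 →
    ∀ (w : WT) (M : ℕ) (A : Finset ℕ), QD e x lam T w M A →
      x / Real.log x * Real.exp (-T) ≤
        (Set.ncard {n : ℕ | (Nat.nth Nat.Prime n : ℝ) ≤ x ∧
          lam * Real.log x ≤ (Nat.nth Nat.Prime (n + 1) : ℝ) - Nat.nth Nat.Prime n} : ℝ) := by
  have hc2 : 0 < c0 ^ 2 := by positivity
  obtain ⟨K0, hK0⟩ : ∃ K0 : ℝ, K0 = 2 + 6000 / c0 ^ 2 + 1 / e := ⟨_, rfl⟩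
  have hK0pos : 0 < K0 := by
    rw [hK0]
    positivity
  -- large x
  have E2 : ∀ᶠ x : ℝ in Filter.atTop, 4 * K0 * Real.log x ≤ x ^ (1 / 4 : ℝ) := by
    have := (isLittleO_log_rpow_atTop (r := 1 / 4) (by norm_num)).bound (c := 1 / (4 * K0))
      (by positivity)
    filter_upwards [this, Filter.eventually_ge_atTop 1] with x hx hx1
    rw [Real.norm_of_nonneg (Real.log_nonneg hx1),
      Real.norm_of_nonneg (by positivity)] at hx
    calc 4 * K0 * Real.log x ≤ 4 * K0 * (1 / (4 * K0) * x ^ (1 / 4 : ℝ)) := by gcongr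
      _ = x ^ (1 / 4 : ℝ) := by field_simp
  have E3 : ∀ᶠ x : ℝ in Filter.atTop, 100 / c0 ^ 2 ≤ x ^ (1 / 4 : ℝ) :=
    (tendsto_rpow_atTop (show (0 : ℝ) < 1 / 4 by norm_num)).eventually_ge_atTop _
  have E4 : ∀ᶠ x : ℝ in Filter.atTop, 1 ≤ Real.log x :=
    Real.tendsto_log_atTop.eventually_ge_atTop _
  obtain ⟨x2, hx2⟩ := Filter.eventually_atTop.mp
    ((E2.and E3).and (E4.and (Filter.eventually_ge_atTop (10000 : ℝ))))
  refine ⟨48 * K0 / c0 ^ 2, max x1 x2, ?_⟩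
  intro x hx lam T hlam hlam2 hT hT2 w M A Q
  have hxx1 : x1 ≤ x := (le_max_left _ _).trans hx
  obtain ⟨⟨f1, f2⟩, f3, f4⟩ := hx2 x ((le_max_right _ _).trans hx)
  obtain ⟨s, hs10, hs1, hs2, hs4⟩ := v3_root x f4
  rw [hs1] at f1 f2
  have hx0 : (0 : ℝ) < x := by linarith
  have hs0 : (0 : ℝ) < s := by linarith
  have hsq : 10 * s ≤ s ^ 2 := by nlinarith
  have hs3 : 10 * s ^ 2 ≤ s ^ 3 := by nlinarith [sq_nonneg s]
  have hs44 : 10 * s ^ 3 ≤ s ^ 4 := by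
    have h1 : s ^ 4 = s * s ^ 3 := by ring
    rw [h1]
    exact mul_le_mul_of_nonneg_right hs10 (by positivity)
  obtain ⟨L, hL⟩ : ∃ L : ℝ, L = Real.log x := ⟨_, rfl⟩
  have hT0 : 0 < T := lt_of_lt_of_le (by positivity) hT
  obtain ⟨E8, hE8⟩ : ∃ E8 : ℝ, E8 = Real.exp (T / 8) := ⟨_, rfl⟩
  have hE81 : 1 ≤ E8 := by
    rw [hE8]
    exact Real.one_le_exp (by positivity)
  have hE8pos : 0 < E8 := by linarith
  -- `E8 ^ 3 ≤ s`
  have hE83 : E8 ^ 3 ≤ s := by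
    rw [hE8, ← Real.exp_nat_mul, ← hs1, Real.rpow_def_of_pos hx0]
    refine Real.exp_le_exp.mpr ?_
    push_cast
    have : 0 ≤ Real.log x := by linarith
    linarith
  have hE82 : E8 ^ 2 ≤ s := by
    refine le_trans ?_ hE83
    exact pow_le_pow_right₀ hE81 (by norm_num)
  have hM4 := Q.M4
  rw [hs1] at hM4
  have hset := Q.set
  have hwe := Q.we
  have hC8 := Q.C8
  rw [← hE8] at hC8
  have halt := Q.alt
  rw [← hE8] at halt
  have hlam8 := Q.lam8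
  rw [← hE8] at hlam8
  rw [← hL] at f1 f3 hset hT2 hlam2 ⊢
  obtain ⟨H, hH⟩ : ∃ H : ℕ, H = ⌊lam * L⌋₊ := ⟨_, rfl⟩
  rw [← hH] at hset
  have hLpos : 0 < L := by linarith
  have hlamL : 1 ≤ lam * L := by nlinarith
  have hHle : (H : ℝ) ≤ lam * L := by
    rw [hH]
    exact Nat.floor_le (by linarith)
  have hHlt : lam * L < (H : ℝ) + 1 := by
    rw [hH]
    exact Nat.lt_floor_add_one _
  have hH1 : 1 ≤ H := by
    rw [hH]
    apply Nat.le_floor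
    rw [Nat.cast_one]
    exact hlamL
  obtain ⟨U, hU1, hU2, hU3, hU4⟩ := v3_U e c0 L E8 lam he hc0 f3 hE81 hlam8 H M hHle
    (A.card : ℝ) halt
  rw [← hK0] at hU4
  have hMpos : 0 < M := (hset ⌈x ^ (1 / 4 : ℝ)⌉₊ (Nat.le_ceil _)).Mpos
  have hMR : (0 : ℝ) < M := by exact_mod_cast hMpos
  have hHUs : (H : ℝ) + U ≤ s ^ 2 / 4 := by
    refine hU4.trans ?_
    have h1 : K0 * L ≤ s / 4 := by linarith
    calc K0 * L * E8 ^ 2 ≤ (s / 4) * s :=
          mul_le_mul h1 hE82 (by positivity) (by positivity)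
      _ = s ^ 2 / 4 := by ring
  obtain ⟨N0, hN0⟩ : ∃ N0 : ℕ, N0 = ⌈s ^ 2⌉₊ := ⟨_, rfl⟩
  have hN0ge : s ^ 2 ≤ (N0 : ℝ) := by
    rw [hN0]
    exact Nat.le_ceil _
  have hN0lt : (N0 : ℝ) < s ^ 2 + 1 := by
    rw [hN0]
    exact Nat.ceil_lt_add_one (by positivity)
  obtain ⟨R, hR⟩ : ∃ R : ℝ, R = (x - s ^ 2 / 2 - N0) / M := ⟨_, rfl⟩
  have hnum : 0 ≤ x - s ^ 2 / 2 - N0 := by
    rw [hs4]
    linarith
  have hR0 : 0 ≤ R := by
    rw [hR]
    exact div_nonneg hnum hMR.le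
  have hMR2 : (M : ℝ) * R = x - s ^ 2 / 2 - N0 := by
    rw [hR]
    field_simp
  obtain ⟨Y, hY⟩ : ∃ Y : ℕ, Y = ⌊R⌋₊ := ⟨_, rfl⟩
  have hYle : (Y : ℝ) ≤ R := by
    rw [hY]
    exact Nat.floor_le hR0
  have hYge : R - 1 ≤ Y := by
    have := Nat.lt_floor_add_one R
    rw [← hY] at this
    linarith
  have hMYle : (M : ℝ) * Y ≤ x - s ^ 2 / 2 - N0 := by
    rw [← hMR2]
    exact mul_le_mul_of_nonneg_left hYle hMR.le
  have hMYge0 : x - s ^ 2 / 2 - N0 - M ≤ (M : ℝ) * Y := by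
    have h1 : (M : ℝ) * (R - 1) ≤ M * Y := mul_le_mul_of_nonneg_left hYge hMR.le
    have h2 : (M : ℝ) * (R - 1) = x - s ^ 2 / 2 - N0 - M := by
      rw [mul_sub, hMR2]
      ring
    rw [h2] at h1
    exact h1
  have hMYge : x / 2 ≤ (M : ℝ) * Y := by
    refine le_trans ?_ hMYge0
    rw [hs4]
    linarith
  have hY4 : x ^ (1 / 4 : ℝ) ≤ Y := by
    rw [hs1]
    have h1 : s + 1 ≤ R := by
      rw [hR, le_div_iff₀ hMR]
      have h2 : (s + 1) * M ≤ (s + 1) * (s / 2) :=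
        mul_le_mul_of_nonneg_left (by linarith) (by linarith)
      have h3 : (s + 1) * (s / 2) = s ^ 2 / 2 + s / 2 := by ring
      rw [h3] at h2
      rw [hs4]
      linarith
    linarith
  have hS := hset Y hY4
  have hN0s : s < N0 := by linarith
  have hMYc : ((N0 + M * Y : ℕ) : ℝ) = N0 + (M : ℝ) * Y := by push_cast; ring
  have hwin' : c0 * ((M : ℝ) * Y) ≤ (((Ico N0 (N0 + M * Y)).filter
      (fun n => ∃ h ∈ Icc 1 H, (n + h).Prime)).card : ℝ) := by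
    have h1 := hwin x hxx1 N0 (N0 + M * Y) (by rw [hs2]; linarith)
      (by rw [hs2, hMYc]; linarith) (by rw [hMYc]; linarith [sq_nonneg s])
    have h2 : c0 * ((M : ℝ) * Y) ≤ c0 * x := by
      refine mul_le_mul_of_nonneg_left ?_ hc0.le
      have : (0 : ℝ) ≤ N0 := Nat.cast_nonneg _
      linarith [sq_nonneg s]
    refine h2.trans (h1.trans ?_)
    have h3 : ((Ico N0 (N0 + M * Y)).filter
        (fun n => ∃ h ∈ Icc 1 ⌊1 * Real.log x⌋₊, (n + h).Prime)).card ≤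
        ((Ico N0 (N0 + M * Y)).filter (fun n => ∃ h ∈ Icc 1 H, (n + h).Prime)).card := by
      refine card_le_card fun n hn => ?_
      rw [mem_filter] at hn ⊢
      obtain ⟨hn1, h, hh, hp⟩ := hn
      refine ⟨hn1, h, ?_, hp⟩
      rw [mem_Icc] at hh ⊢
      refine ⟨hh.1, hh.2.trans ?_⟩
      rw [hH]
      refine Nat.floor_le_floor ?_
      rw [← hL]
      exact mul_le_mul_of_nonneg_right hlam hLpos.le
    exact_mod_cast h3
  have hgap := w.gap_count H M A Y hS N0 U c0 (2 * E8) hc0 hc1 (by rw [hwe]; exact hec)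
    (by
      have h1 : (2 : ℝ) ≤ N0 := by linarith
      exact_mod_cast h1)
    (fun q hq hqM => by
      have h1 := Q.q4 q hq hqM
      rw [hs1] at h1
      have h2 : (q : ℝ) < N0 := by linarith
      exact_mod_cast h2)
    (fun p hp => by
      have h1 := Q.P4 p hp
      rw [hs1] at h1
      have h2 : (p : ℝ) < N0 := by linarith
      exact_mod_cast h2)
    hH1 hU1
    (by
      have h1 : 2 * w.C * ((M : ℝ) / A.card) = 2 * (w.C * ((M : ℝ) / A.card)) := by ring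
      rw [h1]
      linarith)
    hU2
    (by
      rw [hwe]
      exact hU3)
    (by
      rw [Q.wX, Real.exp_log hx0]
      push_cast
      have h1 : (0 : ℝ) ≤ U := Nat.cast_nonneg _
      rw [hs4]
      linarith)
    (by
      have h1 : ((H + U : ℕ) : ℝ) ≤ ((M * Y : ℕ) : ℝ) := by
        push_cast
        refine le_trans ?_ hMYge
        rw [hs4]
        linarith
      exact_mod_cast h1)
    (by
      have h1 : E8 * ((H : ℝ) + U) ≤ s ^ 2 / 4 := by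
        calc E8 * ((H : ℝ) + U) ≤ E8 * (K0 * L * E8 ^ 2) :=
              mul_le_mul_of_nonneg_left hU4 hE8pos.le
          _ = K0 * L * E8 ^ 3 := by ring
          _ ≤ (s / 4) * s := mul_le_mul (by linarith) hE83 (by positivity) (by positivity)
          _ = s ^ 2 / 4 := by ring
      have h2 : 100 * (2 * E8) * ((H : ℝ) + U) ≤ 50 * s ^ 2 := by
        have : 100 * (2 * E8) * ((H : ℝ) + U) = 200 * (E8 * ((H : ℝ) + U)) := by ring
        rw [this]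
        linarith
      refine h2.trans ?_
      have h3 : 100 ≤ c0 ^ 2 * s := by
        rw [div_le_iff₀ hc2] at f2
        linarith
      have h4 : c0 ^ 2 * (x / 2) ≤ c0 ^ 2 * ((M : ℝ) * Y) :=
        mul_le_mul_of_nonneg_left hMYge hc2.le
      refine le_trans ?_ h4
      have h5 : c0 ^ 2 * (x / 2) = (c0 ^ 2 * s) * s ^ 3 / 2 := by
        rw [hs4]
        ring
      rw [h5]
      have h6 : 100 * s ^ 3 ≤ (c0 ^ 2 * s) * s ^ 3 :=
        mul_le_mul_of_nonneg_right h3 (by positivity)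
      have h7 : s ^ 2 ≤ s ^ 3 := by linarith [sq_nonneg s]
      linarith)
    hwin'
  obtain ⟨K, hK⟩ : ∃ K : ℝ, K = ((lg H (N0 + M * Y + H + U)).card : ℝ) := ⟨_, rfl⟩
  rw [← hK] at hgap
  have hK0' : 0 ≤ K := by
    rw [hK]
    exact Nat.cast_nonneg _
  have hfin := card_lg_le H (N0 + M * Y + H + U) lam x (by
    have h1 : ((N0 + M * Y + H + U : ℕ) : ℝ) = N0 + (M : ℝ) * Y + H + U := by push_cast; ring
    rw [h1]
    linarith [sq_nonneg s]) (by rw [← hL]; exact hHlt.le)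
  rw [← hK, ← hL] at hfin
  refine le_trans ?_ hfin
  -- numerics
  have h1 : c0 ^ 2 * (x / 2) ≤ 12 * (K0 * L * E8 ^ 3) * K := by
    calc c0 ^ 2 * (x / 2) ≤ c0 ^ 2 * ((M : ℝ) * Y) := mul_le_mul_of_nonneg_left hMYge hc2.le
      _ ≤ 6 * (2 * E8) * (H + U) * K := hgap
      _ ≤ 6 * (2 * E8) * (K0 * L * E8 ^ 2) * K := by
          refine mul_le_mul_of_nonneg_right ?_ hK0'
          exact mul_le_mul_of_nonneg_left hU4 (by positivity)
      _ = 12 * (K0 * L * E8 ^ 3) * K := by ring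
  have h2 : E8 ^ 3 * Real.exp (-T) * (24 * K0) ≤ c0 ^ 2 := by
    have h3 : E8 ^ 3 * Real.exp (-T) = Real.exp (-(5 * T / 8)) := by
      rw [hE8, ← Real.exp_nat_mul, ← Real.exp_add]
      congr 1
      push_cast
      ring
    rw [h3]
    have h4 : 24 * K0 ≤ c0 ^ 2 * Real.exp (5 * T / 8) := by
      have h5 : 5 * T / 8 ≤ Real.exp (5 * T / 8) := by
        have := Real.add_one_le_exp (5 * T / 8)
        linarith
      have h6 : 48 * K0 ≤ c0 ^ 2 * T := by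
        rw [div_le_iff₀ hc2] at hT
        linarith
      have h7 : c0 ^ 2 * (5 * T / 8) ≤ c0 ^ 2 * Real.exp (5 * T / 8) :=
        mul_le_mul_of_nonneg_left h5 hc2.le
      have h8 : 0 < c0 ^ 2 * T := by positivity
      linarith
    have h5 : Real.exp (-(5 * T / 8)) * Real.exp (5 * T / 8) = 1 := by
      rw [← Real.exp_add]
      simp
    calc Real.exp (-(5 * T / 8)) * (24 * K0)
        ≤ Real.exp (-(5 * T / 8)) * (c0 ^ 2 * Real.exp (5 * T / 8)) :=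
          mul_le_mul_of_nonneg_left h4 (Real.exp_pos _).le
      _ = c0 ^ 2 * (Real.exp (-(5 * T / 8)) * Real.exp (5 * T / 8)) := by ring
      _ = c0 ^ 2 := by rw [h5, mul_one]
  have hE3 : 0 < E8 ^ 3 := by positivity
  have hkey : x * Real.exp (-T) ≤ L * K := by
    have h3 : (x * Real.exp (-T)) * (24 * K0 * E8 ^ 3) ≤ (L * K) * (24 * K0 * E8 ^ 3) := by
      calc (x * Real.exp (-T)) * (24 * K0 * E8 ^ 3)
          = x * (E8 ^ 3 * Real.exp (-T) * (24 * K0)) := by ring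
        _ ≤ x * c0 ^ 2 := mul_le_mul_of_nonneg_left h2 hx0.le
        _ = 2 * (c0 ^ 2 * (x / 2)) := by ring
        _ ≤ 2 * (12 * (K0 * L * E8 ^ 3) * K) := by linarith
        _ = (L * K) * (24 * K0 * E8 ^ 3) := by ring
    exact le_of_mul_le_mul_right h3 (by positivity)
  rw [div_mul_eq_mul_div, div_le_iff₀ hLpos]
  linarith

end Pool.Agent.Lib.H64T
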