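import Pool.Agent.Lib.H15P.FIN3

/-!
# Chunk Z1: windows in different gaps between primes
-/

open Finset

namespace Pool.Agent.Lib.H64T

open Pool.Agent.Lib.H15P

/-- For `p ∈ lgz H z0 X` let `a p` be the number of the definition `gd`: `p ≤ a p`, no prime `q` with
`p < q ≤ a p + H`, and `minFac (a p + h) ≤ z0` for `1 ≤ h ≤ H`. If `p < p'` are in `lgz` then
`a p + H < p' ≤ a p'`. `S` = the `a p` for all `p` of `lgz` but the largest (`a` is injective), so
`a p + H < max ≤ X` for `p` not the largest. Between `a p` and `a p'` lies the prime `p'`. The numbers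
`a p + h` are not prime, as `p < a p + h ≤ a p + H`. -/
theorem z1_set (H : ℕ) (z0 : ℝ) (X : ℕ) : ∃ S : Finset ℕ, (lgz H z0 X).card ≤ S.card + 1 ∧
    (∀ n ∈ S, n + H < X ∧ ∀ h ∈ Icc 1 H, ¬ (n + h).Prime ∧ ((n + h).minFac : ℝ) ≤ z0) ∧
    ∀ n ∈ S, ∀ n' ∈ S, n < n' → ∃ q : ℕ, q.Prime ∧ n + H < q ∧ q ≤ n' := by
  classical
  set L := lgz H z0 X with hL
  have hmem : ∀ p ∈ L, (1 ≤ p ∧ p ≤ X) ∧ gd H z0 p := by
    intro p hp
    rw [hL, lgz, mem_filter, mem_Icc] at hp
    exact hp
  rcases L.eq_empty_or_nonempty with h0 | h0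
  · refine ⟨∅, ?_, ?_, ?_⟩
    · rw [h0]
      simp
    · intro n hn
      simp at hn
    · intro n hn
      simp at hn
  · choose! a ha using fun p (hp : p ∈ L) => (hmem p hp).2.2
    set p1 := L.max' h0 with hp1
    have hp1L : p1 ∈ L := L.max'_mem h0
    have hlt : ∀ p ∈ L, ∀ p' ∈ L, p < p' → a p + H < p' := by
      intro p hp p' hp' h1
      by_contra h2
      push Not at h2
      exact (ha p hp).2.1 p' h1 h2 (hmem p' hp').2.1
    have hlt2 : ∀ p ∈ L, ∀ p' ∈ L, p < p' → a p + H < a p' := fun p hp p' hp' h1 =>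
      (hlt p hp p' hp' h1).trans_le (ha p' hp').1
    have hinj : Set.InjOn a (L.erase p1 : Set ℕ) := by
      intro p hp p' hp' h1
      rw [mem_coe, mem_erase] at hp hp'
      rcases lt_trichotomy p p' with h2 | h2 | h2
      · have := hlt2 p hp.2 p' hp'.2 h2
        omega
      · exact h2
      · have := hlt2 p' hp'.2 p hp.2 h2
        omega
    refine ⟨(L.erase p1).image a, ?_, ?_, ?_⟩
    · rw [card_image_of_injOn hinj, card_erase_of_mem hp1L]
      omega
    · intro n hn
      rw [mem_image] at hn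
      obtain ⟨p, hp, rfl⟩ := hn
      rw [mem_erase] at hp
      have h1 : p < p1 := lt_of_le_of_ne (L.le_max' p hp.2) hp.1
      have h2 := hlt p hp.2 p1 hp1L h1
      have h3 := (hmem p1 hp1L).1.2
      refine ⟨by omega, fun h hh => ?_⟩
      have h4 := ha p hp.2
      rw [mem_Icc] at hh
      refine ⟨h4.2.1 (a p + h) (by omega) (by omega), h4.2.2 h (mem_Icc.mpr hh)⟩
    · intro n hn n' hn' hnn
      rw [mem_image] at hn hn'
      obtain ⟨p, hp, rfl⟩ := hn
      obtain ⟨p', hp', rfl⟩ := hn'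
      rw [mem_erase] at hp hp'
      have h1 : p < p' := by
        by_contra h2
        push Not at h2
        rcases eq_or_lt_of_le h2 with h3 | h3
        · rw [h3] at hnn
          exact lt_irrefl _ hnn
        · have := hlt2 p' hp'.2 p hp.2 h3
          omega
      exact ⟨p', (hmem p' hp'.2).2.1, hlt p hp.2 p' hp'.2 h1, (ha p' hp'.2).1⟩

/-- A residue class modulo `d` contains at least `#S/d` elements of `S`; different elements of a
class differ by at least `d`. -/
theorem z1_class (S : Finset ℕ) (d : ℕ) (hd : 0 < d) : ∃ S' ⊆ S, S.card ≤ d * S'.card ∧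
    ∀ n ∈ S', ∀ n' ∈ S', n < n' → n + d ≤ n' := by
  classical
  have h1 : S.card = ∑ r ∈ range d, (S.filter (fun n => n % d = r)).card := by
    apply card_eq_sum_card_fiberwise
    intro n _
    rw [mem_coe, mem_range]
    exact Nat.mod_lt _ hd
  obtain ⟨r, hr, h2⟩ : ∃ r ∈ range d, S.card ≤ d * (S.filter (fun n => n % d = r)).card := by
    by_contra hcon
    push Not at hcon
    have h3 : ∑ r ∈ range d, d * (S.filter (fun n => n % d = r)).card <
        ∑ _r ∈ range d, S.card :=
      sum_lt_sum_of_nonempty ⟨0, mem_range.mpr hd⟩ hcon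
    rw [← mul_sum, ← h1, sum_const, card_range, smul_eq_mul] at h3
    exact lt_irrefl _ h3
  refine ⟨S.filter (fun n => n % d = r), filter_subset _ _, h2, ?_⟩
  intro n hn n' hn' hnn
  rw [mem_filter] at hn hn'
  have h4 : n ≡ n' [MOD d] := by
    unfold Nat.ModEq
    rw [hn.2, hn'.2]
  have h5 := (Nat.modEq_iff_dvd' hnn.le).mp h4
  have h6 := Nat.le_of_dvd (by omega) h5
  omega

end Pool.Agent.Lib.H64T
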