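import Pool.Agent.Lib.H64T.Q1
import Pool.Agent.Lib.H64T.V2
import Pool.Agent.Lib.H64T.V3Z
import Pool.Agent.Lib.H64T.Z1

/-!
# The theorem
-/

open Finset

namespace Pool.Agent.Lib.H64T

open Pool.Agent.Lib.H15P

/-- Choice of disjoint windows: `x exp (-T/2)` windows give `(x/L) exp (-T)` disjoint ones. -/
theorem fin_disj (x lam T : ℝ) (hx : 0 < x) (hL : 1 ≤ Real.log x) (hl : 1 ≤ lam)
    (hT : 10 ≤ T) (hlT : lam ≤ Real.exp (T / 8)) (S : Finset ℕ)
    (hS : x * Real.exp (-T / 2) ≤ (S.card : ℝ)) : ∃ S' ⊆ S,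
    x / Real.log x * Real.exp (-T) ≤ (S'.card : ℝ) ∧
    ∀ n ∈ S', ∀ n' ∈ S', n < n' → (n : ℝ) + lam * Real.log x ≤ n' := by
  have hlL : 1 ≤ lam * Real.log x := one_le_mul_of_one_le_of_one_le hl hL
  obtain ⟨d, hd⟩ : ∃ d : ℕ, d = ⌈lam * Real.log x⌉₊ := ⟨_, rfl⟩
  have hd1 : lam * Real.log x ≤ d := by
    rw [hd]
    exact Nat.le_ceil _
  have hd2 : (d : ℝ) ≤ 2 * (lam * Real.log x) := by
    have := Nat.ceil_lt_add_one (by linarith : 0 ≤ lam * Real.log x)
    rw [← hd] at this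
    linarith
  have hd0 : 0 < d := by
    have : (0 : ℝ) < d := by linarith
    exact_mod_cast this
  obtain ⟨S', hS', h1, h2⟩ := z1_class S d hd0
  refine ⟨S', hS', ?_, fun n hn n' hn' hnn => ?_⟩
  · have h3 : (S.card : ℝ) ≤ d * S'.card := by exact_mod_cast h1
    have h4 : (d : ℝ) * S'.card ≤ 2 * (lam * Real.log x) * S'.card :=
      mul_le_mul_of_nonneg_right hd2 (Nat.cast_nonneg _)
    have hL0 : 0 < Real.log x := by linarith
    have h5 : x * Real.exp (-T / 2) ≤ 2 * (lam * Real.log x) * S'.card := hS.trans (h3.trans h4)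
    have h6 : 2 * (lam * Real.log x) * S'.card ≤
        2 * (Real.exp (T / 8) * Real.log x) * S'.card := by
      apply mul_le_mul_of_nonneg_right _ (Nat.cast_nonneg _)
      apply mul_le_mul_of_nonneg_left _ (by norm_num)
      exact mul_le_mul_of_nonneg_right hlT hL0.le
    have h7 : (2 : ℝ) ≤ Real.exp (3 * T / 8) := by
      have := Real.add_one_le_exp (3 * T / 8)
      linarith
    have h8 : x * Real.exp (-T) * Real.exp (3 * T / 8) ≤ Real.log x * S'.card * 2 := by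
      have e1 : x * Real.exp (-T) * Real.exp (3 * T / 8) =
          x * Real.exp (-T / 2) * Real.exp (-(T / 8)) := by
        rw [mul_assoc, mul_assoc, ← Real.exp_add, ← Real.exp_add]
        ring_nf
      have e2 : 2 * (Real.exp (T / 8) * Real.log x) * S'.card * Real.exp (-(T / 8)) =
          Real.log x * S'.card * 2 := by
        have e3 : Real.exp (T / 8) * Real.exp (-(T / 8)) = 1 := by
          rw [← Real.exp_add, add_neg_cancel, Real.exp_zero]
        calc 2 * (Real.exp (T / 8) * Real.log x) * S'.card * Real.exp (-(T / 8)) =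
            Real.log x * S'.card * 2 * (Real.exp (T / 8) * Real.exp (-(T / 8))) := by ring
          _ = Real.log x * S'.card * 2 := by rw [e3, mul_one]
      rw [e1, ← e2]
      exact mul_le_mul_of_nonneg_right (h5.trans h6) (Real.exp_pos _).le
    have h9 : 0 < x * Real.exp (-T) := by positivity
    have h10 := mul_le_mul_of_nonneg_left h7 h9.le
    rw [div_mul_eq_mul_div, div_le_iff₀ hL0]
    linarith
  · have h3 : (n : ℝ) + d ≤ n' := by exact_mod_cast h2 n hn n' hn' hnn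
    linarith

/-- The uniform law: many disjoint intervals `(n, n + lam log x]` in `[z, z + x]`, for every `z`, all
whose integers are composite with a small prime factor; for `z = 0` in different gaps. -/
theorem tail_law : ∃ C c x0 : ℝ, 0 < C ∧ 0 < c ∧ ∀ x : ℝ, x0 ≤ x → ∀ lam : ℝ, 1 ≤ lam →
    lam * Real.log x ≤ c * F x → ∀ z : ℕ, ∃ S : Finset ℕ,
      x / Real.log x * Real.exp (-(Real.log x ^ th C lam x)) ≤ (S.card : ℝ) ∧
      (∀ n ∈ S, z ≤ n ∧ (n : ℝ) + lam * Real.log x ≤ z + x ∧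
        ∀ k : ℕ, n < k → (k : ℝ) ≤ n + lam * Real.log x →
          ¬ k.Prime ∧ (k.minFac : ℝ) ≤ x ^ (1 / 4 : ℝ)) ∧
      ∀ n ∈ S, ∀ n' ∈ S, n < n' → (n : ℝ) + lam * Real.log x ≤ n' ∧
        (z = 0 → ∃ q : ℕ, q.Prime ∧ n < q ∧ q ≤ n') := by
  obtain ⟨c0, hc0, hc1, x1, hwin⟩ := windows_with_prime 1 one_pos
  obtain ⟨e, he, he1, he2⟩ : ∃ e : ℝ, 0 < e ∧ e ≤ 1 / 20 ∧ e ≤ c0 ^ 2 / 1000 :=
    ⟨min (1 / 20) (c0 ^ 2 / 1000), by positivity, min_le_left _ _, min_le_right _ _⟩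
  obtain ⟨x2, hV⟩ := void_of_Q e he he1
  obtain ⟨G, x3, hG⟩ := gaps_of_Q_z e c0 he hc0 hc1 he2 x1 hwin
  obtain ⟨C, c, x4, hC, hc, hQ⟩ := exists_Q e he (by linarith) (max G 10)
  refine ⟨C, c, max (max x2 (Real.exp 1)) (max x3 x4), hC, hc, fun x hx lam hl hlam z => ?_⟩
  have h2 : x2 ≤ x := (le_max_left _ _).trans ((le_max_left _ _).trans hx)
  have hx1 : Real.exp 1 ≤ x := (le_max_right _ _).trans ((le_max_left _ _).trans hx)
  have h3 : x3 ≤ x := (le_max_left _ _).trans ((le_max_right _ _).trans hx)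
  have h4 : x4 ≤ x := (le_max_right _ _).trans ((le_max_right _ _).trans hx)
  have hxpos : 0 < x := (Real.exp_pos 1).trans_le hx1
  have hL1 : 1 ≤ Real.log x := (Real.le_log_iff_exp_le hxpos).mpr hx1
  obtain ⟨q1, q2, q3, w, M, A, hD⟩ := hQ x h4 lam hl hlam
  set T := Real.log x ^ th C lam x with hT
  have hT10 : 10 ≤ T := (le_max_right _ _).trans q1
  have hTG : G ≤ T := (le_max_left _ _).trans q1
  rcases Nat.eq_zero_or_pos z with hz | hz
  · subst hz
    have hg := hG x h3 lam T hl q3 hTG q2 w M A hD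
    obtain ⟨S, s1, s2, s3⟩ := z1_set ⌊lam * Real.log x⌋₊ (x ^ (1 / 4 : ℝ)) ⌊x⌋₊
    have hlL : 0 ≤ lam * Real.log x := by positivity
    have hfl : lam * Real.log x < (⌊lam * Real.log x⌋₊ : ℝ) + 1 := Nat.lt_floor_add_one _
    have hfx : ((⌊x⌋₊ : ℕ) : ℝ) ≤ x := Nat.floor_le hxpos.le
    refine ⟨S, ?_, fun n hn => ⟨Nat.zero_le _, ?_, ?_⟩, fun n hn n' hn' hnn => ?_⟩
    · have h5 : (((lgz ⌊lam * Real.log x⌋₊ (x ^ (1 / 4 : ℝ)) ⌊x⌋₊).card : ℕ) : ℝ) ≤
          S.card + 1 := by exact_mod_cast s1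
      linarith
    · have h5 : ((n + ⌊lam * Real.log x⌋₊ + 1 : ℕ) : ℝ) ≤ ((⌊x⌋₊ : ℕ) : ℝ) := by
        exact_mod_cast (s2 n hn).1
      push_cast at h5 ⊢
      linarith
    · intro k hk1 hk2
      have h5 : k - n ≤ ⌊lam * Real.log x⌋₊ := by
        apply Nat.le_floor
        rw [Nat.cast_sub hk1.le]
        linarith
      have h6 := (s2 n hn).2 (k - n) (mem_Icc.mpr ⟨by omega, h5⟩)
      rwa [Nat.add_sub_of_le hk1.le] at h6
    · obtain ⟨q, hq1, hq2, hq3⟩ := s3 n hn n' hn' hnn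
      refine ⟨?_, fun _ => ⟨q, hq1, by omega, hq3⟩⟩
      have h5 : ((n + ⌊lam * Real.log x⌋₊ + 1 : ℕ) : ℝ) ≤ (n' : ℝ) := by
        have : n + ⌊lam * Real.log x⌋₊ + 1 ≤ n' := by omega
        exact_mod_cast this
      push_cast at h5
      linarith
  · obtain ⟨S0, hS0, hS2⟩ := hV x h2 lam T hl q3 hT10 q2 w M A hD z
    obtain ⟨S, hSS, hS3, hS4⟩ := fin_disj x lam T hxpos hL1 hl hT10 hD.lam8 S0 hS0
    refine ⟨S, hS3, fun n hn => hS2 n (hSS hn), fun n hn n' hn' hnn =>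
      ⟨hS4 n hn n' hn' hnn, fun h0 => ?_⟩⟩
    omega

end Pool.Agent.Lib.H64T
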