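import Pool.Agent.Lib.H64T.Defs
import Pool.Agent.Lib.H15P.TR1

/-!
# Chunk G1: states of the primes; both expectations as sums over the states
-/

open Finset

namespace Pool.Agent.Lib.H64T

open Pool.Agent.Lib.H15P

variable {J : Type} [Fintype J] [DecidableEq J]

/-- The sets of primes of the forms, if the prime `i` divides exactly the forms of `σ i`. -/
def cg {ι : Type} [Fintype ι] (σ : ι → Finset J) (j : J) : Finset ι :=
  univ.filter (fun i => j ∈ σ i)

theorem g1_mem {ι : Type} [Fintype ι] (σ : ι → Finset J) (j : J) (i : ι) : i ∈ cg σ j ↔ j ∈ σ i := by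
  unfold cg
  simp

/-- The bijection. -/
def g1_e (ι : Type) [Fintype ι] [DecidableEq ι] (J : Type) [Fintype J] [DecidableEq J] :
    (ι → Finset J) ≃ (J → Finset ι) where
  toFun σ := cg σ
  invFun S i := univ.filter (fun j => i ∈ S j)
  left_inv σ := by
    funext i
    ext j
    simp only [mem_filter, mem_univ, true_and]
    exact g1_mem σ j i
  right_inv S := by
    funext j
    ext i
    rw [g1_mem]
    simp

/-- `σ ↦ cg σ` is a bijection from `ι → Finset J` onto `J → Finset ι` (inverse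
`S ↦ fun i => univ.filter (fun j => i ∈ S j)`), and `∏_j bw q (S j) = ∏_i bs (q i) (σ i)`
(`Finset.prod_comm`, `i ∈ cg σ j ↔ j ∈ σ i`). -/
theorem EX_gen {ι : Type} [Fintype ι] [DecidableEq ι] (q : ι → ℝ) (F : (J → Finset ι) → ℝ) :
    EX q F = ∑ σ : ι → Finset J, F (cg σ) * ∏ i, bs (q i) (σ i) := by
  unfold EX
  refine (Fintype.sum_equiv (g1_e ι J) _ _ fun σ => ?_).symm
  change F (cg σ) * ∏ i, bs (q i) (σ i) = F (cg σ) * ∏ j, bw q (cg σ j)
  congr 1
  unfold bs bw
  rw [Finset.prod_comm]
  refine prod_congr rfl fun j _ => prod_congr rfl fun i _ => ?_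
  by_cases h : j ∈ σ i
  · rw [if_pos h, if_pos ((g1_mem σ j i).2 h)]
  · rw [if_neg h, if_neg fun h' => h ((g1_mem σ j i).1 h')]

/-- Indicator that the prime `p` has the state `s` at `t`. -/
noncomputable def g1_ind (M : ℕ) (b : J → ℕ) (p : ℕ) (t : ℕ) (s : Finset J) : ℝ :=
  if univ.filter (fun j => p ∣ b j + M * t) = s then 1 else 0

theorem g1_expand {P : Finset ℕ} (M : ℕ) (b : J → ℕ) (F : (J → Finset {p // p ∈ P}) → ℝ) (t : ℕ) :
    F (fun j => hit P (b j + M * t)) = ∑ σ : {p // p ∈ P} → Finset J, F (cg σ) *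
      ∏ i, g1_ind M b i.1 t (σ i) := by
  classical
  set σ0 : {p // p ∈ P} → Finset J := fun i => univ.filter (fun j => i.1 ∣ b j + M * t) with hσ0
  rw [Finset.sum_eq_single σ0]
  · have h1 : (fun j => hit P (b j + M * t)) = cg σ0 := by
      funext j
      ext i
      rw [g1_mem]
      simp [hσ0, hit]
    have h2 : ∏ i, g1_ind M b i.1 t (σ0 i) = 1 := by
      apply Finset.prod_eq_one
      intro i _
      unfold g1_ind
      rw [if_pos rfl]
    rw [h1, h2, mul_one]
  · intro σ _ hσ
    obtain ⟨i, hi⟩ : ∃ i, σ i ≠ σ0 i := by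
      by_contra hcon
      push Not at hcon
      exact hσ (funext hcon)
    have h3 : g1_ind M b i.1 t (σ i) = 0 := by
      unfold g1_ind
      rw [if_neg]
      intro h
      exact hi h.symm
    rw [Finset.prod_eq_zero (Finset.mem_univ i) h3, mul_zero]
  · intro h
    exact absurd (Finset.mem_univ σ0) h

theorem g1_periodic (M : ℕ) (b : J → ℕ) (p : ℕ) (s : Finset J) :
    Function.Periodic (fun t => g1_ind M b p t s) p := by
  intro t
  have h : ∀ j, (p ∣ b j + M * (t + p)) ↔ (p ∣ b j + M * t) := by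
    intro j
    have e : b j + M * (t + p) = (b j + M * t) + p * M := by ring
    rw [e]
    exact (Nat.dvd_add_left (Dvd.intro M rfl))
  simp only [g1_ind, h]

theorem g1_sum_period (M : ℕ) (b : J → ℕ) (p : ℕ) (hp : p.Prime) (s : Finset J) :
    ∑ t ∈ range p, g1_ind M b p t s = p * w2 M b p s := by
  have hp0 : (p : ℝ) ≠ 0 := by
    have := hp.pos
    positivity
  unfold g1_ind w2
  rw [← Finset.sum_filter, sum_const, nsmul_eq_mul, mul_one]
  field_simp

/-- For `t`, let `σ_t(p)` be the set of the forms divisible by `p`; then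
`F (fun j => hit P (b j + M t)) = F (cg σ_t)` `= Σ_σ F(cg σ) ∏_p 1[σ_t(p) = σ p]`; the factor of `p` has
period `p`, and by `H56G.sum_range_prod` (index type `{p // p ∈ P}`, distinct primes) the sum over a
full period is `∏_p #{t < p : σ_t(p) = σ p}`; divide by `∏ p`. (Same proof as `H15P.EP_eq`, which is
the case that every prime divides at most one form; no hypothesis on the forms is needed.) -/
theorem EP_gen (P : Finset ℕ) (hP : ∀ p ∈ P, p.Prime) (M : ℕ) (b : J → ℕ)
    (F : (J → Finset {p // p ∈ P}) → ℝ) :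
    EP P M b F = ∑ σ : {p // p ∈ P} → Finset J, F (cg σ) * ∏ i, w2 M b i.1 (σ i) := by
  classical
  have hprod : (∏ p ∈ P, p) = ∏ i : {p // p ∈ P}, i.1 := by
    rw [← Finset.prod_coe_sort P (fun p => p)]
  have hpos : (0 : ℝ) < ((∏ p ∈ P, p : ℕ) : ℝ) := by
    have : 0 < ∏ p ∈ P, p := Finset.prod_pos (fun p hp => (hP p hp).pos)
    exact_mod_cast this
  unfold EP
  rw [div_eq_iff hpos.ne', Finset.sum_mul]
  rw [Finset.sum_congr rfl (fun t _ => g1_expand M b F t), Finset.sum_comm]
  refine Finset.sum_congr rfl (fun σ _ => ?_)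
  rw [← Finset.mul_sum, mul_assoc]
  congr 1
  rw [hprod, H56G.sum_range_prod (fun i : {p // p ∈ P} => i.1) (fun i => hP i.1 i.2)
    Subtype.val_injective univ (fun i t => g1_ind M b i.1 t (σ i))
    (fun i => g1_periodic M b i.1 (σ i))]
  rw [Finset.prod_congr rfl (fun i _ => g1_sum_period M b i.1 (hP i.1 i.2) (σ i))]
  rw [Finset.prod_mul_distrib]
  push_cast
  ring

end Pool.Agent.Lib.H64T
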