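import Pool.Agent.Lib.H64T.G1

/-!
# Chunk G2: domination of the true distribution by the independent model
-/

open Finset

namespace Pool.Agent.Lib.H64T

open Pool.Agent.Lib.H15P

variable {J : Type} [Fintype J] [DecidableEq J]

/-- `EP_gen`, termwise `∏_i w2 ≤ (∏_i a i) ∏_i ψ i (σ i) ∏_i bs` (`Finset.prod_le_prod`, `w2 ≥ 0`),
`F ≥ 0`, then `EX_gen` for the function `S ↦ F S ∏_i ψ i {j | i ∈ S j}`, where
`{j | i ∈ cg σ j} = σ i`. -/
theorem EP_le_of (P : Finset ℕ) (hP : ∀ p ∈ P, p.Prime) (M : ℕ) (b : J → ℕ)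
    (q a : {p // p ∈ P} → ℝ) (ψ : {p // p ∈ P} → Finset J → ℝ) (ha : ∀ i, 0 ≤ a i)
    (h : ∀ i s, w2 M b i.1 s ≤ a i * (ψ i s * bs (q i) s))
    (F : (J → Finset {p // p ∈ P}) → ℝ) (h0 : ∀ S, 0 ≤ F S) :
    EP P M b F ≤ (∏ i, a i) *
      EX q (fun S => F S * ∏ i, ψ i (univ.filter (fun j => i ∈ S j))) := by
  rw [EP_gen P hP M b F, EX_gen, Finset.mul_sum]
  refine Finset.sum_le_sum fun σ _ => ?_
  have hw0 : ∀ i : {p // p ∈ P}, 0 ≤ w2 M b i.1 (σ i) := fun i => by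
    unfold w2
    positivity
  have h1 : ∏ i, w2 M b i.1 (σ i) ≤ ∏ i, a i * (ψ i (σ i) * bs (q i) (σ i)) :=
    Finset.prod_le_prod (fun i _ => hw0 i) fun i _ => h i (σ i)
  have h2 : ∀ i, univ.filter (fun j => i ∈ cg σ j) = σ i := by
    intro i
    ext j
    rw [mem_filter, g1_mem]
    simp
  have h3 : ∏ i, ψ i (univ.filter (fun j => i ∈ cg σ j)) = ∏ i, ψ i (σ i) :=
    Finset.prod_congr rfl fun i _ => by rw [h2 i]
  change F (cg σ) * ∏ i, w2 M b i.1 (σ i) ≤ (∏ i, a i) *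
    ((F (cg σ) * ∏ i, ψ i (univ.filter (fun j => i ∈ cg σ j))) * ∏ i, bs (q i) (σ i))
  rw [h3]
  refine (mul_le_mul_of_nonneg_left h1 (h0 _)).trans (le_of_eq ?_)
  rw [Finset.prod_mul_distrib, Finset.prod_mul_distrib]
  ring

end Pool.Agent.Lib.H64T
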