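import Pool.Agent.Lib.H64T.Defs

/-!
# Chunk H1: independence of functions of disjoint sets of forms
-/

open Finset

namespace Pool.Agent.Lib.H64T

open Pool.Agent.Lib.H15P

variable {ι J : Type} [Fintype ι] [DecidableEq ι] [Fintype J] [DecidableEq J]

/-- the general formula -/
theorem h1_gen (q : ι → ℝ) (B : Finset J) (F' : ({j // j ∈ B} → Finset ι) → ℝ)
    (G' : ({j // ¬ j ∈ B} → Finset ι) → ℝ) :
    EX q (fun S : J → Finset ι => F' (fun j => S j.1) * G' (fun j => S j.1)) =
      (∑ a, F' a * ∏ j, bw q (a j)) * (∑ c, G' c * ∏ j, bw q (c j)) := by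
  unfold EX
  rw [← (Equiv.piEquivPiSubtypeProd (fun j => j ∈ B) (fun _ : J => Finset ι)).symm.sum_comp, Fintype.sum_prod_type,
    Finset.sum_mul_sum]
  refine Finset.sum_congr rfl fun a _ => Finset.sum_congr rfl fun c _ => ?_
  rw [← Fintype.prod_subtype_mul_prod_subtype (fun j => j ∈ B)]
  have e1 : ∀ j : {j // j ∈ B}, (Equiv.piEquivPiSubtypeProd (fun j => j ∈ B) (fun _ : J => Finset ι)).symm (a, c) j.1
      = a j := by
    intro j
    simp only [Equiv.piEquivPiSubtypeProd_symm_apply, j.2, dite_true]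
  have e2 : ∀ j : {j // ¬ j ∈ B}, (Equiv.piEquivPiSubtypeProd (fun j => j ∈ B) (fun _ : J => Finset ι)).symm (a, c) j.1
      = c j := by
    intro j
    simp only [Equiv.piEquivPiSubtypeProd_symm_apply, j.2, dite_false]
  simp only [e1, e2]
  rw [mul_mul_mul_comm]
  exact congrArg₂ _ (congrArg₂ _ rfl (Finset.prod_congr (Finset.ext fun _ => by simp) fun _ _ => rfl))
    (congrArg₂ _ rfl (Finset.prod_congr (Finset.ext fun _ => by simp) fun _ _ => rfl))

theorem h1_sum_one (q : ι → ℝ) (T : Type) [Fintype T] [DecidableEq T] :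
    ∑ c : T → Finset ι, ∏ j, bw q (c j) = 1 := by
  have h := Finset.prod_univ_sum (fun _ : T => (univ : Finset (Finset ι))) (fun _ A => bw q A)
  rw [Fintype.piFinset_univ] at h
  rw [← h]
  exact Finset.prod_eq_one fun _ _ => sum_bw q

/-- `F` depends only on the sets `S j`, `j ∈ B`, and `G` only on the others. Split `S` into the two
parts (`Equiv.piEquivPiSubtypeProd (· ∈ B)`), the weight `∏_j bw (S j)` is the product of the two
partial weights, whose sums are `1` (`sum_bw`); so `EX (F G) = (Σ F w1)(Σ G w2)`,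
`EX F = (Σ F w1) · 1`, `EX G = 1 · (Σ G w2)`. -/
theorem EX_mul_split (q : ι → ℝ) (B : Finset J) (F G : (J → Finset ι) → ℝ)
    (hF : ∀ S S', (∀ j ∈ B, S j = S' j) → F S = F S')
    (hG : ∀ S S', (∀ j, j ∉ B → S j = S' j) → G S = G S') :
    EX q (fun S => F S * G S) = EX q F * EX q G := by
  have hF' : ∀ S : J → Finset ι, F S
      = (fun a : {j // j ∈ B} → Finset ι => F (fun j => if h : j ∈ B then a ⟨j, h⟩ else ∅)) (fun j => S j.1) := by
    intro S
    refine hF _ _ fun j hj => ?_
    rw [dif_pos hj]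
  have hG' : ∀ S : J → Finset ι, G S
      = (fun a : {j // ¬ j ∈ B} → Finset ι => G (fun j => if h : ¬ j ∈ B then a ⟨j, h⟩ else ∅)) (fun j => S j.1) := by
    intro S
    refine hG _ _ fun j hj => ?_
    rw [dif_pos hj]
  generalize (fun a : {j // j ∈ B} → Finset ι => F (fun j => if h : j ∈ B then a ⟨j, h⟩ else ∅)) = F' at hF'
  generalize (fun a : {j // ¬ j ∈ B} → Finset ι => G (fun j => if h : ¬ j ∈ B then a ⟨j, h⟩ else ∅)) = G' at hG'
  have h1 := h1_gen q B F' G'
  have h2 := h1_gen q B F' (fun _ => 1)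
  have h3 := h1_gen q B (fun _ => 1) G'
  simp only [mul_one, one_mul, h1_sum_one] at h2 h3
  have e1 : (fun S => F S * G S) = fun S : J → Finset ι => F' (fun j => S j.1) * G' (fun j => S j.1) := by
    funext S
    rw [hF' S, hG' S]
  have e2 : F = fun S : J → Finset ι => F' (fun j => S j.1) := funext hF'
  have e3 : G = fun S : J → Finset ι => G' (fun j => S j.1) := funext hG'
  rw [e1, h1, e2, e3, h2, h3]

end Pool.Agent.Lib.H64T
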