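import Pool.Agent.Lib.H64T.Defs
import Pool.Agent.Lib.H15P.PB4

/-!
# Chunk H2: the weight on the event that given primes divide given forms (the hit lemma)
-/

open Finset

namespace Pool.Agent.Lib.H64T

open Pool.Agent.Lib.H15P

variable {ι J I : Type} [Fintype ι] [DecidableEq ι] [Fintype J] [DecidableEq J]
  [Fintype I] [DecidableEq I]

theorem h2_abs_ex (q : ι → ℝ) (h0 : ∀ i, 0 ≤ q i) (h1 : ∀ i, q i ≤ 1) (F : Finset ι → ℝ) :
    |ex q F| ≤ ex q (fun A => |F A|) := by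
  unfold ex
  refine (Finset.abs_sum_le_sum_abs _ _).trans (le_of_eq ?_)
  refine sum_congr rfl fun A _ => ?_
  rw [abs_mul, abs_of_nonneg (bw_nonneg q h0 h1 A)]

theorem h2_ex_sum {α : Type} (q : ι → ℝ) (s : Finset α) (F : α → Finset ι → ℝ) :
    ex q (fun A => ∑ a ∈ s, F a A) = ∑ a ∈ s, ex q (F a) := by
  unfold ex
  rw [sum_comm]
  exact sum_congr rfl fun S _ => by rw [sum_mul]

theorem h2_sum_dd (D : I → Finset ι → ℝ) (A : Finset ι) :
    ∑ o : Option I, |dd D o A| = 1 + (∑ i, |D i A|) / (Fintype.card I : ℝ) := by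
  rw [Fintype.sum_option]
  have h1 : ∀ i, |dd D (some i) A| = |D i A| / (Fintype.card I : ℝ) := by
    intro i
    simp only [dd]
    rw [abs_div, abs_neg, Nat.abs_cast]
  rw [sum_congr rfl fun i _ => h1 i, ← sum_div]
  simp [dd]

/-- One form: `(Σ_o |dd o|)^2 = (1 + (1/|I|) Σ_i |D_i|)^2 ≤ 2 + 2 ((1/|I|) Σ |D_i|)^2 ≤`
`2 + (2/|I|) Σ_i D_i^2` (Cauchy-Schwarz), so on the event `T ⊆ A` the mean value is at most
`2 ∏_T q + 2 · 4 · E^|T| ∏_T q ≤ 10 E^|T| ∏_T q` (`b1_ex_subset` in chunk B1 or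
`H15P.tr3_ex_subset`). -/
theorem h2_one (q : ι → ℝ) (D : I → Finset ι → ℝ) (h : ℝ) (hg : Good q D h) (E : ℝ) (hE : 1 ≤ E)
    (hI : 0 < Fintype.card I)
    (hit : ∀ i (T : Finset ι), ex q (fun A => if T ⊆ A then D i A ^ 2 else 0) ≤
      4 * (E ^ T.card * ∏ p ∈ T, q p)) (T : Finset ι) :
    ex q (fun A => if T ⊆ A then (∑ o : Option I, |dd D o A|) ^ 2 else 0) ≤
      10 * (E ^ T.card * ∏ p ∈ T, q p) := by
  have hIR : (0 : ℝ) < Fintype.card I := by exact_mod_cast hI
  set n : ℝ := (Fintype.card I : ℝ) with hn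
  have hq : 0 ≤ ∏ p ∈ T, q p := prod_nonneg fun i _ => hg.q0 i
  have hET : 1 ≤ E ^ T.card := one_le_pow₀ hE
  have h1 : ∀ A, (if T ⊆ A then (∑ o : Option I, |dd D o A|) ^ 2 else 0) ≤
      2 * (if T ⊆ A then 1 else 0) + (2 / n) * ∑ i, (if T ⊆ A then D i A ^ 2 else 0) := by
    intro A
    by_cases hT : T ⊆ A
    · simp only [if_pos hT]
      rw [h2_sum_dd, ← hn]
      have h2 : (∑ i, |D i A|) ^ 2 ≤ n * ∑ i, D i A ^ 2 := by
        have h3 := sq_sum_le_card_mul_sum_sq (s := (univ : Finset I)) (f := fun i => |D i A|)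
        simp only [sq_abs, card_univ] at h3
        exact h3
      have h4 : ((∑ i, |D i A|) / n) ^ 2 ≤ (1 / n) * ∑ i, D i A ^ 2 := by
        rw [div_pow, div_le_iff₀ (by positivity)]
        calc (∑ i, |D i A|) ^ 2 ≤ n * ∑ i, D i A ^ 2 := h2
          _ = 1 / n * (∑ i, D i A ^ 2) * n ^ 2 := by field_simp
      have h5 : (1 + (∑ i, |D i A|) / n) ^ 2 ≤ 2 + 2 * ((∑ i, |D i A|) / n) ^ 2 := by
        nlinarith [sq_nonneg (1 - (∑ i, |D i A|) / n)]
      calc (1 + (∑ i, |D i A|) / n) ^ 2 ≤ 2 + 2 * ((∑ i, |D i A|) / n) ^ 2 := h5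
        _ ≤ 2 + 2 * ((1 / n) * ∑ i, D i A ^ 2) := by linarith
        _ = 2 * 1 + 2 / n * ∑ i, D i A ^ 2 := by ring
    · simp only [if_neg hT, sum_const_zero, mul_zero, add_zero, le_refl]
  refine (ex_mono q hg.q0 hg.q1 _ _ h1).trans ?_
  rw [ex_add, ex_const_mul, ex_const_mul, tr3_ex_subset, h2_ex_sum]
  have h6 : ∑ i, ex q (fun A => if T ⊆ A then D i A ^ 2 else 0) ≤
      n * (4 * (E ^ T.card * ∏ p ∈ T, q p)) := by
    refine (sum_le_sum fun i _ => hit i T).trans (le_of_eq ?_)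
    rw [sum_const, card_univ, nsmul_eq_mul]
  have h7 : 2 / n * ∑ i, ex q (fun A => if T ⊆ A then D i A ^ 2 else 0) ≤
      8 * (E ^ T.card * ∏ p ∈ T, q p) := by
    calc 2 / n * ∑ i, ex q (fun A => if T ⊆ A then D i A ^ 2 else 0)
        ≤ 2 / n * (n * (4 * (E ^ T.card * ∏ p ∈ T, q p))) :=
          mul_le_mul_of_nonneg_left h6 (by positivity)
      _ = 8 * (E ^ T.card * ∏ p ∈ T, q p) := by field_simp; ring
  nlinarith [mul_le_mul_of_nonneg_right hET hq]

open Classical in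
/-- Bound for the factor of one form. -/
noncomputable def h2_a (q : ι → ℝ) (D : I → Finset ι → ℝ) (T : Finset ι)
    (c : Option I × Option I) : ℝ :=
  if T = ∅ then (if c.1 = c.2 then GG q D c.1 else 0) else
    ex q (fun A => if T ⊆ A then |dd D c.1 A| * |dd D c.2 A| else 0)

theorem h2_a_nonneg (q : ι → ℝ) (D : I → Finset ι → ℝ) (h : ℝ) (hg : Good q D h) (T : Finset ι)
    (c : Option I × Option I) : 0 ≤ h2_a q D T c := by
  unfold h2_a
  split_ifs
  · exact GG_nonneg q D h hg _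
  · exact le_rfl
  · refine ex_nonneg q hg.q0 hg.q1 _ fun A => ?_
    split_ifs
    · positivity
    · exact le_rfl

theorem h2_a_bound (q : ι → ℝ) (D : I → Finset ι → ℝ) (h : ℝ) (hg : Good q D h) (T : Finset ι)
    (o o' : Option I) :
    |ex q (fun A => dd D o A * dd D o' A * (if T ⊆ A then 1 else 0))| ≤ h2_a q D T (o, o') := by
  unfold h2_a
  by_cases hT : T = ∅
  · rw [if_pos hT]
    have h1 : (fun A => dd D o A * dd D o' A * (if T ⊆ A then (1 : ℝ) else 0)) =
        fun A => dd D o A * dd D o' A := by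
      funext A
      rw [if_pos (by rw [hT]; exact empty_subset _), mul_one]
    rw [h1, ex_dd_dd q D h hg]
    simp only
    split_ifs
    · rw [abs_of_nonneg (GG_nonneg q D h hg _)]
    · simp
  · rw [if_neg hT]
    refine (h2_abs_ex q hg.q0 hg.q1 _).trans (le_of_eq ?_)
    congr 1
    funext A
    rw [abs_mul, abs_mul]
    split_ifs <;> simp

theorem h2_sum_univ (q : ι → ℝ) (D : I → Finset ι → ℝ) (h : ℝ) (hg : Good q D h) (E : ℝ)
    (hE : 1 ≤ E) (hI : 0 < Fintype.card I)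
    (hit : ∀ i (T : Finset ι), ex q (fun A => if T ⊆ A then D i A ^ 2 else 0) ≤
      4 * (E ^ T.card * ∏ p ∈ T, q p)) (T : Finset ι) :
    ∑ c : Option I × Option I, h2_a q D T c ≤
      ((10 * E) ^ T.card * ∏ p ∈ T, q p) * (1 + ∑ i, GG q D (some i)) := by
  have hZ : 1 ≤ 1 + ∑ i, GG q D (some i) := by
    have : 0 ≤ ∑ i, GG q D (some i) := sum_nonneg fun i _ => GG_nonneg q D h hg _
    linarith
  by_cases hT : T = ∅
  · have h1 : ∀ c : Option I × Option I, h2_a q D T c = if c.1 = c.2 then GG q D c.1 else 0 := by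
      intro c
      unfold h2_a
      rw [if_pos hT]
    rw [sum_congr rfl fun c _ => h1 c, Fintype.sum_prod_type]
    simp only [sum_ite_eq, mem_univ, if_true]
    rw [Fintype.sum_option, hT]
    simp [GG]
  · have h1 : ∀ c : Option I × Option I, h2_a q D T c =
        ex q (fun A => if T ⊆ A then |dd D c.1 A| * |dd D c.2 A| else 0) := by
      intro c
      unfold h2_a
      rw [if_neg hT]
    rw [sum_congr rfl fun c _ => h1 c, ← h2_ex_sum]
    have h2 : (fun A => ∑ c : Option I × Option I, if T ⊆ A then |dd D c.1 A| * |dd D c.2 A| else 0) =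
        fun A => if T ⊆ A then (∑ o : Option I, |dd D o A|) ^ 2 else 0 := by
      funext A
      by_cases hTA : T ⊆ A
      · simp only [if_pos hTA]
        rw [sq, sum_mul_sum, Fintype.sum_prod_type]
      · simp only [if_neg hTA, sum_const_zero]
    rw [h2]
    refine (h2_one q D h hg E hE hI hit T).trans ?_
    have hq : 0 ≤ ∏ p ∈ T, q p := prod_nonneg fun i _ => hg.q0 i
    have hc : 1 ≤ T.card := card_pos.2 (nonempty_iff_ne_empty.2 hT)
    have h3 : (10 : ℝ) ≤ 10 ^ T.card := by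
      calc (10 : ℝ) = 10 ^ 1 := by norm_num
        _ ≤ 10 ^ T.card := pow_le_pow_right₀ (by norm_num) hc
    have h4 : 10 * (E ^ T.card * ∏ p ∈ T, q p) ≤ (10 * E) ^ T.card * ∏ p ∈ T, q p := by
      rw [mul_pow, mul_assoc]
      refine mul_le_mul_of_nonneg_right h3 ?_
      positivity
    have h5 : 0 ≤ (10 * E) ^ T.card * ∏ p ∈ T, q p := by positivity
    exact h4.trans (le_mul_of_one_le_right h5 hZ)

theorem h2_none (q : ι → ℝ) (D : I → Finset ι → ℝ) (h : ℝ) (hg : Good q D h) (E : ℝ)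
    (hE : 1 ≤ E) (T : Finset ι) :
    h2_a q D T (none, none) ≤ (10 * E) ^ T.card * ∏ p ∈ T, q p := by
  unfold h2_a
  by_cases hT : T = ∅
  · rw [if_pos hT, hT]
    simp [GG]
  · rw [if_neg hT]
    have h1 : (fun A => if T ⊆ A then |dd D (none : Option I) A| * |dd D (none : Option I) A|
        else 0) = fun A => if T ⊆ A then (1 : ℝ) else 0 := by
      funext A
      simp [dd]
    simp only
    rw [h1, tr3_ex_subset]
    refine le_mul_of_one_le_left (prod_nonneg fun i _ => hg.q0 i) (one_le_pow₀ (by linarith))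

/-- THE HIT LEMMA. `LL^2 = Σ_{l, l' ∈ adm B m} ∏_j dd (l j) (S j) dd (l' j) (S j)`, the indicator is
`∏_j 1[T j ⊆ S j]`, so by `EX_prod` the mean value is `Σ_{l, l'} ∏_j ex (dd (l j) dd (l' j) 1_{T j})`.
Let `a j (o, o')` be: if `T j = ∅`: `GG o` if `o = o'` and `0` otherwise (this is the exact value,
`ex_dd_dd`); if `T j` is nonempty: `ex (|dd o| |dd o'| 1_{T j})` (a bound for the absolute value).
All `a ≥ 0`, so `Σ_{l, l' ∈ adm} ∏_j a j ≤ Σ` over all pairs `(l, l')` of labelings supported in `B`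
`= ∏_{j ∈ B} (Σ_{o, o'} a j (o, o')) ∏_{j ∉ B} a j (none, none)` (`Finset.prod_univ_sum` for
`J → Option I × Option I`; see `H15P.sum_supp`, `H92G` chunk G0 `sum_suppJ`). With
`Z1 = 1 + Σ_i GG (some i)`: for `j ∈ B`, `T j = ∅`: the sum is `Z1`; `j ∈ B`, `T j` nonempty:
`Σ_{o,o'} ex (|dd o||dd o'| 1_T) = ex ((Σ_o |dd o|)^2 1_T) ≤ 10 E^|T j| ∏ q ≤ (10 E)^|T j| ∏ q · Z1`;
`j ∉ B`: `∏_{T j} q ≤ (10 E)^|T j| ∏ q`. -/
theorem EX_LL_sq_hit (q : ι → ℝ) (D : I → Finset ι → ℝ) (h : ℝ) (hg : Good q D h) (E : ℝ)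
    (hE : 1 ≤ E) (hI : 0 < Fintype.card I)
    (hit : ∀ i (T : Finset ι), ex q (fun A => if T ⊆ A then D i A ^ 2 else 0) ≤
      4 * (E ^ T.card * ∏ p ∈ T, q p)) (m : I → ℕ) (B : Finset J) (T : J → Finset ι) :
    EX q (fun S : J → Finset ι => if ∀ j, T j ⊆ S j then LL D m B S ^ 2 else 0) ≤
      (∏ j, ((10 * E) ^ (T j).card * ∏ p ∈ T j, q p)) * ZZ q D B.card := by
  classical
  have h1 : ∀ S : J → Finset ι, (if ∀ j, T j ⊆ S j then LL D m B S ^ 2 else 0) =
      ∑ l ∈ adm B m, ∑ l' ∈ adm B m, ∏ j, (dd D (l j) (S j) * dd D (l' j) (S j) *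
        (if T j ⊆ S j then 1 else 0)) := by
    intro S
    have e1 : (if ∀ j, T j ⊆ S j then LL D m B S ^ 2 else 0) =
        LL D m B S ^ 2 * ∏ j, (if T j ⊆ S j then (1 : ℝ) else 0) := by
      by_cases hS : ∀ j, T j ⊆ S j
      · rw [if_pos hS, prod_congr rfl fun j _ => if_pos (hS j)]
        simp
      · rw [if_neg hS]
        push Not at hS
        obtain ⟨j, hj⟩ := hS
        rw [prod_eq_zero (mem_univ j) (if_neg hj), mul_zero]
    rw [e1]
    unfold LL
    rw [sq, sum_mul_sum, sum_mul]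
    refine sum_congr rfl fun l _ => ?_
    rw [sum_mul]
    refine sum_congr rfl fun l' _ => ?_
    rw [prod_mul_distrib, prod_mul_distrib]
  simp only [h1]
  rw [EX_sum]
  have h2 : ∀ l ∈ adm B m, EX q (fun S : J → Finset ι => ∑ l' ∈ adm B m,
      ∏ j, (dd D (l j) (S j) * dd D (l' j) (S j) * (if T j ⊆ S j then 1 else 0))) ≤
      ∑ l' ∈ adm B m, ∏ j, h2_a q D (T j) (l j, l' j) := by
    intro l _
    rw [EX_sum]
    refine sum_le_sum fun l' _ => ?_
    rw [EX_prod q (fun j A => dd D (l j) A * dd D (l' j) A * (if T j ⊆ A then 1 else 0))]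
    refine (le_abs_self _).trans ?_
    rw [abs_prod]
    exact prod_le_prod (fun j _ => abs_nonneg _) fun j _ => h2_a_bound q D h hg (T j) _ _
  refine (sum_le_sum h2).trans ?_
  set t : J → Finset (Option I × Option I) := fun j => if j ∈ B then univ else {(none, none)} with ht
  have h3 : ∑ l ∈ adm B m, ∑ l' ∈ adm B m, ∏ j, h2_a q D (T j) (l j, l' j) ≤
      ∑ c ∈ Fintype.piFinset t, ∏ j, h2_a q D (T j) (c j) := by
    rw [← sum_product' (adm B m) (adm B m) (fun l l' => ∏ j, h2_a q D (T j) (l j, l' j))]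
    have hinj : Set.InjOn (fun (x : (J → Option I) × (J → Option I)) => fun j => (x.1 j, x.2 j))
        (adm B m ×ˢ adm B m : Finset _) := by
      intro x _ y _ hxy
      refine Prod.ext ?_ ?_
      · funext j
        exact congrArg Prod.fst (congrFun hxy j)
      · funext j
        exact congrArg Prod.snd (congrFun hxy j)
    have e2 : ∑ x ∈ adm B m ×ˢ adm B m, ∏ j, h2_a q D (T j) (x.1 j, x.2 j) =
        ∑ c ∈ (adm B m ×ˢ adm B m).image (fun (x : (J → Option I) × (J → Option I)) =>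
          fun j => (x.1 j, x.2 j)), ∏ j, h2_a q D (T j) (c j) := by
      rw [sum_image hinj]
    rw [e2]
    refine sum_le_sum_of_subset_of_nonneg ?_ fun c _ _ =>
      prod_nonneg fun j _ => h2_a_nonneg q D h hg _ _
    intro c hc
    obtain ⟨x, hx, rfl⟩ := mem_image.1 hc
    obtain ⟨hx1, hx2⟩ := mem_product.1 hx
    rw [Fintype.mem_piFinset]
    intro j
    simp only [ht]
    by_cases hj : j ∈ B
    · rw [if_pos hj]
      exact mem_univ _
    · rw [if_neg hj, mem_singleton, (mem_filter.1 hx1).2.1 j hj, (mem_filter.1 hx2).2.1 j hj]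
  refine h3.trans ?_
  rw [← prod_univ_sum t (fun j c => h2_a q D (T j) c)]
  have h4 : ∀ j ∈ (univ : Finset J), ∑ c ∈ t j, h2_a q D (T j) c ≤
      ((10 * E) ^ (T j).card * ∏ p ∈ T j, q p) *
        (if j ∈ B then (1 + ∑ i, GG q D (some i)) else 1) := by
    intro j _
    simp only [ht]
    by_cases hj : j ∈ B
    · rw [if_pos hj, if_pos hj]
      exact h2_sum_univ q D h hg E hE hI hit (T j)
    · rw [if_neg hj, if_neg hj, sum_singleton, mul_one]
      exact h2_none q D h hg E hE (T j)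
  refine (prod_le_prod (fun j _ => sum_nonneg fun c _ => h2_a_nonneg q D h hg _ _) h4).trans ?_
  rw [prod_mul_distrib, prod_ite_mem, univ_inter, prod_const]
  exact le_of_eq rfl

end Pool.Agent.Lib.H64T
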