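import Pool.Agent.Lib.H64T.H1
import Pool.Agent.Lib.H64T.H2

/-!
# Chunk H3: the hit lemma for two windows
-/

open Finset

namespace Pool.Agent.Lib.H64T

open Pool.Agent.Lib.H15P

variable {ι J I : Type} [Fintype ι] [DecidableEq ι] [Fintype J] [DecidableEq J]
  [Fintype I] [DecidableEq I]

/-- `LL D m B S` depends only on the `S j` with `j ∈ B` (for `j ∉ B` the label is `none`, the factor
is `1`). -/
theorem h3_dep (D : I → Finset ι → ℝ) (m : I → ℕ) (B : Finset J) (S S' : J → Finset ι)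
    (h : ∀ j ∈ B, S j = S' j) : LL D m B S = LL D m B S' := by
  unfold LL
  refine sum_congr rfl fun l hl => prod_congr rfl fun j _ => ?_
  by_cases hj : j ∈ B
  · rw [h j hj]
  · have h1 : l j = none := (mem_filter.mp hl).2.1 j hj
    rw [h1]
    rfl

/-- With `T1 j = T j` for `j ∈ B1`, `∅` otherwise, and `T2 j = ∅` for `j ∈ B1`, `T j` otherwise:
the function is `(1[T1 ⊆ S] LL B1 ^2) (1[T2 ⊆ S] LL B2 ^2)`, the first factor depends only on the
`S j`, `j ∈ B1`, the second only on the others (`B2` is disjoint from `B1`). `EX_mul_split` with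
`B = B1`, and `EX_LL_sq_hit` twice; the product over `j` of the two bounds is the product of the
bound (`card ∅ = 0`). All quantities are nonnegative. -/
theorem EX_LL_sq_mul_hit (q : ι → ℝ) (D : I → Finset ι → ℝ) (h : ℝ) (hg : Good q D h) (E : ℝ)
    (hE : 1 ≤ E) (hI : 0 < Fintype.card I)
    (hit : ∀ i (T : Finset ι), ex q (fun A => if T ⊆ A then D i A ^ 2 else 0) ≤
      4 * (E ^ T.card * ∏ p ∈ T, q p)) (m : I → ℕ) (B1 B2 : Finset J) (hB : Disjoint B1 B2)
    (T : J → Finset ι) :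
    EX q (fun S : J → Finset ι => if ∀ j, T j ⊆ S j then LL D m B1 S ^ 2 * LL D m B2 S ^ 2 else 0) ≤
      (∏ j, ((10 * E) ^ (T j).card * ∏ p ∈ T j, q p)) *
        (ZZ q D B1.card * ZZ q D B2.card) := by
  classical
  set T1 : J → Finset ι := fun j => if j ∈ B1 then T j else ∅ with hT1
  set T2 : J → Finset ι := fun j => if j ∈ B1 then ∅ else T j with hT2
  have hT1a : ∀ j, j ∈ B1 → T1 j = T j := fun j hj => if_pos hj
  have hT1b : ∀ j, j ∉ B1 → T1 j = ∅ := fun j hj => if_neg hj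
  have hT2a : ∀ j, j ∈ B1 → T2 j = ∅ := fun j hj => if_pos hj
  have hT2b : ∀ j, j ∉ B1 → T2 j = T j := fun j hj => if_neg hj
  have hiff : ∀ S : J → Finset ι, (∀ j, T j ⊆ S j) ↔ (∀ j, T1 j ⊆ S j) ∧ (∀ j, T2 j ⊆ S j) := by
    intro S
    constructor
    · intro h0
      refine ⟨fun j => ?_, fun j => ?_⟩
      · by_cases hj : j ∈ B1
        · rw [hT1a j hj]; exact h0 j
        · rw [hT1b j hj]; exact empty_subset _
      · by_cases hj : j ∈ B1
        · rw [hT2a j hj]; exact empty_subset _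
        · rw [hT2b j hj]; exact h0 j
    · rintro ⟨h1, h2⟩ j
      by_cases hj : j ∈ B1
      · rw [← hT1a j hj]; exact h1 j
      · rw [← hT2b j hj]; exact h2 j
  have e1 : (fun S : J → Finset ι => if ∀ j, T j ⊆ S j then LL D m B1 S ^ 2 * LL D m B2 S ^ 2 else 0) =
      fun S : J → Finset ι => (if ∀ j, T1 j ⊆ S j then LL D m B1 S ^ 2 else 0) *
        (if ∀ j, T2 j ⊆ S j then LL D m B2 S ^ 2 else 0) := by
    funext S
    by_cases h1 : ∀ j, T1 j ⊆ S j
    · by_cases h2 : ∀ j, T2 j ⊆ S j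
      · rw [if_pos ((hiff S).2 ⟨h1, h2⟩), if_pos h1, if_pos h2]
      · rw [if_neg (fun h0 => h2 ((hiff S).1 h0).2), if_neg h2, mul_zero]
    · rw [if_neg (fun h0 => h1 ((hiff S).1 h0).1), if_neg h1, zero_mul]
  rw [e1, EX_mul_split q B1 (fun S : J → Finset ι => if ∀ j, T1 j ⊆ S j then LL D m B1 S ^ 2 else 0)
    (fun S : J → Finset ι => if ∀ j, T2 j ⊆ S j then LL D m B2 S ^ 2 else 0)]
  · have hF := EX_LL_sq_hit q D h hg E hE hI hit m B1 T1
    have hG := EX_LL_sq_hit q D h hg E hE hI hit m B2 T2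
    have hZ : ∀ k : ℕ, 0 ≤ ZZ q D k := by
      intro k
      unfold ZZ
      refine pow_nonneg (add_nonneg zero_le_one (sum_nonneg fun i _ => ?_)) _
      unfold GG
      exact div_nonneg (ex_nonneg q hg.q0 hg.q1 _ fun A => sq_nonneg _) (sq_nonneg _)
    have hP : ∀ T' : J → Finset ι, 0 ≤ ∏ j, ((10 * E) ^ (T' j).card * ∏ p ∈ T' j, q p) := by
      intro T'
      refine prod_nonneg fun j _ => mul_nonneg (pow_nonneg (by linarith) _) (prod_nonneg fun p _ => hg.q0 p)
    have hG0 : 0 ≤ EX q (fun S : J → Finset ι => if ∀ j, T2 j ⊆ S j then LL D m B2 S ^ 2 else 0) := by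
      refine EX_nonneg q hg.q0 hg.q1 _ fun S => ?_
      by_cases h2 : ∀ j, T2 j ⊆ S j
      · rw [if_pos h2]; exact sq_nonneg _
      · rw [if_neg h2]
    refine (mul_le_mul hF hG hG0 (mul_nonneg (hP T1) (hZ _))).trans (le_of_eq ?_)
    have e2 : ∏ j, ((10 * E) ^ (T j).card * ∏ p ∈ T j, q p) =
        (∏ j, ((10 * E) ^ (T1 j).card * ∏ p ∈ T1 j, q p)) *
          (∏ j, ((10 * E) ^ (T2 j).card * ∏ p ∈ T2 j, q p)) := by
      rw [← prod_mul_distrib]
      refine prod_congr rfl fun j _ => ?_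
      by_cases hj : j ∈ B1
      · rw [hT1a j hj, hT2a j hj, card_empty, pow_zero, prod_empty, mul_one, mul_one]
      · rw [hT1b j hj, hT2b j hj, card_empty, pow_zero, prod_empty, mul_one, one_mul]
    rw [e2]
    ring
  · intro S S' hS
    have h1 : (∀ j, T1 j ⊆ S j) ↔ (∀ j, T1 j ⊆ S' j) := by
      refine forall_congr' fun j => ?_
      by_cases hj : j ∈ B1
      · rw [hS j hj]
      · rw [hT1b j hj]
        exact ⟨fun _ => empty_subset _, fun _ => empty_subset _⟩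
    by_cases h2 : ∀ j, T1 j ⊆ S j
    · show (if ∀ j, T1 j ⊆ S j then LL D m B1 S ^ 2 else 0) = (if ∀ j, T1 j ⊆ S' j then LL D m B1 S' ^ 2 else 0)
      rw [if_pos h2, if_pos (h1.1 h2), h3_dep D m B1 S S' hS]
    · show (if ∀ j, T1 j ⊆ S j then LL D m B1 S ^ 2 else 0) = (if ∀ j, T1 j ⊆ S' j then LL D m B1 S' ^ 2 else 0)
      rw [if_neg h2, if_neg (fun h0 => h2 (h1.2 h0))]
  · intro S S' hS
    have h1 : (∀ j, T2 j ⊆ S j) ↔ (∀ j, T2 j ⊆ S' j) := by
      refine forall_congr' fun j => ?_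
      by_cases hj : j ∈ B1
      · rw [hT2a j hj]
        exact ⟨fun _ => empty_subset _, fun _ => empty_subset _⟩
      · rw [hS j hj]
    by_cases h2 : ∀ j, T2 j ⊆ S j
    · show (if ∀ j, T2 j ⊆ S j then LL D m B2 S ^ 2 else 0) = (if ∀ j, T2 j ⊆ S' j then LL D m B2 S' ^ 2 else 0)
      rw [if_pos h2, if_pos (h1.1 h2), h3_dep D m B2 S S' (fun j hj => hS j (fun hj1 =>
        (disjoint_left.1 hB hj1) hj))]
    · show (if ∀ j, T2 j ⊆ S j then LL D m B2 S ^ 2 else 0) = (if ∀ j, T2 j ⊆ S' j then LL D m B2 S' ^ 2 else 0)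
      rw [if_neg h2, if_neg (fun h0 => h2 (h1.2 h0))]

end Pool.Agent.Lib.H64T
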