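import Pool.Agent.Lib.H64T.Defs

/-!
# Chunk K2A: the constants of the weights
-/

open Finset

namespace Pool.Agent.Lib.H64T

theorem k2a_self (l : ℝ) (hl : 0 ≤ l) : l * Real.exp (-l) ≤ 1 := by
  have h1 := Real.add_one_le_exp l
  have h2 : 0 < Real.exp (-l) := Real.exp_pos _
  have h3 : Real.exp l * Real.exp (-l) = 1 := by rw [← Real.exp_add, add_neg_cancel, Real.exp_zero]
  have h4 : l * Real.exp (-l) ≤ Real.exp l * Real.exp (-l) := mul_le_mul_of_nonneg_right (by linarith) h2.le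
  linarith

theorem k2a_sq (l : ℝ) (hl : 0 ≤ l) : l * (l + 1) * Real.exp (-l) ≤ 2 := by
  have h1 := Real.quadratic_le_exp_of_nonneg hl
  have h2 : 0 < Real.exp (-l) := Real.exp_pos _
  have h3 : Real.exp l * Real.exp (-l) = 1 := by rw [← Real.exp_add, add_neg_cancel, Real.exp_zero]
  have h4 : l * (l + 1) * Real.exp (-l) ≤ (2 * Real.exp l) * Real.exp (-l) :=
    mul_le_mul_of_nonneg_right (by nlinarith) h2.le
  linarith

/-- The absolute constants. `c3 = min (1/(48000 (r0+1))) (1/(4800 (r0+1)))..` (for instance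
`c3 = 1/(48000 (r0 + 1))`), `N1 ≥ 24000 (r0+1) 160000000`, `R0` large: with `n = N1 ℓ`,
`R = ℓ + R0`, `τ = c3/(ℓ + R0 + 1)`:
`n e^(-R) = N1 (ℓ e^-ℓ) e^-R0 ≤ N1 e^-R0 ≤ e`;
`10000 ℓ e^(-R)/τ = (10000/c3) e^-R0 ℓ e^-ℓ (ℓ + 1 + R0) ≤ (10000/c3) e^-R0 (2 + R0) ≤ e`
(`ℓ (ℓ+1) ≤ 2 e^ℓ`, `ℓ ≤ e^ℓ`); `ℓ/n = 1/N1`, `(R + 1) τ = c3`; `τ ≤ c3 ≤ 1/4`. -/
theorem k2_consts (e : ℝ) (he : 0 < e) (r0 : ℕ) : ∃ (N1 : ℕ) (R0 c3 : ℝ), 1 ≤ N1 ∧ 1 ≤ R0 ∧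
    0 < c3 ∧ c3 ≤ 1 / 4 ∧ ∀ ℓ : ℕ, 1 ≤ ℓ →
      ((N1 * ℓ : ℕ) : ℝ) * Real.exp (-(ℓ + R0)) ≤ e ∧
      10000 * (ℓ : ℝ) * Real.exp (-(ℓ + R0)) / (c3 / (ℓ + R0 + 1)) ≤ e ∧
      12 * ((r0 : ℝ) + 1) * (160000000 * (ℓ : ℝ) / ((N1 * ℓ : ℕ) : ℝ) +
        2 * ((ℓ + R0) + 1) * (c3 / (ℓ + R0 + 1))) ≤ 1 / 1000 ∧
      12 * ((r0 : ℝ) + 1) * (c3 / (ℓ + R0 + 1)) ≤ 1 / 400 := by
  obtain ⟨c3, hc3⟩ : ∃ c3 : ℝ, c3 = 1 / (48000 * ((r0 : ℝ) + 1)) := ⟨_, rfl⟩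
  obtain ⟨N1, hN1⟩ : ∃ N1 : ℕ, N1 = 3840000000000 * (r0 + 1) := ⟨_, rfl⟩
  have hr : (0 : ℝ) < (r0 : ℝ) + 1 := by positivity
  have hr1 : (1 : ℝ) ≤ (r0 : ℝ) + 1 := by linarith [Nat.cast_nonneg (α := ℝ) r0]
  have hc0 : 0 < c3 := by
    rw [hc3]
    positivity
  have hc3r : c3 * ((r0 : ℝ) + 1) = 1 / 48000 := by
    rw [hc3]
    field_simp
  have hc4 : c3 ≤ 1 / 48000 := by nlinarith
  have hN1r : (N1 : ℝ) = 3840000000000 * ((r0 : ℝ) + 1) := by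
    rw [hN1]
    push_cast
    ring
  have hN1p : (0 : ℝ) < N1 := by rw [hN1r]; positivity
  obtain ⟨R0, hR1, hR2, hR3⟩ : ∃ R0 : ℝ, 1 ≤ R0 ∧ 2 * Real.log (20000 / (c3 * e)) ≤ R0 ∧ Real.log (N1 / e) ≤ R0 :=
    ⟨max 1 (max (2 * Real.log (20000 / (c3 * e))) (Real.log (N1 / e))), le_max_left _ _,
      (le_max_left _ _).trans (le_max_right _ _), (le_max_right _ _).trans (le_max_right _ _)⟩
  have hE1 : (N1 : ℝ) * Real.exp (-R0) ≤ e := by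
    have h1 : Real.exp (-R0) ≤ Real.exp (-Real.log (N1 / e)) := Real.exp_le_exp.2 (by linarith)
    rw [Real.exp_neg (Real.log (N1 / e)), Real.exp_log (by positivity)] at h1
    have h2 := mul_le_mul_of_nonneg_left h1 hN1p.le
    have h3 : (N1 : ℝ) * (N1 / e)⁻¹ = e := by field_simp
    rw [h3] at h2
    exact h2
  have hE2 : 10000 / c3 * Real.exp (-R0) * (2 + R0) ≤ e := by
    have h1 : Real.exp (-(R0 / 2)) ≤ Real.exp (-Real.log (20000 / (c3 * e))) := Real.exp_le_exp.2 (by linarith)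
    rw [Real.exp_neg (Real.log (20000 / (c3 * e))), Real.exp_log (by positivity)] at h1
    have h2 : 2 + R0 ≤ 2 * Real.exp (R0 / 2) := by
      have := Real.add_one_le_exp (R0 / 2)
      linarith
    have h3 : Real.exp (-R0) * Real.exp (R0 / 2) = Real.exp (-(R0 / 2)) := by
      rw [← Real.exp_add]
      congr 1
      ring
    have h4 : 10000 / c3 * Real.exp (-R0) * (2 + R0) ≤ 10000 / c3 * Real.exp (-R0) * (2 * Real.exp (R0 / 2)) :=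
      mul_le_mul_of_nonneg_left h2 (by positivity)
    have h5 : 10000 / c3 * Real.exp (-R0) * (2 * Real.exp (R0 / 2)) = 20000 / c3 * Real.exp (-(R0 / 2)) := by
      rw [← h3]
      ring
    have h6 : 20000 / c3 * Real.exp (-(R0 / 2)) ≤ 20000 / c3 * (20000 / (c3 * e))⁻¹ :=
      mul_le_mul_of_nonneg_left h1 (by positivity)
    have h7 : 20000 / c3 * (20000 / (c3 * e))⁻¹ = e := by field_simp
    linarith
  refine ⟨N1, R0, c3, by omega, hR1, hc0, by linarith, fun ℓ hℓ => ?_⟩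
  have hl1 : (1 : ℝ) ≤ ℓ := by exact_mod_cast hℓ
  have hl0 : (0 : ℝ) ≤ ℓ := by linarith
  have hexp : Real.exp (-((ℓ : ℝ) + R0)) = Real.exp (-(ℓ : ℝ)) * Real.exp (-R0) := by
    rw [← Real.exp_add]
    congr 1
    ring
  have hD : (1 : ℝ) ≤ ℓ + R0 + 1 := by linarith
  have hD0 : (0 : ℝ) < ℓ + R0 + 1 := by linarith
  have hx0 : 0 < Real.exp (-R0) := Real.exp_pos _
  have hN1l : ((N1 * ℓ : ℕ) : ℝ) = N1 * ℓ := by push_cast; ring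
  have h1 := k2a_self ℓ hl0
  have h2 := k2a_sq ℓ hl0
  refine ⟨?_, ?_, ?_, ?_⟩
  · rw [hN1l, hexp]
    have e1 : (N1 : ℝ) * ℓ * (Real.exp (-(ℓ : ℝ)) * Real.exp (-R0)) =
        (ℓ * Real.exp (-(ℓ : ℝ))) * (N1 * Real.exp (-R0)) := by ring
    rw [e1]
    have h3 : (ℓ * Real.exp (-(ℓ : ℝ))) * (N1 * Real.exp (-R0)) ≤ 1 * (N1 * Real.exp (-R0)) :=
      mul_le_mul_of_nonneg_right h1 (by positivity)
    linarith
  · rw [hexp]
    have e1 : 10000 * (ℓ : ℝ) * (Real.exp (-(ℓ : ℝ)) * Real.exp (-R0)) / (c3 / (ℓ + R0 + 1)) =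
        10000 / c3 * Real.exp (-R0) * (ℓ * (ℓ + 1) * Real.exp (-(ℓ : ℝ)) + R0 * (ℓ * Real.exp (-(ℓ : ℝ)))) := by
      field_simp
      ring
    rw [e1]
    have h3 : ℓ * (ℓ + 1) * Real.exp (-(ℓ : ℝ)) + R0 * (ℓ * Real.exp (-(ℓ : ℝ))) ≤ 2 + R0 := by
      have h4 := mul_le_mul_of_nonneg_left h1 (by linarith : 0 ≤ R0)
      linarith
    have h4 := mul_le_mul_of_nonneg_left h3 (by positivity : 0 ≤ 10000 / c3 * Real.exp (-R0))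
    linarith
  · have e1 : 160000000 * (ℓ : ℝ) / ((N1 * ℓ : ℕ) : ℝ) = 160000000 / N1 := by
      rw [hN1l]
      field_simp
    have e2 : 2 * (((ℓ : ℝ) + R0) + 1) * (c3 / (ℓ + R0 + 1)) = 2 * c3 := by
      field_simp
    rw [e1, e2, hN1r]
    have e3 : 12 * ((r0 : ℝ) + 1) * (160000000 / (3840000000000 * ((r0 : ℝ) + 1)) + 2 * c3) =
        12 * 160000000 / 3840000000000 + 24 * (c3 * ((r0 : ℝ) + 1)) := by
      field_simp
      ring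
    rw [e3, hc3r]
    norm_num
  · have h3 : c3 / (ℓ + R0 + 1) ≤ c3 := div_le_self hc0.le hD
    have h4 := mul_le_mul_of_nonneg_left h3 (by positivity : 0 ≤ 12 * ((r0 : ℝ) + 1))
    have h5 : 12 * ((r0 : ℝ) + 1) * c3 = 12 * (c3 * ((r0 : ℝ) + 1)) := by ring
    rw [h5, hc3r] at h4
    linarith

end Pool.Agent.Lib.H64T
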