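import Pool.Agent.Lib.H64T.Defs

/-!
# Chunk K2B: numerical facts on the parameters of the weights, uniform in `ℓ`
-/

open Finset

namespace Pool.Agent.Lib.H64T

theorem k2b_pow (k : ℕ) : (4000 : ℝ) ^ k = Real.exp (Real.log 4000 * k) := by
  rw [← Real.rpow_natCast, Real.rpow_def_of_pos (by norm_num)]

theorem k2b_self {y : ℝ} (hy : 5000 ≤ y) : y ≤ Real.exp (y / 50) := by
  have h1 := Real.quadratic_le_exp_of_nonneg (by linarith : 0 ≤ y / 50)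
  nlinarith

theorem k2b_S {t y L : ℝ} (S : ℕ) (hL : L = Real.exp y) (ht : 6000 ≤ t) (hyt : y ≤ t) (hLt : L = t ^ 50)
    (hS : (S : ℝ) ≤ t ^ 9) : 3 * 4 ^ S * L ^ (2 * S) ≤ Real.exp (L / 1000) := by
  have ht0 : 0 < t := by linarith
  have ht1 : 1 ≤ t := by linarith
  have h3 : (3 : ℝ) ≤ Real.exp 2 := by
    have := Real.add_one_le_exp (2 : ℝ)
    linarith
  have h4 : (4 : ℝ) ≤ Real.exp 2 := by
    have := Real.quadratic_le_exp_of_nonneg (by norm_num : (0 : ℝ) ≤ 2)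
    linarith
  have h5 : (4 : ℝ) ^ S ≤ Real.exp (S * 2) := by
    rw [Real.exp_nat_mul]
    exact pow_le_pow_left₀ (by norm_num) h4 S
  have h6 : L ^ (2 * S) = Real.exp (((2 * S : ℕ) : ℝ) * y) := by
    rw [hL, Real.exp_nat_mul]
  have h7 : 3 * 4 ^ S * L ^ (2 * S) ≤ Real.exp 2 * Real.exp (S * 2) * Real.exp (((2 * S : ℕ) : ℝ) * y) := by
    rw [h6]
    exact mul_le_mul_of_nonneg_right (mul_le_mul h3 h5 (by positivity) (Real.exp_pos _).le) (Real.exp_pos _).le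
  refine h7.trans ?_
  rw [← Real.exp_add, ← Real.exp_add, Real.exp_le_exp]
  have hS0 : (0 : ℝ) ≤ S := Nat.cast_nonneg S
  have h8 : ((2 * S : ℕ) : ℝ) * y ≤ 2 * S * t := by
    push_cast
    exact mul_le_mul_of_nonneg_left hyt (by positivity)
  have h9 : (S : ℝ) * t ≤ t ^ 10 := by
    have := mul_le_mul_of_nonneg_right hS ht0.le
    calc (S : ℝ) * t ≤ t ^ 9 * t := this
      _ = t ^ 10 := by ring
  have h10 : (S : ℝ) ≤ t ^ 10 := by
    refine hS.trans (pow_le_pow_right₀ ht1 (by norm_num))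
  have h11 : (1 : ℝ) ≤ t ^ 10 := one_le_pow₀ ht1
  have h12 : 6000 * t ^ 10 ≤ L := by
    rw [hLt]
    have h13 : t ^ 50 = t ^ 39 * t * t ^ 10 := by ring
    rw [h13]
    have h14 : (1 : ℝ) ≤ t ^ 39 := one_le_pow₀ ht1
    have h15 : 6000 ≤ t ^ 39 * t := by nlinarith
    exact mul_le_mul_of_nonneg_right h15 (by positivity)
  nlinarith

theorem k2b_exp {N1 R0 c3 l : ℝ} (hN1 : 1 ≤ N1) (hR0 : 1 ≤ R0) (hc3 : 0 < c3) (hc3' : c3 ≤ 1 / 4) (hl : 1 ≤ l) :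
    (N1 * l + 1) ^ 4 * (720000 * l * Real.exp (Real.log 4000 * (N1 * l)) / (c3 / (l + R0 + 1))) ≤
      Real.exp ((Real.log (11520000 * N1 ^ 4 * (R0 + 2) / c3) + 6 + Real.log 4000 * N1) * l) := by
  have hx : l ≤ Real.exp l := by
    have := Real.add_one_le_exp l
    linarith
  have hx1 : 0 < Real.exp l := Real.exp_pos _
  have h1 : N1 * l + 1 ≤ 2 * N1 * Real.exp l := by nlinarith
  have h2 : (N1 * l + 1) ^ 4 ≤ (2 * N1 * Real.exp l) ^ 4 := pow_le_pow_left₀ (by nlinarith) h1 4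
  have h3 : l + R0 + 1 ≤ (R0 + 2) * Real.exp l := by nlinarith
  have hD : 0 < l + R0 + 1 := by linarith
  have e1 : 720000 * l * Real.exp (Real.log 4000 * (N1 * l)) / (c3 / (l + R0 + 1)) =
      720000 / c3 * (l * (l + R0 + 1)) * Real.exp (Real.log 4000 * (N1 * l)) := by
    field_simp
  rw [e1]
  have h4 : l * (l + R0 + 1) ≤ Real.exp l * ((R0 + 2) * Real.exp l) :=
    mul_le_mul hx h3 hD.le hx1.le
  have h5 : (N1 * l + 1) ^ 4 * (720000 / c3 * (l * (l + R0 + 1)) * Real.exp (Real.log 4000 * (N1 * l))) ≤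
      (2 * N1 * Real.exp l) ^ 4 * (720000 / c3 * (Real.exp l * ((R0 + 2) * Real.exp l)) * Real.exp (Real.log 4000 * (N1 * l))) := by
    refine mul_le_mul h2 ?_ (by positivity) (by positivity)
    exact mul_le_mul_of_nonneg_right (mul_le_mul_of_nonneg_left h4 (by positivity)) (Real.exp_pos _).le
  refine h5.trans ?_
  have hK : (1 : ℝ) ≤ 11520000 * N1 ^ 4 * (R0 + 2) / c3 := by
    rw [le_div_iff₀ hc3]
    have : (1 : ℝ) ≤ N1 ^ 4 := one_le_pow₀ hN1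
    nlinarith
  have hK0 : 0 < 11520000 * N1 ^ 4 * (R0 + 2) / c3 := by linarith
  have h6 : 11520000 * N1 ^ 4 * (R0 + 2) / c3 ≤ Real.exp (Real.log (11520000 * N1 ^ 4 * (R0 + 2) / c3) * l) := by
    have h7 : Real.exp (Real.log (11520000 * N1 ^ 4 * (R0 + 2) / c3)) = 11520000 * N1 ^ 4 * (R0 + 2) / c3 :=
      Real.exp_log hK0
    calc 11520000 * N1 ^ 4 * (R0 + 2) / c3 = Real.exp (Real.log (11520000 * N1 ^ 4 * (R0 + 2) / c3)) := h7.symm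
      _ ≤ Real.exp (Real.log (11520000 * N1 ^ 4 * (R0 + 2) / c3) * l) :=
        Real.exp_le_exp.2 (le_mul_of_one_le_right (Real.log_nonneg hK) hl)
  have e2 : (2 * N1 * Real.exp l) ^ 4 * (720000 / c3 * (Real.exp l * ((R0 + 2) * Real.exp l)) * Real.exp (Real.log 4000 * (N1 * l))) =
      (11520000 * N1 ^ 4 * (R0 + 2) / c3) * (Real.exp l ^ 6 * Real.exp (Real.log 4000 * (N1 * l))) := by
    ring
  have e3 : Real.exp l ^ 6 * Real.exp (Real.log 4000 * (N1 * l)) = Real.exp ((6 + Real.log 4000 * N1) * l) := by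
    rw [← Real.exp_nat_mul, ← Real.exp_add]
    congr 1
    push_cast
    ring
  rw [e2, e3]
  calc (11520000 * N1 ^ 4 * (R0 + 2) / c3) * Real.exp ((6 + Real.log 4000 * N1) * l)
      ≤ Real.exp (Real.log (11520000 * N1 ^ 4 * (R0 + 2) / c3) * l) * Real.exp ((6 + Real.log 4000 * N1) * l) :=
        mul_le_mul_of_nonneg_right h6 (Real.exp_pos _).le
    _ = Real.exp ((Real.log (11520000 * N1 ^ 4 * (R0 + 2) / c3) + 6 + Real.log 4000 * N1) * l) := by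
        rw [← Real.exp_add]
        congr 1
        ring

/-- The facts for large `L` (`L2 = log L`), uniform in `ℓ ≤ c1 L2`; `n = N1 ℓ`,
`τ = c3/(ℓ + R0 + 1)`. Choose `c1` with `c1 N1 log 4000 ≤ 1/10`, so that `4000^n ≤ L^(1/10)`; then
`τ ≥ c3/(c1 L2 + R0 + 1) ≥ L^(-1/100)` for large `L`, so `τ L/4000^n ≥ L^(1/2) ≥ 5 L2, 2`;
`n ≤ c1 N1 L2`; the natural numbers `S ≤ n (40000 ℓ 4000^n/(τ n^2) + ℓ + R0 + 1) ≤ L^(1/5)` satisfy
`3 · 4^S L^(2S) ≤ exp (2 + L^(1/5)(2 + 2 L2)) ≤ exp (L/1000)`.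
`(n+1)^4 720000 ℓ 4000^n/τ ≤ exp (C1 ℓ)`: the left side is
`(N1 ℓ + 1)^4 720000 ℓ (ℓ + R0 + 1)/c3 · exp (N1 log 4000 ℓ)`, a polynomial in `ℓ ≥ 1` times
`exp (N1 log 4000 ℓ)`: `≤ exp (A ℓ)` with `A = log (2^4 N1^4 720000 (R0+2)/c3) + 6 + N1 log 4000`
(`ℓ^k ≤ exp (k ℓ)`); `C1 = A`, and `c1` is also `≤ 1/(5 C1)`. The other facts are clear. -/
theorem k2_facts (e E c3 R0 : ℝ) (N1 : ℕ) (he : 0 < e) (hE : 1 ≤ E) (hN1 : 1 ≤ N1) (hR0 : 1 ≤ R0)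
    (hc3 : 0 < c3) (hc3' : c3 ≤ 1 / 4) :
    ∃ c1 C1 x0 : ℝ, 0 < c1 ∧ c1 ≤ 1 ∧ 0 < C1 ∧ C1 * c1 ≤ 1 / 5 ∧ ∀ L : ℝ, x0 ≤ L →
      2 ≤ L ∧ 1 ≤ Real.log L ∧ 8 * c1 ^ 2 ≤ L ^ 2 * Real.log (1 + e) ∧ 16 * c1 ^ 2 ≤ L ^ 2 ∧
      10000 * c1 ^ 2 * E ^ 2 ≤ e * L ∧ 4 * (c1 * L) ≤ e * Real.exp (L / 5) ∧
      ∀ ℓ : ℕ, 1 ≤ ℓ → (ℓ : ℝ) ≤ c1 * Real.log L →
        Real.log L ≤ ℓ * L ∧
        5 * Real.log L ≤ c3 / (ℓ + R0 + 1) * L / 4000 ^ (N1 * ℓ) ∧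
        2 ≤ c3 / (ℓ + R0 + 1) * L / 4000 ^ (N1 * ℓ) ∧
        2 * ((N1 * ℓ : ℕ) : ℝ) * (ℓ * L) + 1 ≤ L ^ 2 ∧
        (∀ S : ℕ, (S : ℝ) ≤ ((N1 * ℓ : ℕ) : ℝ) * (40000 * ℓ * 4000 ^ (N1 * ℓ) /
            (c3 / (ℓ + R0 + 1) * ((N1 * ℓ : ℕ) : ℝ) ^ 2) + (ℓ + R0) + 1) →
          3 * 4 ^ S * L ^ (2 * S) ≤ Real.exp (L / 1000)) ∧
        (((N1 * ℓ : ℕ) : ℝ) + 1) ^ 4 * (720000 * ℓ * 4000 ^ (N1 * ℓ) / (c3 / (ℓ + R0 + 1))) ≤
          Real.exp (C1 * ℓ) := by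
  have hN1r : (1 : ℝ) ≤ N1 := by exact_mod_cast hN1
  have hg : 0 < Real.log 4000 := Real.log_pos (by norm_num)
  have hg1 : 0 < Real.log 4000 * N1 := by positivity
  have hK : (1 : ℝ) ≤ 11520000 * (N1 : ℝ) ^ 4 * (R0 + 2) / c3 := by
    rw [le_div_iff₀ hc3]
    have : (1 : ℝ) ≤ (N1 : ℝ) ^ 4 := one_le_pow₀ hN1r
    nlinarith
  have hlK : 0 ≤ Real.log (11520000 * (N1 : ℝ) ^ 4 * (R0 + 2) / c3) := Real.log_nonneg hK
  obtain ⟨C1, hC1⟩ : ∃ C1 : ℝ, C1 = Real.log (11520000 * (N1 : ℝ) ^ 4 * (R0 + 2) / c3) + 6 + Real.log 4000 * N1 := ⟨_, rfl⟩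
  have hC10 : 0 < C1 := by rw [hC1]; linarith
  obtain ⟨c1, hc0, hc1, hcg, hcC⟩ : ∃ c1 : ℝ, 0 < c1 ∧ c1 ≤ 1 ∧ Real.log 4000 * N1 * c1 ≤ 1 / 10 ∧ C1 * c1 ≤ 1 / 5 := by
    refine ⟨min 1 (min (1 / (10 * (Real.log 4000 * N1))) (1 / (5 * C1))), ?_, min_le_left _ _, ?_, ?_⟩
    · refine lt_min one_pos (lt_min (by positivity) (by positivity))
    · have h1 := (min_le_right (1 : ℝ) (min (1 / (10 * (Real.log 4000 * N1))) (1 / (5 * C1)))).trans (min_le_left _ _)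
      have h2 := mul_le_mul_of_nonneg_left h1 hg1.le
      have h3 : Real.log 4000 * N1 * (1 / (10 * (Real.log 4000 * N1))) = 1 / 10 := by field_simp
      linarith
    · have h1 := (min_le_right (1 : ℝ) (min (1 / (10 * (Real.log 4000 * N1))) (1 / (5 * C1)))).trans (min_le_right _ _)
      have h2 := mul_le_mul_of_nonneg_left h1 hC10.le
      have h3 : C1 * (1 / (5 * C1)) = 1 / 5 := by field_simp
      linarith
  obtain ⟨T0, hT0⟩ : ∃ T0 : ℝ, T0 = 6000 + (R0 + 1) + 10 / c3 + (2 * N1 + 1) + 80002 * N1 / c3 := ⟨_, rfl⟩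
  have hle : 0 < Real.log (1 + e) := Real.log_pos (by linarith)
  have hq1 : 0 < 10 / c3 := by positivity
  have hq2 : 0 < 80002 * N1 / c3 := by positivity
  have hq3 : 0 < 10000 * E ^ 2 / e := by positivity
  have hq4 : 0 < 200 / e := by positivity
  have hq5 : 0 < 8 / Real.log (1 + e) := by positivity
  refine ⟨c1, C1, Real.exp T0 + 10000 * E ^ 2 / e + 200 / e + 8 / Real.log (1 + e) + 4, hc0, hc1, hC10, hcC, fun L hL => ?_⟩
  have hexT := Real.exp_pos T0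
  have hL4 : 4 ≤ L := by linarith
  have hL0 : 0 < L := by linarith
  have hLT : Real.exp T0 ≤ L := by linarith
  have hLe : 10000 * E ^ 2 / e ≤ L := by linarith
  have hLe2 : 200 / e ≤ L := by linarith
  have hLe3 : 8 / Real.log (1 + e) ≤ L := by linarith
  obtain ⟨y, hy⟩ : ∃ y : ℝ, y = Real.log L := ⟨_, rfl⟩
  rw [← hy]
  have hyT : T0 ≤ y := by
    rw [hy, Real.le_log_iff_exp_le hL0]
    exact hLT
  have hLy : L = Real.exp y := by rw [hy, Real.exp_log hL0]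
  have hyLL : y ≤ L := by
    have := Real.add_one_le_exp y
    linarith
  have hT6 : 6000 ≤ T0 := by rw [hT0]; linarith
  obtain ⟨t, ht⟩ : ∃ t : ℝ, t = Real.exp (y / 50) := ⟨_, rfl⟩
  have hyt : y ≤ t := by rw [ht]; exact k2b_self (by linarith)
  have ht6 : 6000 ≤ t := by linarith
  have ht1 : 1 ≤ t := by linarith
  have ht0 : 0 < t := by linarith
  have hLt : L = t ^ 50 := by
    rw [ht, ← Real.exp_nat_mul, hLy]
    congr 1
    push_cast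
    ring
  have htT : T0 ≤ t := by linarith
  have htR : R0 + 1 ≤ t := by linarith
  have htc : 10 ≤ c3 * t := by
    have h1 : 10 / c3 ≤ t := by linarith
    rwa [div_le_iff₀ hc3, mul_comm] at h1
  have htN : 2 * (N1 : ℝ) + 1 ≤ t := by linarith
  have htN2 : 80002 * N1 / c3 ≤ t := by linarith
  have hc12 : c1 ^ 2 ≤ 1 := by nlinarith
  refine ⟨by linarith, by linarith, ?_, ?_, ?_, ?_, ?_⟩
  · rw [div_le_iff₀ hle] at hLe3
    nlinarith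
  · nlinarith
  · rw [div_le_iff₀ he] at hLe
    have h1 : 10000 * c1 ^ 2 * E ^ 2 ≤ 10000 * 1 * E ^ 2 := by
      have := mul_le_mul_of_nonneg_right hc12 (by positivity : 0 ≤ 10000 * E ^ 2)
      linarith
    linarith
  · rw [div_le_iff₀ he] at hLe2
    have h1 := Real.quadratic_le_exp_of_nonneg (by linarith : 0 ≤ L / 5)
    have h2 : c1 * L ≤ 1 * L := mul_le_mul_of_nonneg_right hc1 hL0.le
    have h3 : L ^ 2 / 50 ≤ Real.exp (L / 5) := by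
      have : (L / 5) ^ 2 / 2 = L ^ 2 / 50 := by ring
      linarith
    have h4 := mul_le_mul_of_nonneg_left h3 he.le
    have h5 : 4 * L ≤ e * (L ^ 2 / 50) := by nlinarith
    linarith
  · intro ℓ hℓ hℓy
    have hl1 : (1 : ℝ) ≤ ℓ := by exact_mod_cast hℓ
    have hl0 : (0 : ℝ) ≤ ℓ := by linarith
    have hy0 : 0 ≤ y := by linarith
    have hlt : (ℓ : ℝ) ≤ t := by
      have : c1 * y ≤ 1 * y := mul_le_mul_of_nonneg_right hc1 hy0
      linarith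
    have hD0 : (0 : ℝ) < ℓ + R0 + 1 := by linarith
    have hD2 : (ℓ : ℝ) + R0 + 1 ≤ 2 * t := by linarith
    have hcast : ((N1 * ℓ : ℕ) : ℝ) = N1 * ℓ := by push_cast; ring
    have hP : (4000 : ℝ) ^ (N1 * ℓ) = Real.exp (Real.log 4000 * (N1 * ℓ)) := by
      rw [k2b_pow, hcast]
    have hP5 : (4000 : ℝ) ^ (N1 * ℓ) ≤ t ^ 5 := by
      rw [hP, ht, ← Real.exp_nat_mul, Real.exp_le_exp]
      have h1 : Real.log 4000 * N1 * ℓ ≤ Real.log 4000 * N1 * (c1 * y) := mul_le_mul_of_nonneg_left hℓy hg1.le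
      have h2 : Real.log 4000 * N1 * c1 * y ≤ 1 / 10 * y := mul_le_mul_of_nonneg_right hcg hy0
      push_cast
      nlinarith
    have hP0 : 0 < (4000 : ℝ) ^ (N1 * ℓ) := by positivity
    have hM0 : (1 : ℝ) ≤ N1 * ℓ := by nlinarith
    have hMt : (N1 : ℝ) * ℓ ≤ N1 * t := mul_le_mul_of_nonneg_left hlt (by linarith)
    have hh : 5 * y ≤ c3 / (ℓ + R0 + 1) * L / 4000 ^ (N1 * ℓ) := by
      rw [div_mul_eq_mul_div, div_div, le_div_iff₀ (by positivity)]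
      have h1 : (ℓ + R0 + 1) * (4000 : ℝ) ^ (N1 * ℓ) ≤ 2 * t * t ^ 5 := mul_le_mul hD2 hP5 hP0.le (by positivity)
      have h2 : 5 * y * ((ℓ + R0 + 1) * (4000 : ℝ) ^ (N1 * ℓ)) ≤ 5 * t * (2 * t * t ^ 5) :=
        mul_le_mul (by linarith) h1 (by positivity) (by positivity)
      have h3 : 5 * t * (2 * t * t ^ 5) = 10 * t ^ 7 := by ring
      have h4 : c3 * L = (c3 * t) * t ^ 49 := by
        rw [hLt]
        ring
      have h5 : t ^ 7 ≤ t ^ 49 := pow_le_pow_right₀ ht1 (by norm_num)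
      have h6 : 10 * t ^ 49 ≤ (c3 * t) * t ^ 49 := mul_le_mul_of_nonneg_right htc (by positivity)
      linarith
    refine ⟨?_, hh, by linarith, ?_, ?_, ?_⟩
    · have : 1 * L ≤ ℓ * L := mul_le_mul_of_nonneg_right hl1 hL0.le
      linarith
    · rw [hcast]
      have h1 : (ℓ : ℝ) * L ≤ t * L := mul_le_mul_of_nonneg_right hlt hL0.le
      have h2 : 2 * (N1 * (ℓ : ℝ)) * (ℓ * L) ≤ 2 * (N1 * t) * (t * L) :=
        mul_le_mul (by linarith) h1 (by positivity) (by positivity)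
      have h3 : 2 * (N1 * t) * (t * L) = 2 * N1 * t ^ 52 := by
        rw [hLt]
        ring
      have h4 : (1 : ℝ) ≤ t ^ 52 := one_le_pow₀ ht1
      have h5 : (2 * (N1 : ℝ) + 1) * t ^ 52 ≤ t * t ^ 52 := mul_le_mul_of_nonneg_right htN (by positivity)
      have h6 : t * t ^ 52 = t ^ 53 := by ring
      have h7 : t ^ 53 ≤ t ^ 100 := pow_le_pow_right₀ ht1 (by norm_num)
      have h8 : L ^ 2 = t ^ 100 := by
        rw [hLt]
        ring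
      rw [h8]
      linarith
    · intro S hS
      refine k2b_S S hLy ht6 hyt hLt (hS.trans ?_)
      rw [hcast]
      have e1 : 40000 * ℓ * (4000 : ℝ) ^ (N1 * ℓ) / (c3 / (ℓ + R0 + 1) * (N1 * (ℓ : ℝ)) ^ 2) =
          40000 * (ℓ * (ℓ + R0 + 1) * (4000 : ℝ) ^ (N1 * ℓ)) / c3 / (N1 * (ℓ : ℝ)) ^ 2 := by
        field_simp
      rw [e1]
      have h1 : ℓ * (ℓ + R0 + 1) * (4000 : ℝ) ^ (N1 * ℓ) ≤ t * (2 * t) * t ^ 5 :=
        mul_le_mul (mul_le_mul hlt hD2 hD0.le ht0.le) hP5 hP0.le (by positivity)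
      have h2 : 40000 * (ℓ * (ℓ + R0 + 1) * (4000 : ℝ) ^ (N1 * ℓ)) / c3 ≤ 80000 * t ^ 7 / c3 := by
        refine div_le_div_of_nonneg_right ?_ hc3.le
        have h3 : t * (2 * t) * t ^ 5 = 2 * t ^ 7 := by ring
        linarith
      have h3 : 40000 * (ℓ * (ℓ + R0 + 1) * (4000 : ℝ) ^ (N1 * ℓ)) / c3 / (N1 * (ℓ : ℝ)) ^ 2 ≤ 80000 * t ^ 7 / c3 := by
        refine le_trans (div_le_self (by positivity) (one_le_pow₀ hM0)) h2
      have h4 : 2 * t ≤ 2 * t ^ 7 / c3 := by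
        rw [le_div_iff₀ hc3]
        have h5 : t * 1 ≤ t * t ^ 6 := mul_le_mul_of_nonneg_left (one_le_pow₀ ht1) ht0.le
        nlinarith
      have h5 : 40000 * (ℓ * (ℓ + R0 + 1) * (4000 : ℝ) ^ (N1 * ℓ)) / c3 / (N1 * (ℓ : ℝ)) ^ 2 + (ℓ + R0) + 1 ≤
          80002 * t ^ 7 / c3 := by
        have e2 : 80002 * t ^ 7 / c3 = 80000 * t ^ 7 / c3 + 2 * t ^ 7 / c3 := by ring
        linarith
      have h6 : N1 * (ℓ : ℝ) * (40000 * (ℓ * (ℓ + R0 + 1) * (4000 : ℝ) ^ (N1 * ℓ)) / c3 / (N1 * (ℓ : ℝ)) ^ 2 + (ℓ + R0) + 1) ≤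
          N1 * t * (80002 * t ^ 7 / c3) := mul_le_mul hMt h5 (by positivity) (by positivity)
      have h7 : N1 * t * (80002 * t ^ 7 / c3) = (80002 * N1 / c3) * t ^ 8 := by ring
      have h8 : (80002 * N1 / c3) * t ^ 8 ≤ t * t ^ 8 := mul_le_mul_of_nonneg_right htN2 (by positivity)
      have h9 : t * t ^ 8 = t ^ 9 := by ring
      linarith
    · rw [hP, hcast, hC1]
      exact k2b_exp hN1r hR0 hc3 hc3' hl1

end Pool.Agent.Lib.H64T
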