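import Pool.Agent.Lib.H64T.K1
import Pool.Agent.Lib.H64T.K2A
import Pool.Agent.Lib.H64T.K2B
import Pool.Agent.Lib.H15P.PN2

/-!
# Chunk K3: the weights, uniformly in the number of forms
-/

open Finset

namespace Pool.Agent.Lib.H64T

open Pool.Agent.Lib.H15P

/-- As `H15P.exists_WD` (copy its proof), with `Lam = ℓ`, `n = N1 ℓ`, `R = ℓ + R0`,
`τ = c3/(ℓ + R0 + 1)`, `C = exp ((n+1)^4 (720000 ℓ 4000^n/τ)) ≤ exp (exp (C1 ℓ))`, `X = L = log x`,
`E = 20 exp (3 sig)`, `lv = exp (L/400)`, the facts `k2_consts`, `k2_facts` (for `L = log x`), `mkWT`,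
`pn2_lev`. `K ≤ ℓ L/L2 ≤ c1 L`, `W ≥ L^4`: `K^2/W ≤ c1^2/L^2`. The primes of `PP W (τ L)` are
`≤ exp (τ L) ≤ x^(1/4)`. -/
theorem exists_WT (e : ℝ) (he : 0 < e) (he1 : e ≤ 1 / 10) :
    ∃ c1 C1 x0 : ℝ, 0 < c1 ∧ c1 ≤ 1 ∧ 0 < C1 ∧ C1 * c1 ≤ 1 / 5 ∧ ∀ x : ℝ, x0 ≤ x →
      ∀ ℓ : ℕ, 1 ≤ ℓ → (ℓ : ℝ) ≤ c1 * Real.log (Real.log x) → ∃ w : WT, w.e = e ∧
        w.W = ⌈Real.log x ^ 4⌉₊ ∧ w.K = ⌊ℓ * Real.log x / Real.log (Real.log x)⌋₊ ∧
        w.X = Real.log x ∧ w.C ≤ Real.exp (Real.exp (C1 * ℓ)) ∧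
        (∀ p ∈ w.P, (p : ℝ) ≤ x ^ (1 / 4 : ℝ)) ∧
        4 * w.K * w.lv ^ 4 ≤ e * x ^ (1 / 4 : ℝ) := by
  have hsig : 0 ≤ sig := by
    unfold sig
    have : 0 ≤ Real.log (1000 * (4000 : ℕ)) := Real.log_nonneg (by norm_num)
    linarith
  obtain ⟨r0, hr0⟩ := exists_r0 sig hsig
  obtain ⟨N1, R0, c3, hN1, hR0, hc3, hc3', hcons⟩ := k2_consts e he r0
  set E : ℝ := 20 * Real.exp (3 * sig) with hE
  have hE1 : 1 ≤ E := by
    have : 1 ≤ Real.exp (3 * sig) := Real.one_le_exp (by linarith)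
    linarith
  obtain ⟨c1, C1, x1, hc1, hc11, hC1, hC1c, hfacts⟩ :=
    k2_facts e E c3 R0 N1 he hE1 hN1 hR0 hc3 hc3'
  refine ⟨c1, C1, Real.exp x1, hc1, hc11, hC1, hC1c, fun x hx ℓ hℓ hℓL => ?_⟩
  have hxpos : 0 < x := lt_of_lt_of_le (Real.exp_pos _) hx
  have hLx : x1 ≤ Real.log x := (Real.le_log_iff_exp_le hxpos).2 hx
  obtain ⟨hnR, hRτ, hlev, hlev2⟩ := hcons ℓ hℓ
  obtain ⟨f1, f2, g1, g2, g3, g4, hf⟩ := hfacts (Real.log x) hLx
  obtain ⟨h1, h2, h3, h4, h5, h6⟩ := hf ℓ hℓ hℓL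
  set L := Real.log x with hLdef
  set L2 := Real.log L with hL2def
  set n : ℕ := N1 * ℓ with hndef
  set R : ℝ := (ℓ : ℝ) + R0 with hRdef
  set τ : ℝ := c3 / (R + 1) with hτdef
  have hℓ0 : (0 : ℝ) < ℓ := by exact_mod_cast hℓ
  have hℓ1 : (1 : ℝ) ≤ ℓ := by exact_mod_cast hℓ
  have hn : 1 ≤ n := Nat.one_le_iff_ne_zero.2 (Nat.mul_ne_zero (by omega) (by omega))
  have hn0 : (0 : ℝ) < n := by exact_mod_cast hn
  have hR : 0 < R := by rw [hRdef]; linarith
  have hτ : 0 < τ := div_pos hc3 (by linarith)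
  have hτc : τ ≤ 1 / 4 := by
    refine le_trans ?_ hc3'
    rw [hτdef]
    exact div_le_self hc3.le (by linarith)
  set m : Fin n → ℕ := fun i => ⌈40000 * (ℓ : ℝ) * 4000 ^ ((i : ℕ) + 1) / (τ * (n : ℝ) ^ 2) + R⌉₊
    with hmdef
  set S : ℕ := ∑ i, m i with hS
  set C : ℝ := Real.exp (((n : ℝ) + 1) ^ 4 * (720000 * ℓ * 4000 ^ n / τ)) with hC
  have hL0 : 0 < L := by linarith
  have hL20 : 0 < L2 := by linarith
  set K : ℕ := ⌊(ℓ : ℝ) * L / L2⌋₊ with hKdef
  set W : ℕ := ⌈L ^ 4⌉₊ with hWdef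
  have hKle : (K : ℝ) ≤ ℓ * L / L2 := Nat.floor_le (by positivity)
  have hKle2 : (K : ℝ) ≤ ℓ * L := hKle.trans (div_le_self (by positivity) f2)
  have hKle3 : (K : ℝ) ≤ c1 * L := by
    refine hKle.trans ?_
    rw [div_le_iff₀ hL20]
    calc (ℓ : ℝ) * L ≤ (c1 * L2) * L := mul_le_mul_of_nonneg_right hℓL hL0.le
      _ = c1 * L * L2 := by ring
  have hK1 : 1 ≤ K := by
    rw [hKdef, Nat.one_le_floor_iff, le_div_iff₀ hL20]
    linarith
  have hWge : L ^ 4 ≤ W := Nat.le_ceil _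
  have hWle : (W : ℝ) ≤ L ^ 5 := by
    have h1 : (W : ℝ) < L ^ 4 + 1 := Nat.ceil_lt_add_one (by positivity)
    have h2 : (1 : ℝ) ≤ L ^ 4 := one_le_pow₀ (by linarith)
    have h3 : L ^ 5 = L * L ^ 4 := by ring
    nlinarith
  have hL4 : (0 : ℝ) < L ^ 4 := by positivity
  have hW0 : (0 : ℝ) < W := by linarith
  have hlogW : Real.log W ≤ 5 * L2 := by
    calc Real.log W ≤ Real.log (L ^ 5) := Real.log_le_log hW0 hWle
      _ = 5 * L2 := by rw [Real.log_pow, hL2def]; norm_num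
  have hlogW0 : 0 ≤ Real.log W := by
    apply Real.log_nonneg
    have : (1 : ℝ) ≤ L ^ 4 := one_le_pow₀ (by linarith)
    linarith
  have hK2 : (K : ℝ) ^ 2 ≤ c1 ^ 2 * L ^ 2 := by
    rw [← mul_pow]
    exact pow_le_pow_left₀ (by positivity) hKle3 2
  have hKW : 16 * (K : ℝ) ^ 2 ≤ W := by
    refine le_trans ?_ hWge
    calc 16 * (K : ℝ) ^ 2 ≤ 16 * (c1 ^ 2 * L ^ 2) := by linarith
      _ = (16 * c1 ^ 2) * L ^ 2 := by ring
      _ ≤ L ^ 2 * L ^ 2 := mul_le_mul_of_nonneg_right g2 (by positivity)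
      _ = L ^ 4 := by ring
  set T := τ * L with hTdef
  have hT0 : 0 < T := by positivity
  -- the main ratio
  have hratio : (K : ℝ) * Real.log W / T ≤ 5 * ℓ / τ := by
    rw [div_le_div_iff₀ hT0 hτ]
    calc (K : ℝ) * Real.log W * τ ≤ (ℓ * L / L2) * (5 * L2) * τ := by
          apply mul_le_mul_of_nonneg_right _ hτ.le
          exact mul_le_mul hKle hlogW hlogW0 (by positivity)
      _ = 5 * ℓ * T := by rw [hTdef]; field_simp
  have hmain : ∃ w : WT, w.P = PP W T ∧ w.W = W ∧ w.K = K ∧ w.C = C ∧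
      w.lv = Real.exp (L / 400) ∧ w.e = e ∧ w.X = L := by
    refine mkWT W K n r0 T R C e (Real.exp (L / 400)) L m hn hK1 ?_
      hr0 (hlogW.trans h2) h3 ?_ he he1 hnR ?_ ?_ ?_ ?_ ?_ ?_ ?_ ?_
    · -- hKW
      have h1 : 4 * (2 * (K : ℝ)) ^ 2 ≤ W := by linarith
      exact_mod_cast h1
    · -- hm
      intro i
      have h1 : 2 * (K : ℝ) * (4000 * Real.log W * 4000 ^ ((i : ℕ) + 1) / (T * (n : ℝ) ^ 2))
          = (K * Real.log W / T) * (8000 * 4000 ^ ((i : ℕ) + 1) / (n : ℝ) ^ 2) := by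
        field_simp
        ring
      have h2 : (K * Real.log W / T) * (8000 * 4000 ^ ((i : ℕ) + 1) / (n : ℝ) ^ 2)
          ≤ (5 * ℓ / τ) * (8000 * 4000 ^ ((i : ℕ) + 1) / (n : ℝ) ^ 2) :=
        mul_le_mul_of_nonneg_right hratio (by positivity)
      have h3 : (5 * (ℓ : ℝ) / τ) * (8000 * 4000 ^ ((i : ℕ) + 1) / (n : ℝ) ^ 2)
          = 40000 * ℓ * 4000 ^ ((i : ℕ) + 1) / (τ * (n : ℝ) ^ 2) := by
        field_simp
        ring
      have h4 := Nat.le_ceil (40000 * (ℓ : ℝ) * 4000 ^ ((i : ℕ) + 1) / (τ * (n : ℝ) ^ 2) + R)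
      rw [h1]
      linarith
    · -- hC
      rw [hC]
      apply Real.exp_le_exp.mpr
      have h1 : ((n : ℝ) + 1) ^ 4 * (144000 * Real.log W * 4000 ^ n / T) * K
          = ((n : ℝ) + 1) ^ 4 * 144000 * 4000 ^ n * (K * Real.log W / T) := by
        field_simp
      have h2 : ((n : ℝ) + 1) ^ 4 * (720000 * ℓ * 4000 ^ n / τ)
          = ((n : ℝ) + 1) ^ 4 * 144000 * 4000 ^ n * (5 * ℓ / τ) := by
        field_simp
        ring
      rw [h1, h2]
      exact mul_le_mul_of_nonneg_left hratio (by positivity)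
    · -- hlm
      refine le_trans ?_ hRτ
      have h1 : (K : ℝ) * Real.exp (-R) * (2000 * Real.log W / T)
          = 2000 * Real.exp (-R) * (K * Real.log W / T) := by
        field_simp
      have h2 : 10000 * (ℓ : ℝ) * Real.exp (-R) / τ = 2000 * Real.exp (-R) * (5 * ℓ / τ) := by
        field_simp
        ring
      rw [h1, h2]
      exact mul_le_mul_of_nonneg_left hratio (by positivity)
    · -- hK1
      rw [← Real.exp_log (show (0 : ℝ) < 1 + e by linarith)]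
      apply Real.exp_le_exp.mpr
      rw [div_le_iff₀ hW0]
      push_cast
      calc 2 * (2 * (K : ℝ)) ^ 2 = 8 * (K : ℝ) ^ 2 := by ring
        _ ≤ 8 * (c1 ^ 2 * L ^ 2) := by linarith
        _ = (8 * c1 ^ 2) * L ^ 2 := by ring
        _ ≤ (L ^ 2 * Real.log (1 + e)) * L ^ 2 := mul_le_mul_of_nonneg_right g1 (by positivity)
        _ = Real.log (1 + e) * L ^ 4 := by ring
        _ ≤ Real.log (1 + e) * W :=
            mul_le_mul_of_nonneg_left hWge (Real.log_nonneg (by linarith))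
    · linarith
    · -- hco
      rw [div_le_iff₀ hW0]
      calc 10000 * (K : ℝ) ^ 2 * (20 * Real.exp (3 * sig)) ^ 2 * L
          ≤ 10000 * (c1 ^ 2 * L ^ 2) * E ^ 2 * L := by
            rw [← hE]
            apply mul_le_mul_of_nonneg_right _ hL0.le
            apply mul_le_mul_of_nonneg_right _ (by positivity)
            linarith
        _ = (10000 * c1 ^ 2 * E ^ 2) * L ^ 3 := by ring
        _ ≤ (e * L) * L ^ 3 := mul_le_mul_of_nonneg_right g3 (by positivity)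
        _ = e * L ^ 4 := by ring
        _ ≤ e * W := mul_le_mul_of_nonneg_left hWge he.le
    · apply Real.one_le_exp
      positivity
    · -- hlv2
      have hm' : ∀ i : Fin n, (m i : ℝ)
          ≤ 40000 * (ℓ : ℝ) * 4000 ^ ((i : ℕ) + 1) / (τ * (n : ℝ) ^ 2) + R + 1 := by
        intro i
        exact (Nat.ceil_lt_add_one (by positivity)).le
      have h1' := pn2_lev (ℓ : ℝ) τ R T L n r0 m hℓ0 hτ hn hR rfl hL0.le hm' hlev
      have hSle : (S : ℝ) ≤ (n : ℝ) * (40000 * ℓ * 4000 ^ n / (τ * (n : ℝ) ^ 2) + R + 1) := by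
        rw [hS, Nat.cast_sum]
        calc ∑ i, (m i : ℝ)
            ≤ ∑ _i : Fin n, (40000 * (ℓ : ℝ) * 4000 ^ n / (τ * (n : ℝ) ^ 2) + R + 1) := by
              apply sum_le_sum
              intro i _
              refine (hm' i).trans ?_
              have h7 : (4000 : ℝ) ^ ((i : ℕ) + 1) ≤ 4000 ^ n :=
                pow_le_pow_right₀ (by norm_num) i.2
              have h8 : 40000 * (ℓ : ℝ) * 4000 ^ ((i : ℕ) + 1) / (τ * (n : ℝ) ^ 2)
                  ≤ 40000 * (ℓ : ℝ) * 4000 ^ n / (τ * (n : ℝ) ^ 2) := by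
                apply div_le_div_of_nonneg_right _ (by positivity)
                exact mul_le_mul_of_nonneg_left h7 (by positivity)
              linarith
          _ = (n : ℝ) * (40000 * ℓ * 4000 ^ n / (τ * (n : ℝ) ^ 2) + R + 1) := by
              rw [sum_const, card_univ, Fintype.card_fin, nsmul_eq_mul]
      have h5' := h5 S hSle
      have h2' : ((n : ℝ) * (2 * K) + 1) ^ S ≤ L ^ (2 * S) := by
        rw [pow_mul]
        apply pow_le_pow_left₀ (by positivity)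
        refine le_trans ?_ h4
        nlinarith
      calc 3 * ((n : ℝ) * (2 * K) + 1) ^ S *
            ∏ i : Fin n, (4 * Real.exp (12 * ((r0 : ℝ) + 1) * (T / 4000 ^ (i : ℕ)))) ^ m i
          ≤ 3 * L ^ (2 * S) * (4 ^ S * Real.exp (L / 1000)) := by
            apply mul_le_mul _ h1' (prod_nonneg fun i _ => by positivity) (by positivity)
            exact mul_le_mul_of_nonneg_left h2' (by norm_num)
        _ = (3 * 4 ^ S * L ^ (2 * S)) * Real.exp (L / 1000) := by ring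
        _ ≤ Real.exp (L / 1000) * Real.exp (L / 1000) :=
            mul_le_mul_of_nonneg_right h5' (Real.exp_pos _).le
        _ = Real.exp (L / 500) := by rw [← Real.exp_add]; ring_nf
        _ ≤ Real.exp (L / 400) := by
            apply Real.exp_le_exp.mpr
            linarith
    · -- hlv3
      apply Real.exp_le_exp.mpr
      calc 12 * ((r0 : ℝ) + 1) * T = (12 * ((r0 : ℝ) + 1) * τ) * L := by rw [hTdef]; ring
        _ ≤ 1 / 400 * L := mul_le_mul_of_nonneg_right hlev2 hL0.le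
        _ = L / 400 := by ring
  obtain ⟨w, w1, w2, w3, w4, w5, w6, w7⟩ := hmain
  refine ⟨w, w6, w2, w3, w7, ?_, ?_, ?_⟩
  · rw [w4, hC]
    exact Real.exp_le_exp.2 h6
  · intro p hp
    rw [w1] at hp
    unfold PP at hp
    rw [mem_filter, mem_Ioc] at hp
    have h1 : (p : ℝ) ≤ Real.exp T := by
      refine le_trans (by exact_mod_cast hp.1.2) (Nat.floor_le (Real.exp_pos _).le)
    refine h1.trans ?_
    rw [Real.rpow_def_of_pos hxpos]
    apply Real.exp_le_exp.mpr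
    rw [hTdef, mul_comm]
    exact mul_le_mul_of_nonneg_left hτc hL0.le
  · rw [w3, w5, ← Real.exp_nat_mul, Real.rpow_def_of_pos hxpos]
    have h1 : 4 * (K : ℝ) ≤ e * Real.exp (L / 5) := by
      refine le_trans ?_ g4
      linarith
    calc 4 * (K : ℝ) * Real.exp (((4 : ℕ) : ℝ) * (L / 400))
        ≤ e * Real.exp (L / 5) * Real.exp (((4 : ℕ) : ℝ) * (L / 400)) :=
          mul_le_mul_of_nonneg_right h1 (Real.exp_pos _).le
      _ = e * Real.exp (L / 5 + ((4 : ℕ) : ℝ) * (L / 400)) := by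
          rw [Real.exp_add]; ring
      _ ≤ e * Real.exp (L * (1 / 4)) := by
          apply mul_le_mul_of_nonneg_left _ he.le
          apply Real.exp_le_exp.mpr
          push_cast
          linarith

end Pool.Agent.Lib.H64T
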