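import Pool.Agent.Lib.H64T.H2
import Pool.Agent.Lib.H15P.TR3

/-!
# Chunk M1: lower bound for the mean square, with relative error
-/

open Finset

namespace Pool.Agent.Lib.H64T

open Pool.Agent.Lib.H15P

variable {J : Type} [Fintype J] [DecidableEq J]

/-- First half of the proof of `H15P.le_EP` (before Cauchy-Schwarz is used): from `EP_eq` and
`prod_ww_ge`, `EP F ≥ Σ_S F(S) (1 - K^2/W - loss S) ∏ bw (S j)`. -/
theorem le_EP_loss (P : Finset ℕ) (W K M : ℕ) (b : J → ℕ) (hF : Forms P W K M b)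
    (F : (J → Finset {p // p ∈ P}) → ℝ) (h0 : ∀ S, 0 ≤ F S) :
    (1 - (K : ℝ) ^ 2 / W) * EX (qq P K) F - EX (qq P K) (fun S => F S * loss P K S) ≤
      EP P M b F := by
  classical
  have hK1 : (1 : ℝ) ≤ K := by exact_mod_cast hF.one_le
  have hW1 : 1 ≤ W := by
    have := hF.KW
    have := hF.one_le
    nlinarith
  have hWr : (1 : ℝ) ≤ W := by exact_mod_cast hW1
  have hpW : ∀ i : {p // p ∈ P}, (W : ℝ) ≤ i.1 := by
    intro i
    exact_mod_cast (hF.big i.1 i.2).le
  have hKW : 4 * (K : ℝ) ^ 2 ≤ W := by exact_mod_cast hF.KW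
  have hp0 : ∀ i : {p // p ∈ P}, (0 : ℝ) < i.1 := fun i => by
    have := hpW i
    linarith
  have hq0 : ∀ i, 0 ≤ qq P K i := qq_nonneg P K
  have hq1 : ∀ i, qq P K i ≤ 1 := by
    intro i
    refine (qq_le P W K hF.one_le hF.KW hF.big i).trans ?_
    rw [div_le_one (hp0 i)]
    have := hpW i
    nlinarith
  have hbw : ∀ S : J → Finset {p // p ∈ P}, 0 ≤ ∏ j, bw (qq P K) (S j) := fun S =>
    Finset.prod_nonneg fun j _ => bw_nonneg _ hq0 hq1 _
  -- step 1: the sum over the families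
  have step1 : EX (qq P K) (fun S : J → Finset {p // p ∈ P} =>
      F S * ((1 - (K : ℝ) ^ 2 / W) - loss P K S)) ≤ EP P M b F := by
    rw [EP_eq P W K M b hF F]
    have e1 : ∑ κ : {p // p ∈ P} → Option J,
        F (cfg κ) * ((1 - (K : ℝ) ^ 2 / W - ∑ j, ∑ p ∈ cfg κ j, 2 * (K : ℝ) / (p.1 : ℝ)) *
          ∏ j, bw (qq P K) (cfg κ j)) ≤
        ∑ κ : {p // p ∈ P} → Option J, F (cfg κ) * ∏ i, ww J i.1 (κ i) :=
      Finset.sum_le_sum fun κ _ => mul_le_mul_of_nonneg_left (prod_ww_ge P W K M b hF κ) (h0 _)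
    refine le_trans ?_ e1
    set g : (J → Finset {p // p ∈ P}) → ℝ := fun S =>
      F S * ((1 - (K : ℝ) ^ 2 / W) - loss P K S) * ∏ j, bw (qq P K) (S j) with hg
    have e2 : ∑ κ : {p // p ∈ P} → Option J, g (cfg κ) =
        ∑ S ∈ (univ : Finset ({p // p ∈ P} → Option J)).image cfg, g S :=
      (Finset.sum_image (fun a _ b _ h => tr3_cfg_inj h)).symm
    have e3 : ∑ κ : {p // p ∈ P} → Option J,
        F (cfg κ) * ((1 - (K : ℝ) ^ 2 / W - ∑ j, ∑ p ∈ cfg κ j, 2 * (K : ℝ) / (p.1 : ℝ)) *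
          ∏ j, bw (qq P K) (cfg κ j)) = ∑ κ : {p // p ∈ P} → Option J, g (cfg κ) := by
      refine Finset.sum_congr rfl fun κ _ => ?_
      simp only [hg]
      have : loss P K (cfg κ) = ∑ j, ∑ p ∈ cfg κ j, 2 * (K : ℝ) / (p.1 : ℝ) := by
        unfold loss
        rw [if_neg, zero_add]
        rintro ⟨j, j', hjj, hd⟩
        exact hd (tr3_cfg_disj κ j j' hjj)
      rw [this]
      ring
    rw [e3, e2]
    have e4 : EX (qq P K) (fun S : J → Finset {p // p ∈ P} =>
        F S * ((1 - (K : ℝ) ^ 2 / W) - loss P K S)) = ∑ S, g S := rfl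
    rw [e4, ← Finset.sum_sdiff (Finset.subset_univ
      ((univ : Finset ({p // p ∈ P} → Option J)).image cfg))]
    have e5 : ∑ S ∈ univ \ (univ : Finset ({p // p ∈ P} → Option J)).image cfg, g S ≤ 0 := by
      refine Finset.sum_nonpos fun S hS => ?_
      rw [Finset.mem_sdiff, Finset.mem_image] at hS
      have hex : ∃ j j', j ≠ j' ∧ ¬ Disjoint (S j) (S j') := by
        by_contra hcon
        push Not at hcon
        obtain ⟨κ, hκ⟩ := tr3_exists_cfg S hcon
        exact hS.2 ⟨κ, Finset.mem_univ _, hκ⟩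
      have hl : 1 ≤ loss P K S := by
        unfold loss
        rw [if_pos hex]
        have : 0 ≤ ∑ j, ∑ p ∈ S j, 2 * (K : ℝ) / (p.1 : ℝ) :=
          Finset.sum_nonneg fun j _ => Finset.sum_nonneg fun p _ => by positivity
        linarith
      have hKW0 : 0 ≤ (K : ℝ) ^ 2 / W := by positivity
      simp only [hg]
      refine mul_nonpos_of_nonpos_of_nonneg ?_ (hbw S)
      exact mul_nonpos_of_nonneg_of_nonpos (h0 S) (by linarith)
    linarith
  have e6 : EX (qq P K) (fun S : J → Finset {p // p ∈ P} =>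
      F S * ((1 - (K : ℝ) ^ 2 / W) - loss P K S)) =
      (1 - (K : ℝ) ^ 2 / W) * EX (qq P K) F - EX (qq P K) (fun S => F S * loss P K S) := by
    unfold EX
    rw [Finset.mul_sum, ← Finset.sum_sub_distrib]
    exact Finset.sum_congr rfl fun S _ => by ring
  rw [← e6]
  exact step1

end Pool.Agent.Lib.H64T
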