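import Pool.Agent.Lib.H64T.H2
import Pool.Agent.Lib.H15P.TR3

/-!
# Chunk M2: the loss is small relative to the total weight
-/

open Finset

namespace Pool.Agent.Lib.H64T

open Pool.Agent.Lib.H15P

variable {J I : Type} [Fintype J] [DecidableEq J] [Fintype I] [DecidableEq I]

/-- one prime in one set -/
theorem m2_one {ι : Type} [Fintype ι] [DecidableEq ι] (q : ι → ℝ) (D : I → Finset ι → ℝ) (h : ℝ)
    (hg : Good q D h) (E : ℝ) (hE : 1 ≤ E) (hI : 0 < Fintype.card I)
    (hit : ∀ i (T : Finset ι), ex q (fun A => if T ⊆ A then D i A ^ 2 else 0) ≤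
      4 * (E ^ T.card * ∏ p ∈ T, q p)) (m : I → ℕ) (B : Finset J) (j : J) (p : ι) :
    EX q (fun S : J → Finset ι => if p ∈ S j then LL D m B S ^ 2 else 0) ≤
      (10 * E * q p) * ZZ q D B.card := by
  have h1 := EX_LL_sq_hit q D h hg E hE hI hit m B (fun l : J => if l = j then {p} else ∅)
  have h2 : (fun S : J → Finset ι => if p ∈ S j then LL D m B S ^ 2 else 0) =
      (fun S : J → Finset ι => if ∀ l, (fun l : J => if l = j then ({p} : Finset ι) else ∅) l ⊆ S l
        then LL D m B S ^ 2 else 0) := by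
    funext S
    have h3 : (∀ l, (fun l : J => if l = j then ({p} : Finset ι) else ∅) l ⊆ S l) ↔ p ∈ S j := by
      constructor
      · intro h4
        have h5 := h4 j
        simp only [if_true] at h5
        exact Finset.singleton_subset_iff.1 h5
      · intro h4 l
        by_cases h5 : l = j
        · subst h5
          simpa using h4
        · simp [h5]
    by_cases h6 : p ∈ S j
    · rw [if_pos h6, if_pos (h3.2 h6)]
    · rw [if_neg h6, if_neg (fun h7 => h6 (h3.1 h7))]
  have h8 : ∏ l : J, ((10 * E) ^ ((if l = j then ({p} : Finset ι) else ∅).card) *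
      ∏ i ∈ (if l = j then ({p} : Finset ι) else ∅), q i) = 10 * E * q p := by
    rw [Finset.prod_eq_single j]
    · simp
    · intro l _ hl
      simp [hl]
    · intro hj
      exact absurd (Finset.mem_univ j) hj
  rw [h2]
  refine h1.trans (le_of_eq ?_)
  rw [h8]

/-- one prime in two sets -/
theorem m2_two {ι : Type} [Fintype ι] [DecidableEq ι] (q : ι → ℝ) (D : I → Finset ι → ℝ) (h : ℝ)
    (hg : Good q D h) (E : ℝ) (hE : 1 ≤ E) (hI : 0 < Fintype.card I)
    (hit : ∀ i (T : Finset ι), ex q (fun A => if T ⊆ A then D i A ^ 2 else 0) ≤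
      4 * (E ^ T.card * ∏ p ∈ T, q p)) (m : I → ℕ) (B : Finset J) (j j' : J) (hj : j ≠ j')
    (p : ι) :
    EX q (fun S : J → Finset ι => if p ∈ S j ∧ p ∈ S j' then LL D m B S ^ 2 else 0) ≤
      (10 * E * q p) ^ 2 * ZZ q D B.card := by
  have h1 := EX_LL_sq_hit q D h hg E hE hI hit m B
    (fun l : J => if l = j ∨ l = j' then {p} else ∅)
  have h2 : (fun S : J → Finset ι => if p ∈ S j ∧ p ∈ S j' then LL D m B S ^ 2 else 0) =
      (fun S : J → Finset ι =>
        if ∀ l, (fun l : J => if l = j ∨ l = j' then ({p} : Finset ι) else ∅) l ⊆ S l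
        then LL D m B S ^ 2 else 0) := by
    funext S
    have h3 : (∀ l, (fun l : J => if l = j ∨ l = j' then ({p} : Finset ι) else ∅) l ⊆ S l) ↔
        (p ∈ S j ∧ p ∈ S j') := by
      constructor
      · intro h4
        have h5 := h4 j
        have h6 := h4 j'
        simp only [true_or, or_true, if_true] at h5 h6
        exact ⟨Finset.singleton_subset_iff.1 h5, Finset.singleton_subset_iff.1 h6⟩
      · rintro ⟨h4, h4'⟩ l
        by_cases h5 : l = j ∨ l = j'
        · rcases h5 with h5 | h5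
          · subst h5
            simpa using h4
          · subst h5
            simpa using h4'
        · simp [h5]
    by_cases h6 : p ∈ S j ∧ p ∈ S j'
    · rw [if_pos h6, if_pos (h3.2 h6)]
    · rw [if_neg h6, if_neg (fun h7 => h6 (h3.1 h7))]
  have h8 : ∏ l : J, ((10 * E) ^ ((if l = j ∨ l = j' then ({p} : Finset ι) else ∅).card) *
      ∏ i ∈ (if l = j ∨ l = j' then ({p} : Finset ι) else ∅), q i) = (10 * E * q p) ^ 2 := by
    rw [← Finset.prod_subset (Finset.subset_univ ({j, j'} : Finset J))]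
    · rw [Finset.prod_pair hj]
      simp only [true_or, or_true, if_true, Finset.card_singleton, Finset.prod_singleton, pow_one]
      ring
    · intro l _ hl
      have hl' : ¬ (l = j ∨ l = j') := by
        simpa using hl
      simp [hl']
  rw [h2]
  refine h1.trans (le_of_eq ?_)
  rw [h8]

/-- the loss is bounded by indicators -/
theorem m2_loss {P : Finset ℕ} (K : ℕ) (S : J → Finset {p // p ∈ P}) (x : ℝ) (hx : 0 ≤ x) :
    x * loss P K S ≤
      (∑ c ∈ (univ : Finset (J × J)).filter (fun c => c.1 ≠ c.2), ∑ p : {p // p ∈ P},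
        (if p ∈ S c.1 ∧ p ∈ S c.2 then x else 0)) +
      ∑ j : J, ∑ p : {p // p ∈ P}, 2 * (K : ℝ) / (p.1 : ℝ) * (if p ∈ S j then x else 0) := by
  unfold loss
  rw [mul_add]
  apply add_le_add
  · by_cases hex : ∃ j j', j ≠ j' ∧ ¬ Disjoint (S j) (S j')
    · rw [if_pos hex, mul_one]
      obtain ⟨j, j', hjj, hd⟩ := hex
      rw [Finset.not_disjoint_iff] at hd
      obtain ⟨p, hp, hp'⟩ := hd
      have h0 : ∀ (c : J × J) (r : {p // p ∈ P}), 0 ≤ (if r ∈ S c.1 ∧ r ∈ S c.2 then x else 0) := by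
        intro c r
        split_ifs
        · exact hx
        · exact le_refl _
      have h1 : (∑ r : {p // p ∈ P}, (if r ∈ S j ∧ r ∈ S j' then x else 0)) ≤
          ∑ c ∈ (univ : Finset (J × J)).filter (fun c => c.1 ≠ c.2), ∑ p : {p // p ∈ P},
            (if p ∈ S c.1 ∧ p ∈ S c.2 then x else 0) :=
        Finset.single_le_sum
          (f := fun c : J × J => ∑ r : {p // p ∈ P}, (if r ∈ S c.1 ∧ r ∈ S c.2 then x else 0))
          (fun c _ => Finset.sum_nonneg fun r _ => h0 c r)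
          (Finset.mem_filter.2 ⟨Finset.mem_univ (j, j'), hjj⟩)
      have h2 : (if p ∈ S j ∧ p ∈ S j' then x else 0) ≤
          ∑ r : {p // p ∈ P}, (if r ∈ S j ∧ r ∈ S j' then x else 0) :=
        Finset.single_le_sum
          (f := fun r : {p // p ∈ P} => (if r ∈ S j ∧ r ∈ S j' then x else 0))
          (fun r _ => h0 (j, j') r) (Finset.mem_univ p)
      rw [if_pos ⟨hp, hp'⟩] at h2
      exact h2.trans h1
    · rw [if_neg hex, mul_zero]
      refine Finset.sum_nonneg fun c _ => Finset.sum_nonneg fun r _ => ?_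
      split_ifs
      · exact hx
      · exact le_refl _
  · rw [Finset.mul_sum]
    refine le_of_eq (Finset.sum_congr rfl fun j _ => ?_)
    rw [Finset.mul_sum, ← Finset.sum_filter_add_sum_filter_not univ (fun p => p ∈ S j)
      (fun p : {p // p ∈ P} => 2 * (K : ℝ) / (p.1 : ℝ) * (if p ∈ S j then x else 0))]
    have h1 : ∑ p ∈ (univ : Finset {p // p ∈ P}).filter (fun p => ¬ p ∈ S j),
        2 * (K : ℝ) / (p.1 : ℝ) * (if p ∈ S j then x else 0) = 0 := by
      refine Finset.sum_eq_zero fun p hp => ?_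
      rw [if_neg (Finset.mem_filter.1 hp).2, mul_zero]
    rw [h1, add_zero]
    have h2 : (univ : Finset {p // p ∈ P}).filter (fun p => p ∈ S j) = S j := by
      ext p
      simp
    rw [h2]
    refine Finset.sum_congr rfl fun p hp => ?_
    rw [if_pos hp]
    ring

/-- `loss S ≤ Σ_{j ≠ j'} Σ_p 1[p ∈ S j, p ∈ S j'] + Σ_j Σ_p (2K/p) 1[p ∈ S j]` (definition of `loss`
in `H15P.TR3`). By `EX_LL_sq_hit` with `T` = `{p}` at one or two places:
`EX (LL^2 1[p ∈ S j]) ≤ 10 E q_p Z`, `EX (LL^2 1[p ∈ S j, p ∈ S j']) ≤ (10E)^2 q_p^2 Z`, and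
`q_p ≤ 2/p` (`H15P.qq_le`), `|J| ≤ K`, `Σ 1/p^2 ≤ 1/W` (`H15P.sum_inv_sq_le`). Total
`≤ (K^2 100 E^2 · 4/W + K · 2K · 10 E · 2/W) Z ≤ 440 K^2 E^2/W · Z`. -/
theorem EX_loss_le {P : Finset ℕ} {W K M : ℕ} {b : J → ℕ} (hF : Forms P W K M b)
    (D : I → Finset {p // p ∈ P} → ℝ) (h : ℝ)
    (hg : Good (qq P K) D h) (E : ℝ) (hE : 1 ≤ E) (hI : 0 < Fintype.card I)
    (hit : ∀ i (T : Finset {p // p ∈ P}),
      ex (qq P K) (fun A => if T ⊆ A then D i A ^ 2 else 0) ≤
        4 * (E ^ T.card * ∏ p ∈ T, qq P K p)) (m : I → ℕ) (B : Finset J) :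
    EX (qq P K) (fun S : J → Finset {p // p ∈ P} => LL D m B S ^ 2 * loss P K S) ≤
      440 * E ^ 2 * (K : ℝ) ^ 2 / W * ZZ (qq P K) D B.card := by
  classical
  have hK1 : (1 : ℝ) ≤ K := by exact_mod_cast hF.one_le
  have hW1 : 1 ≤ W := by
    have := hF.KW
    have := hF.one_le
    nlinarith
  have hWr : (1 : ℝ) ≤ W := by exact_mod_cast hW1
  set Z := ZZ (qq P K) D B.card with hZ
  have hZ1 : 1 ≤ Z := one_le_ZZ _ _ _ hg _
  have hZ0 : 0 ≤ Z := by linarith
  have hE0 : 0 ≤ E := by linarith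
  have hp0 : ∀ i : {p // p ∈ P}, (0 : ℝ) < i.1 := by
    intro i
    have h1 := hF.big i.1 i.2
    have h2 : 0 < i.1 := by omega
    exact_mod_cast h2
  have hq0 : ∀ i, 0 ≤ qq P K i := hg.q0
  have hq2 : ∀ i, qq P K i ≤ 2 / (i.1 : ℝ) := fun i => qq_le P W K hF.one_le hF.KW hF.big i
  have hs0 := sum_inv_sq_le P W hW1 hF.big
  have hs : ∑ p : {p // p ∈ P}, 1 / ((p.1 : ℕ) : ℝ) ^ 2 ≤ 1 / (W : ℝ) := by
    refine le_trans (le_of_eq ?_) hs0
    rw [← Finset.sum_coe_sort P (fun p => 1 / ((p : ℕ) : ℝ) ^ 2)]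
  -- the two sums
  have hstep : EX (qq P K) (fun S : J → Finset {p // p ∈ P} => LL D m B S ^ 2 * loss P K S) ≤
      (∑ c ∈ (univ : Finset (J × J)).filter (fun c => c.1 ≠ c.2), ∑ p : {p // p ∈ P},
        EX (qq P K) (fun S : J → Finset {p // p ∈ P} =>
          if p ∈ S c.1 ∧ p ∈ S c.2 then LL D m B S ^ 2 else 0)) +
      ∑ j : J, ∑ p : {p // p ∈ P}, 2 * (K : ℝ) / (p.1 : ℝ) *
        EX (qq P K) (fun S : J → Finset {p // p ∈ P} => if p ∈ S j then LL D m B S ^ 2 else 0) := by
    refine (EX_mono (qq P K) hg.q0 hg.q1 _ _ (fun S => m2_loss K S _ (sq_nonneg _))).trans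
      (le_of_eq ?_)
    have hadd : ∀ F G : (J → Finset {p // p ∈ P}) → ℝ,
        EX (qq P K) (fun S => F S + G S) = EX (qq P K) F + EX (qq P K) G := by
      intro F G
      unfold EX
      rw [← Finset.sum_add_distrib]
      exact Finset.sum_congr rfl fun S _ => by rw [add_mul]
    rw [hadd, EX_sum, EX_sum]
    congr 1
    · refine Finset.sum_congr rfl fun c _ => ?_
      rw [EX_sum]
    · refine Finset.sum_congr rfl fun j _ => ?_
      rw [EX_sum]
      refine Finset.sum_congr rfl fun p _ => ?_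
      rw [EX_const_mul]
  have hA : (∑ c ∈ (univ : Finset (J × J)).filter (fun c => c.1 ≠ c.2), ∑ p : {p // p ∈ P},
        EX (qq P K) (fun S : J → Finset {p // p ∈ P} =>
          if p ∈ S c.1 ∧ p ∈ S c.2 then LL D m B S ^ 2 else 0)) ≤
      (K : ℝ) ^ 2 * (400 * E ^ 2 * Z * (1 / W)) := by
    have h1 : ∀ c ∈ (univ : Finset (J × J)).filter (fun c => c.1 ≠ c.2), (∑ p : {p // p ∈ P},
        EX (qq P K) (fun S : J → Finset {p // p ∈ P} =>
          if p ∈ S c.1 ∧ p ∈ S c.2 then LL D m B S ^ 2 else 0)) ≤ 400 * E ^ 2 * Z * (1 / W) := by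
      intro c hc
      have hc2 := (Finset.mem_filter.1 hc).2
      refine (Finset.sum_le_sum fun p _ => ?_ :
        _ ≤ ∑ p : {p // p ∈ P}, 400 * E ^ 2 * Z * (1 / ((p.1 : ℕ) : ℝ) ^ 2)).trans ?_
      · refine (m2_two (qq P K) D h hg E hE hI hit m B c.1 c.2 hc2 p).trans ?_
        have h2 : (10 * E * qq P K p) ^ 2 ≤ (10 * E * (2 / (p.1 : ℝ))) ^ 2 := by
          apply pow_le_pow_left₀
          · exact mul_nonneg (by positivity) (hq0 p)
          · exact mul_le_mul_of_nonneg_left (hq2 p) (by positivity)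
        have h3 := mul_le_mul_of_nonneg_right h2 hZ0
        refine h3.trans (le_of_eq ?_)
        have := (hp0 p).ne'
        field_simp
        ring
      · rw [← Finset.mul_sum]
        exact mul_le_mul_of_nonneg_left hs (by positivity)
    refine (Finset.sum_le_sum h1).trans ?_
    rw [Finset.sum_const, nsmul_eq_mul]
    apply mul_le_mul_of_nonneg_right _ (by positivity)
    have h4 : ((univ : Finset (J × J)).filter (fun c => c.1 ≠ c.2)).card ≤ K ^ 2 := by
      refine (Finset.card_le_univ _).trans ?_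
      rw [Fintype.card_prod]
      have := hF.card
      nlinarith
    exact_mod_cast h4
  have hB : ∑ j : J, ∑ p : {p // p ∈ P}, 2 * (K : ℝ) / (p.1 : ℝ) *
        EX (qq P K) (fun S : J → Finset {p // p ∈ P} => if p ∈ S j then LL D m B S ^ 2 else 0) ≤
      (K : ℝ) * (40 * K * E * Z * (1 / W)) := by
    have h1 : ∀ j ∈ (univ : Finset J), (∑ p : {p // p ∈ P}, 2 * (K : ℝ) / (p.1 : ℝ) *
        EX (qq P K) (fun S : J → Finset {p // p ∈ P} => if p ∈ S j then LL D m B S ^ 2 else 0)) ≤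
        40 * K * E * Z * (1 / W) := by
      intro j _
      refine (Finset.sum_le_sum fun p _ => ?_ :
        _ ≤ ∑ p : {p // p ∈ P}, 40 * K * E * Z * (1 / ((p.1 : ℕ) : ℝ) ^ 2)).trans ?_
      · have hc : 0 ≤ 2 * (K : ℝ) / (p.1 : ℝ) := by
          have := hp0 p
          positivity
        refine (mul_le_mul_of_nonneg_left
          (m2_one (qq P K) D h hg E hE hI hit m B j p) hc).trans ?_
        have h2 : 10 * E * qq P K p ≤ 10 * E * (2 / (p.1 : ℝ)) :=
          mul_le_mul_of_nonneg_left (hq2 p) (by positivity)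
        have h3 := mul_le_mul_of_nonneg_left (mul_le_mul_of_nonneg_right h2 hZ0) hc
        refine h3.trans (le_of_eq ?_)
        have := (hp0 p).ne'
        field_simp
        ring
      · rw [← Finset.mul_sum]
        exact mul_le_mul_of_nonneg_left hs (by positivity)
    refine (Finset.sum_le_sum h1).trans ?_
    rw [Finset.sum_const, nsmul_eq_mul]
    apply mul_le_mul_of_nonneg_right _ (by positivity)
    rw [Finset.card_univ]
    exact_mod_cast hF.card
  have hW0 : (0 : ℝ) < W := by linarith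
  have hfin : (K : ℝ) ^ 2 * (400 * E ^ 2 * Z * (1 / W)) + (K : ℝ) * (40 * K * E * Z * (1 / W)) ≤
      440 * E ^ 2 * (K : ℝ) ^ 2 / W * Z := by
    have h1 : E ≤ E ^ 2 := by nlinarith
    have h2 : 0 ≤ (K : ℝ) ^ 2 * Z * (1 / W) := by positivity
    have h3 := mul_le_mul_of_nonneg_right h1 h2
    have h4 : 440 * E ^ 2 * (K : ℝ) ^ 2 / W * Z = 440 * (E ^ 2 * ((K : ℝ) ^ 2 * Z * (1 / W))) := by
      ring
    rw [h4]
    nlinarith
  linarith

end Pool.Agent.Lib.H64T
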