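import Pool.Agent.Lib.H64T.Defs
import Pool.Agent.Lib.H15P.FIN0

/-!
# Chunk S1: the set of classes, small gaps (regime I)
-/

open Finset

namespace Pool.Agent.Lib.H64T

open Pool.Agent.Lib.H15P

theorem s1_prime_le {p y : ℕ} (hp : p.Prime) (h : p ∣ primorial y) : p ≤ y := by
  unfold primorial at h
  obtain ⟨q, hq, hpq⟩ := hp.prime.exists_mem_finset_dvd h
  rw [mem_filter, mem_range] at hq
  have h1 : p = q := (Nat.prime_dvd_prime_iff_eq hp hq.2).1 hpq
  omega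

/-- `y = ⌊L/8⌋`, `M = primorial y` (`fin0_primorial_le`, `exp (L/4) = x^(1/4)`), `A` = the `a < M`
with `#CC ≤ K`. By `card_bad_le` (`H ≤ lam L`, `K ≥ ℓ L/(2 L2)`, `log y ≥ L2/2`, `fin0_log_ge`) the
other classes are at most `H/(K log y) M ≤ (4 lam/ℓ) M ≤ (e/2) M`, so `(1 - e/2) M ≤ #A` and
`M ≤ (1 + e) #A`. `H ≤ lam L ≤ L^2 ≤ W`; the primes of `P` are `> W ≥ y`; `hY` from the hypothesis on
`w.lv`. -/
theorem setup_I (e : ℝ) (he : 0 < e) (he1 : e ≤ 1 / 10) : ∃ x0 : ℝ, ∀ x : ℝ, x0 ≤ x →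
    ∀ (w : WT) (ℓ : ℕ), w.e = e → w.W = ⌈Real.log x ^ 4⌉₊ →
      w.K = ⌊ℓ * Real.log x / Real.log (Real.log x)⌋₊ → 1 ≤ ℓ →
      (ℓ : ℝ) ≤ Real.log (Real.log x) → 4 * w.K * w.lv ^ 4 ≤ e * x ^ (1 / 4 : ℝ) →
      ∀ lam : ℝ, 1 ≤ lam → 8 * lam ≤ e * ℓ →
      ∃ (M : ℕ) (A : Finset ℕ),
        (∀ Y : ℕ, x ^ (1 / 4 : ℝ) ≤ Y → SetA w ⌊lam * Real.log x⌋₊ M A Y) ∧
        2 * (M : ℝ) ≤ x ^ (1 / 4 : ℝ) ∧ (∀ q, q.Prime → q ∣ M → (q : ℝ) ≤ Real.log x) ∧
        (M : ℝ) ≤ (1 + e) * A.card := by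
  classical
  refine ⟨Real.exp 100, fun x hx w ℓ hwe hwW hwK hℓ hℓ2 hlv lam hlam hlam2 => ?_⟩
  have hx0 : 0 < x := (Real.exp_pos _).trans_le hx
  set L := Real.log x with hLdef
  have hL100 : 100 ≤ L := by
    rw [hLdef, Real.le_log_iff_exp_le hx0]
    exact hx
  have hL0 : 0 < L := by linarith
  have hq : x ^ (1 / 4 : ℝ) = Real.exp (L / 4) := by
    rw [Real.rpow_def_of_pos hx0]
    congr 1
    ring
  set H : ℕ := ⌊lam * L⌋₊ with hH
  set y : ℕ := ⌊L / 8⌋₊ with hy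
  set M : ℕ := primorial y with hM
  have hMpos : 0 < M := primorial_pos y
  have hM0 : (0 : ℝ) < M := by exact_mod_cast hMpos
  have hy8 : (y : ℝ) ≤ L / 8 := Nat.floor_le (by positivity)
  have hy2 : 2 ≤ y := by
    rw [hy]
    apply Nat.le_floor
    push_cast
    linarith
  have hℓ0 : (1 : ℝ) ≤ ℓ := by exact_mod_cast hℓ
  have hlog : 0 < Real.log L := Real.log_pos (by linarith)
  have hlogL : Real.log L ≤ L := (Real.log_le_sub_one_of_pos hL0).trans (by linarith)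
  have hlamL : lam ≤ L := by nlinarith
  have hHle : (H : ℝ) ≤ lam * L := Nat.floor_le (by positivity)
  -- the bad classes
  have hbad := card_bad_le H w.K y hy2 w.Kpos
  have hK1 : (1 : ℝ) ≤ w.K := by exact_mod_cast w.Kpos
  have hKL : ℓ * L / Real.log L ≤ 2 * w.K := by
    have h2 : ℓ * L / Real.log L < w.K + 1 := by
      rw [hwK]
      exact Nat.lt_floor_add_one _
    linarith
  have hly : Real.log L / 2 ≤ Real.log (y : ℝ) := fin0_log_ge L hL100
  rw [div_le_iff₀ hlog] at hKL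
  have h4 : ℓ * L / 4 ≤ w.K * Real.log (y : ℝ) := by
    calc ℓ * L / 4 ≤ 2 * w.K * Real.log L / 4 := by linarith
      _ = w.K * (Real.log L / 2) := by ring
      _ ≤ w.K * Real.log (y : ℝ) := mul_le_mul_of_nonneg_left hly (by linarith)
  have h5 : 0 < w.K * Real.log (y : ℝ) := lt_of_lt_of_le (by positivity) h4
  have h6 : (H : ℝ) / (w.K * Real.log y) ≤ e / 2 := by
    rw [div_le_iff₀ h5]
    have h7 : e / 2 * (ℓ * L / 4) ≤ e / 2 * (w.K * Real.log (y : ℝ)) :=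
      mul_le_mul_of_nonneg_left h4 (by positivity)
    have h8 : lam * L ≤ e / 2 * (ℓ * L / 4) := by
      have h9 := mul_le_mul_of_nonneg_right hlam2 hL0.le
      linarith
    linarith
  have h7 : (((range M).filter (fun a => w.K < (CC H M a).card)).card : ℝ) ≤ e / 2 * M :=
    hbad.trans (mul_le_mul_of_nonneg_right h6 hM0.le)
  set A : Finset ℕ := (range M).filter (fun a => ¬ w.K < (CC H M a).card) with hA
  have h8 : ((range M).filter (fun a => w.K < (CC H M a).card)).card + A.card = M := by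
    rw [hA, Finset.card_filter_add_card_filter_not, card_range]
  have h9 : (((range M).filter (fun a => w.K < (CC H M a).card)).card : ℝ) + A.card = M := by
    exact_mod_cast h8
  have h10 : (M : ℝ) ≤ (1 + e) * A.card := by
    have h11 : (1 - e / 2) * M ≤ A.card := by linarith
    have h12 : (1 + e) * ((1 - e / 2) * M) ≤ (1 + e) * A.card :=
      mul_le_mul_of_nonneg_left h11 (by linarith)
    have h13 : (M : ℝ) ≤ (1 + e) * ((1 - e / 2) * M) := by
      have h14 : (1 : ℝ) ≤ (1 + e) * (1 - e / 2) := by nlinarith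
      calc (M : ℝ) = 1 * M := (one_mul _).symm
        _ ≤ ((1 + e) * (1 - e / 2)) * M := mul_le_mul_of_nonneg_right h14 hM0.le
        _ = _ := by ring
    linarith
  have hne : A.Nonempty := by
    rw [nonempty_iff_ne_empty]
    intro h
    rw [h, card_empty, Nat.cast_zero, mul_zero] at h10
    linarith
  have hL4 : L ≤ L ^ 4 := le_self_pow₀ (by linarith) (by norm_num)
  have hL24 : L ^ 2 ≤ L ^ 4 := pow_le_pow_right₀ (by linarith) (by norm_num)
  refine ⟨M, A, fun Y hY => ⟨hMpos, ?_, hne, ?_, ?_, ?_, ?_⟩, ?_, ?_, h10⟩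
  · intro a ha
    exact mem_range.1 (mem_filter.1 ha).1
  · intro p hp hpM
    have h1 := s1_prime_le (w.prime p hp) hpM
    have h2 := w.big p hp
    have h3 : (y : ℝ) ≤ (⌈L ^ 4⌉₊ : ℝ) := by
      have h4 : L ^ 4 ≤ (⌈L ^ 4⌉₊ : ℝ) := Nat.le_ceil _
      linarith
    have h4 : y ≤ ⌈L ^ 4⌉₊ := by exact_mod_cast h3
    rw [hwW] at h2
    omega
  · intro a ha
    exact not_lt.1 (mem_filter.1 ha).2
  · rw [hwW]
    have h1 : (H : ℝ) ≤ (⌈L ^ 4⌉₊ : ℝ) := by
      have h4 : L ^ 4 ≤ (⌈L ^ 4⌉₊ : ℝ) := Nat.le_ceil _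
      have h5 : lam * L ≤ L ^ 2 := by nlinarith
      linarith
    exact_mod_cast h1
  · rw [hwe]
    exact hlv.trans (mul_le_mul_of_nonneg_left hY he.le)
  · rw [hq]
    exact fin0_primorial_le L (by linarith)
  · intro q hq1 hqM
    have h1 := s1_prime_le hq1 hqM
    have h2 : (q : ℝ) ≤ y := by exact_mod_cast h1
    linarith

end Pool.Agent.Lib.H64T
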