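import Pool.Agent.Lib.H64T.Defs

/-!
# Chunk T1: the exponent, regime I
-/

open Finset

namespace Pool.Agent.Lib.H64T

/-- For `0 ≤ u ≤ 1`: `2 u ≤ mm u ≤ 3 u` (`2.77 ≤ log 16 ≤ log (16 + u) ≤ log 17 ≤ 2.84`,
`1 ≤ loglog 16`, `loglog 17 ≤ 1.1`). For all `u ≥ 0`: `2 u ≤ mm u`: with `s = log (16 + u)`,
`s/log s ≥ e ≥ 2` (`log s ≤ s/e`). -/
theorem mm_bounds (u : ℝ) (hu : 0 ≤ u) : 2 * u ≤ mm u ∧ (u ≤ 1 → mm u ≤ 3 * u) := by
  have hl2 := Real.log_two_gt_d9
  have hl2' := Real.log_two_lt_d9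
  have he := Real.exp_one_lt_d9
  have h16 : Real.log 16 = 4 * Real.log 2 := by
    rw [show (16 : ℝ) = 2 ^ 4 by norm_num, Real.log_pow]
    norm_num
  have hs1 : Real.log 16 ≤ Real.log (16 + u) := Real.log_le_log (by norm_num) (by linarith)
  obtain ⟨s, hs⟩ : ∃ s, s = Real.log (16 + u) := ⟨_, rfl⟩
  have hmm : mm u = u * s / Real.log s := by
    unfold mm
    rw [hs]
  rw [← hs] at hs1
  have hs2 : 2.7725 < s := by linarith
  have hls : 1 < Real.log s := by
    rw [Real.lt_log_iff_exp_lt (by linarith)]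
    linarith
  rw [hmm]
  constructor
  · rw [le_div_iff₀ (by linarith)]
    have h1 : Real.log (s / 2) ≤ s / 2 - 1 := Real.log_le_sub_one_of_pos (by linarith)
    rw [Real.log_div (by linarith) (by norm_num)] at h1
    have h2 : 2 * Real.log s ≤ s := by linarith
    nlinarith
  · intro hu1
    rw [div_le_iff₀ (by linarith)]
    have h1 : Real.log (16 + u) ≤ 3 := by
      rw [Real.log_le_iff_le_exp (by linarith)]
      have h2 : Real.exp 3 = Real.exp 1 ^ 3 := by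
        rw [← Real.exp_nat_mul]
        norm_num
      rw [h2]
      have h3 : (2.7 : ℝ) ≤ Real.exp 1 := by
        have := Real.exp_one_gt_d9
        linarith
      have h4 : (2.7 : ℝ) ^ 3 ≤ Real.exp 1 ^ 3 := pow_le_pow_left₀ (by norm_num) h3 3
      have h5 : (17 : ℝ) ≤ 2.7 ^ 3 := by norm_num
      linarith
    rw [← hs] at h1
    have h2 : s ≤ 3 * Real.log s := by linarith
    nlinarith

/-- `u = lam/L2 ≤ c2 = 1/(2B)`, `m = mm u ≥ 2u`. `t/(1+t)` is increasing, so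
`L2 th ≥ L2 2Cu/(1 + 2Cu)`, and this is `≥ B lam = B u L2` iff `2C ≥ B + 2 B C u`, which holds as
`2 B u ≤ 1` and `C ≥ B`. -/
theorem th_I (B : ℝ) (hB : 0 < B) (C : ℝ) (hC : B ≤ C) (x : ℝ) (hx1 : 0 < Real.log x)
    (hx : 0 < Real.log (Real.log x))
    (lam : ℝ) (hl : 0 ≤ lam) (hlam : 2 * B * lam ≤ Real.log (Real.log x)) :
    Real.exp (B * lam) ≤ Real.log x ^ th C lam x := by
  obtain ⟨L, hL⟩ : ∃ L, L = Real.log (Real.log x) := ⟨_, rfl⟩
  rw [← hL] at hx hlam
  have hth : th C lam x = C * mm (lam / L) / (1 + C * mm (lam / L)) := by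
    unfold th
    rw [hL]
  have hu : 0 ≤ lam / L := div_nonneg hl hx.le
  have hC0 : 0 < C := lt_of_lt_of_le hB hC
  obtain ⟨u, hu'⟩ : ∃ u, u = lam / L := ⟨_, rfl⟩
  rw [← hu'] at hu hth
  have hm := (mm_bounds u hu).1
  have hlamu : lam = u * L := by
    rw [hu']
    field_simp
  rw [Real.rpow_def_of_pos hx1, ← hL, Real.exp_le_exp, hth, mul_div_assoc', le_div_iff₀ (by nlinarith)]
  have hm0 : 0 ≤ mm u := le_trans (by linarith) hm
  -- B lam (1 + C m) ≤ L C m
  rw [hlamu]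
  rw [hlamu] at hlam
  have h1 : 2 * B * u ≤ 1 := by
    by_contra hcon
    push Not at hcon
    nlinarith
  -- B u (1 + C m) ≤ C m
  have h2 : B * u * (1 + C * mm u) ≤ C * mm u := by
    have h3 : B * u * (C * mm u) ≤ 1 / 2 * (C * mm u) :=
      mul_le_mul_of_nonneg_right (by linarith) (by positivity)
    have h4 : B * u ≤ C * u := mul_le_mul_of_nonneg_right hC hu
    have h5 : C * (2 * u) ≤ C * mm u := mul_le_mul_of_nonneg_left hm hC0.le
    linarith
  calc B * (u * L) * (1 + C * mm u) = L * (B * u * (1 + C * mm u)) := by ring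
    _ ≤ L * (C * mm u) := mul_le_mul_of_nonneg_left h2 hx.le

end Pool.Agent.Lib.H64T
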