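import Pool.Agent.Lib.H64T.Q0
import Pool.Agent.Lib.H64T.S1
import Pool.Agent.Lib.H64T.T1

/-!
# Chunk Q1A: weights and classes in regime I
-/

open Finset

namespace Pool.Agent.Lib.H64T

open Pool.Agent.Lib.H15P

/-- `ℓ = ⌈8 lam/e⌉ ≤ (8/e + 1) lam`, `B = C1 (8/e + 1) + 10 + log (16 + |G|)`,
`c2 = min (1/(2B)) (c1/(8/e + 1))`. Let `T = L^th ≥ exp (B lam)` (`th_I`, for every `C ≥ B`). Weight
`w` from `EW`; `setup_I`; `w.C (M/#A) ≤ exp (exp (C1 ℓ)) (1 + e) ≤ exp (exp (C1 ℓ) + 1)`, and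
`exp (C1 ℓ) + 1 ≤ 2 exp (C1 (8/e+1) lam) ≤ exp (B lam)/8`. `lam ≤ exp (exp (B lam)/8)` and
`G ≤ exp B ≤ exp (B lam)`. The primes of `M` are `≤ L ≤ x^(1/4)` for large `x`; `ℓ ≤ c1 L2 ≤ L2`. -/
theorem exists_Q_I (e : ℝ) (he : 0 < e) (he1 : e ≤ 1 / 10) (G c1 C1 : ℝ) (hc1 : 0 < c1)
    (hc11 : c1 ≤ 1) (hC1 : 0 < C1) : ∃ B c2 : ℝ, 0 < B ∧ 0 < c2 ∧ ∀ C : ℝ, B ≤ C →
    ∃ x0 : ℝ, ∀ x : ℝ, x0 ≤ x → EW e c1 C1 x → ∀ lam : ℝ, 1 ≤ lam →
      lam ≤ c2 * Real.log (Real.log x) →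
      G ≤ Real.log x ^ th C lam x ∧
      ∃ (w : WT) (M : ℕ) (A : Finset ℕ), QD e x lam (Real.log x ^ th C lam x) w M A := by
  obtain ⟨x1, hset⟩ := setup_I e he he1
  have hG0 : 0 ≤ |G| := abs_nonneg G
  have hlG : 0 ≤ Real.log (16 + |G|) := Real.log_nonneg (by linarith)
  have h8e : 0 < 8 / e + 1 := by positivity
  obtain ⟨B, hBd⟩ : ∃ B : ℝ, B = C1 * (8 / e + 1) + 10 + Real.log (16 + |G|) := ⟨_, rfl⟩
  have hB10 : 10 ≤ B := by
    have h1 : 0 ≤ C1 * (8 / e + 1) := by positivity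
    linarith
  have hB0 : 0 < B := by linarith
  refine ⟨B, min (1 / (2 * B)) (c1 / (8 / e + 1)), hB0, lt_min (by positivity) (by positivity), fun C hC =>
    ⟨max x1 (Real.exp 100), fun x hx hEW lam hlam1 hlam2 => ?_⟩⟩
  have hx100 : Real.exp 100 ≤ x := (le_max_right _ _).trans hx
  have hx0 : 0 < x := (Real.exp_pos _).trans_le hx100
  have hL100 : 100 ≤ Real.log x := by
    rw [Real.le_log_iff_exp_le hx0]
    exact hx100
  have hL0 : 0 < Real.log x := by linarith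
  have hL2 : 0 < Real.log (Real.log x) := Real.log_pos (by linarith)
  have hlam0 : 0 < lam := by linarith
  have hc2a : lam ≤ 1 / (2 * B) * Real.log (Real.log x) :=
    hlam2.trans (mul_le_mul_of_nonneg_right (min_le_left _ _) hL2.le)
  have hc2b : lam ≤ c1 / (8 / e + 1) * Real.log (Real.log x) :=
    hlam2.trans (mul_le_mul_of_nonneg_right (min_le_right _ _) hL2.le)
  have h2B : 2 * B * lam ≤ Real.log (Real.log x) := by
    have h1 := mul_le_mul_of_nonneg_left hc2a (by positivity : 0 ≤ 2 * B)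
    have h2 : 2 * B * (1 / (2 * B) * Real.log (Real.log x)) = Real.log (Real.log x) := by
      field_simp
    linarith
  have hT := th_I B hB0 C hC x hL0 hL2 lam hlam0.le h2B
  obtain ⟨T, hTd⟩ : ∃ T : ℝ, T = Real.log x ^ th C lam x := ⟨_, rfl⟩
  rw [← hTd] at hT ⊢
  -- the number `ℓ`
  obtain ⟨ℓ, hℓd⟩ : ∃ ℓ : ℕ, ℓ = ⌈8 * lam / e⌉₊ := ⟨_, rfl⟩
  have hℓge : 8 * lam ≤ e * ℓ := by
    have h1 : 8 * lam / e ≤ (ℓ : ℝ) := by
      rw [hℓd]
      exact Nat.le_ceil _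
    rw [div_le_iff₀ he] at h1
    linarith
  have hℓle : (ℓ : ℝ) ≤ (8 / e + 1) * lam := by
    have h1 : (ℓ : ℝ) < 8 * lam / e + 1 := by
      rw [hℓd]
      exact Nat.ceil_lt_add_one (by positivity)
    have h2 : 8 * lam / e = 8 / e * lam := by ring
    rw [h2] at h1
    linarith
  have hℓ1 : 1 ≤ ℓ := by
    have h1 : (0 : ℝ) < ℓ := by
      by_contra hcon
      push Not at hcon
      have h2 : e * ℓ ≤ 0 := mul_nonpos_of_nonneg_of_nonpos he.le hcon
      linarith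
    exact_mod_cast h1
  have hℓc1 : (ℓ : ℝ) ≤ c1 * Real.log (Real.log x) := by
    have h1 := mul_le_mul_of_nonneg_left hc2b h8e.le
    have h2 : (8 / e + 1) * (c1 / (8 / e + 1) * Real.log (Real.log x)) = c1 * Real.log (Real.log x) := by
      rw [← mul_assoc, mul_div_cancel₀ _ h8e.ne']
    linarith
  have hℓL2 : (ℓ : ℝ) ≤ Real.log (Real.log x) := by
    have h1 : c1 * Real.log (Real.log x) ≤ 1 * Real.log (Real.log x) := mul_le_mul_of_nonneg_right hc11 hL2.le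
    linarith
  obtain ⟨w, hwe, hwW, hwK, hwX, hwC, hwP, hwlv⟩ := hEW ℓ hℓ1 hℓc1
  obtain ⟨M, A, hA1, hA2, hA3, hA4⟩ := hset x ((le_max_left _ _).trans hx) w ℓ hwe hwW hwK hℓ1 hℓL2 hwlv lam hlam1 hℓge
  -- sizes
  have hBl : B ≤ B * lam := le_mul_of_one_le_right hB0.le hlam1
  have hC1ℓ : C1 * ℓ ≤ (B - 10) * lam := by
    have h1 := mul_le_mul_of_nonneg_left hℓle hC1.le
    have h2 : (B - 10) * lam = C1 * ((8 / e + 1) * lam) + Real.log (16 + |G|) * lam := by
      rw [hBd]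
      ring
    have h3 : 0 ≤ Real.log (16 + |G|) * lam := by positivity
    linarith
  have hexp : Real.exp (C1 * ℓ) + 1 ≤ T / 8 := by
    have h1 : Real.exp (C1 * ℓ) ≤ Real.exp ((B - 10) * lam) := Real.exp_le_exp.2 hC1ℓ
    have h2 : 1 ≤ Real.exp ((B - 10) * lam) := by
      rw [← Real.exp_zero]
      apply Real.exp_le_exp.2
      have h3 : 0 ≤ B - 10 := by linarith
      positivity
    have h3 : Real.exp (B * lam) = Real.exp ((B - 10) * lam) * Real.exp (10 * lam) := by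
      rw [← Real.exp_add]
      congr 1
      ring
    have h4 : 16 ≤ Real.exp (10 * lam) := by
      have h5 := Real.quadratic_le_exp_of_nonneg (x := 10 * lam) (by positivity)
      nlinarith
    have h5 : Real.exp ((B - 10) * lam) * 16 ≤ Real.exp (B * lam) := by
      rw [h3]
      exact mul_le_mul_of_nonneg_left h4 (Real.exp_pos _).le
    linarith
  have hT10 : 1 + 10 * lam ≤ T := by
    have h1 := Real.add_one_le_exp (B * lam)
    have h2 : 10 * lam ≤ B * lam := mul_le_mul_of_nonneg_right hB10 hlam0.le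
    linarith
  have hMA : (M : ℝ) / A.card ≤ 1 + e := by
    rcases Nat.eq_zero_or_pos A.card with h | h
    · rw [h, Nat.cast_zero, div_zero]
      linarith
    · rw [div_le_iff₀ (by exact_mod_cast h)]
      exact hA4
  have hLx : Real.log x ≤ x ^ (1 / 4 : ℝ) := by
    have hq : x ^ (1 / 4 : ℝ) = Real.exp (Real.log x / 4) := by
      rw [Real.rpow_def_of_pos hx0]
      congr 1
      ring
    rw [hq]
    have h5 := Real.quadratic_le_exp_of_nonneg (x := Real.log x / 4) (by positivity)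
    nlinarith
  refine ⟨?_, w, M, A, hwe, hwX, hA1, hA2, hwP, fun q hq hqM => (hA3 q hq hqM).trans hLx, ?_, Or.inl hA4, ?_⟩
  · have h1 : Real.exp (Real.log (16 + |G|)) = 16 + |G| := Real.exp_log (by linarith)
    have h2 : Real.exp (Real.log (16 + |G|)) ≤ Real.exp (B * lam) := by
      apply Real.exp_le_exp.2
      have h3 : 0 ≤ C1 * (8 / e + 1) := by positivity
      linarith
    have h3 : G ≤ |G| := le_abs_self G
    linarith
  · have h1 : w.C * ((M : ℝ) / A.card) ≤ Real.exp (Real.exp (C1 * ℓ)) * (1 + e) :=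
      mul_le_mul hwC hMA (by positivity) (Real.exp_pos _).le
    have h2 : 1 + e ≤ Real.exp 1 := by
      have := Real.add_one_le_exp (1 : ℝ)
      linarith
    refine h1.trans ?_
    calc Real.exp (Real.exp (C1 * ℓ)) * (1 + e) ≤ Real.exp (Real.exp (C1 * ℓ)) * Real.exp 1 :=
          mul_le_mul_of_nonneg_left h2 (Real.exp_pos _).le
      _ = Real.exp (Real.exp (C1 * ℓ) + 1) := (Real.exp_add _ _).symm
      _ ≤ Real.exp (T / 8) := Real.exp_le_exp.2 hexp
  · have h1 := Real.add_one_le_exp (T / 8)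
    linarith

end Pool.Agent.Lib.H64T
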