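import Pool.Agent.Lib.H64T.E2
import Pool.Agent.Lib.H64T.Defs

/-!
# Chunk S2: one Erdős-Rankin class, large gaps (regime II)
-/

open Finset

namespace Pool.Agent.Lib.H64T

open Pool.Agent.Lib.H15P

theorem s2_dvd {q y : ℕ} (hq : q.Prime) (h : q ∣ primorial y) : q ≤ y := by
  unfold primorial at h
  rw [Prime.dvd_finsetProd_iff hq.prime] at h
  obtain ⟨r, hr, hr2⟩ := h
  rw [mem_filter, mem_range] at hr
  have := Nat.le_of_dvd hr.2.pos hr2
  omega

/-- `er_general` with `c0 = c1/4`, `H = ⌊lam L⌋ ≥ L/2`, `M = primorial y`, `y = ⌊L^(1 - 1/a)⌋`,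
`A = {r}`: `CC H M r = {h ≤ H : (r + h, M) = 1}` has at most `(c1/4) L ≤ K` elements.
`M ≤ 4^y ≤ exp (2 L^(1 - 1/a))` (`primorial_le_4_pow`, `log 4 ≤ 2`), and `L^(1/a) ≥ L2`
(`a ≤ L2/L3`), so `L^(1 - 1/a) ≤ L/L2` and `2 M ≤ x^(1/4)`. `H ≤ c3 L L2 a ≤ L^4 ≤ W` (`loglog a ≤ log a`,
`a ≤ L2`). The primes of `M` are `≤ y ≤ L ≤ W`. -/
theorem setup_II (e c1 : ℝ) (he : 0 < e) (hc1 : 0 < c1) : ∃ c3 x0 : ℝ, 0 < c3 ∧ ∀ x : ℝ,
    x0 ≤ x → ∀ w : WT, w.e = e → w.W = ⌈Real.log x ^ 4⌉₊ → c1 / 4 * Real.log x ≤ w.K →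
      4 * w.K * w.lv ^ 4 ≤ e * x ^ (1 / 4 : ℝ) →
      ∀ a : ℝ, 16 ≤ a → a ≤ Real.log (Real.log x) / Real.log (Real.log (Real.log x)) →
      ∀ lam : ℝ, 1 ≤ lam →
      lam ≤ c3 * Real.log (Real.log x) * (a * Real.log (Real.log a) / Real.log a) →
      ∃ (M : ℕ) (A : Finset ℕ),
        (∀ Y : ℕ, x ^ (1 / 4 : ℝ) ≤ Y → SetA w ⌊lam * Real.log x⌋₊ M A Y) ∧
        2 * (M : ℝ) ≤ x ^ (1 / 4 : ℝ) ∧ (∀ q, q.Prime → q ∣ M → (q : ℝ) ≤ Real.log x) ∧
        (M : ℝ) ≤ Real.exp (2 * Real.log x ^ (1 - 1 / a)) ∧ A.card = 1 := by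
  obtain ⟨c3, x0, hc3, her⟩ := er_general (c1 / 4) (by positivity)
  refine ⟨c3, max x0 (Real.exp (max c3 (Real.exp 16))), hc3, ?_⟩
  intro x hx w hwe hwW hwK hwlv a ha1 ha2 lam hlam1 hlam2
  have hxx0 : x0 ≤ x := (le_max_left _ _).trans hx
  have hx1 : Real.exp (max c3 (Real.exp 16)) ≤ x := (le_max_right _ _).trans hx
  have hx0 : 0 < x := (Real.exp_pos _).trans_le hx1
  obtain ⟨L, hL⟩ : ∃ L, L = Real.log x := ⟨_, rfl⟩
  obtain ⟨L2, hL2⟩ : ∃ L2, L2 = Real.log L := ⟨_, rfl⟩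
  obtain ⟨L3, hL3⟩ : ∃ L3, L3 = Real.log L2 := ⟨_, rfl⟩
  have hLmax : max c3 (Real.exp 16) ≤ L := by
    rw [hL, Real.le_log_iff_exp_le hx0]
    exact hx1
  have hLc : c3 ≤ L := (le_max_left _ _).trans hLmax
  have hL16 : Real.exp 16 ≤ L := (le_max_right _ _).trans hLmax
  have hLpos : 0 < L := (Real.exp_pos _).trans_le hL16
  have hL2ge : 16 ≤ L2 := by
    rw [hL2, Real.le_log_iff_exp_le hLpos]
    exact hL16
  have hL17 : 17 ≤ L := by
    have := Real.add_one_le_exp (16 : ℝ)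
    linarith
  have hL3ge : 1 ≤ L3 := by
    have h1 : Real.log 16 ≤ L3 := by
      rw [hL3]
      exact Real.log_le_log (by norm_num) hL2ge
    have h2 : Real.log 16 = 4 * Real.log 2 := by
      rw [show (16 : ℝ) = 2 ^ 4 by norm_num, Real.log_pow]
      norm_num
    have h3 := Real.log_two_gt_d9
    linarith
  have hL2L : L2 ≤ L := by
    rw [hL2]
    exact (Real.log_le_sub_one_of_pos hLpos).trans (by linarith)
  have hher := her x hxx0 a ha1 ha2
  rw [← hL] at ha2 hlam2 hwW hwK hher ⊢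
  rw [← hL2] at ha2 hlam2 hher
  rw [← hL3] at ha2
  have ha0 : 0 < a := by linarith
  have haL3 : a * L3 ≤ L2 := by
    rwa [le_div_iff₀ (by linarith)] at ha2
  have haL2 : a ≤ L2 := by nlinarith
  have hla : 1 ≤ Real.log a := by
    have h1 : Real.log 16 ≤ Real.log a := Real.log_le_log (by norm_num) ha1
    have h2 : Real.log 16 = 4 * Real.log 2 := by
      rw [show (16 : ℝ) = 2 ^ 4 by norm_num, Real.log_pow]
      norm_num
    have h3 := Real.log_two_gt_d9
    linarith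
  have hg : a * Real.log (Real.log a) / Real.log a ≤ L2 := by
    refine le_trans ?_ haL2
    rw [div_le_iff₀ (by linarith)]
    have h1 : Real.log (Real.log a) ≤ Real.log a :=
      (Real.log_le_sub_one_of_pos (by linarith)).trans (by linarith)
    exact mul_le_mul_of_nonneg_left h1 ha0.le
  have hlamL : lam * L ≤ c3 * L * L2 * (a * Real.log (Real.log a) / Real.log a) := by
    have := mul_le_mul_of_nonneg_right hlam2 hLpos.le
    linarith
  have hlam0 : 0 ≤ lam * L := by positivity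
  have hHle : ((⌊lam * L⌋₊ : ℕ) : ℝ) ≤ lam * L := Nat.floor_le hlam0
  have hHge : L / 2 ≤ ((⌊lam * L⌋₊ : ℕ) : ℝ) := by
    have h1 := Nat.lt_floor_add_one (lam * L)
    have h2 : L ≤ lam * L := le_mul_of_one_le_left hLpos.le hlam1
    linarith
  obtain ⟨r, hr, hcard⟩ := hher ⌊lam * L⌋₊ hHge (hHle.trans hlamL)
  obtain ⟨y, hy⟩ : ∃ y : ℕ, y = ⌊L ^ (1 - 1 / a)⌋₊ := ⟨_, rfl⟩
  rw [← hy] at hr hcard
  have hexp0 : 0 < L ^ (1 - 1 / a) := Real.rpow_pos_of_pos hLpos _
  have hyle : (y : ℝ) ≤ L ^ (1 - 1 / a) := by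
    rw [hy]
    exact Nat.floor_le hexp0.le
  have hexp1 : L ^ (1 - 1 / a) ≤ L / 16 := by
    have h1 : L ^ (1 - 1 / a) = L / L ^ (1 / a) := by
      rw [Real.rpow_sub hLpos, Real.rpow_one]
    have h2 : L2 ≤ L ^ (1 / a) := by
      have h3 : L ^ (1 / a) = Real.exp (L2 / a) := by
        rw [Real.rpow_def_of_pos hLpos, ← hL2]
        congr 1
        ring
      have h4 : L2 = Real.exp L3 := by
        rw [hL3, Real.exp_log (by linarith)]
      rw [h3, h4, Real.exp_le_exp, ← h4, le_div_iff₀ ha0]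
      linarith
    rw [h1]
    exact div_le_div_of_nonneg_left hLpos.le (by norm_num) (by linarith)
  have hyL : (y : ℝ) ≤ L := by linarith
  have hM : ((primorial y : ℕ) : ℝ) ≤ Real.exp (2 * L ^ (1 - 1 / a)) := by
    have h1 : ((primorial y : ℕ) : ℝ) ≤ (4 : ℝ) ^ y := by exact_mod_cast primorial_le_four_pow y
    have h2 : (4 : ℝ) ^ y = Real.exp (y * Real.log 4) := by
      rw [mul_comm, Real.exp_mul, Real.exp_log (by norm_num), Real.rpow_natCast]
    have h3 : Real.log 4 ≤ 2 := by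
      have h4 : Real.log 4 = 2 * Real.log 2 := by
        rw [show (4 : ℝ) = 2 ^ 2 by norm_num, Real.log_pow]
        norm_num
      have h5 := Real.log_two_lt_d9
      linarith
    refine h1.trans ?_
    rw [h2, Real.exp_le_exp]
    have h6 : (y : ℝ) * Real.log 4 ≤ y * 2 := mul_le_mul_of_nonneg_left h3 (Nat.cast_nonneg y)
    linarith
  have hx4 : x ^ (1 / 4 : ℝ) = Real.exp (L / 4) := by
    rw [Real.rpow_def_of_pos hx0, ← hL]
    congr 1
    ring
  refine ⟨primorial y, {r}, ?_, ?_, ?_, hM, Finset.card_singleton r⟩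
  · intro Y hY
    refine ⟨primorial_pos y, ?_, Finset.singleton_nonempty r, ?_, ?_, ?_, ?_⟩
    · intro b hb
      rw [Finset.mem_singleton] at hb
      rw [hb]
      exact hr
    · intro p hp hd
      have h1 := s2_dvd (w.prime p hp) hd
      have h2 := w.big p hp
      rw [hwW] at h2
      have h3 : L ≤ L ^ 4 := by
        calc L = L ^ 1 := (pow_one L).symm
          _ ≤ L ^ 4 := pow_le_pow_right₀ (by linarith) (by norm_num)
      have h4 := Nat.le_ceil (L ^ 4)
      have h5 : ((⌈L ^ 4⌉₊ : ℕ) : ℝ) < p := by exact_mod_cast h2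
      have h6 : (p : ℝ) ≤ y := by exact_mod_cast h1
      linarith
    · intro b hb
      rw [Finset.mem_singleton] at hb
      rw [hb]
      have h1 := hcard.trans hwK
      exact_mod_cast h1
    · rw [hwW]
      have h1 : lam * L ≤ L ^ 4 := by
        have h2 : c3 * L * L2 * (a * Real.log (Real.log a) / Real.log a) ≤ L * L * L * L := by
          have h3 : 0 ≤ c3 * L * L2 := by positivity
          have h4 := mul_le_mul_of_nonneg_left (hg.trans hL2L) h3
          have h5 : c3 * L * L2 ≤ L * L * L := by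
            have h6 := mul_le_mul_of_nonneg_right hLc hLpos.le
            exact mul_le_mul h6 hL2L (by linarith) (by positivity)
          exact h4.trans (mul_le_mul_of_nonneg_right h5 hLpos.le)
        have h7 : L ^ 4 = L * L * L * L := by ring
        rw [h7]
        exact hlamL.trans h2
      have h2 := (hHle.trans h1).trans (Nat.le_ceil (L ^ 4))
      exact_mod_cast h2
    · rw [hwe]
      exact hwlv.trans (mul_le_mul_of_nonneg_left hY he.le)
  · rw [hx4]
    have h1 : Real.exp (2 * L ^ (1 - 1 / a)) ≤ Real.exp (L / 8) := by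
      rw [Real.exp_le_exp]
      linarith
    have h2 : (2 : ℝ) ≤ Real.exp (L / 8) := by
      have := Real.add_one_le_exp (L / 8)
      linarith
    have h3 : Real.exp (L / 4) = Real.exp (L / 8) * Real.exp (L / 8) := by
      rw [← Real.exp_add]
      congr 1
      ring
    rw [h3]
    exact mul_le_mul h2 (hM.trans h1) (Nat.cast_nonneg _) (Real.exp_pos _).le
  · intro q hq hd
    have h1 := s2_dvd hq hd
    have h2 : (q : ℝ) ≤ y := by exact_mod_cast h1
    linarith

end Pool.Agent.Lib.H64T
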