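import Pool.Agent.Lib.H64T.Defs

/-!
# Chunk T2A: the function `mm` at the top
-/

open Finset

namespace Pool.Agent.Lib.H64T

/-- `s/log s ≤ t/log t` for `e ≤ s ≤ t` (derivative `(log s - 1)/(log s)^2 ≥ 0`; or `log t/log s ≤
t/s` from `log (t/s) ≤ t/s - 1` and `log s ≥ 1`). -/
theorem t2a_mono (s t : ℝ) (hs : Real.exp 1 ≤ s) (hst : s ≤ t) :
    s / Real.log s ≤ t / Real.log t := by
  have hs0 : 0 < s := lt_of_lt_of_le (Real.exp_pos 1) hs
  have ht0 : 0 < t := lt_of_lt_of_le hs0 hst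
  have h1 : 1 ≤ Real.log s := (Real.le_log_iff_exp_le hs0).2 hs
  have h2 : Real.log s ≤ Real.log t := Real.log_le_log hs0 hst
  have h3 : Real.log (t / s) ≤ t / s - 1 := Real.log_le_sub_one_of_pos (div_pos ht0 hs0)
  rw [Real.log_div ht0.ne' hs0.ne'] at h3
  have h4 : s * (Real.log t - Real.log s) ≤ t - s := by
    have := mul_le_mul_of_nonneg_left h3 hs0.le
    rwa [mul_sub s (t / s) 1, mul_div_cancel₀ _ hs0.ne', mul_one] at this
  rw [div_le_div_iff₀ (by linarith) (by linarith)]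
  nlinarith [mul_nonneg (sub_nonneg.2 hst) (sub_nonneg.2 h1)]

theorem t2a_log16 : Real.exp 1 ≤ Real.log 16 := by
  have h1 : Real.exp 1 < 2.7182818286 := Real.exp_one_lt_d9
  have h2 : (0.6931471803 : ℝ) < Real.log 2 := Real.log_two_gt_d9
  have h3 : Real.log 16 = 4 * Real.log 2 := by
    rw [show (16 : ℝ) = 2 ^ 4 by norm_num, Real.log_pow]
    norm_num
  rw [h3]
  linarith

/-- `u = lam/L2`. If `lam L ≤ c F x`, `c ≤ 1`, and `x` is large, then `u ≤ c L2 L4/L3^2 ≤ L2 - 16`, so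
`s = log (16 + u) ≤ L3`, `s/log s ≤ L3/L4` (`t2a_mono`, `s ≥ log 16 ≥ e`), `mm u ≤ u L3/L4 ≤ c L2/L3`. -/
theorem mm_top (c : ℝ) (hc : 0 < c) (hc1 : c ≤ 1) : ∃ x0 : ℝ, ∀ x : ℝ, x0 ≤ x → ∀ lam : ℝ,
    0 ≤ lam → lam * Real.log x ≤ c * F x →
    mm (lam / Real.log (Real.log x)) ≤
      c * (Real.log (Real.log x) / Real.log (Real.log (Real.log x))) := by
  refine ⟨Real.exp (Real.exp (Real.exp 4)), fun x hx lam hlam hle => ?_⟩
  have hx0 : 0 < x := lt_of_lt_of_le (Real.exp_pos _) hx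
  have hL : Real.exp (Real.exp 4) ≤ Real.log x := (Real.le_log_iff_exp_le hx0).2 hx
  have hL0 : 0 < Real.log x := lt_of_lt_of_le (Real.exp_pos _) hL
  have hL2 : Real.exp 4 ≤ Real.log (Real.log x) := (Real.le_log_iff_exp_le hL0).2 hL
  have hL20 : 0 < Real.log (Real.log x) := lt_of_lt_of_le (Real.exp_pos _) hL2
  have hL3 : 4 ≤ Real.log (Real.log (Real.log x)) := (Real.le_log_iff_exp_le hL20).2 hL2
  rw [F] at hle
  set L := Real.log x with hLd
  set L2 := Real.log L with hL2d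
  set L3 := Real.log L2 with hL3d
  set L4 := Real.log L3 with hL4d
  have hL30 : 0 < L3 := by linarith
  have hL4 : 0 < L4 := Real.log_pos (by linarith)
  have hL43 : L4 ≤ L3 := by
    have := Real.log_le_sub_one_of_pos hL30
    linarith
  have he4 : (32 : ℝ) ≤ Real.exp 4 := by
    have h1 : (2.7182818283 : ℝ) < Real.exp 1 := Real.exp_one_gt_d9
    have h2 : Real.exp 4 = Real.exp 1 ^ 4 := by
      rw [← Real.exp_nat_mul]
      norm_num
    rw [h2]
    have h3 : (2.7182818283 : ℝ) ^ 4 ≤ Real.exp 1 ^ 4 :=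
      pow_le_pow_left₀ (by norm_num) h1.le 4
    have h4 : (32 : ℝ) ≤ (2.7182818283 : ℝ) ^ 4 := by norm_num
    linarith
  set u := lam / L2 with hu
  have hu0 : 0 ≤ u := div_nonneg hlam hL20.le
  -- bound for u
  have hu1 : u ≤ c * (L2 * L4 / L3 ^ 2) := by
    have h1 : lam ≤ c * (L2 ^ 2 * L4 / L3 ^ 2) := by
      have h2 : c * (L * L2 ^ 2 * L4 / L3 ^ 2) = (c * (L2 ^ 2 * L4 / L3 ^ 2)) * L := by ring
      rw [h2] at hle
      exact le_of_mul_le_mul_right hle hL0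
    rw [hu, div_le_iff₀ hL20]
    calc lam ≤ c * (L2 ^ 2 * L4 / L3 ^ 2) := h1
      _ = c * (L2 * L4 / L3 ^ 2) * L2 := by ring
  have hq : L4 / L3 ^ 2 ≤ 1 / 2 := by
    rw [div_le_iff₀ (by positivity)]
    nlinarith
  have hu2 : u ≤ L2 - 16 := by
    have h1 : c * (L2 * L4 / L3 ^ 2) ≤ 1 * (L2 * L4 / L3 ^ 2) :=
      mul_le_mul_of_nonneg_right hc1 (by positivity)
    have h2 : L2 * L4 / L3 ^ 2 = L2 * (L4 / L3 ^ 2) := by ring
    have h3 : L2 * (L4 / L3 ^ 2) ≤ L2 * (1 / 2) := mul_le_mul_of_nonneg_left hq hL20.le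
    linarith
  have hs1 : Real.exp 1 ≤ Real.log (16 + u) :=
    t2a_log16.trans (Real.log_le_log (by norm_num) (by linarith))
  have hs2 : Real.log (16 + u) ≤ L3 := Real.log_le_log (by linarith) (by linarith)
  have hm := t2a_mono _ _ hs1 hs2
  rw [mm]
  calc u * Real.log (16 + u) / Real.log (Real.log (16 + u))
      = u * (Real.log (16 + u) / Real.log (Real.log (16 + u))) := by ring
    _ ≤ u * (L3 / L4) := mul_le_mul_of_nonneg_left hm hu0
    _ ≤ (c * (L2 * L4 / L3 ^ 2)) * (L3 / L4) := mul_le_mul_of_nonneg_right hu1 (by positivity)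
    _ = c * (L2 / L3) := by
        field_simp

end Pool.Agent.Lib.H64T
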