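import Pool.Agent.Lib.H64T.T1
import Pool.Agent.Lib.H64T.T2A

/-!
# Chunk T2C: the exponent, regime II
-/

open Finset

namespace Pool.Agent.Lib.H64T

/-- The numerical part. -/
theorem t2c_core (C3 c c2 c3 C L L2 L3 lam G th0 : ℝ) (hc3 : 0 < c3) (hC31 : 1 ≤ C3)
    (hA : 16 + c2 ≤ 2 * C3 * c2) (hB : Real.log C3 + 2 ≤ c3 * C3) (hCc : C3 * c ≤ 1)
    (hC : 2 * C3 ≤ C) (hc2 : 0 < c2) (hL : 0 < L) (hL2 : Real.log L = L2)
    (hL3p : 1 ≤ L3) (hL20 : 1 ≤ L2) (hG : G ≤ Real.exp (L3 / 2))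
    (hlam : c2 * L2 ≤ lam) (hmm : mm (lam / L2) ≤ c * (L2 / L3))
    (hth : th0 = C * mm (lam / L2) / (1 + C * mm (lam / L2))) :
    ∃ a : ℝ, 16 ≤ a ∧ a ≤ L2 / L3 ∧
        lam ≤ c3 * L2 * (a * Real.log (Real.log a) / Real.log a) ∧
        G * L ^ (1 - 1 / a) ≤ L ^ th0 := by
  have hL20' : 0 < L2 := by linarith
  have hL30 : 0 < L3 := by linarith
  have hL1 : 1 ≤ L := by
    by_contra h
    push Not at h
    have := Real.log_neg hL h
    linarith
  set u := lam / L2 with hu
  have hu2 : c2 ≤ u := by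
    rw [hu, le_div_iff₀ hL20']
    exact hlam
  have hu0 : 0 < u := lt_of_lt_of_le hc2 hu2
  have hlamu : lam = u * L2 := by
    rw [hu]
    field_simp
  set s := Real.log (16 + u) with hs
  have hm : mm u = u * s / Real.log s := rfl
  have hse : Real.exp 1 ≤ s := by
    have h16 : Real.log 16 = 4 * Real.log 2 := by
      rw [show (16 : ℝ) = 2 ^ 4 by norm_num, Real.log_pow]
      norm_num
    have h1 : Real.log 16 ≤ s := Real.log_le_log (by norm_num) (by linarith)
    have := Real.exp_one_lt_d9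
    have := Real.log_two_gt_d9
    linarith
  have hs1 : 1 ≤ s := by
    have := Real.add_one_le_exp (1 : ℝ)
    linarith
  have hs0 : 0 < s := by linarith
  have hls1 : 1 ≤ Real.log s := by
    have := Real.log_le_log (Real.exp_pos 1) hse
    rwa [Real.log_exp] at this
  have hls0 : 0 < Real.log s := by linarith
  have hm2 : 2 * u ≤ mm u := (mm_bounds u hu0.le).1
  have hm0 : 0 < mm u := by linarith
  have hC30 : 0 < C3 := by linarith
  have hlC3 : 0 ≤ Real.log C3 := Real.log_nonneg hC31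
  set a := C3 * mm u with ha
  have ha1 : 16 + u ≤ a := by
    have h1 : C3 * (2 * u) ≤ C3 * mm u := mul_le_mul_of_nonneg_left hm2 hC30.le
    have h2 : c2 * (2 * C3 - 1) ≤ u * (2 * C3 - 1) :=
      mul_le_mul_of_nonneg_right hu2 (by linarith)
    rw [ha]
    nlinarith
  have ha16 : 16 ≤ a := by linarith
  have ha0 : 0 < a := by linarith
  have haL : a ≤ L2 / L3 := by
    calc a = C3 * mm u := ha
      _ ≤ C3 * (c * (L2 / L3)) := mul_le_mul_of_nonneg_left hmm hC30.le
      _ = (C3 * c) * (L2 / L3) := by ring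
      _ ≤ 1 * (L2 / L3) := mul_le_mul_of_nonneg_right hCc (by positivity)
      _ = L2 / L3 := one_mul _
  have hla : s ≤ Real.log a := by
    rw [hs]
    exact Real.log_le_log (by linarith) ha1
  have hla0 : 0 < Real.log a := by linarith
  have hlla : Real.log s ≤ Real.log (Real.log a) := Real.log_le_log hs0 hla
  have hla2 : Real.log a ≤ (Real.log C3 + 2) * s := by
    have h1 : Real.log a = Real.log C3 + (Real.log u + Real.log s - Real.log (Real.log s)) := by
      rw [ha, hm, Real.log_mul hC30.ne' (by positivity), Real.log_div (by positivity) hls0.ne',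
        Real.log_mul hu0.ne' hs0.ne']
    have h2 : Real.log u ≤ s := Real.log_le_log hu0 (by linarith)
    have h3 : Real.log s ≤ s := by
      have := Real.log_le_sub_one_of_pos hs0
      linarith
    have h4 : 0 ≤ Real.log (Real.log s) := Real.log_nonneg hls1
    have h5 : Real.log C3 * 1 ≤ Real.log C3 * s := mul_le_mul_of_nonneg_left hs1 hlC3
    linarith
  refine ⟨a, ha16, haL, ?_, ?_⟩
  · have h1 : u ≤ c3 * (a * Real.log (Real.log a) / Real.log a) := by
      calc u = (Real.log C3 + 2) * u / (Real.log C3 + 2) := by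
            field_simp
        _ ≤ (c3 * C3) * u / (Real.log C3 + 2) := by
            apply div_le_div_of_nonneg_right _ (by positivity)
            exact mul_le_mul_of_nonneg_right hB hu0.le
        _ = c3 * (a * Real.log s / ((Real.log C3 + 2) * s)) := by
            rw [ha, hm]
            field_simp
        _ ≤ c3 * (a * Real.log (Real.log a) / Real.log a) := by
            apply mul_le_mul_of_nonneg_left _ hc3.le
            apply div_le_div₀ _ _ hla0 hla2
            · exact mul_nonneg ha0.le (hls0.le.trans hlla)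
            · exact mul_le_mul_of_nonneg_left hlla ha0.le
    calc lam = u * L2 := hlamu
      _ ≤ c3 * (a * Real.log (Real.log a) / Real.log a) * L2 :=
          mul_le_mul_of_nonneg_right h1 hL20'.le
      _ = c3 * L2 * (a * Real.log (Real.log a) / Real.log a) := by ring
  · have h1 : 1 - 1 / (2 * a) ≤ th0 := by
      rw [hth]
      have h2 : 2 * a ≤ 1 + C * mm u := by
        have : 2 * C3 * mm u ≤ C * mm u := mul_le_mul_of_nonneg_right hC hm0.le
        rw [ha]
        linarith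
      have h3 : C * mm u / (1 + C * mm u) = 1 - 1 / (1 + C * mm u) := by
        have : 1 + C * mm u ≠ 0 := by linarith
        field_simp
        ring
      rw [h3]
      have := one_div_le_one_div_of_le (by positivity) h2
      linarith
    have h4 : L ^ (1 - 1 / (2 * a)) ≤ L ^ th0 := Real.rpow_le_rpow_of_exponent_le hL1 h1
    refine le_trans ?_ h4
    have h5 : (1 : ℝ) - 1 / (2 * a) = 1 / (2 * a) + (1 - 1 / a) := by
      field_simp
      ring
    rw [h5, Real.rpow_add hL]
    apply mul_le_mul_of_nonneg_right _ (Real.rpow_nonneg hL.le _)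
    refine hG.trans ?_
    rw [Real.rpow_def_of_pos hL, hL2]
    apply Real.exp_le_exp.mpr
    have h6 : L3 * a ≤ L2 := by
      rw [le_div_iff₀ hL30] at haL
      linarith
    rw [mul_one_div, div_le_div_iff₀ (by norm_num) (by positivity)]
    linarith

/-- `u = lam/L2 ≥ c2`, `m = mm u`, `s = log (16 + u)`, `a = C3 m`, where `C3` is so large that
`2 C3 c2 ≥ 16 + c2` and `c3 C3 ≥ log C3 + 2`.
* `a ≥ 2 C3 u ≥ 16 + u ≥ 16` (`mm_bounds`; `u (2 C3 - 1) ≥ c2 (2 C3 - 1) ≥ 16`), so `log a ≥ s`,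
  `loglog a ≥ log s`;
* `log a ≤ log C3 + log u + log s ≤ (log C3 + 2) s` (`loglog 16 ≥ 1`, so dividing by `log s` only
  helps; `log u ≤ s`, `log s ≤ s`, `s ≥ 1`), so
  `c3 a loglog a/log a ≥ c3 C3 (u s/log s) (log s)/((log C3 + 2) s) ≥ u`;
* `a ≤ C3 c L2/L3 ≤ L2/L3` by `mm_top` if `C3 c ≤ 1`;
* if `C ≥ 2 C3` then `1 + C m ≥ 2a`, so `L^th ≥ L^(1 - 1/(2a)) = L^(1 - 1/a) L^(1/(2a)) ≥
  L^(1 - 1/a) exp (L3/2) = L^(1 - 1/a) L2^(1/2) ≥ G L^(1 - 1/a)` for large `x`. -/
theorem th_II (c2 c3 : ℝ) (hc2 : 0 < c2) (hc3 : 0 < c3) : ∃ C0 c : ℝ, 0 < C0 ∧ 0 < c ∧ c ≤ 1 ∧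
    ∀ C G : ℝ, C0 ≤ C → ∃ x0 : ℝ, ∀ x : ℝ, x0 ≤ x → ∀ lam : ℝ,
      c2 * Real.log (Real.log x) ≤ lam → lam * Real.log x ≤ c * F x → ∃ a : ℝ, 16 ≤ a ∧
        a ≤ Real.log (Real.log x) / Real.log (Real.log (Real.log x)) ∧
        lam ≤ c3 * Real.log (Real.log x) * (a * Real.log (Real.log a) / Real.log a) ∧
        G * Real.log x ^ (1 - 1 / a) ≤ Real.log x ^ th C lam x := by
  have hev : ∀ᶠ v : ℝ in Filter.atTop, 1 ≤ v ∧ 16 + c2 ≤ 2 * v * c2 ∧
      Real.log v + 2 ≤ c3 * v := by
    have h3 := Real.isLittleO_log_id_atTop.def (show (0 : ℝ) < c3 / 2 by positivity)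
    filter_upwards [h3, Filter.eventually_ge_atTop 1,
      Filter.eventually_ge_atTop ((16 + c2) / (2 * c2)),
      Filter.eventually_ge_atTop (4 / c3)] with v hv hv1 hv2 hv3
    refine ⟨hv1, ?_, ?_⟩
    · rw [div_le_iff₀ (by positivity)] at hv2
      linarith
    · have hlog : 0 ≤ Real.log v := Real.log_nonneg hv1
      rw [Real.norm_of_nonneg hlog, id, Real.norm_of_nonneg (by linarith)] at hv
      rw [div_le_iff₀ hc3] at hv3
      linarith
  obtain ⟨C3, hC31, hA, hB⟩ := hev.exists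
  have hC30 : 0 < C3 := by linarith
  refine ⟨2 * C3, 1 / C3, by positivity, by positivity, by
    rw [div_le_one hC30]; exact hC31, fun C G hC => ?_⟩
  obtain ⟨x1, hx1⟩ := mm_top (1 / C3) (by positivity) (by rw [div_le_one hC30]; exact hC31)
  have t1 : Filter.Tendsto (fun x : ℝ => Real.log x) Filter.atTop Filter.atTop :=
    Real.tendsto_log_atTop
  have t2 := Real.tendsto_log_atTop.comp t1
  have t3 := Real.tendsto_log_atTop.comp t2
  have main : ∀ᶠ x : ℝ in Filter.atTop,
      1 ≤ Real.log x ∧ 1 ≤ Real.log (Real.log x) ∧ 1 ≤ Real.log (Real.log (Real.log x)) ∧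
      2 * G ≤ Real.log (Real.log (Real.log x)) := by
    filter_upwards [t1.eventually_ge_atTop 1, t2.eventually_ge_atTop 1,
      t3.eventually_ge_atTop 1, t3.eventually_ge_atTop (2 * G)] with x a1 a2 a3 a4
    exact ⟨a1, a2, a3, a4⟩
  obtain ⟨x2, hx2⟩ := Filter.eventually_atTop.mp main
  refine ⟨max x1 x2, fun x hx lam hlam1 hlam2 => ?_⟩
  obtain ⟨a1, a2, a3, a4⟩ := hx2 x ((le_max_right _ _).trans hx)
  have hlam0 : 0 ≤ lam := by
    have : 0 ≤ c2 * Real.log (Real.log x) := by positivity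
    linarith
  have hmm := hx1 x ((le_max_left _ _).trans hx) lam hlam0 hlam2
  refine t2c_core C3 (1 / C3) c2 c3 C (Real.log x) (Real.log (Real.log x))
    (Real.log (Real.log (Real.log x))) lam G (th C lam x) hc3 hC31 hA hB
    (by field_simp; exact le_rfl) hC hc2 (by linarith) rfl a3 a2 ?_ hlam1 hmm rfl
  have := Real.add_one_le_exp (Real.log (Real.log (Real.log x)) / 2)
  linarith

end Pool.Agent.Lib.H64T
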