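import Pool.Agent.Lib.H64T.Q0
import Pool.Agent.Lib.H64T.S2
import Pool.Agent.Lib.H64T.T2C

/-!
# Chunk Q1B: weights and classes in regime II
-/

open Finset

namespace Pool.Agent.Lib.H64T

open Pool.Agent.Lib.H15P

/-- `ℓ = ⌊c1 L2⌋ ≥ c1 L2/2`, so `K = ⌊ℓ L/L2⌋ ≥ c1 L/2 - 1 ≥ (c1/4) L`, and `C1 ℓ ≤ L2/5`, so
`w.C ≤ exp (exp (L2/5)) = exp (L^(1/5))`. `c3` from `setup_II`; `C0, c` from `th_II` for `c2, c3`, and
for `G' = 64 + |G|` in place of `G` it gives `a` with `T = L^th ≥ G' L^(1-1/a)`. `setup_II` gives `M, A`.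
`w.C (M/1) ≤ exp (L^(1/5) + 2 L^(1-1/a)) ≤ exp (3 L^(1-1/a)) ≤ exp (T/8)` (`1 - 1/a ≥ 15/16`, `L ≥ 1`);
`M ≤ exp (T/8)`; `lam ≤ L ≤ exp (8 L^(15/16))` as `lam L ≤ c F x ≤ L^2` for large `x`. `G ≤ T`. The
primes of `M` are `≤ L ≤ x^(1/4)`. -/
theorem exists_Q_II (e : ℝ) (he : 0 < e) (he1 : e ≤ 1 / 10) (G c1 C1 c2 : ℝ) (hc1 : 0 < c1)
    (hc11 : c1 ≤ 1) (hC1 : 0 < C1) (hCc : C1 * c1 ≤ 1 / 5) (hc2 : 0 < c2) :
    ∃ C0 c : ℝ, 0 < C0 ∧ 0 < c ∧ c ≤ 1 ∧ ∀ C : ℝ, C0 ≤ C →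
    ∃ x0 : ℝ, ∀ x : ℝ, x0 ≤ x → EW e c1 C1 x → ∀ lam : ℝ, 1 ≤ lam →
      c2 * Real.log (Real.log x) ≤ lam → lam * Real.log x ≤ c * F x →
      G ≤ Real.log x ^ th C lam x ∧
      ∃ (w : WT) (M : ℕ) (A : Finset ℕ), QD e x lam (Real.log x ^ th C lam x) w M A := by
  obtain ⟨c3, x1, hc3, hset⟩ := setup_II e c1 he hc1
  obtain ⟨C0, c, hC0, hc, hcle, hth⟩ := th_II c2 c3 hc2 hc3
  refine ⟨C0, c, hC0, hc, hcle, fun C hC => ?_⟩
  obtain ⟨x2, hx2⟩ := hth C (64 + |G|) hC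
  have t0 : Filter.Tendsto (fun x : ℝ => x) Filter.atTop Filter.atTop := Filter.tendsto_id
  have t1 : Filter.Tendsto (fun x : ℝ => Real.log x) Filter.atTop Filter.atTop :=
    Real.tendsto_log_atTop
  have t2 := Real.tendsto_log_atTop.comp t1
  have t3 := Real.tendsto_log_atTop.comp t2
  have t4 := Real.tendsto_log_atTop.comp t3
  have ev1 : ∀ᶠ v : ℝ in Filter.atTop, Real.log v ≤ v ^ (1 / 4 : ℝ) := by
    have h3 := (isLittleO_log_rpow_atTop (show (0 : ℝ) < 1 / 4 by norm_num)).def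
      (show (0 : ℝ) < 1 by norm_num)
    filter_upwards [h3, Filter.eventually_ge_atTop 1] with v hv hv1
    have hlog : 0 ≤ Real.log v := Real.log_nonneg hv1
    rw [Real.norm_of_nonneg hlog, Real.norm_of_nonneg (by positivity), one_mul] at hv
    exact hv
  have ev2 : ∀ᶠ v : ℝ in Filter.atTop, Real.log v ^ 2 ≤ v := by
    have h3 := (isLittleO_log_rpow_atTop (show (0 : ℝ) < 1 / 2 by norm_num)).def
      (show (0 : ℝ) < 1 by norm_num)
    filter_upwards [h3, Filter.eventually_ge_atTop 1] with v hv hv1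
    have hlog : 0 ≤ Real.log v := Real.log_nonneg hv1
    rw [Real.norm_of_nonneg hlog, Real.norm_of_nonneg (by positivity), one_mul] at hv
    calc Real.log v ^ 2 ≤ (v ^ (1 / 2 : ℝ)) ^ 2 := pow_le_pow_left₀ hlog hv 2
      _ = v := by
        rw [← Real.rpow_natCast, ← Real.rpow_mul (by linarith)]
        norm_num
  have main : ∀ᶠ x : ℝ in Filter.atTop,
      (1 ≤ Real.log x ∧ 4 ≤ c1 * Real.log x ∧ 1 ≤ Real.log (Real.log x)) ∧
      1 ≤ c1 * Real.log (Real.log x) ∧ 1 ≤ Real.log (Real.log (Real.log x)) ∧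
      Real.log x ≤ x ^ (1 / 4 : ℝ) ∧ Real.log (Real.log x) ^ 2 ≤ Real.log x := by
    filter_upwards [t1.eventually_ge_atTop 1, t1.eventually_ge_atTop (4 / c1),
      t2.eventually_ge_atTop 1, t2.eventually_ge_atTop (1 / c1),
      t3.eventually_ge_atTop 1, t0.eventually ev1, t1.eventually ev2] with x a1 a2 a3 a4 a5 a6 a7
    refine ⟨⟨a1, ?_, a3⟩, ?_, a5, a6, a7⟩
    · rw [div_le_iff₀ hc1] at a2
      linarith
    · change 1 / c1 ≤ Real.log (Real.log x) at a4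
      rw [div_le_iff₀ hc1] at a4
      linarith
  obtain ⟨x3, hx3⟩ := Filter.eventually_atTop.mp main
  refine ⟨max x1 (max x2 x3), fun x hx hEW lam hlam1 hlam2 hlam3 => ?_⟩
  have hxx1 : x1 ≤ x := (le_max_left _ _).trans hx
  have hxx2 : x2 ≤ x := ((le_max_left _ _).trans (le_max_right _ _)).trans hx
  have hxx3 : x3 ≤ x := ((le_max_right _ _).trans (le_max_right _ _)).trans hx
  obtain ⟨⟨a1, a2, a3⟩, a4, a5, a6, a7⟩ := hx3 x hxx3
  obtain ⟨a, ha16, haL, halam, haT⟩ := hx2 x hxx2 lam hlam2 hlam3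
  have hF1 : F x = Real.log x * (Real.log (Real.log x)) ^ 2 *
    Real.log (Real.log (Real.log (Real.log x))) / (Real.log (Real.log (Real.log x))) ^ 2 := rfl
  set L := Real.log x with hL
  set L2 := Real.log L with hL2
  set L3 := Real.log L2 with hL3
  set T := L ^ th C lam x with hT
  have hL0 : 0 < L := by linarith
  have hL20 : 0 < L2 := by linarith
  have hL30 : 0 < L3 := by linarith
  have ha0 : 0 < a := by linarith
  have ha116 : 1 / a ≤ 1 / 16 := one_div_le_one_div_of_le (by norm_num) ha16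
  have hP1 : 1 ≤ L ^ (1 - 1 / a) := Real.one_le_rpow a1 (by linarith)
  have h64 : 64 * L ^ (1 - 1 / a) ≤ T := by
    refine le_trans ?_ haT
    have : 0 ≤ |G| * L ^ (1 - 1 / a) := by positivity
    linarith [add_mul 64 |G| (L ^ (1 - 1 / a))]
  have hGT : G ≤ T := by
    refine le_trans ?_ haT
    have h1 : (64 + |G|) * 1 ≤ (64 + |G|) * L ^ (1 - 1 / a) :=
      mul_le_mul_of_nonneg_left hP1 (by positivity)
    have := le_abs_self G
    linarith
  -- the weights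
  set ℓ : ℕ := ⌊c1 * L2⌋₊ with hℓ
  have hℓ1 : 1 ≤ ℓ := Nat.le_floor (by exact_mod_cast a4)
  have hℓ2 : (ℓ : ℝ) ≤ c1 * L2 := Nat.floor_le (by positivity)
  have hℓ3 : c1 * L2 / 2 ≤ ℓ := by
    have h1 := Nat.lt_floor_add_one (c1 * L2)
    rw [← hℓ] at h1
    have h2 : (1 : ℝ) ≤ ℓ := by exact_mod_cast hℓ1
    linarith
  obtain ⟨w, hwe, hwW, hwK, hwX, hwC, hwP, hwlv⟩ := hEW ℓ hℓ1 hℓ2
  have hK : c1 / 4 * L ≤ w.K := by
    rw [hwK]
    have h1 := Nat.lt_floor_add_one (ℓ * L / L2)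
    have h2 : c1 * L / 2 ≤ ℓ * L / L2 := by
      rw [le_div_iff₀ hL20]
      have := mul_le_mul_of_nonneg_right hℓ3 hL0.le
      linarith
    linarith
  have hwC' : w.C ≤ Real.exp (L ^ (1 - 1 / a)) := by
    refine hwC.trans (Real.exp_le_exp.mpr ?_)
    calc Real.exp (C1 * ℓ) ≤ Real.exp (L2 * (1 / 5)) := by
          apply Real.exp_le_exp.mpr
          have h1 : C1 * ℓ ≤ C1 * (c1 * L2) := mul_le_mul_of_nonneg_left hℓ2 hC1.le
          have h2 : C1 * c1 * L2 ≤ 1 / 5 * L2 := mul_le_mul_of_nonneg_right hCc hL20.le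
          linarith
      _ = L ^ (1 / 5 : ℝ) := by rw [Real.rpow_def_of_pos hL0]
      _ ≤ L ^ (1 - 1 / a) := Real.rpow_le_rpow_of_exponent_le a1 (by linarith)
  obtain ⟨M, A, hSet, hM4, hMq, hM, hA⟩ := hset x hxx1 w hwe hwW hK hwlv a ha16 haL lam hlam1 halam
  refine ⟨hGT, w, M, A, ?_⟩
  have hM' : (M : ℝ) ≤ Real.exp (T / 8) := by
    refine hM.trans (Real.exp_le_exp.mpr ?_)
    linarith
  refine ⟨hwe, hwX, hSet, hM4, hwP, fun q hq hqM => (hMq q hq hqM).trans a6, ?_, Or.inr hM', ?_⟩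
  · rw [hA, Nat.cast_one, div_one]
    calc w.C * (M : ℝ) ≤ Real.exp (L ^ (1 - 1 / a)) * Real.exp (2 * L ^ (1 - 1 / a)) :=
          mul_le_mul hwC' hM (Nat.cast_nonneg _) (Real.exp_pos _).le
      _ = Real.exp (3 * L ^ (1 - 1 / a)) := by
          rw [← Real.exp_add]
          congr 1
          ring
      _ ≤ Real.exp (T / 8) := Real.exp_le_exp.mpr (by linarith)
  · have h4 : Real.log L3 ≤ L3 ^ 2 := by
      have h1 := Real.log_le_sub_one_of_pos hL30
      nlinarith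
    have h5 : F x ≤ L * L2 ^ 2 := by
      rw [hF1, div_le_iff₀ (by positivity)]
      exact mul_le_mul_of_nonneg_left h4 (by positivity)
    have h6 : lam * L ≤ L * L2 ^ 2 := by
      refine hlam3.trans (le_trans ?_ h5)
      have hF0 : 0 ≤ F x := by
        have h7 : 0 ≤ lam * L := by positivity
        by_contra h8
        push Not at h8
        have := mul_neg_of_pos_of_neg hc h8
        linarith
      have := mul_le_mul_of_nonneg_right hcle hF0
      linarith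
    have h7 : lam ≤ L2 ^ 2 := by
      have : lam * L ≤ L2 ^ 2 * L := by linarith
      exact le_of_mul_le_mul_right this hL0
    calc lam ≤ L := h7.trans a7
      _ = Real.exp L2 := by rw [hL2, Real.exp_log hL0]
      _ ≤ Real.exp (T / 8) := by
          apply Real.exp_le_exp.mpr
          have h8 : L2 / 5 + 1 ≤ L ^ (1 - 1 / a) := by
            calc L2 / 5 + 1 ≤ Real.exp (L2 / 5) := Real.add_one_le_exp _
              _ = L ^ (1 / 5 : ℝ) := by
                  rw [Real.rpow_def_of_pos hL0]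
                  congr 1
                  rw [← hL2]
                  ring
              _ ≤ L ^ (1 - 1 / a) := Real.rpow_le_rpow_of_exponent_le a1 (by linarith)
          linarith

end Pool.Agent.Lib.H64T
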