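import Pool.Agent.Lib.H64T.T2A

/-!
# Chunk T2B: the exponent at the top
-/

open Finset

namespace Pool.Agent.Lib.H64T

theorem t2b_nonneg (u : ℝ) (hu : 0 ≤ u) : 0 ≤ mm u := by
  unfold mm
  have h1 : 1 ≤ Real.log (16 + u) := by
    rw [Real.le_log_iff_exp_le (by linarith)]
    have := Real.exp_one_lt_d9
    linarith
  have h2 : 0 ≤ Real.log (Real.log (16 + u)) := Real.log_nonneg h1
  positivity

/-- `L^th = L L^(-1/(1 + C m))`, `m ≤ c L2/L3` (`mm_top`), so
`L^(-1/(1+Cm)) ≤ exp (-L2/(1 + C c L2/L3)) ≤ exp (-L3/(1 + C c)) ≤ ε` for large `x` (`L3 ≤ L2`). -/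
theorem th_top (C c ε : ℝ) (hC : 0 < C) (hc : 0 < c) (hc1 : c ≤ 1) (hε : 0 < ε) : ∃ x0 : ℝ,
    ∀ x : ℝ, x0 ≤ x → ∀ lam : ℝ, 0 ≤ lam → lam * Real.log x ≤ c * F x →
    Real.log x ^ th C lam x ≤ ε * Real.log x := by
  obtain ⟨x1, h1⟩ := mm_top c hc hc1
  obtain ⟨K, hK⟩ : ∃ K : ℝ, K = max 1 ((1 + C * c) * (-Real.log ε)) := ⟨_, rfl⟩
  refine ⟨max x1 (Real.exp (Real.exp (Real.exp K))), ?_⟩
  intro x hx lam hlam hle
  have hx1 : x1 ≤ x := (le_max_left _ _).trans hx
  have hx2 : Real.exp (Real.exp (Real.exp K)) ≤ x := (le_max_right _ _).trans hx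
  have hx0 : 0 < x := (Real.exp_pos _).trans_le hx2
  have hL : Real.exp (Real.exp K) ≤ Real.log x := (Real.le_log_iff_exp_le hx0).2 hx2
  have hL0 : 0 < Real.log x := (Real.exp_pos _).trans_le hL
  have hL2 : Real.exp K ≤ Real.log (Real.log x) := (Real.le_log_iff_exp_le hL0).2 hL
  have hL20 : 0 < Real.log (Real.log x) := (Real.exp_pos _).trans_le hL2
  have hL3 : K ≤ Real.log (Real.log (Real.log x)) := (Real.le_log_iff_exp_le hL20).2 hL2
  have hK1 : 1 ≤ K := by rw [hK]; exact le_max_left _ _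
  have hK2 : (1 + C * c) * (-Real.log ε) ≤ K := by rw [hK]; exact le_max_right _ _
  have hm := h1 x hx1 lam hlam hle
  have hm0 : 0 ≤ mm (lam / Real.log (Real.log x)) := t2b_nonneg _ (by positivity)
  unfold th
  set m := mm (lam / Real.log (Real.log x)) with hmdef
  set L := Real.log x with hLdef
  set L2 := Real.log L with hL2def
  set L3 := Real.log L2 with hL3def
  have hL30 : 0 < L3 := by linarith
  have hL32 : L3 ≤ L2 := by
    have := Real.log_le_sub_one_of_pos hL20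
    linarith
  have hmL : m * L3 ≤ c * L2 := by
    rw [← mul_div_assoc, le_div_iff₀ hL30] at hm
    exact hm
  have hCm : 0 < 1 + C * m := by positivity
  have hCc : 0 < 1 + C * c := by positivity
  have h2 : L3 / (1 + C * c) ≤ L2 / (1 + C * m) := by
    rw [div_le_div_iff₀ hCc hCm]
    have h3 : C * (m * L3) ≤ C * (c * L2) := mul_le_mul_of_nonneg_left hmL hC.le
    nlinarith
  have h3 : -Real.log ε ≤ L3 / (1 + C * c) := by
    rw [le_div_iff₀ hCc]
    linarith
  have h4 : L2 * (C * m / (1 + C * m)) = L2 - L2 / (1 + C * m) := by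
    field_simp
    ring
  rw [Real.rpow_def_of_pos hL0, ← hL2def, h4]
  have h5 : ε * L = Real.exp (Real.log ε + L2) := by
    rw [Real.exp_add, Real.exp_log hε, hL2def, Real.exp_log hL0]
  rw [h5]
  apply Real.exp_le_exp.2
  linarith

end Pool.Agent.Lib.H64T
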