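import Pool.Agent.Lib.H64T.K3
import Pool.Agent.Lib.H64T.Q1A
import Pool.Agent.Lib.H64T.Q1B
import Pool.Agent.Lib.H64T.T2B

/-!
# Chunk Q1: weights and classes for all `lam`
-/

open Finset

namespace Pool.Agent.Lib.H64T

open Pool.Agent.Lib.H15P

/-- `0 ≤ F x ≤ (log x)^2` for large `x`. -/
theorem q1_F : ∃ x0 : ℝ, ∀ x : ℝ, x0 ≤ x → 0 < Real.log x ∧ 0 ≤ F x ∧ F x ≤ Real.log x * Real.log x := by
  have h1 : ∀ᶠ x : ℝ in Filter.atTop, Real.exp 1 ≤ Real.log (Real.log (Real.log x)) :=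
    ((Real.tendsto_log_atTop.comp Real.tendsto_log_atTop).comp Real.tendsto_log_atTop).eventually_ge_atTop _
  have h2 : ∀ᶠ x : ℝ in Filter.atTop, Real.log x ≤ x ^ (1 / 2 : ℝ) := by
    have := (isLittleO_log_rpow_atTop (r := 1 / 2) (by norm_num)).bound (c := 1) (by norm_num)
    filter_upwards [this, Filter.eventually_ge_atTop 1] with x hx hx1
    rw [Real.norm_of_nonneg (Real.log_nonneg hx1), Real.norm_of_nonneg (by positivity)] at hx
    linarith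
  have h3 : ∀ᶠ x : ℝ in Filter.atTop, Real.log (Real.log x) ≤ (Real.log x) ^ (1 / 2 : ℝ) :=
    Real.tendsto_log_atTop.eventually h2
  have h4 : ∀ᶠ x : ℝ in Filter.atTop, (1 : ℝ) ≤ Real.log x ∧ (1 : ℝ) ≤ Real.log (Real.log x) :=
    (Real.tendsto_log_atTop.eventually_ge_atTop _).and
      ((Real.tendsto_log_atTop.comp Real.tendsto_log_atTop).eventually_ge_atTop _)
  obtain ⟨x0, hx0⟩ := Filter.eventually_atTop.mp (h1.and (h3.and h4))
  refine ⟨x0, fun x hx => ?_⟩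
  obtain ⟨g1, g2, g3, g4⟩ := hx0 x hx
  unfold F
  obtain ⟨L, hL⟩ : ∃ L, L = Real.log x := ⟨_, rfl⟩
  rw [← hL] at g1 g2 g3 g4 ⊢
  obtain ⟨L2, hL2⟩ : ∃ L2, L2 = Real.log L := ⟨_, rfl⟩
  rw [← hL2] at g1 g2 g4 ⊢
  obtain ⟨L3, hL3⟩ : ∃ L3, L3 = Real.log L2 := ⟨_, rfl⟩
  rw [← hL3] at g1 ⊢
  have he1 : (2 : ℝ) ≤ Real.exp 1 := by
    have := Real.add_one_le_exp (1 : ℝ)
    linarith
  have hL3pos : 0 < L3 := by linarith
  have hLpos : 0 < L := by linarith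
  have hl4 : 0 ≤ Real.log L3 := Real.log_nonneg (by linarith)
  have hl4' : Real.log L3 ≤ L3 ^ 2 := by
    have h5 := Real.log_le_sub_one_of_pos hL3pos
    nlinarith
  refine ⟨hLpos, by positivity, ?_⟩
  have hsq : L2 ^ 2 ≤ L := by
    have h6 : L2 ^ 2 ≤ (L ^ (1 / 2 : ℝ)) ^ 2 := pow_le_pow_left₀ (by linarith) g2 2
    have h7 : (L ^ (1 / 2 : ℝ)) ^ 2 = L := by
      rw [← Real.rpow_natCast, ← Real.rpow_mul hLpos.le]
      norm_num
    rwa [h7] at h6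
  rw [div_le_iff₀ (by positivity)]
  calc L * L2 ^ 2 * Real.log L3 ≤ L * L * L3 ^ 2 := by
        refine mul_le_mul (mul_le_mul_of_nonneg_left hsq hLpos.le) hl4' hl4 (by positivity)
    _ = L * L * L3 ^ 2 := rfl

/-- `exists_WT`, then `exists_Q_I` gives `B, c2`, then `exists_Q_II` for this `c2` gives `C0, c`;
`C = max B C0`. `T ≤ L/100`: `th_top` with `ε = 1/100`; `lam ≤ L`: `lam L ≤ F x ≤ L^2` for large `x`.
Cases `lam ≤ c2 L2` and `lam ≥ c2 L2`. -/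
theorem exists_Q (e : ℝ) (he : 0 < e) (he1 : e ≤ 1 / 10) (G : ℝ) : ∃ C c x0 : ℝ, 0 < C ∧ 0 < c ∧
    ∀ x : ℝ, x0 ≤ x → ∀ lam : ℝ, 1 ≤ lam → lam * Real.log x ≤ c * F x →
      G ≤ Real.log x ^ th C lam x ∧ Real.log x ^ th C lam x ≤ Real.log x / 100 ∧
      lam ≤ Real.log x ∧
      ∃ (w : WT) (M : ℕ) (A : Finset ℕ), QD e x lam (Real.log x ^ th C lam x) w M A := by
  obtain ⟨c1, C1, xa, hc1, hc11, hC1, hCc, hEW⟩ := exists_WT e he he1
  obtain ⟨B, c2, hB, hc2, hI⟩ := exists_Q_I e he he1 G c1 C1 hc1 hc11 hC1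
  obtain ⟨C0, c, hC0, hc, hcle, hII⟩ := exists_Q_II e he he1 G c1 C1 c2 hc1 hc11 hC1 hCc hc2
  obtain ⟨C, hC⟩ : ∃ C, C = max B C0 := ⟨_, rfl⟩
  have hCB : B ≤ C := by
    rw [hC]
    exact le_max_left _ _
  have hCC : C0 ≤ C := by
    rw [hC]
    exact le_max_right _ _
  have hCpos : 0 < C := hB.trans_le hCB
  obtain ⟨xb, hxb⟩ := hI C hCB
  obtain ⟨xc, hxc⟩ := hII C hCC
  obtain ⟨xd, hxd⟩ := th_top C c (1 / 100) hCpos hc hcle (by norm_num)
  obtain ⟨xe, hxe⟩ := q1_F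
  refine ⟨C, c, max (max xa xb) (max (max xc xd) xe), hCpos, hc, ?_⟩
  intro x hx lam hlam1 hlamF
  have ha : xa ≤ x := ((le_max_left _ _).trans (le_max_left _ _)).trans hx
  have hb : xb ≤ x := ((le_max_right _ _).trans (le_max_left _ _)).trans hx
  have hcx : xc ≤ x := (((le_max_left _ _).trans (le_max_left _ _)).trans (le_max_right _ _)).trans hx
  have hd : xd ≤ x := (((le_max_right _ _).trans (le_max_left _ _)).trans (le_max_right _ _)).trans hx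
  have hee : xe ≤ x := ((le_max_right _ _).trans (le_max_right _ _)).trans hx
  have hE : EW e c1 C1 x := fun l hl1 hl2 => hEW x ha l hl1 hl2
  have hlam0 : 0 ≤ lam := by linarith
  have hT : Real.log x ^ th C lam x ≤ Real.log x / 100 := by
    have h1 := hxd x hd lam hlam0 hlamF
    linarith
  obtain ⟨hLpos, hF0, hF⟩ := hxe x hee
  have hlamL : lam ≤ Real.log x := by
    have h1 : c * F x ≤ F x := mul_le_of_le_one_left hF0 hcle
    have h2 : lam * Real.log x ≤ Real.log x * Real.log x := by linarith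
    exact le_of_mul_le_mul_right h2 hLpos
  rcases le_total lam (c2 * Real.log (Real.log x)) with h | h
  · obtain ⟨h1, h2⟩ := hxb x hb hE lam hlam1 h
    exact ⟨h1, hT, hlamL, h2⟩
  · obtain ⟨h1, h2⟩ := hxc x hcx hE lam hlam1 h hlamF
    exact ⟨h1, hT, hlamL, h2⟩

end Pool.Agent.Lib.H64T
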