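import Pool.Agent.Lib.H64T.Fin

/-!
# A uniform lower bound for the tail of the distribution of prime gaps

Let `F x = log x (log log x)^2 (log log log log x) / (log log log x)^2`, `u = lam / log log x`,
`m = u log (16 + u) / log log (16 + u)`, `θ = C m / (1 + C m)`. We prove: for suitable `C, c > 0`, all
large `x`, ALL real `lam` with `1 ≤ lam`, `lam log x ≤ c F x`, and EVERY integer `z ≥ 0`, whatever its
size, `[z, z + x]` contains at least `(x / log x) exp (-(log x)^θ)` pairwise disjoint intervals
`(n, n + lam log x]` in which no integer is prime and every integer has a prime factor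
`≤ x^(1/4)`; if `z = 0` the intervals lie in different gaps between consecutive primes, so at
least `(x / log x) exp (-(log x)^θ)` of the gaps between the primes up to `x` have length at least
`lam log x`.

The whole range from the average gap `log x` to gaps of length `c F x` is covered;
`(log x)^θ ≤ exp (3 C lam)` for `lam ≤ log log x`, and `(log x)^θ ≤ log x / (log log x)^B`, `B > 0`, at
the top `lam log x = c F x`.

Method (`Pool/Agent/Lib/H64T/PROOF.md`): a multi-scale sieve weight on the window, with an
estimate of its second moment on the event that given primes divide given elements, which makes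
all errors relative and gives the decorrelation of two windows at any distance; a set of residue
classes modulo a primorial, from one Erdős-Rankin class (large gaps) to almost all
classes (small gaps); the number of gaps from the number of windows by almost invariance.
-/

open Filter

namespace Pool.Agent.Lib.H64T.Text

/-- `F x = log x (log log x)^2 (log log log log x) / (log log log x)^2`. -/
noncomputable def F (x : ℝ) : ℝ :=
  Real.log x * (Real.log (Real.log x)) ^ 2 *
    Real.log (Real.log (Real.log (Real.log x))) / (Real.log (Real.log (Real.log x))) ^ 2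

/-- `m u = u log (16 + u) / log log (16 + u)`. -/
noncomputable def m (u : ℝ) : ℝ := u * Real.log (16 + u) / Real.log (Real.log (16 + u))

/-- The exponent `θ = C m / (1 + C m)`, where `m = m (lam / log log x)`. -/
noncomputable def theta (C lam x : ℝ) : ℝ :=
  C * m (lam / Real.log (Real.log x)) / (1 + C * m (lam / Real.log (Real.log x)))

/-- There are `C, c > 0` such that for all sufficiently large `x`, all real `lam` with `1 ≤ lam`,
`lam log x ≤ c F x`, and every natural number `z` there is a set `S` of at least
`(x / log x) exp (-(log x)^θ)` natural numbers with: the intervals `(n, n + lam log x]`, `n ∈ S`, lie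
in `[z, z + x]`; no integer in them is prime and every integer in them has a prime factor
`≤ x^(1/4)`; they are pairwise disjoint; and if `z = 0` there is a prime between any two of them,
so that they lie in different gaps between consecutive primes. -/
theorem result : ∃ C c : ℝ, 0 < C ∧ 0 < c ∧ ∀ᶠ x : ℝ in atTop, ∀ lam : ℝ, 1 ≤ lam →
    lam * Real.log x ≤ c * F x → ∀ z : ℕ, ∃ S : Finset ℕ,
      x / Real.log x * Real.exp (-(Real.log x ^ theta C lam x)) ≤ (S.card : ℝ) ∧
      (∀ n ∈ S, z ≤ n ∧ (n : ℝ) + lam * Real.log x ≤ z + x ∧
        ∀ k : ℕ, n < k → (k : ℝ) ≤ n + lam * Real.log x →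
          ¬ k.Prime ∧ (k.minFac : ℝ) ≤ x ^ (1 / 4 : ℝ)) ∧
      ∀ n ∈ S, ∀ n' ∈ S, n < n' → (n : ℝ) + lam * Real.log x ≤ n' ∧
        (z = 0 → ∃ q : ℕ, q.Prime ∧ n < q ∧ q ≤ n') := by
  obtain ⟨C, c, x0, hC, hc, h⟩ := Pool.Agent.Lib.H64T.tail_law
  refine ⟨C, c, hC, hc, ?_⟩
  filter_upwards [eventually_ge_atTop x0] with x hx lam hl hlam
  exact h x hx lam hl hlam

end Pool.Agent.Lib.H64T.Text
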