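import Pool.Agent.Lib.H64T.C4
import Pool.Agent.Lib.H64T.D1
import Pool.Agent.Lib.H15P.TRN

/-!
# Chunk V1: the number of large gaps, from windows
-/

open Finset

namespace Pool.Agent.Lib.H64T

open Pool.Agent.Lib.H15P

/-- A window with a prime has a rough value (as `H15P.fin2_rg`): if `n + h`, `1 ≤ h ≤ H`, is a prime
`> M`'s prime factors and `> p` for all `p ∈ P`, then `h ∈ CC H M n` and `n + h` has no prime factor
in `P`. -/
theorem v1_rg (w : WT) (H M n : ℕ) (hM : ∀ q, q.Prime → q ∣ M → q < n) (hP : ∀ p ∈ w.P, p < n)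
    (hv : ∃ h ∈ Icc 1 H, (n + h).Prime) : 1 ≤ w.rg H M n := by
  obtain ⟨h, hh, hpr⟩ := hv
  unfold WT.rg WT.rough
  rw [Nat.one_le_iff_ne_zero, Finset.card_ne_zero]
  refine ⟨n + h, ?_⟩
  rw [mem_filter]
  constructor
  · rw [mem_image]
    refine ⟨h, ?_, rfl⟩
    unfold CC
    rw [mem_filter]
    refine ⟨hh, ?_⟩
    rw [Nat.Prime.coprime_iff_not_dvd hpr]
    intro hdvd
    have := hM _ hpr hdvd
    omega
  · intro p hp hdvd
    have h1 := (Nat.prime_dvd_prime_iff_eq (w.prime p hp) hpr).mp hdvd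
    have h2 := hP p hp
    omega

theorem v1_vd_nonneg (H n : ℕ) : 0 ≤ vd H n := by
  unfold vd
  split_ifs <;> norm_num

theorem v1_vd_le_one (H n : ℕ) : vd H n ≤ 1 := by
  unfold vd
  split_ifs <;> norm_num

theorem v1_sum_vd (H N0 N1 : ℕ) (h01 : N0 ≤ N1) :
    ∑ n ∈ Ico N0 N1, vd H n = ((N1 : ℝ) - N0) -
      (((Ico N0 N1).filter (fun n => ∃ h ∈ Icc 1 H, (n + h).Prime)).card : ℝ) := by
  have h1 : ∀ n, vd H n = 1 - (if ∃ h ∈ Icc 1 H, (n + h).Prime then (1 : ℝ) else 0) := by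
    intro n
    unfold vd
    by_cases h : ∀ h ∈ Icc 1 H, ¬ (n + h).Prime
    · rw [if_pos h, if_neg]
      · norm_num
      · rintro ⟨k, hk, hk2⟩
        exact h k hk hk2
    · rw [if_neg h, if_pos]
      · norm_num
      · push Not at h
        exact h
  rw [Finset.sum_congr rfl (fun n _ => h1 n), Finset.sum_sub_distrib]
  congr 1
  · rw [Finset.sum_const, Nat.card_Ico, nsmul_eq_mul, mul_one, Nat.cast_sub h01]
  · rw [Finset.sum_ite, Finset.sum_const_zero, add_zero, Finset.sum_const, nsmul_eq_mul, mul_one]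

/-- Pure inequality at the end. -/
theorem v1_final (c0 C MY HU Tr : ℝ) (hc0 : 0 < c0) (hC : 0 < C) (hMY : 0 < MY)
    (hHU : 0 < HU) (hTr : 0 ≤ Tr)
    (hsmall : 100 * C * HU ≤ c0 ^ 2 * MY)
    (h : 4 / 5 * c0 * MY ≤ Real.sqrt (C * MY) * Real.sqrt (HU * Tr) +
      Real.sqrt (C * MY) * Real.sqrt HU) :
    49 / 100 * c0 ^ 2 * MY ≤ C * HU * Tr := by
  have h1 : Real.sqrt (C * MY) * Real.sqrt HU ≤ c0 * MY / 10 := by
    rw [← Real.sqrt_mul (by positivity)]
    rw [Real.sqrt_le_left (by positivity)]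
    calc C * MY * HU = (100 * C * HU) * MY / 100 := by ring
      _ ≤ (c0 ^ 2 * MY) * MY / 100 := by gcongr
      _ = (c0 * MY / 10) ^ 2 := by ring
  have h2 : 7 / 10 * c0 * MY ≤ Real.sqrt (C * MY * (HU * Tr)) := by
    rw [Real.sqrt_mul (by positivity)]
    linarith
  have h3 : (7 / 10 * c0 * MY) ^ 2 ≤ C * MY * (HU * Tr) := by
    rw [← Real.sqrt_le_sqrt_iff (by positivity), Real.sqrt_sq (by positivity)]
    exact h2
  have h4 : (49 / 100 * c0 ^ 2 * MY) * MY ≤ (C * HU * Tr) * MY := by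
    calc (49 / 100 * c0 ^ 2 * MY) * MY = (7 / 10 * c0 * MY) ^ 2 := by ring
      _ ≤ _ := h3
      _ = _ := by ring
  exact le_of_mul_le_mul_right h4 hMY

/-- GAP COUNT. `decorrelate2` for `w = wa`, `g = vd H`, `N1 = N0 + M Y`, `C = Cr`, `e1 = 7e`,
`c0`, `κ = 1 + e`, `Tr = 2 #lg H (N1 + H + U)` (`sum_abs_vd_le`).
(a): `vd H n = 0` implies `rg n ≥ 1` (`v1_rg`): `Σ wa g ≥ Σ wa - Σ wa rg ≥ (1 - 7e) M Y`.
(b): `hwin`. (c): `wa_sq_le`. (d): `wa_avg`: `e3 = (1+3e)(1+e)^2 - 1 + (2H+1) Cr/U ≤ 6e + c0^2/1000`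
(`hU2`; `e ≤ c0^2/1000`, `c0 ≤ 1`): `e3 + 2 e1 ≤ 20 e + c0^2/1000 ≤ 21 c0^2/1000 ≤ (c0/6)^2`,
`c0 - e1 - c0/6 ≥ (4/5) c0`. (e): `wa_ge`. Conclusion by `H15P.fin2_final`-type algebra:
`(4/5) c0 M Y ≤ √(Cr M Y) (√((H+U) Tr) + √(H+U))`, the second term is `≤ c0 M Y/10` by `hsm`, so
`(7/10)^2 c0^2 M Y ≤ Cr (H+U) Tr`. -/
theorem WT.gap_count (w : WT) (H M : ℕ) (A : Finset ℕ) (Y : ℕ) (h : SetA w H M A Y) (N0 U : ℕ)
    (c0 Cr : ℝ) (hc0 : 0 < c0) (hc1 : c0 ≤ 1) (he : w.e ≤ c0 ^ 2 / 1000) (hN0 : 2 ≤ N0)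
    (hM : ∀ q, q.Prime → q ∣ M → q < N0) (hP : ∀ p ∈ w.P, p < N0) (hH : 1 ≤ H) (hU : 1 ≤ U)
    (hCr : 2 * w.C * ((M : ℝ) / A.card) ≤ Cr) (hU2 : 1000 * ((2 * H + 1) * Cr) ≤ c0 ^ 2 * U)
    (hκ : (M : ℝ) ≤ (1 + w.e) * A.card ∨ (M : ℝ) ≤ w.e * U)
    (hX : ((2 * H + U : ℕ) : ℝ) ≤ Real.exp w.X) (hHU : H + U ≤ M * Y)
    (hsm : 100 * Cr * (H + U) ≤ c0 ^ 2 * ((M : ℝ) * Y))
    (hwin : c0 * ((M : ℝ) * Y) ≤ (((Ico N0 (N0 + M * Y)).filter
      (fun n => ∃ h ∈ Icc 1 H, (n + h).Prime)).card : ℝ)) :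
    c0 ^ 2 * ((M : ℝ) * Y) ≤ 6 * Cr * (H + U) * ((lg H (N0 + M * Y + H + U)).card : ℝ) := by
  obtain ⟨MY, hMY⟩ : ∃ MY : ℝ, MY = (M : ℝ) * Y := ⟨_, rfl⟩
  obtain ⟨K, hK⟩ : ∃ K : ℝ, K = ((lg H (N0 + M * Y + H + U)).card : ℝ) := ⟨_, rfl⟩
  have hKnn : 0 ≤ K := by
    rw [hK]
    exact Nat.cast_nonneg _
  have he0 := w.e0
  have he1 := w.e1
  have hN1N0 : ((N0 + M * Y : ℕ) : ℝ) - N0 = MY := by
    rw [hMY]
    push_cast
    ring
  have hMY1 : 0 < MY := by
    rw [hMY]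
    have h1 : 0 < M * Y := by omega
    exact_mod_cast h1
  have hA : (0 : ℝ) < A.card := by
    exact_mod_cast Finset.card_pos.2 h.ne
  have hM0 : (0 : ℝ) < M := by exact_mod_cast h.Mpos
  have hC1 := w.w1_C
  have hCrpos : 0 < Cr := by
    refine lt_of_lt_of_le ?_ hCr
    have : 0 < (M : ℝ) / A.card := div_pos hM0 hA
    positivity
  have hUpos : (0 : ℝ) < U := by exact_mod_cast hU
  have hc0sq : 0 < c0 ^ 2 := by positivity
  have hc0c : c0 ^ 2 ≤ c0 := by nlinarith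
  rw [← hMY] at hsm hwin ⊢
  rw [← hK]
  have hdec := decorrelate2 N0 (N0 + M * Y) H U hU (by omega) (w.wa H M A) (vd H) Cr c0 (7 * w.e)
    (6 * w.e + c0 ^ 2 / 1000) (2 * K) (wa_nonneg w H M A) (v1_vd_nonneg H) (v1_vd_le_one H) hCrpos.le
    (by positivity) (by positivity) (by positivity)
    (by
      rw [hN1N0]
      have e1 := w.wa_ge H M A Y h N0 0
      have e2 := w.wa_rg_le H M A Y h N0
      simp only [add_zero] at e1
      rw [← hMY] at e1 e2
      have e3 : ∑ n ∈ Ico N0 (N0 + M * Y), w.wa H M A n ≤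
          ∑ n ∈ Ico N0 (N0 + M * Y), w.wa H M A n * vd H n +
          ∑ n ∈ Ico N0 (N0 + M * Y), w.wa H M A n * w.rg H M n := by
        rw [← Finset.sum_add_distrib]
        apply Finset.sum_le_sum
        intro n hn
        rw [mem_Ico] at hn
        have f1 := wa_nonneg w H M A n
        by_cases hv : ∀ h ∈ Icc 1 H, ¬ (n + h).Prime
        · have f2 : vd H n = 1 := by
            unfold vd
            rw [if_pos hv]
          rw [f2, mul_one]
          have f3 : (0 : ℝ) ≤ w.rg H M n := Nat.cast_nonneg _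
          exact le_add_of_nonneg_right (mul_nonneg f1 f3)
        · have f2 : vd H n = 0 := by
            unfold vd
            rw [if_neg hv]
          have f4 : 1 ≤ w.rg H M n := by
            refine v1_rg w H M n (fun q hq hqM => (hM q hq hqM).trans_le hn.1)
              (fun p hp => (hP p hp).trans_le hn.1) ?_
            push Not at hv
            exact hv
          have f5 : (1 : ℝ) ≤ w.rg H M n := by exact_mod_cast f4
          rw [f2, mul_zero, zero_add]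
          exact le_mul_of_one_le_right f1 f5
      linarith only [e1, e2, e3])
    (by
      rw [v1_sum_vd H N0 (N0 + M * Y) (by omega), hN1N0]
      linarith only [hwin])
    (fun s _ => by
      rw [hN1N0]
      have e1 := w.wa_sq_le H M A Y h N0 s
      rw [← hMY] at e1
      exact e1.trans (mul_le_mul_of_nonneg_right hCr hMY1.le))
    (by
      rw [hN1N0]
      have e1 := w.wa_avg H M A Y h N0 U hX (1 + w.e) (by linarith) (by
        rcases hκ with h1 | h1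
        · exact Or.inl h1
        · right
          linarith)
      rw [← hMY] at e1
      refine e1.trans (mul_le_mul_of_nonneg_right ?_ hMY1.le)
      have e2 : (1 + 3 * w.e) * (1 + w.e) ^ 2 ≤ 1 + 6 * w.e := by
        have g1 : w.e ^ 2 ≤ w.e * (1 / 10) := by
          rw [sq]
          exact mul_le_mul_of_nonneg_left he1 he0.le
        have g2 : w.e ^ 3 ≤ w.e * (1 / 100) := by
          have : w.e ^ 3 = w.e ^ 2 * w.e := by ring
          rw [this]
          have g3 := mul_le_mul g1 he1 he0.le (by positivity : (0:ℝ) ≤ w.e * (1 / 10))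
          linarith
        have g3 : (1 + 3 * w.e) * (1 + w.e) ^ 2 = 1 + 5 * w.e + 7 * w.e ^ 2 + 3 * w.e ^ 3 := by ring
        rw [g3]
        linarith
      have e3 := mul_le_mul_of_nonneg_right e2 (sq_nonneg (U : ℝ))
      have e4 : (U : ℝ) * (2 * H + 1) * (2 * w.C * ((M : ℝ) / A.card)) ≤ U * (2 * H + 1) * Cr :=
        mul_le_mul_of_nonneg_left hCr (by positivity)
      have e5 : (U : ℝ) * (2 * H + 1) * Cr ≤ c0 ^ 2 / 1000 * (U : ℝ) ^ 2 := by
        have g1 := mul_le_mul_of_nonneg_left hU2 hUpos.le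
        have g2 : c0 ^ 2 / 1000 * (U : ℝ) ^ 2 = (U : ℝ) * (c0 ^ 2 * U) / 1000 := by ring
        rw [g2]
        linarith
      linarith)
    (fun s _ => by
      rw [hN1N0]
      have e1 := w.wa_ge H M A Y h N0 s
      rw [← hMY] at e1
      refine le_trans ?_ e1
      have e2 := mul_nonneg he0.le hMY1.le
      linarith only [e2])
    (by
      have e1 := sum_abs_vd_le H N0 (N0 + M * Y + H + U) hH hN0
      rw [hK]
      exact e1)
  rw [hN1N0] at hdec
  have hsqrt : Real.sqrt (6 * w.e + c0 ^ 2 / 1000 + 2 * (7 * w.e)) ≤ c0 / 6 := by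
    rw [Real.sqrt_le_left (by positivity)]
    have e3 : (c0 / 6) ^ 2 = c0 ^ 2 / 36 := by ring
    rw [e3]
    linarith only [he, hc0sq]
  have hHUpos : (0 : ℝ) < (H : ℝ) + U := by positivity
  have hfin := v1_final c0 Cr MY ((H : ℝ) + U) (2 * K) hc0 hCrpos hMY1 hHUpos
    (by positivity) hsm
    (by
      refine le_trans ?_ hdec
      have e2 : 4 / 5 * c0 ≤ c0 - 7 * w.e - Real.sqrt (6 * w.e + c0 ^ 2 / 1000 + 2 * (7 * w.e)) := by
        linarith
      exact mul_le_mul_of_nonneg_right e2 hMY1.le)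
  have e3 : 0 ≤ Cr * ((H : ℝ) + U) * K := by positivity
  linarith only [hfin, e3]

end Pool.Agent.Lib.H64T
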