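import Pool.Agent.Lib.H64T.Defs
import Pool.Agent.Lib.H15P.WIN1
import Pool.Agent.Lib.H15P.PB6

/-!
# Chunk W1: preparations for the weight of a window
-/

open Finset

namespace Pool.Agent.Lib.H64T

open Pool.Agent.Lib.H15P

/-- Copy of the proof of `H15P.WD.om_nonneg`. -/
theorem WT.om_nonneg (w : WT) (E : Finset ℕ) : 0 ≤ w.om E := by
  unfold WT.om
  exact div_nonneg (sq_nonneg _) (zero_le_one.trans (one_le_ZZ _ _ _ w.good _))

/-- Copy of the proof of `H15P.WD.om_image`. -/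
theorem WT.om_image (w : WT) {J : Type} [Fintype J] [DecidableEq J] (E : J → ℕ)
    (hE : Function.Injective E) (B : Finset J) :
    w.om (B.image E) =
      (LL w.D w.m B (fun j => hit w.P (E j))) ^ 2 / ZZ (qq w.P (2 * w.K)) w.D B.card := by
  unfold WT.om
  have hf : ∀ e : {e // e ∈ B.image E}, ∃ j, j ∈ B ∧ E j = e.1 := fun e => Finset.mem_image.1 e.2
  choose f hfB hfE using hf
  have hinj : Function.Injective f := by
    intro a b hab
    apply Subtype.ext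
    rw [← hfE a, ← hfE b, hab]
  have hmap : (univ : Finset {e // e ∈ B.image E}).map ⟨f, hinj⟩ = B := by
    ext j
    rw [Finset.mem_map]
    constructor
    · rintro ⟨a, _, rfl⟩
      exact hfB a
    · intro hj
      refine ⟨⟨E j, Finset.mem_image_of_mem E hj⟩, Finset.mem_univ _, ?_⟩
      exact hE (hfE ⟨E j, Finset.mem_image_of_mem E hj⟩)
  have h1 := LL_map w.D w.m ⟨f, hinj⟩ (univ : Finset {e // e ∈ B.image E})
    (fun j => hit w.P (E j))
  rw [hmap] at h1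
  have h2 : (fun e : {e // e ∈ B.image E} => hit w.P (E ((⟨f, hinj⟩ : {e // e ∈ B.image E} ↪ J) e))) =
      fun e => hit w.P e.1 := by
    funext e
    have : E ((⟨f, hinj⟩ : {e // e ∈ B.image E} ↪ J) e) = e.1 := hfE e
    rw [this]
  rw [h2] at h1
  rw [h1, Finset.card_image_of_injective B hE]

/-- Copy of the proof of `H15P.WD.forms`. -/
theorem WT.forms (w : WT) (M : ℕ) (hM : ∀ p ∈ w.P, ¬ p ∣ M) (B : Finset ℕ)
    (hB : B.card ≤ 2 * w.K) (hd : ∀ b ∈ B, ∀ b' ∈ B, b ≤ b' + w.W) :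
    Forms w.P w.W (2 * w.K) M (fun j : {b // b ∈ B} => j.1) := by
  refine ⟨w.prime, w.big, hM, ?_, ?_, ?_, w.KW⟩
  · intro p hp j j' hne h
    apply hne
    apply Subtype.ext
    have h1 := hd j.1 j.2 j'.1 j'.2
    have h2 := hd j'.1 j'.2 j.1 j.2
    have h3 := w.big p hp
    rcases le_total j.1 j'.1 with h4 | h4
    · have h5 := (Nat.modEq_iff_dvd' h4).1 h
      have h6 := Nat.eq_zero_of_dvd_of_lt h5 (by omega)
      omega
    · have h5 := (Nat.modEq_iff_dvd' h4).1 h.symm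
      have h6 := Nat.eq_zero_of_dvd_of_lt h5 (by omega)
      omega
  · have := w.Kpos
    omega
  · rw [Fintype.card_coe]
    exact hB

/-- Copies of `win2_Qpos`, `win2_ZZ`, `win2_C`, `win2_err` of `H15P.WIN2`. -/
theorem WT.w1_Qpos (w : WT) : 0 < ∏ p ∈ w.P, p :=
  Finset.prod_pos fun p hp => (w.prime p hp).pos

theorem WT.w1_ZZ (w : WT) (k : ℕ) : 1 ≤ ZZ (qq w.P (2 * w.K)) w.D k := one_le_ZZ _ _ _ w.good _

theorem WT.w1_C (w : WT) : 1 ≤ w.C := by
  refine le_trans ?_ w.hC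
  apply Real.one_le_exp
  have := w.h0
  positivity

theorem WT.w1_err (w : WT) (Y : ℕ) (hY : 4 * w.K * w.lv ^ 4 ≤ w.e * Y) (k : ℕ) (hk : k ≤ 4) :
    2 * w.K * w.lv ^ k ≤ w.e * Y / 2 ∧ 2 * w.lv ^ k ≤ w.e * Y / 2 := by
  have h1 : w.lv ^ k ≤ w.lv ^ 4 := pow_le_pow_right₀ w.lv1 hk
  have h2 : (1 : ℝ) ≤ w.K := by exact_mod_cast w.Kpos
  have h3 : 0 ≤ w.lv ^ k := pow_nonneg (zero_le_one.trans w.lv1) k
  have h4 : (w.K : ℝ) * w.lv ^ k ≤ w.K * w.lv ^ 4 := mul_le_mul_of_nonneg_left h1 (by linarith)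
  have h5 : w.lv ^ k ≤ w.K * w.lv ^ k := le_mul_of_one_le_left h3 h2
  constructor <;> linarith

/-- Copy of `win3_om` of `H15P.WIN3`: the weight of a part `B'` of a system `B`. -/
theorem WT.w1_om (w : WT) (M : ℕ) (B B' : Finset ℕ) (hB' : B' ⊆ B) (t : ℕ) :
    w.om (B'.image (fun b => b + M * t)) =
      (LL w.D w.m ((univ : Finset {b // b ∈ B}).filter (fun j => j.1 ∈ B'))
        (fun j => hit w.P (j.1 + M * t))) ^ 2 / ZZ (qq w.P (2 * w.K)) w.D B'.card := by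
  have h1 := w.om_image (fun j : {b // b ∈ B} => j.1 + M * t)
    (fun a b hab => Subtype.ext (Nat.add_right_cancel hab))
    ((univ : Finset {b // b ∈ B}).filter (fun j => j.1 ∈ B'))
  have h2 : ((univ : Finset {b // b ∈ B}).filter (fun j => j.1 ∈ B')).image
      (fun j : {b // b ∈ B} => j.1 + M * t) = B'.image (fun b => b + M * t) := by
    ext x
    simp only [Finset.mem_image, Finset.mem_filter, Finset.mem_univ, true_and]
    constructor
    · rintro ⟨a, haB, ha⟩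
      exact ⟨a.1, haB, ha⟩
    · rintro ⟨a, haB, ha⟩
      exact ⟨⟨a, hB' haB⟩, haB, ha⟩
  have h3 : ((univ : Finset {b // b ∈ B}).filter (fun j => j.1 ∈ B')).card = B'.card := by
    rw [← Finset.card_map (Function.Embedding.subtype (fun b => b ∈ B))]
    congr 1
    ext x
    simp only [Finset.mem_map, Finset.mem_filter, Finset.mem_univ, true_and,
      Function.Embedding.coe_subtype]
    constructor
    · rintro ⟨a, ha, rfl⟩
      exact ha
    · intro hx
      exact ⟨⟨x, hB' hx⟩, hx, rfl⟩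
  rw [h2] at h1
  rw [h1, h3]

/-- Copy of `win3_om'` of `H15P.WIN3`. -/
theorem WT.w1_om' (w : WT) (M : ℕ) (B : Finset ℕ) (t : ℕ) :
    w.om (B.image (fun b => b + M * t)) =
      (LL w.D w.m (univ : Finset {b // b ∈ B})
        (fun j => hit w.P (j.1 + M * t))) ^ 2 / ZZ (qq w.P (2 * w.K)) w.D B.card := by
  rw [w.w1_om M B B (Finset.Subset.refl _) t]
  congr 3
  ext j
  simp

/-- Copy of `win2_avg` of `H15P.WIN2`. -/
theorem WT.w1_avg (w : WT) (M : ℕ) {J : Type} [Fintype J] [DecidableEq J] (b : J → ℕ)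
    (F : (J → Finset {p // p ∈ w.P}) → ℝ) (L : ℝ)
    (hL : Lev (∏ p ∈ w.P, p) (fun t => F (fun j => hit w.P (b j + M * t))) L) (Y0 Y : ℕ) :
    |∑ t ∈ Ico Y0 (Y0 + Y), F (fun j => hit w.P (b j + M * t)) - Y * EP w.P M b F| ≤ 2 * L :=
  Lev.avg (w.w1_Qpos) hL Y0 Y

/-- Copy of `win2_EP_le` of `H15P.WIN2`. -/
theorem WT.w1_EP_le (w : WT) (M : ℕ) {J : Type} [Fintype J] [DecidableEq J] (b : J → ℕ)
    (hF : Forms w.P w.W (2 * w.K) M b)
    (F : (J → Finset {p // p ∈ w.P}) → ℝ) (h0 : ∀ S, 0 ≤ F S) :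
    EP w.P M b F ≤ (1 + w.e) * EX (qq w.P (2 * w.K)) F :=
  (EP_le w.P w.W (2 * w.K) M b hF F h0).trans
    (mul_le_mul_of_nonneg_right w.hKW (EX_nonneg _ w.good.q0 w.good.q1 F h0))

/-- Copy of `win2_four` of `H15P.WIN2`. -/
theorem WT.w1_four (w : WT) {J : Type} [Fintype J] [DecidableEq J] (B : Finset J)
    (hB : B.card ≤ w.K) :
    EX (qq w.P (2 * w.K)) (fun S : J → Finset {p // p ∈ w.P} => LL w.D w.m B S ^ 4) ≤ w.C := by
  refine (EX_LL_four_le _ _ _ w.good w.h0 w.m B).trans (le_trans ?_ w.hC)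
  apply Real.exp_le_exp.2
  rw [Fintype.card_fin]
  have h1 : (B.card : ℝ) ≤ w.K := by exact_mod_cast hB
  have h2 := w.h0
  exact mul_le_mul_of_nonneg_left h1 (by positivity)

end Pool.Agent.Lib.H64T
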