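import Pool.Agent.Lib.H64T.W1
import Pool.Agent.Lib.H64T.M1
import Pool.Agent.Lib.H64T.M2

/-!
# Chunk W2: lower bound for the mean value of the weight
-/

open Finset

namespace Pool.Agent.Lib.H64T

open Pool.Agent.Lib.H15P

/-- As the first half of `H15P.WD.win_mean`, with `le_EP_loss` and `EX_loss_le` (for `2K` in place of
`K`) in place of `le_EP`: `EP (LL^2) ≥ (1 - 4K^2/W) EX (LL^2) - 1760 E^2 K^2/W Z`, and
`4K^2/W ≤ e`, `1760 E^2 K^2/W ≤ e` by `hco` (`E, X ≥ 1`), `EX (LL^2) ≥ (1 - e) Z` (`le_EX_LL_sq`,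
`hm`, `hR`). So `EP ≥ (1 - 3e) Z`, and the incomplete sum costs `2 lv^2 ≤ e Y/2 ≤ e Y Z/2`. -/
theorem WT.win_mean (w : WT) (M : ℕ) (hM : ∀ p ∈ w.P, ¬ p ∣ M) (B : Finset ℕ)
    (hB : B.card ≤ w.K) (hd : ∀ b ∈ B, ∀ b' ∈ B, b ≤ b' + w.W) (Y0 Y : ℕ)
    (hY : 4 * w.K * w.lv ^ 4 ≤ w.e * Y) :
    (1 - 4 * w.e) * Y ≤ ∑ t ∈ Ico Y0 (Y0 + Y), w.om (B.image (fun b => b + M * t)) := by
  have hF := w.forms M hM B (by omega) hd
  have hcard : (univ : Finset {b // b ∈ B}).card = B.card := by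
    rw [Finset.card_univ, Fintype.card_coe]
  set Z := ZZ (qq w.P (2 * w.K)) w.D B.card with hZ
  have hZ1 : 1 ≤ Z := w.w1_ZZ _
  set F : ({b // b ∈ B} → Finset {p // p ∈ w.P}) → ℝ := fun S => LL w.D w.m univ S ^ 2 with hFdef
  have hF0 : ∀ S, 0 ≤ F S := fun S => sq_nonneg _
  have hsum : ∑ t ∈ Ico Y0 (Y0 + Y), w.om (B.image (fun b => b + M * t)) =
      (∑ t ∈ Ico Y0 (Y0 + Y), F (fun j => hit w.P (j.1 + M * t))) / Z := by
    rw [Finset.sum_div]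
    exact Finset.sum_congr rfl fun t _ => w.w1_om' M B t
  have hlev : Lev (∏ p ∈ w.P, p) (fun t => F (fun j => hit w.P (j.1 + M * t))) (w.lv ^ 2) :=
    Lev.pow w.w1_Qpos (w.levL {b // b ∈ B} univ M (fun j => j.1)
      (by rw [Fintype.card_coe]; omega)) 2
  have havg := w.w1_avg M (fun j : {b // b ∈ B} => j.1) F (w.lv ^ 2) hlev Y0 Y
  have herr := (w.w1_err Y hY 2 (by norm_num)).2
  have hEX2 : (1 - w.e) * Z ≤ EX (qq w.P (2 * w.K)) F := by
    have h1 := le_EX_LL_sq (qq w.P (2 * w.K)) w.D w.h w.good w.m (univ : Finset {b // b ∈ B}) w.R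
      (by
        intro i
        refine le_trans ?_ (w.hm i)
        rw [hcard]
        have h2 : (B.card : ℝ) ≤ w.K := by exact_mod_cast hB
        have h3 : 0 ≤ GG (qq w.P (2 * w.K)) w.D (some i) := GG_nonneg _ _ _ w.good _
        have h4 := mul_le_mul_of_nonneg_right h2 h3
        linarith)
    rw [hcard, Fintype.card_fin] at h1
    refine le_trans ?_ h1
    apply mul_le_mul_of_nonneg_right _ (by linarith)
    have := w.hR
    linarith
  have hEX0 : 0 ≤ EX (qq w.P (2 * w.K)) F := EX_nonneg _ w.good.q0 w.good.q1 F hF0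
  have hc : (0 : ℝ) ≤ (w.K : ℝ) ^ 2 / w.W := by positivity
  have hE2 : (1 : ℝ) ≤ w.E ^ 2 := one_le_pow₀ w.hE
  have hco : 10000 * (((w.K : ℝ) ^ 2 / w.W) * (w.E ^ 2 * w.X)) ≤ w.e := by
    have := w.hco
    have e1 : 10000 * (((w.K : ℝ) ^ 2 / w.W) * (w.E ^ 2 * w.X)) = 10000 * (w.K : ℝ) ^ 2 * w.E ^ 2 * w.X / w.W := by
      ring
    rw [e1]
    exact this
  have hEX : w.E ^ 2 ≤ w.E ^ 2 * w.X := le_mul_of_one_le_right (by linarith) w.hX
  have hc1 := mul_le_mul_of_nonneg_left hEX hc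
  have hc2 := mul_le_mul_of_nonneg_left hE2 hc
  have hk1 : (((2 * w.K : ℕ) : ℝ) ^ 2 / w.W) ≤ w.e := by
    have e1 : (((2 * w.K : ℕ) : ℝ) ^ 2 / w.W) = 4 * ((w.K : ℝ) ^ 2 / w.W) := by
      push_cast
      ring
    rw [e1]
    linarith
  have hk2 : 440 * w.E ^ 2 * ((2 * w.K : ℕ) : ℝ) ^ 2 / w.W ≤ w.e := by
    have e1 : 440 * w.E ^ 2 * ((2 * w.K : ℕ) : ℝ) ^ 2 / w.W = 1760 * (((w.K : ℝ) ^ 2 / w.W) * w.E ^ 2) := by
      push_cast
      ring
    rw [e1]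
    have h0 : 0 ≤ ((w.K : ℝ) ^ 2 / w.W) * w.E ^ 2 := by positivity
    linarith
  have hlow : (1 - w.e) * EX (qq w.P (2 * w.K)) F - w.e * Z ≤ EP w.P M (fun j : {b // b ∈ B} => j.1) F := by
    refine le_trans ?_ (le_EP_loss w.P w.W (2 * w.K) M _ hF F hF0)
    have h1 := EX_loss_le hF w.D w.h w.good w.E w.hE (by rw [Fintype.card_fin]; exact w.npos) w.hit1 w.m
      (univ : Finset {b // b ∈ B})
    rw [hcard] at h1
    have h2 := mul_le_mul_of_nonneg_right hk2 (zero_le_one.trans hZ1)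
    have h3 := mul_le_mul_of_nonneg_right hk1 hEX0
    have h4 : EX (qq w.P (2 * w.K)) (fun S => F S * loss w.P (2 * w.K) S) ≤ w.e * Z := h1.trans h2
    linarith
  have he0 := w.e0
  have he1 := w.e1
  have hYr : (0 : ℝ) ≤ Y := Nat.cast_nonneg Y
  rw [abs_le] at havg
  obtain ⟨ha1, ha2⟩ := havg
  have hZpos : 0 < Z := by linarith
  have hEP_low : (1 - 3 * w.e) * Z ≤ EP w.P M (fun j : {b // b ∈ B} => j.1) F := by
    have h1 : (1 - w.e) * ((1 - w.e) * Z) ≤ (1 - w.e) * EX (qq w.P (2 * w.K)) F :=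
      mul_le_mul_of_nonneg_left hEX2 (by linarith)
    have h2 : 0 ≤ w.e ^ 2 * Z := by positivity
    nlinarith
  have h9 := mul_le_mul_of_nonneg_left hEP_low hYr
  have h10 : w.e * Y * 1 ≤ w.e * Y * Z := mul_le_mul_of_nonneg_left hZ1 (by positivity)
  rw [hsum, le_div_iff₀ hZpos]
  nlinarith

end Pool.Agent.Lib.H64T
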